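import Pool.Agent.Lib.VdW.SpecB

/-!
# Signs and monotonicity
-/

set_option autoImplicit false

namespace VdWG

open Finset

section basics

variable {V ι₁ ι₂ : Type} [Fintype V] [DecidableEq V] {G : BG V ι₁ ι₂}

theorem bbas_n (h : G.Hyp) : (5 : ℝ) ≤ G.n := by exact_mod_cast h.n5

theorem bbas_inv (h : G.Hyp) : 0 ≤ 2 / (G.n : ℝ) ∧ 2 / (G.n : ℝ) ≤ 2 / 5 := by
  have h5 := bbas_n h
  exact ⟨by positivity, div_le_div_of_nonneg_left (by norm_num) (by norm_num) h5⟩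

theorem bbas_th (h : G.Hyp) : 1 ≤ G.th := by
  have := bbas_inv h
  rw [BG.th]
  linarith

theorem bbas_mu (h : G.Hyp) : 1 ≤ G.mu := by
  have := bbas_inv h
  rw [BG.mu]
  linarith

theorem bbas_w (h : G.Hyp) (Fb Sb U : Finset V) {c : ℝ} (hc : 0 ≤ c) : 0 ≤ G.w Fb Sb U c := by
  have hth := bbas_th h
  rw [BG.w]
  split_ifs
  · positivity
  · exact le_rfl

theorem bbas_w1 (h : G.Hyp) (Fb Sb : Finset V) {i : ι₁} (hi : i ∈ G.I₁) :
    0 ≤ G.w₁ Fb Sb i := bbas_w h _ _ _ (h.c₁ i hi)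

theorem bbas_w2 (h : G.Hyp) (Fb Sb : Finset V) {i : ι₂} (hi : i ∈ G.I₂) :
    0 ≤ G.w₂ Fb Sb i := bbas_w h _ _ _ (h.c₂ i hi)

theorem bbas_wS (h : G.Hyp) (Fb Sb U : Finset V) {c : ℝ} (hc : 0 ≤ c) (y : V) :
    G.w Fb (insert y Sb) U c ≤ G.w Fb Sb U c := by
  by_cases h1 : Disjoint U (insert y Sb)
  · have h2 : Disjoint U Sb := h1.mono_right (subset_insert _ _)
    rw [BG.w, BG.w, if_pos h1, if_pos h2]
  · have h3 : G.w Fb (insert y Sb) U c = 0 := by rw [BG.w, if_neg h1]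
    rw [h3]
    exact bbas_w h _ _ _ hc

theorem bbas_wF (h : G.Hyp) (Fb Sb U : Finset V) {c : ℝ} (hc : 0 ≤ c) (x : V) :
    G.w Fb Sb U c ≤ G.w (insert x Fb) Sb U c := by
  have hth := bbas_th h
  rw [BG.w, BG.w]
  split_ifs
  · apply div_le_div_of_nonneg_left hc (by positivity)
    exact pow_le_pow_right₀ hth (card_le_card (sdiff_subset_sdiff le_rfl (subset_insert _ _)))
  · exact le_rfl

end basics

theorem tBBas : BBasStmt := by
  intro V ι₁ ι₂ _ _ G h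
  have hth := bbas_th h
  have hmu := bbas_mu h
  have hth0 : 0 ≤ G.th := zero_le_one.trans hth
  have hmu0 : 0 ≤ G.mu := zero_le_one.trans hmu
  refine ⟨by rw [BG.et]; positivity, fun Fb Sb B => ?_⟩
  refine ⟨fun i hi => bbas_w1 h _ _ hi, fun i hi => bbas_w2 h _ _ hi,
    sum_nonneg fun i hi => bbas_w2 h _ _ hi, sum_nonneg fun i hi => bbas_w1 h _ _ hi,
    sum_nonneg fun l _ => mul_nonneg (pow_nonneg hth0 _) (sum_nonneg fun i hi =>
      mul_nonneg (bbas_w1 h _ _ hi) (Nat.cast_nonneg _)),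
    sum_nonneg fun l _ => pow_nonneg hmu0 _, ?_, fun x i hi => bbas_wF h _ _ _ (h.c₁ i hi) x,
    fun y i hi => bbas_wS h _ _ _ (h.c₁ i hi) y,
    fun y => sum_le_sum fun i hi => bbas_wS h _ _ _ (h.c₂ i hi) y, fun z => ?_⟩
  · calc G.T Fb Sb B ≤ ∑ l ∈ G.Λ' Fb Sb B, G.mu ^ G.n := by
          refine sum_le_sum fun l hl => pow_le_pow_right₀ hmu ?_
          rw [← h.card l (mem_filter.1 hl).1]
          exact card_le_card inter_subset_left
      _ = ((G.Λ' Fb Sb B).card : ℝ) * G.mu ^ G.n := by rw [sum_const, nsmul_eq_mul]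
      _ ≤ (G.Λ.card : ℝ) * G.mu ^ G.n := by
          refine mul_le_mul_of_nonneg_right ?_ (pow_nonneg hmu0 _)
          exact_mod_cast card_le_card (filter_subset _ _)
  · refine ⟨sum_nonneg fun i hi => bbas_w2 h _ _ (mem_filter.1 hi).1,
      sum_nonneg fun i hi => bbas_w1 h _ _ (mem_filter.1 hi).1,
      sum_nonneg fun l _ => pow_nonneg hmu0 _,
      sum_nonneg fun l _ => mul_nonneg (pow_nonneg hth0 _) (sum_nonneg fun i hi =>
        mul_nonneg (bbas_w1 h _ _ (mem_filter.1 hi).1) (Nat.cast_nonneg _)),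
      sum_nonneg fun l _ => mul_nonneg (pow_nonneg hth0 _) (sum_nonneg fun i hi =>
        mul_nonneg (bbas_w1 h _ _ hi) (Nat.cast_nonneg _))⟩

end VdWG
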