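import Pool.Agent.Lib.VdW.SpecB

/-!
# Consequences of the bound for the potential
-/

set_option autoImplicit false

namespace VdWG

open Finset

theorem bbd_exp : Real.exp (1 / 2) ≤ 5 / 3 := by
  have h1 : Real.exp (1 / 2) * Real.exp (1 / 2) = Real.exp 1 := by
    rw [← Real.exp_add]
    norm_num
  have h2 : Real.exp 1 < 2.7182818286 := Real.exp_one_lt_d9
  by_contra h
  push Not at h
  nlinarith

theorem tBBd (hB : BBasStmt) : BBdStmt := by
  intro V ι₁ ι₂ _ _ G h Fb Sb B r hr hT hTh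
  obtain ⟨het, h1⟩ := hB V ι₁ ι₂ G h
  obtain ⟨-, -, hPh, hPh1, hJ, -, hTle, -, -, -, -⟩ := h1 Fb Sb B
  have hn5 : (5 : ℝ) ≤ G.n := by exact_mod_cast h.n5
  have hn0 : (0 : ℝ) < G.n := by linarith
  have hbe : 0 < G.be := by rw [BG.be]; positivity
  have hN0 : (0 : ℝ) ≤ (Fintype.card V : ℝ) := Nat.cast_nonneg _
  have hmu0 : 0 < G.mu := by rw [BG.mu]; positivity
  -- the number of lines is positive
  have hL : 0 < (G.Λ.card : ℝ) := by
    rcases (Nat.cast_nonneg (α := ℝ) G.Λ.card).lt_or_eq with h2 | h2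
    · exact h2
    · rw [← h2, zero_mul] at hTle
      exact absurd hT (not_lt.2 hTle)
  -- the bound
  have hbd : G.bd r ≤ -G.be * Real.log (G.Λ.card : ℝ) + G.be / 2 := by
    have h2 : (r : ℝ) * (G.be / (4 * (Fintype.card V : ℝ))) ≤ G.be / 4 := by
      have h3 : (r : ℝ) ≤ Fintype.card V := by exact_mod_cast hr
      rcases hN0.lt_or_eq with h4 | h4
      · rw [← mul_div_assoc, div_le_div_iff₀ (by positivity) (by norm_num)]
        nlinarith [mul_le_mul_of_nonneg_right h3 hbe.le]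
      · rw [← h4, mul_zero, div_zero, mul_zero]
        positivity
    rw [BG.bd]
    linarith
  have hJT : 0 ≤ G.J Fb Sb B / G.T Fb Sb B := div_nonneg hJ hT.le
  have hm1 : 0 ≤ G.et * G.Ph1 Fb Sb := mul_nonneg het hPh1
  have hTh2 : G.Ph Fb Sb + G.et * G.Ph1 Fb Sb - G.be * Real.log (G.T Fb Sb B) +
      50 * (G.J Fb Sb B / G.T Fb Sb B) ≤ -G.be * Real.log (G.Λ.card : ℝ) + G.be / 2 :=
    hTh.trans hbd
  constructor
  · have h2 : Real.log (G.Λ.card : ℝ) - 1 / 2 ≤ Real.log (G.T Fb Sb B) := by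
      have h3 : G.be * (Real.log (G.Λ.card : ℝ) - 1 / 2) ≤ G.be * Real.log (G.T Fb Sb B) := by
        linarith
      exact le_of_mul_le_mul_left h3 hbe
    have h3 : (G.Λ.card : ℝ) ≤ Real.exp (1 / 2) * G.T Fb Sb B := by
      have h4 := Real.exp_le_exp.2 h2
      rw [Real.exp_log hT, Real.exp_sub, Real.exp_log hL, div_le_iff₀ (Real.exp_pos _)] at h4
      rw [mul_comm]
      exact h4
    have h5 := mul_le_mul_of_nonneg_right bbd_exp hT.le
    linarith
  · have h2 : Real.log (G.T Fb Sb B) ≤ Real.log (G.Λ.card : ℝ) + G.n * Real.log G.mu := by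
      rw [← Real.log_pow, ← Real.log_mul hL.ne' (pow_pos hmu0 _).ne']
      exact Real.log_le_log hT hTle
    have h3 : Real.log G.mu ≤ 0.6931471808 + 1 / (G.n : ℝ) := by
      have h4 : G.mu = 2 * (1 + 1 / (G.n : ℝ)) := by
        rw [BG.mu]
        ring
      have h5 : (0 : ℝ) < 1 + 1 / (G.n : ℝ) := by positivity
      rw [h4, Real.log_mul (by norm_num) h5.ne']
      have h6 := Real.log_le_sub_one_of_pos h5
      have h7 := Real.log_two_lt_d9
      linarith
    have h4 : G.be * G.n = 1 / 8 := by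
      rw [BG.be]
      field_simp
    have h5 : G.be * (Real.log (G.T Fb Sb B) - Real.log (G.Λ.card : ℝ)) ≤
        1 / 8 * (0.6931471808 + 1 / (G.n : ℝ)) := by
      have h6 : G.be * (Real.log (G.T Fb Sb B) - Real.log (G.Λ.card : ℝ)) ≤
          G.be * (G.n * Real.log G.mu) := mul_le_mul_of_nonneg_left (by linarith) hbe.le
      rw [← mul_assoc, h4] at h6
      exact h6.trans (mul_le_mul_of_nonneg_left h3 (by norm_num))
    have h6 : 1 / (G.n : ℝ) ≤ 1 / 5 := one_div_le_one_div_of_le (by norm_num) hn5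
    have h7 : G.be ≤ 1 / 40 := by
      have h8 : G.be = 1 / 8 * (1 / (G.n : ℝ)) := by
        rw [BG.be]
        field_simp
      rw [h8]
      linarith
    linarith

end VdWG
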