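import Pool.Agent.Lib.VdW.SpecB

/-!
# Consequences of the invariants of the big game
-/

set_option autoImplicit false

namespace VdWG

open Finset

namespace BConsM

private lemma ms (h1 : BBasStmt) (h2 : BBdStmt) {V ι₁ ι₂ : Type} [Fintype V] [DecidableEq V]
    (G : BG V ι₁ ι₂) (hG : G.Hyp) (Fb Sb B : Finset V) (h : G.MS Fb Sb B) :
    0 < G.T Fb Sb B ∧ G.Ph Fb Sb < 1 ∧ 400 * G.J Fb Sb B ≤ G.T Fb Sb B ∧
      3 * (G.Λ.card : ℝ) ≤ 5 * G.T Fb Sb B := by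
  obtain ⟨hT, hTh⟩ := h
  obtain ⟨het, hb⟩ := h1 V ι₁ ι₂ G hG
  obtain ⟨-, -, hPh, hPh1, hJ, -⟩ := hb Fb Sb B
  obtain ⟨h3, h4⟩ := h2 V ι₁ ι₂ G hG Fb Sb B Sb.card (Finset.card_le_univ Sb) hT hTh
  have h5 : 0 ≤ G.et * G.Ph1 Fb Sb := mul_nonneg het hPh1
  have h6 : 0 ≤ G.J Fb Sb B / G.T Fb Sb B := div_nonneg hJ hT.le
  refine ⟨hT, by linarith, ?_, h3⟩
  have h7 : G.J Fb Sb B / G.T Fb Sb B ≤ 1 / 400 := by linarith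
  rw [div_le_iff₀ hT] at h7
  linarith

end BConsM

theorem tBCons (h1 : BBasStmt) (h2 : BBdStmt) : BConsStmt := by
  intro V ι₁ ι₂ _ _ G hG Fb Sb B
  refine ⟨fun h => BConsM.ms h1 h2 G hG Fb Sb B h, fun h => ?_⟩
  obtain ⟨hT, hPh, hx⟩ := h
  obtain ⟨-, hb⟩ := h1 V ι₁ ι₂ G hG
  obtain ⟨-, -, -, -, hJ, -⟩ := hb Fb Sb B
  refine ⟨by linarith, hPh, fun x hxF hxS hxB => ?_⟩
  have hMS : G.MS (insert x Fb) Sb B := hx x hxF hxS hxB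
  exact ⟨hMS, (BConsM.ms h1 h2 G hG (insert x Fb) Sb B hMS).2.2.1⟩

end VdWG
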