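import Pool.Agent.Lib.VdW.SpecB

/-!
# The main inequality of the big game
-/

set_option autoImplicit false

namespace VdWG

open Finset

namespace XBCore

/-- The part with `J / T`. -/
theorem jt_ineq (n T T'' J J'' u a₁ b₁ E lam ka E₀ : ℝ) (hn : 5 ≤ n) (hT : 0 < T)
    (hTT : T'' = T * (1 + u)) (hu : |u| ≤ 1 / (8 * n)) (hJ0 : 0 ≤ J) (ha : 0 ≤ a₁) (hb : 0 ≤ b₁)
    (hE : 0 ≤ E) (hlam : lam = 1 - 2 / n) (hka : ka = 1 - 1 / n)
    (hJ : J'' ≤ J - a₁ + lam * b₁ + E) (hg : 1 / (1 + u) - 1 ≤ E₀) :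
    J'' / T'' ≤ J / T + J / T * E₀ + ka * (b₁ - a₁) / T + 2 * (E / T) := by
  have hn0 : 0 < n := by linarith
  set t : ℝ := 1 / n with ht
  have ht0 : 0 < t := by positivity
  have ht1 : t ≤ 1 / 5 := one_div_le_one_div_of_le (by norm_num) hn
  have hlam' : lam = 1 - 2 * t := by rw [hlam, ht]; ring
  have hka' : ka = 1 - t := by rw [hka]
  have hu' : |u| ≤ t / 8 := by
    have : 1 / (8 * n) = t / 8 := by rw [ht]; field_simp
    rwa [this] at hu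
  obtain ⟨hu1, hu2⟩ := abs_le.mp hu'
  have h1u : 0 < 1 + u := by linarith
  have hT'' : 0 < T'' := by rw [hTT]; exact mul_pos hT h1u
  set g : ℝ := 1 / (1 + u) with hgdef
  have hg0 : 0 < g := by positivity
  have hg1 : g * (1 + u) = 1 := by
    rw [hgdef]
    field_simp
  -- `g ≥ κ`
  have hgk : ka ≤ g := by
    rw [hgdef, le_div_iff₀ h1u, hka']
    nlinarith
  have hglam : lam * g ≤ ka := by
    have : lam ≤ ka * (1 + u) := by
      rw [hlam', hka']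
      nlinarith
    rw [hgdef, mul_one_div, div_le_iff₀ h1u]
    exact this
  have hg2 : g ≤ 2 := by
    rw [hgdef, div_le_iff₀ h1u]
    nlinarith
  have e0 : J'' / T'' ≤ (J - a₁ + lam * b₁ + E) / T'' := div_le_div_of_nonneg_right hJ hT''.le
  have e1 : (J - a₁ + lam * b₁ + E) / T'' = (J - a₁ + lam * b₁ + E) / T * g := by
    rw [hTT, hgdef]
    field_simp
  have hh : 0 ≤ J / T := div_nonneg hJ0 hT.le
  have haT : 0 ≤ a₁ / T := div_nonneg ha hT.le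
  have hbT : 0 ≤ b₁ / T := div_nonneg hb hT.le
  have hET : 0 ≤ E / T := div_nonneg hE hT.le
  have e2 : (J - a₁ + lam * b₁ + E) / T * g =
      J / T * g - a₁ / T * g + b₁ / T * (lam * g) + E / T * g := by ring
  have i1 : J / T * g ≤ J / T * (1 + E₀) := mul_le_mul_of_nonneg_left (by linarith) hh
  have i2 : a₁ / T * ka ≤ a₁ / T * g := mul_le_mul_of_nonneg_left hgk haT
  have i3 : b₁ / T * (lam * g) ≤ b₁ / T * ka := mul_le_mul_of_nonneg_left hglam hbT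
  have i4 : E / T * g ≤ E / T * 2 := mul_le_mul_of_nonneg_left hg2 hET
  have e3 : ka * (b₁ - a₁) / T = b₁ / T * ka - a₁ / T * ka := by ring
  rw [e3]
  rw [e1, e2] at e0
  linarith

/-- The error term. -/
theorem err_ineq (n N β h e : ℝ) (hn : 5 ≤ n) (hN : 0 < N) (hβ : β = 1 / (8 * n)) (h0 : 0 ≤ h)
    (hh : 400 * h ≤ 1) (he0 : 0 ≤ e) (he : e ≤ 1 / (30 * n * N)) :
    (β + 50 * h) * (7 / 5 * e) ≤ β / (4 * N) := by
  have hn0 : 0 < n := by linarith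
  have hb : β ≤ 1 / 40 := by
    rw [hβ]
    apply one_div_le_one_div_of_le (by norm_num)
    linarith
  have h1 : β + 50 * h ≤ 3 / 20 := by linarith
  have hb0 : 0 ≤ β := by
    rw [hβ]
    positivity
  have h2 : (β + 50 * h) * (7 / 5 * e) ≤ 3 / 20 * (7 / 5 * (1 / (30 * n * N))) := by
    apply mul_le_mul h1 (by linarith) (by positivity) (by norm_num)
  have h3 : 3 / 20 * (7 / 5 * (1 / (30 * n * N))) ≤ β / (4 * N) := by
    rw [hβ]
    have e1 : 1 / (8 * n) / (4 * N) = 1 / (n * N) * (1 / 32) := by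
      field_simp
      norm_num
    have e2 : 3 / 20 * (7 / 5 * (1 / (30 * n * N))) = 1 / (n * N) * (7 / 1000) := by
      field_simp
      norm_num
    rw [e1, e2]
    apply mul_le_mul_of_nonneg_left (by norm_num) (by positivity)
  linarith

end XBCore

open XBCore in
/-- **BCore.** -/
theorem tBCore (h1 : BBasStmt) (h2 : BStTStmt) (h3 : BStWStmt) (h4 : BStJStmt) (h5 : BSizStmt)
    (h6 : BRealStmt) : BCoreStmt := by
  intro V ι₁ ι₂ _ _ G hG Fb Sb B x y hxF hxS hxB hyF hyS hyB hxy hT hL hJT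
  obtain ⟨het, hbas⟩ := h1 V ι₁ ι₂ G hG
  obtain ⟨-, -, -, -, hJ0, -, -, -, -, -, hD⟩ := hbas Fb Sb B
  obtain ⟨hD2x, hD1x, hTx, hJCx, hJLx⟩ := hD x
  obtain ⟨hD2y, hD1y, hTy, hJCy, hJLy⟩ := hD y
  have sT := h2 V ι₁ ι₂ G Fb Sb B x y hxF hxS hxB hyF hyS hyB hxy
  obtain ⟨sP, sP1⟩ := h3 V ι₁ ι₂ G hG Fb Sb x y hxF
  have sJ := h4 V ι₁ ι₂ G hG Fb Sb B x y hxF hxS hxB hyF hyS hyB hxy
  obtain ⟨zp, ze0, zep, ze, zE⟩ := h5 V ι₁ ι₂ G hG Fb Sb B x y hxy hT hL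
  obtain ⟨zq, -, -, -, -⟩ := h5 V ι₁ ι₂ G hG Fb Sb B y x (Ne.symm hxy) hT hL
  have hn5 : (5 : ℝ) ≤ (G.n : ℝ) := by exact_mod_cast hG.n5
  have hn0 : (0 : ℝ) < (G.n : ℝ) := by linarith
  have hN0 : (0 : ℝ) < (Fintype.card V : ℝ) := by
    have : 0 < Fintype.card V := Fintype.card_pos_iff.mpr ⟨x⟩
    exact_mod_cast this
  have hinv : 0 < 1 / (G.n : ℝ) := by positivity
  have hinv1 : 1 / (G.n : ℝ) ≤ 1 / 5 := one_div_le_one_div_of_le (by norm_num) hn5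
  set p : ℝ := G.Tz Fb Sb B y / G.T Fb Sb B with hp
  set e : ℝ := G.Tyz Fb Sb B y x / G.T Fb Sb B with he
  set q : ℝ := G.Tz Fb Sb B x / G.T Fb Sb B with hq
  have he0 : 0 ≤ e := div_nonneg ze0 hT.le
  have hep : e ≤ p := div_le_div_of_nonneg_right zep hT.le
  have hq0 : 0 ≤ q := div_nonneg hTx hT.le
  obtain ⟨hu, hlog, hinvu⟩ := h6 G.n p q e hG.n5 he0 hep zp hq0 zq
  set u : ℝ := (1 + 2 / (G.n : ℝ)) * (p - e) - q with hudef
  set E₀ : ℝ := -(1 + 1 / (G.n : ℝ)) * p + (1 + 1 / (G.n : ℝ)) * q + 7 / 5 * e with hE0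
  have hTT : G.T (insert x Fb) (insert y Sb) B = G.T Fb Sb B * (1 + u) := by
    rw [sT, hudef, hp, he, hq]
    unfold BG.mu
    field_simp
    ring
  have hu8 : 1 / (8 * (G.n : ℝ)) ≤ 1 / 40 := one_div_le_one_div_of_le (by norm_num) (by linarith)
  obtain ⟨hu1, hu2⟩ := abs_le.mp hu
  have h1u : 0 < 1 + u := by linarith
  have hT'' : 0 < G.T (insert x Fb) (insert y Sb) B := by
    rw [hTT]
    exact mul_pos hT h1u
  refine ⟨hT'', ?_⟩
  -- the parts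
  have hbe0 : 0 ≤ G.be := by
    unfold BG.be
    positivity
  have hka : G.ka = 1 - 1 / (G.n : ℝ) := rfl
  have hla : G.la = 1 - 2 / (G.n : ℝ) := rfl
  have hnu : G.nu = 1 + 1 / (G.n : ℝ) := rfl
  have pT : -G.be * Real.log (G.T (insert x Fb) (insert y Sb) B) ≤
      -G.be * Real.log (G.T Fb Sb B) + G.be * E₀ := by
    rw [hTT, Real.log_mul (ne_of_gt hT) (ne_of_gt h1u)]
    have := mul_le_mul_of_nonneg_left hlog hbe0
    linarith
  have hE : 0 ≤ G.a * G.A * G.th ^ G.n * (G.D1 Fb Sb x + G.D1 Fb Sb y) := by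
    have hth0 : 0 ≤ G.th := by
      unfold BG.th
      have : 2 / (G.n : ℝ) ≤ 1 := by
        rw [div_le_one hn0]
        linarith
      linarith
    positivity
  have pJ := jt_ineq (G.n : ℝ) (G.T Fb Sb B) (G.T (insert x Fb) (insert y Sb) B) (G.J Fb Sb B)
    (G.J (insert x Fb) (insert y Sb) B) u (G.JC Fb Sb B y + G.JL Fb Sb B x)
    (G.JL Fb Sb B y + G.JC Fb Sb B x)
    (G.a * G.A * G.th ^ G.n * (G.D1 Fb Sb x + G.D1 Fb Sb y)) G.la G.ka E₀ hn5 hT hTT hu hJ0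
    (add_nonneg hJCy hJLx) (add_nonneg hJLy hJCx) hE hla hka (by linarith) hinvu
  have pE : 100 * (G.a * G.A * G.th ^ G.n * (G.D1 Fb Sb x + G.D1 Fb Sb y) / G.T Fb Sb B) ≤
      G.et / G.n * (G.D1 Fb Sb x + G.D1 Fb Sb y) := by
    have := mul_le_mul_of_nonneg_right zE (add_nonneg hD1x hD1y)
    calc 100 * (G.a * G.A * G.th ^ G.n * (G.D1 Fb Sb x + G.D1 Fb Sb y) / G.T Fb Sb B)
        = 50 * 2 * (G.a * G.A * G.th ^ G.n) / G.T Fb Sb B * (G.D1 Fb Sb x + G.D1 Fb Sb y) := by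
          ring
      _ ≤ _ := this
  have hh0 : 0 ≤ G.J Fb Sb B / G.T Fb Sb B := div_nonneg hJ0 hT.le
  have hh : 400 * (G.J Fb Sb B / G.T Fb Sb B) ≤ 1 := by
    rw [← mul_div_assoc, div_le_one hT]
    exact hJT
  have pErr := err_ineq (G.n : ℝ) (Fintype.card V : ℝ) G.be (G.J Fb Sb B / G.T Fb Sb B) e hn5 hN0
    rfl hh0 hh he0 ze
  have pP : G.Ph (insert x Fb) (insert y Sb) ≤
      G.Ph Fb Sb - G.ka * G.D2 Fb Sb y + G.ka * G.D2 Fb Sb x := by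
    have a1 : G.ka * G.D2 Fb Sb y ≤ 1 * G.D2 Fb Sb y :=
      mul_le_mul_of_nonneg_right (by rw [hka]; linarith) hD2y
    have a2 : G.la * G.D2 Fb Sb x ≤ G.ka * G.D2 Fb Sb x := by
      apply mul_le_mul_of_nonneg_right _ hD2x
      rw [hka, hla]
      have : 2 / (G.n : ℝ) = 2 * (1 / (G.n : ℝ)) := by ring
      linarith
    linarith
  have pP1 : G.et * G.Ph1 (insert x Fb) (insert y Sb) +
      G.et / G.n * (G.D1 Fb Sb x + G.D1 Fb Sb y) ≤
      G.et * G.Ph1 Fb Sb - G.ka * G.et * G.D1 Fb Sb y + G.ka * G.et * G.D1 Fb Sb x := by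
    have a1 := mul_le_mul_of_nonneg_left sP1 het
    have a2 : G.et * (G.Ph1 Fb Sb - G.D1 Fb Sb y + G.la * G.D1 Fb Sb x) +
        G.et / G.n * (G.D1 Fb Sb x + G.D1 Fb Sb y) =
        G.et * G.Ph1 Fb Sb - G.ka * G.et * G.D1 Fb Sb y + G.ka * G.et * G.D1 Fb Sb x := by
      rw [hka, hla]
      ring
    linarith
  have hGGx : G.GG Fb Sb B x = G.ka * G.D2 Fb Sb x + G.ka * G.et * G.D1 Fb Sb x +
    (G.be + 50 * (G.J Fb Sb B / G.T Fb Sb B)) * G.nu * q +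
    50 * G.ka / G.T Fb Sb B * (G.JC Fb Sb B x - G.JL Fb Sb B x) := rfl
  have hGGy : G.GG Fb Sb B y = G.ka * G.D2 Fb Sb y + G.ka * G.et * G.D1 Fb Sb y +
    (G.be + 50 * (G.J Fb Sb B / G.T Fb Sb B)) * G.nu * p +
    50 * G.ka / G.T Fb Sb B * (G.JC Fb Sb B y - G.JL Fb Sb B y) := rfl
  have hTh : G.Th Fb Sb B = G.Ph Fb Sb + G.et * G.Ph1 Fb Sb - G.be * Real.log (G.T Fb Sb B) +
    50 * (G.J Fb Sb B / G.T Fb Sb B) := rfl
  have hTh2 : G.Th (insert x Fb) (insert y Sb) B = G.Ph (insert x Fb) (insert y Sb) +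
    G.et * G.Ph1 (insert x Fb) (insert y Sb) -
    G.be * Real.log (G.T (insert x Fb) (insert y Sb) B) +
    50 * (G.J (insert x Fb) (insert y Sb) B / G.T (insert x Fb) (insert y Sb) B) := rfl
  have hmid : G.be * E₀ + 50 * (G.J Fb Sb B / G.T Fb Sb B * E₀) =
      (G.be + 50 * (G.J Fb Sb B / G.T Fb Sb B)) * G.nu * q -
      (G.be + 50 * (G.J Fb Sb B / G.T Fb Sb B)) * G.nu * p +
      (G.be + 50 * (G.J Fb Sb B / G.T Fb Sb B)) * (7 / 5 * e) := by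
    rw [hE0, hnu]
    ring
  have hkk : 50 * (G.ka * ((G.JL Fb Sb B y + G.JC Fb Sb B x) - (G.JC Fb Sb B y +
      G.JL Fb Sb B x)) / G.T Fb Sb B) =
      50 * G.ka / G.T Fb Sb B * (G.JC Fb Sb B x - G.JL Fb Sb B x) -
      50 * G.ka / G.T Fb Sb B * (G.JC Fb Sb B y - G.JL Fb Sb B y) := by ring
  rw [hTh, hTh2, hGGx, hGGy]
  linarith

end VdWG
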