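import Pool.Agent.Lib.VdW.SpecB

/-!
# The cross terms
-/

set_option autoImplicit false

namespace VdWG

open Finset

/-- Double counting of the contact points. -/
theorem bcr_count {V ι₁ ι₂ : Type} [Fintype V] [DecidableEq V] (G : BG V ι₁ ι₂) (h : G.Hyp)
    (Z : Finset V) (hZ : Z.card ≤ G.a) (x : V) :
    ∑ l ∈ G.Λ.filter (fun l => x ∈ l), ((Z.erase x).filter (fun z => z ∈ l)).card ≤
      G.a * G.A := by
  have h1 := Finset.sum_card_bipartiteAbove_eq_sum_card_bipartiteBelow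
    (s := G.Λ.filter (fun l => x ∈ l)) (t := Z.erase x) (fun l z => z ∈ l)
  have h2 : ∑ l ∈ G.Λ.filter (fun l => x ∈ l), ((Z.erase x).filter (fun z => z ∈ l)).card =
      ∑ z ∈ Z.erase x, ((G.Λ.filter (fun l => x ∈ l)).filter (fun l => z ∈ l)).card := h1
  rw [h2]
  calc ∑ z ∈ Z.erase x, ((G.Λ.filter (fun l => x ∈ l)).filter (fun l => z ∈ l)).card
      ≤ ∑ z ∈ Z.erase x, G.A := by
        refine sum_le_sum fun z hz => ?_
        rw [filter_filter]
        exact h.pair x z (ne_of_mem_erase hz).symm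
    _ = (Z.erase x).card * G.A := by rw [sum_const, smul_eq_mul]
    _ ≤ G.a * G.A := Nat.mul_le_mul_right _ ((card_le_card (erase_subset _ _)).trans hZ)

theorem tBCr : BCrStmt := by
  intro V ι₁ ι₂ _ _ G h Fb Sb B x y
  have hn5 : (5 : ℝ) ≤ G.n := by exact_mod_cast h.n5
  have hn2 : 2 / (G.n : ℝ) ≤ 2 / 5 := div_le_div_of_nonneg_left (by norm_num) (by norm_num) hn5
  have hth : 1 ≤ G.th := by
    rw [BG.th]
    linarith
  have hth0 : 0 ≤ G.th := zero_le_one.trans hth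
  have hw : ∀ i ∈ G.I₁, 0 ≤ G.w₁ Fb Sb i := by
    intro i hi
    have hc := h.c₁ i hi
    rw [BG.w₁, BG.w]
    split_ifs
    · positivity
    · exact le_rfl
  simp only [mul_sum]
  rw [sum_comm, BG.D1, mul_sum]
  refine sum_le_sum fun i hi => ?_
  have hi1 := (mem_filter.1 hi).1
  have h1 : ∑ l ∈ (G.Λ' Fb Sb B).filter (fun l => x ∈ l), G.th ^ (l ∩ Sb).card *
      (G.w₁ Fb Sb i * ((((l \ Sb) ∩ G.Z₁ i).erase x).card : ℝ)) ≤
      ∑ l ∈ G.Λ.filter (fun l => x ∈ l), G.th ^ G.n *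
      (G.w₁ Fb Sb i * ((((G.Z₁ i).erase x).filter (fun z => z ∈ l)).card : ℝ)) := by
    calc ∑ l ∈ (G.Λ' Fb Sb B).filter (fun l => x ∈ l), G.th ^ (l ∩ Sb).card *
        (G.w₁ Fb Sb i * ((((l \ Sb) ∩ G.Z₁ i).erase x).card : ℝ))
        ≤ ∑ l ∈ (G.Λ' Fb Sb B).filter (fun l => x ∈ l), G.th ^ G.n *
        (G.w₁ Fb Sb i * ((((G.Z₁ i).erase x).filter (fun z => z ∈ l)).card : ℝ)) := by
          refine sum_le_sum fun l hl => ?_
          have hl1 := (mem_filter.1 (mem_filter.1 hl).1).1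
          refine mul_le_mul (pow_le_pow_right₀ hth ?_) (mul_le_mul_of_nonneg_left ?_ (hw i hi1))
            (mul_nonneg (hw i hi1) (Nat.cast_nonneg _)) (pow_nonneg hth0 _)
          · rw [← h.card l hl1]
            exact card_le_card inter_subset_left
          · have h2 : ((l \ Sb) ∩ G.Z₁ i).erase x ⊆
                ((G.Z₁ i).erase x).filter (fun z => z ∈ l) := by
              intro z hz
              obtain ⟨h3, h4⟩ := mem_erase.1 hz
              obtain ⟨h5, h6⟩ := mem_inter.1 h4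
              exact mem_filter.2 ⟨mem_erase.2 ⟨h3, h6⟩, (mem_sdiff.1 h5).1⟩
            exact_mod_cast card_le_card h2
      _ ≤ _ := by
          refine sum_le_sum_of_subset_of_nonneg ?_ fun l _ _ => ?_
          · exact filter_subset_filter _ (filter_subset _ _)
          · exact mul_nonneg (pow_nonneg hth0 _) (mul_nonneg (hw i hi1) (Nat.cast_nonneg _))
  refine h1.trans ?_
  have h2 : ∑ l ∈ G.Λ.filter (fun l => x ∈ l), G.th ^ G.n *
      (G.w₁ Fb Sb i * ((((G.Z₁ i).erase x).filter (fun z => z ∈ l)).card : ℝ)) =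
      G.th ^ G.n * G.w₁ Fb Sb i * ((∑ l ∈ G.Λ.filter (fun l => x ∈ l),
        (((G.Z₁ i).erase x).filter (fun z => z ∈ l)).card : ℕ) : ℝ) := by
    rw [Nat.cast_sum, mul_sum]
    exact sum_congr rfl fun l _ => by ring
  have h3 : ((∑ l ∈ G.Λ.filter (fun l => x ∈ l),
        (((G.Z₁ i).erase x).filter (fun z => z ∈ l)).card : ℕ) : ℝ) ≤ (G.a : ℝ) * G.A := by
    exact_mod_cast bcr_count G h (G.Z₁ i) (h.Zc i hi1) x
  rw [h2]
  refine (mul_le_mul_of_nonneg_left h3 (mul_nonneg (pow_nonneg hth0 _) (hw i hi1))).trans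
    (le_of_eq ?_)
  ring

end VdWG
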