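import Pool.Agent.Lib.VdW.SpecB

/-!
# A configuration of weight at least one is put into the small board
-/

set_option autoImplicit false

namespace VdWG

open Finset

namespace XBDrop

/-- The real inequality for the potential. -/
theorem real_ineq (β T J τ σ : ℝ) (hβ : β ≤ 1 / 40) (hβ0 : 0 ≤ β) (hT : 0 < T) (hτ : 0 ≤ τ)
    (hτσ : τ ≤ 9 * σ) (hσJ : σ ≤ J) (hJ : 18 * J ≤ T) :
    0 < T - τ ∧ -β * Real.log (T - τ) + 50 * ((J - σ) / (T - τ)) ≤
      -β * Real.log T + 50 * (J / T) := by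
  have hT' : 0 < T - τ := by linarith
  refine ⟨hT', ?_⟩
  have h1 : Real.log T - Real.log (T - τ) ≤ τ / (T - τ) := by
    rw [← Real.log_div (ne_of_gt hT) (ne_of_gt hT')]
    have h := Real.log_le_sub_one_of_pos (div_pos hT hT')
    have e : T / (T - τ) - 1 = τ / (T - τ) := by
      field_simp
      ring
    linarith
  have h2 : (J - σ) / (T - τ) - J / T ≤ -(1 / 18) * (τ / (T - τ)) := by
    have e1 : (J - σ) / (T - τ) ≤ (J - τ / 9) / (T - τ) :=
      div_le_div_of_nonneg_right (by linarith) hT'.le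
    have e2 : (J - τ / 9) / (T - τ) - J / T = (τ / (T - τ)) * ((J - T / 9) / T) := by
      field_simp
      ring
    have e3 : (J - T / 9) / T ≤ -(1 / 18) := by
      rw [div_le_iff₀ hT]
      linarith
    have e4 : 0 ≤ τ / (T - τ) := div_nonneg hτ hT'.le
    nlinarith [mul_le_mul_of_nonneg_left e3 e4]
  have h3 : 0 ≤ τ / (T - τ) := div_nonneg hτ hT'.le
  have h4 : β * (Real.log T - Real.log (T - τ)) ≤ β * (τ / (T - τ)) :=
    mul_le_mul_of_nonneg_left h1 hβ0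
  have h5 : β * (τ / (T - τ)) ≤ 1 / 40 * (τ / (T - τ)) := mul_le_mul_of_nonneg_right hβ h3
  nlinarith

end XBDrop

open XBDrop in
/-- **BDrop.** -/
theorem tBDrop (h1 : BMuStmt) (h2 : BBasStmt) : BDropStmt := by
  intro V ι₁ ι₂ _ _ G hG Fb Sb B B' i hi hw hBB hB'
  obtain ⟨-, hbas⟩ := h2 V ι₁ ι₂ G hG
  obtain ⟨hw1, -, -, -, hJ0, hT0, -, -, -, -, -⟩ := hbas Fb Sb B
  obtain ⟨-, -, -, -, hJ0', hT0', -, -, -, -, -⟩ := hbas Fb Sb B'
  obtain ⟨hmu, -, -⟩ := h1 G.n hG.n5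
  have hn5 : (5 : ℝ) ≤ (G.n : ℝ) := by exact_mod_cast hG.n5
  have hinv : 0 ≤ 2 / (G.n : ℝ) := by positivity
  have hinv1 : 2 / (G.n : ℝ) ≤ 1 := by
    rw [div_le_one (by linarith)]
    linarith
  have hth0 : 0 ≤ G.th := by
    unfold BG.th
    linarith
  have hmu0 : 0 ≤ G.mu := by
    unfold BG.mu
    linarith
  -- the inner sum
  set I : Finset V → ℝ := fun l => ∑ i ∈ G.I₁, G.w₁ Fb Sb i * (((l \ Sb) ∩ G.Z₁ i).card : ℝ) with hI
  have hI0 : ∀ l, 0 ≤ I l := fun l =>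
    Finset.sum_nonneg fun i hi => mul_nonneg (hw1 i hi) (Nat.cast_nonneg _)
  have hsub : G.Λ' Fb Sb B' ⊆ G.Λ' Fb Sb B := by
    intro l hl
    simp only [BG.Λ', Finset.mem_filter] at hl ⊢
    exact ⟨hl.1, hl.2.1, fun p hp => hl.2.2
      (Finset.mem_inter.mpr ⟨(Finset.mem_inter.mp hp).1, hBB (Finset.mem_inter.mp hp).2⟩)⟩
  set R : Finset (Finset V) := G.Λ' Fb Sb B \ G.Λ' Fb Sb B' with hR
  set τ : ℝ := ∑ l ∈ R, G.mu ^ (l ∩ Sb).card with hτ
  set σ : ℝ := ∑ l ∈ R, G.th ^ (l ∩ Sb).card * I l with hσ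
  have hTT : G.T Fb Sb B' = G.T Fb Sb B - τ := by
    have := Finset.sum_sdiff (f := fun l : Finset V => G.mu ^ (l ∩ Sb).card) hsub
    unfold BG.T
    rw [hτ]
    linarith
  have hJJ : G.J Fb Sb B' = G.J Fb Sb B - σ := by
    have := Finset.sum_sdiff (f := fun l : Finset V => G.th ^ (l ∩ Sb).card * I l) hsub
    unfold BG.J
    rw [hσ]
    linarith
  have hτ0 : 0 ≤ τ := Finset.sum_nonneg fun l _ => pow_nonneg hmu0 _
  have hτσ : τ ≤ 9 * σ := by
    rw [hτ, hσ, Finset.mul_sum]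
    apply Finset.sum_le_sum
    intro l hl
    rw [hR, Finset.mem_sdiff] at hl
    simp only [BG.Λ', Finset.mem_filter, not_and] at hl
    obtain ⟨⟨hlΛ, hlF, hlB⟩, hl2⟩ := hl
    have hl3 := hl2 hlΛ hlF
    rw [Finset.not_subset] at hl3
    obtain ⟨p, hp, hpS⟩ := hl3
    rw [Finset.mem_inter] at hp
    have hpB : p ∉ B := fun h => hpS (hlB (Finset.mem_inter.mpr ⟨hp.1, h⟩))
    have hpZ : p ∈ G.Z₁ i := by
      rcases Finset.mem_union.mp (hB' hp.2) with h | h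
      · exact absurd h hpB
      · exact h
    have hI1 : 1 ≤ I l := by
      have hc : 1 ≤ ((l \ Sb) ∩ G.Z₁ i).card := by
        apply Finset.card_pos.mpr
        exact ⟨p, Finset.mem_inter.mpr ⟨Finset.mem_sdiff.mpr ⟨hp.1, hpS⟩, hpZ⟩⟩
      have hc' : (1 : ℝ) ≤ (((l \ Sb) ∩ G.Z₁ i).card : ℝ) := by exact_mod_cast hc
      calc (1 : ℝ) ≤ G.w₁ Fb Sb i * (((l \ Sb) ∩ G.Z₁ i).card : ℝ) := by nlinarith
        _ ≤ I l := by
            rw [hI]
            exact Finset.single_le_sum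
              (f := fun i => G.w₁ Fb Sb i * (((l \ Sb) ∩ G.Z₁ i).card : ℝ))
              (fun i hi => mul_nonneg (hw1 i hi) (Nat.cast_nonneg _)) hi
    have hcard : (l ∩ Sb).card ≤ G.n := by
      rw [← hG.card l hlΛ]
      exact Finset.card_le_card Finset.inter_subset_left
    have hm := hmu (l ∩ Sb).card hcard
    have hth : 0 ≤ G.th ^ (l ∩ Sb).card := pow_nonneg hth0 _
    have hm' : G.mu ^ (l ∩ Sb).card ≤ 9 * G.th ^ (l ∩ Sb).card := hm
    nlinarith [mul_le_mul_of_nonneg_left hI1 hth]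
  refine ⟨?_, ?_⟩
  · rw [hTT, hJJ]
    linarith
  · intro hTpos hJT
    have hσJ : σ ≤ G.J Fb Sb B := by
      rw [hJJ] at hJ0'
      linarith
    have hbe0 : 0 ≤ G.be := by
      unfold BG.be
      positivity
    have hbe : G.be ≤ 1 / 40 := by
      unfold BG.be
      apply one_div_le_one_div_of_le (by norm_num)
      linarith
    obtain ⟨r1, r2⟩ := real_ineq G.be (G.T Fb Sb B) (G.J Fb Sb B) τ σ hbe hbe0 hTpos hτ0 hτσ hσJ hJT
    rw [hTT]
    refine ⟨r1, ?_⟩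
    unfold BG.Th
    rw [hTT, hJJ]
    linarith

end VdWG
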