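import Pool.Agent.Lib.VdW.SpecB

/-!
# The big move of the second player
-/

set_option autoImplicit false

namespace VdWG

open Finset

namespace BMoveM

variable {V ι₁ ι₂ : Type} [Fintype V] [DecidableEq V] (G : BG V ι₁ ι₂)

theorem frac (n : ℕ) (hn : 5 ≤ n) : 0 ≤ 2 / (n : ℝ) ∧ 2 / (n : ℝ) ≤ 1 := by
  have h5 : (5 : ℝ) ≤ n := by exact_mod_cast hn
  refine ⟨by positivity, ?_⟩
  rw [div_le_one (by linarith)]
  linarith

theorem one_le_mu (hG : G.Hyp) : 1 ≤ G.mu := by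
  have := (frac G.n hG.n5).1
  unfold BG.mu
  linarith

theorem one_le_th (hG : G.Hyp) : 1 ≤ G.th := by
  have := (frac G.n hG.n5).2
  unfold BG.th
  linarith

theorem th_le_two (hG : G.Hyp) : G.th ≤ 2 := by
  have := (frac G.n hG.n5).1
  unfold BG.th
  linarith

theorem lam (Fb Sb B : Finset V) (y : V) (hy : y ∉ B) :
    G.Λ' Fb (insert y Sb) B = G.Λ' Fb Sb B := by
  unfold BG.Λ'
  refine filter_congr fun l _ => and_congr_right fun _ => ?_
  refine ⟨fun h z hz => ?_, fun h => h.trans (subset_insert _ _)⟩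
  rcases mem_insert.1 (h hz) with h1 | h1
  · exact absurd (h1 ▸ (mem_inter.1 hz).2) hy
  · exact h1

theorem card_le (l Sb : Finset V) (y : V) :
    (l ∩ Sb).card ≤ (l ∩ insert y Sb).card ∧ (l ∩ insert y Sb).card ≤ (l ∩ Sb).card + 1 := by
  refine ⟨card_le_card (inter_subset_inter_left (subset_insert _ _)), ?_⟩
  have : l ∩ insert y Sb ⊆ insert y (l ∩ Sb) := by
    intro z hz
    rw [mem_inter, mem_insert] at hz
    rw [mem_insert, mem_inter]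
    rcases hz with ⟨h1, h2 | h2⟩
    · exact Or.inl h2
    · exact Or.inr ⟨h1, h2⟩
  exact (card_le_card this).trans (card_insert_le _ _)

theorem T_le (hG : G.Hyp) (Fb Sb B : Finset V) (y : V) (hy : y ∉ B) :
    G.T Fb Sb B ≤ G.T Fb (insert y Sb) B := by
  unfold BG.T
  rw [lam G Fb Sb B y hy]
  exact sum_le_sum fun l _ => pow_le_pow_right₀ (one_le_mu G hG) (card_le l Sb y).1

theorem J_le (hG : G.Hyp) (Fb Sb B : Finset V) (y : V) (hy : y ∉ B)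
    (h0 : ∀ i ∈ G.I₁, 0 ≤ G.w₁ Fb (insert y Sb) i) (h0' : ∀ i ∈ G.I₁, 0 ≤ G.w₁ Fb Sb i)
    (h1 : ∀ i ∈ G.I₁, G.w₁ Fb (insert y Sb) i ≤ G.w₁ Fb Sb i) :
    G.J Fb (insert y Sb) B ≤ 2 * G.J Fb Sb B := by
  unfold BG.J
  rw [lam G Fb Sb B y hy, mul_sum]
  refine sum_le_sum fun l _ => ?_
  have hth := one_le_th G hG
  have hth2 := th_le_two G hG
  have e1 : G.th ^ (l ∩ insert y Sb).card ≤ 2 * G.th ^ (l ∩ Sb).card := by
    calc G.th ^ (l ∩ insert y Sb).card ≤ G.th ^ ((l ∩ Sb).card + 1) :=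
          pow_le_pow_right₀ hth (card_le l Sb y).2
      _ = G.th ^ (l ∩ Sb).card * G.th := pow_succ _ _
      _ ≤ G.th ^ (l ∩ Sb).card * 2 := mul_le_mul_of_nonneg_left hth2 (by positivity)
      _ = 2 * G.th ^ (l ∩ Sb).card := mul_comm _ _
  have e2 : ∑ i ∈ G.I₁, G.w₁ Fb (insert y Sb) i * (((l \ insert y Sb) ∩ G.Z₁ i).card : ℝ) ≤
      ∑ i ∈ G.I₁, G.w₁ Fb Sb i * (((l \ Sb) ∩ G.Z₁ i).card : ℝ) := by
    refine sum_le_sum fun i hi => mul_le_mul (h1 i hi) ?_ (Nat.cast_nonneg _) (h0' i hi)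
    exact_mod_cast card_le_card (inter_subset_inter_right
      (sdiff_subset_sdiff (Subset.refl l) (subset_insert y Sb)))
  have e3 : 0 ≤ ∑ i ∈ G.I₁, G.w₁ Fb (insert y Sb) i *
      (((l \ insert y Sb) ∩ G.Z₁ i).card : ℝ) :=
    sum_nonneg fun i hi => mul_nonneg (h0 i hi) (Nat.cast_nonneg _)
  calc _ ≤ (2 * G.th ^ (l ∩ Sb).card) *
        ∑ i ∈ G.I₁, G.w₁ Fb Sb i * (((l \ Sb) ∩ G.Z₁ i).card : ℝ) :=
        mul_le_mul e1 e2 e3 (by positivity)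
    _ = _ := by ring

end BMoveM

open BMoveM in
/-- **BMove.** The big move of the second player. -/
theorem tBMove (h1 : BBasStmt) (h2 : BConsStmt) (h3 : BCoreStmt) : BMoveStmt := by
  intro V ι₁ ι₂ _ _ G hG Fb Sb B hMS
  obtain ⟨hT, hPh, hJ, hΛ⟩ := (h2 V ι₁ ι₂ G hG Fb Sb B).1 hMS
  obtain ⟨-, hB⟩ := h1 V ι₁ ι₂ G hG
  obtain ⟨w1n, w2n, Phn, Ph1n, Jn, Tn, Tle, w1F, w1S, PhS, zn⟩ := hB Fb Sb B
  refine ⟨fun hz => ⟨by linarith, hPh, fun x hx1 hx2 hx3 => ?_⟩, fun hz => ?_⟩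
  · rcases hz x with h | h | h
    · exact absurd h hx1
    · exact absurd h hx2
    · exact absurd h hx3
  · classical
    obtain ⟨z, hz1, hz2, hz3⟩ := hz
    obtain ⟨y, hy, hmax⟩ := exists_max_image
      (univ.filter fun z : V => z ∉ Fb ∧ z ∉ Sb ∧ z ∉ B) (G.GG Fb Sb B)
      ⟨z, mem_filter.2 ⟨mem_univ _, hz1, hz2, hz3⟩⟩
    obtain ⟨-, hy1, hy2, hy3⟩ := mem_filter.1 hy
    refine ⟨y, hy1, hy2, hy3, ?_, ?_, ?_⟩
    · have e1 := T_le G hG Fb Sb B y hy3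
      have e2 := J_le G hG Fb Sb B y hy3 (hB Fb (insert y Sb) B).1 w1n (w1S y)
      linarith
    · exact lt_of_le_of_lt (PhS y) hPh
    · intro x hx1 hx2 hx3
      rw [mem_insert, not_or] at hx2
      obtain ⟨c1, c2⟩ := h3 V ι₁ ι₂ G hG Fb Sb B x y hx1 hx2.2 hx3 hy1 hy2 hy3 hx2.1 hT hΛ hJ
      refine ⟨c1, c2.trans ?_⟩
      have e1 := hmax x (mem_filter.2 ⟨mem_univ _, hx1, hx2.2, hx3⟩)
      have e2 : G.bd (insert y Sb).card = G.bd Sb.card + G.be / (4 * (Fintype.card V : ℝ)) := by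
        rw [card_insert_of_notMem hy2]
        unfold BG.bd
        push_cast
        ring
      rw [e2]
      have e3 := hMS.2
      linarith

end VdWG
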