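import Pool.Agent.Lib.VdW.SpecB

/-!
# Numbers
-/

set_option autoImplicit false

namespace VdWG

open Finset

/-- `exp 2.15 ≤ 9` -/
theorem bmu_exp : Real.exp (43 / 20) ≤ 9 := by
  have h1 : Real.exp (43 / 20) = Real.exp 1 * Real.exp 1 * Real.exp (3 / 20) := by
    rw [← Real.exp_add, ← Real.exp_add]
    norm_num
  have h2 : Real.exp 1 < 2.7182818286 := Real.exp_one_lt_d9
  have h3 : Real.exp (3 / 20) ≤ 20 / 17 := by
    have h4 := Real.add_one_le_exp (-(3 / 20 : ℝ))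
    have h5 : Real.exp (3 / 20) * Real.exp (-(3 / 20)) = 1 := by
      rw [← Real.exp_add, add_neg_cancel, Real.exp_zero]
    have h6 := Real.exp_pos (3 / 20 : ℝ)
    nlinarith
  have h7 := Real.exp_pos (1 : ℝ)
  have h8 := Real.exp_pos (3 / 20 : ℝ)
  have h9 : Real.exp 1 * Real.exp 1 ≤ 7.39 := by nlinarith
  rw [h1]
  nlinarith [mul_nonneg h7.le h7.le]

/-- `((1 + t) / (1 - t)) ^ n ≤ 9` for `t = 1/n`, in logarithms. -/
theorem bmu_log {n : ℕ} (hn : 5 ≤ n) :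
    (n : ℝ) * (Real.log (1 + 1 / (n : ℝ)) - Real.log (1 - 1 / (n : ℝ))) ≤ 43 / 20 := by
  have hn5 : (5 : ℝ) ≤ n := by exact_mod_cast hn
  have hn0 : (0 : ℝ) < n := by linarith
  set t : ℝ := 1 / (n : ℝ) with ht
  have ht0 : 0 < t := by positivity
  have ht5 : t ≤ 1 / 5 := by
    rw [ht]
    exact one_div_le_one_div_of_le (by norm_num) hn5
  have hnt : (n : ℝ) * t = 1 := by
    rw [ht]
    field_simp
  have h1 : Real.log (1 + t) ≤ t := by
    have := Real.log_le_sub_one_of_pos (show (0 : ℝ) < 1 + t by linarith)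
    linarith
  have h2 := Real.abs_log_sub_add_sum_range_le (x := t) (by rw [abs_of_pos ht0]; linarith) 2
  rw [abs_of_pos ht0, Finset.sum_range_succ, Finset.sum_range_succ, Finset.sum_range_zero] at h2
  have h3 := (abs_le.1 h2).1
  norm_num at h3
  have h4 : t ^ 3 / (1 - t) ≤ t ^ 2 / 4 := by
    rw [div_le_div_iff₀ (by linarith) (by norm_num)]
    nlinarith [sq_nonneg t, mul_nonneg (sq_nonneg t) ht0.le]
  have h5 : Real.log (1 + t) - Real.log (1 - t) ≤ 2 * t + 3 / 4 * t ^ 2 := by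
    linarith
  have h6 := mul_le_mul_of_nonneg_left h5 hn0.le
  have h7 : (n : ℝ) * (2 * t + 3 / 4 * t ^ 2) = 2 + 3 / 4 * t := by
    have : (n : ℝ) * (2 * t + 3 / 4 * t ^ 2) = 2 * ((n : ℝ) * t) + 3 / 4 * (((n : ℝ) * t) * t) := by
      ring
    rw [this, hnt]
    ring
  rw [h7] at h6
  linarith

theorem tBMu : BMuStmt := by
  intro n hn
  have hn5 : (5 : ℝ) ≤ n := by exact_mod_cast hn
  have hn0 : (0 : ℝ) < n := by linarith
  have ht5 : 1 / (n : ℝ) ≤ 1 / 5 := one_div_le_one_div_of_le (by norm_num) hn5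
  have ht0 : 0 < 1 / (n : ℝ) := by positivity
  have hplus : 2 + 2 / (n : ℝ) = 2 * (1 + 1 / (n : ℝ)) := by ring
  have hminus : 2 - 2 / (n : ℝ) = 2 * (1 - 1 / (n : ℝ)) := by ring
  have hp : 0 < 1 + 1 / (n : ℝ) := by linarith
  have hm : 0 < 1 - 1 / (n : ℝ) := by linarith
  refine ⟨fun a ha => ?_, ?_, ?_⟩
  · rw [hplus, hminus, mul_pow, mul_pow]
    have h1 : (1 + 1 / (n : ℝ)) ^ a ≤ 9 * (1 - 1 / (n : ℝ)) ^ a := by
      have h2 : ((1 + 1 / (n : ℝ)) / (1 - 1 / (n : ℝ))) ^ n ≤ 9 := by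
        have h3 : 0 < (1 + 1 / (n : ℝ)) / (1 - 1 / (n : ℝ)) := div_pos hp hm
        rw [← Real.exp_log (pow_pos h3 n), Real.log_pow, Real.log_div hp.ne' hm.ne']
        exact (Real.exp_le_exp.2 (bmu_log hn)).trans bmu_exp
      have h4 : 1 ≤ (1 + 1 / (n : ℝ)) / (1 - 1 / (n : ℝ)) := by
        rw [le_div_iff₀ hm]
        linarith
      have h5 := (pow_le_pow_right₀ h4 ha).trans h2
      rwa [div_pow, div_le_iff₀ (pow_pos hm a)] at h5
    have h6 : (0 : ℝ) ≤ 2 ^ a := by positivity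
    calc (2 : ℝ) ^ a * (1 + 1 / (n : ℝ)) ^ a ≤ 2 ^ a * (9 * (1 - 1 / (n : ℝ)) ^ a) :=
          mul_le_mul_of_nonneg_left h1 h6
      _ = 9 * (2 ^ a * (1 - 1 / (n : ℝ)) ^ a) := by ring
  · rw [hplus, mul_pow]
    have h1 : (1 + 1 / (n : ℝ)) ^ n ≤ 3 := by
      have h2 : 1 + 1 / (n : ℝ) ≤ Real.exp (1 / (n : ℝ)) := by
        have := Real.add_one_le_exp (1 / (n : ℝ))
        linarith
      have h3 := pow_le_pow_left₀ hp.le h2 n
      rw [← Real.exp_nat_mul, mul_one_div_cancel hn0.ne'] at h3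
      have h4 : Real.exp 1 < 2.7182818286 := Real.exp_one_lt_d9
      linarith
    have h6 : (0 : ℝ) ≤ 2 ^ n := by positivity
    nlinarith [mul_le_mul_of_nonneg_left h1 h6]
  · apply pow_le_pow_left₀
    · rw [hminus]
      positivity
    · rw [hminus]
      linarith

end VdWG
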