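import Pool.Agent.Lib.VdW.SpecB

/-!
# The invariants are preserved when a configuration of weight at least one is put into the small board
-/

set_option autoImplicit false

namespace VdWG

open Finset

namespace BPresM

private lemma ms (h1 : BBasStmt) (h2 : BConsStmt) (h3 : BDropStmt) {V ι₁ ι₂ : Type} [Fintype V]
    [DecidableEq V] (G : BG V ι₁ ι₂) (hG : G.Hyp) (Fb Sb B B' : Finset V) (i : ι₁) (hi : i ∈ G.I₁)
    (hw : 1 ≤ G.w₁ Fb Sb i) (hB : B ⊆ B') (hB' : B' ⊆ B ∪ G.Z₁ i) (h : G.MS Fb Sb B) :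
    G.MS Fb Sb B' := by
  obtain ⟨hT, -, h400, -⟩ := (h2 V ι₁ ι₂ G hG Fb Sb B).1 h
  obtain ⟨-, hb⟩ := h1 V ι₁ ι₂ G hG
  obtain ⟨-, -, -, -, hJ, -⟩ := hb Fb Sb B
  obtain ⟨hT', hTh'⟩ := (h3 V ι₁ ι₂ G hG Fb Sb B B' i hi hw hB hB').2 hT (by linarith)
  exact ⟨hT', hTh'.trans h.2⟩

end BPresM

theorem tBPres (h1 : BBasStmt) (h2 : BConsStmt) (h3 : BDropStmt) : BPresStmt := by
  intro V ι₁ ι₂ _ _ G hG Fb Sb B B' i hi hw hB hB'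
  refine ⟨BPresM.ms h1 h2 h3 G hG Fb Sb B B' i hi hw hB hB', fun h => ?_⟩
  have hd := (h3 V ι₁ ι₂ G hG Fb Sb B B' i hi hw hB hB').1
  obtain ⟨-, hb⟩ := h1 V ι₁ ι₂ G hG
  have hmon := (hb Fb Sb B).2.2.2.2.2.2.2.1
  refine ⟨lt_of_lt_of_le h.1 hd, h.2.1, fun x hxF hxS hxB => ?_⟩
  exact BPresM.ms h1 h2 h3 G hG (insert x Fb) Sb B B' i hi (hw.trans (hmon x i hi)) hB hB'
    (h.2.2 x hxF hxS fun hx => hxB (hB hx))

end VdWG
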