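import Pool.Agent.Lib.VdW.SpecB

/-!
# The real inequality
-/

set_option autoImplicit false

namespace VdWG

theorem tBReal : BRealStmt := by
  intro n p q e hn he hep hp hq hq' u
  have hn' : (5 : ℝ) ≤ n := by exact_mod_cast hn
  have hn0 : (0 : ℝ) < n := by linarith
  obtain ⟨t, ht⟩ : ∃ t : ℝ, t = 1 / (n : ℝ) := ⟨_, rfl⟩
  have ht0 : 0 < t := by rw [ht]; positivity
  have ht5 : t ≤ 1 / 5 := by
    rw [ht]
    exact one_div_le_one_div_of_le (by norm_num) hn'
  have e1 : 2 / (n : ℝ) = 2 * t := by rw [ht]; ring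
  have e2 : 1 / (30 * (n : ℝ)) = t / 30 := by rw [ht]; field_simp
  have e3 : 1 / (8 * (n : ℝ)) = t / 8 := by rw [ht]; field_simp
  have hu : u = (1 + 2 * t) * (p - e) - q := by
    simp only [u]
    rw [e1]
  rw [e2] at hp hq'
  rw [e3, ← ht]
  have hpe0 : 0 ≤ p - e := by linarith
  have hpe : p - e ≤ t / 30 := by linarith
  have hp1 : 0 ≤ (1 + 2 * t) * (p - e) := mul_nonneg (by linarith) hpe0
  have hp2 : (1 + 2 * t) * (p - e) ≤ 7 / 5 * (t / 30) :=
    mul_le_mul (by linarith) hpe hpe0 (by norm_num)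
  have habs : |u| ≤ t / 8 := by
    rw [abs_le, hu]
    constructor <;> linarith
  have habs' : |u| ≤ (1 + 2 * t) * (p - e) + q := by
    rw [abs_le, hu]
    constructor <;> linarith
  have hu1 : -(1 / 40) ≤ u := by
    have := (abs_le.1 habs).1
    linarith
  have h1u : 0 < 1 + u := by linarith
  have hsq : u ^ 2 ≤ |u| * (t / 8) := by
    rw [← sq_abs, pow_two]
    exact mul_le_mul_of_nonneg_left habs (abs_nonneg u)
  have hmain : -u + 2 * u ^ 2 ≤ -(1 + t) * p + (1 + t) * q + 7 / 5 * e := by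
    have h3 : 2 * u ^ 2 ≤ (t / 4) * ((1 + 2 * t) * (p - e) + q) := by
      have h4 : |u| * (t / 8) ≤ ((1 + 2 * t) * (p - e) + q) * (t / 8) :=
        mul_le_mul_of_nonneg_right habs' (by linarith)
      linarith
    have h5 : (1 + t) * (p - e) ≤ (1 + 2 * t) * (1 - t / 4) * (p - e) := by
      refine mul_le_mul_of_nonneg_right ?_ hpe0
      nlinarith
    have h6 : t / 4 * q ≤ t * q := by
      have := mul_nonneg ht0.le hq
      linarith
    have h7 : t * e ≤ 2 / 5 * e := mul_le_mul_of_nonneg_right (by linarith) he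
    rw [hu] at h3 ⊢
    nlinarith
  have hinv : 1 / (1 + u) - 1 ≤ -u + 2 * u ^ 2 := by
    have h8 : 1 / (1 + u) ≤ 1 - u + 2 * u ^ 2 := by
      rw [div_le_iff₀ h1u]
      have h9 : 0 ≤ u ^ 2 * (1 + 2 * u) := mul_nonneg (sq_nonneg u) (by linarith)
      nlinarith
    linarith
  refine ⟨habs, ?_, hinv.trans hmain⟩
  have hlog := Real.one_sub_inv_le_log_of_pos h1u
  rw [← one_div] at hlog
  linarith

end VdWG
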