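import Pool.Agent.Lib.VdW.SpecB

/-!
# `T(y)` and `T(y, x)` are small
-/

set_option autoImplicit false

namespace VdWG

open Finset

theorem tBSiz (h1 : BMuStmt) : BSizStmt := by
  intro V ι₁ ι₂ _ _ G hG Fb Sb B x y hxy hT h3T
  obtain ⟨_, hmu, hth⟩ := h1 G.n hG.n5
  have hn' : (5 : ℝ) ≤ G.n := by exact_mod_cast hG.n5
  have hn0 : (0 : ℝ) < G.n := by linarith
  have hA1 : (1 : ℝ) ≤ G.A := by exact_mod_cast hG.A1
  have hA0 : (0 : ℝ) < G.A := by linarith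
  have hbig : 150 * (G.n : ℝ) * (G.A : ℝ) ^ 2 * 2 ^ G.n ≤ (Fintype.card V : ℝ) := by
    exact_mod_cast hG.big
  have h2n : (0 : ℝ) < 2 ^ G.n := by positivity
  have hN0 : (0 : ℝ) < (Fintype.card V : ℝ) := by
    refine lt_of_lt_of_le ?_ hbig
    positivity
  have htot : (Fintype.card V : ℝ) ^ 2 ≤ (G.A : ℝ) * (G.Λ.card : ℝ) := by
    exact_mod_cast hG.tot
  set N : ℝ := (Fintype.card V : ℝ) with hN
  set T := G.T Fb Sb B with hTdef
  have hTN : 3 * N ^ 2 ≤ 5 * G.A * T := by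
    have h4 : (G.A : ℝ) * (3 * (G.Λ.card : ℝ)) ≤ G.A * (5 * T) :=
      mul_le_mul_of_nonneg_left h3T hA0.le
    linarith
  have hkey : 90 * (G.n : ℝ) * G.A * N * 2 ^ G.n ≤ T := by
    have h5 : 150 * (G.n : ℝ) * (G.A : ℝ) ^ 2 * 2 ^ G.n * (3 * N) ≤ N * (3 * N) :=
      mul_le_mul_of_nonneg_right hbig (by linarith)
    have h6 : (5 * (G.A : ℝ)) * (90 * (G.n : ℝ) * G.A * N * 2 ^ G.n) ≤ (5 * G.A) * T := by
      calc (5 * (G.A : ℝ)) * (90 * (G.n : ℝ) * G.A * N * 2 ^ G.n)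
          = 150 * (G.n : ℝ) * (G.A : ℝ) ^ 2 * 2 ^ G.n * (3 * N) := by ring
        _ ≤ N * (3 * N) := h5
        _ = 3 * N ^ 2 := by ring
        _ ≤ 5 * G.A * T := hTN
    exact le_of_mul_le_mul_left h6 (by linarith)
  have hmu1 : (1 : ℝ) ≤ G.mu := by
    unfold BG.mu
    have : 0 ≤ 2 / (G.n : ℝ) := by positivity
    linarith
  have hmun : G.mu ^ G.n ≤ 3 * 2 ^ G.n := hmu
  have hpow : ∀ l ∈ G.Λ, G.mu ^ (l ∩ Sb).card ≤ 3 * 2 ^ G.n := by
    intro l hl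
    have h7 : (l ∩ Sb).card ≤ G.n := by
      rw [← hG.card l hl]
      exact Finset.card_le_card Finset.inter_subset_left
    exact (pow_le_pow_right₀ hmu1 h7).trans hmun
  have hsub : G.Λ' Fb Sb B ⊆ G.Λ := Finset.filter_subset _ _
  have hpos : ∀ l : Finset V, 0 ≤ G.mu ^ (l ∩ Sb).card := fun l => by positivity
  have hTz : G.Tz Fb Sb B y ≤ (G.A * N) * (3 * 2 ^ G.n) := by
    unfold BG.Tz
    calc ∑ l ∈ (G.Λ' Fb Sb B).filter (fun l => y ∈ l), G.mu ^ (l ∩ Sb).card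
        ≤ ∑ l ∈ G.Λ.filter (fun l => y ∈ l), G.mu ^ (l ∩ Sb).card :=
          Finset.sum_le_sum_of_subset_of_nonneg (Finset.filter_subset_filter _ hsub)
            fun l _ _ => hpos l
      _ ≤ ∑ _l ∈ G.Λ.filter (fun l => y ∈ l), 3 * (2 : ℝ) ^ G.n :=
          Finset.sum_le_sum fun l hl => hpow l (Finset.mem_filter.1 hl).1
      _ = ((G.Λ.filter (fun l => y ∈ l)).card : ℝ) * (3 * 2 ^ G.n) := by
          rw [Finset.sum_const, nsmul_eq_mul]
      _ ≤ (G.A * N) * (3 * 2 ^ G.n) := by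
          refine mul_le_mul_of_nonneg_right ?_ (by positivity)
          have := hG.deg y
          rw [hN]
          exact_mod_cast this
  have hTyz : G.Tyz Fb Sb B y x ≤ G.A * (3 * 2 ^ G.n) := by
    unfold BG.Tyz
    calc ∑ l ∈ (G.Λ' Fb Sb B).filter (fun l => y ∈ l ∧ x ∈ l), G.mu ^ (l ∩ Sb).card
        ≤ ∑ l ∈ G.Λ.filter (fun l => y ∈ l ∧ x ∈ l), G.mu ^ (l ∩ Sb).card :=
          Finset.sum_le_sum_of_subset_of_nonneg (Finset.filter_subset_filter _ hsub)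
            fun l _ _ => hpos l
      _ ≤ ∑ _l ∈ G.Λ.filter (fun l => y ∈ l ∧ x ∈ l), 3 * (2 : ℝ) ^ G.n :=
          Finset.sum_le_sum fun l hl => hpow l (Finset.mem_filter.1 hl).1
      _ = ((G.Λ.filter (fun l => y ∈ l ∧ x ∈ l)).card : ℝ) * (3 * 2 ^ G.n) := by
          rw [Finset.sum_const, nsmul_eq_mul]
      _ ≤ G.A * (3 * 2 ^ G.n) := by
          refine mul_le_mul_of_nonneg_right ?_ (by positivity)
          have := hG.pair y x (Ne.symm hxy)
          exact_mod_cast this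
  refine ⟨?_, ?_, ?_, ?_, ?_⟩
  · rw [div_le_div_iff₀ hT (by positivity), one_mul]
    have h8 : G.Tz Fb Sb B y * (30 * (G.n : ℝ)) ≤
        ((G.A * N) * (3 * 2 ^ G.n)) * (30 * (G.n : ℝ)) :=
      mul_le_mul_of_nonneg_right hTz (by positivity)
    refine h8.trans (le_trans (le_of_eq ?_) hkey)
    ring
  · exact Finset.sum_nonneg fun l _ => hpos l
  · unfold BG.Tyz BG.Tz
    refine Finset.sum_le_sum_of_subset_of_nonneg ?_ fun l _ _ => hpos l
    intro l hl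
    rw [Finset.mem_filter] at hl ⊢
    exact ⟨hl.1, hl.2.1⟩
  · rw [div_le_div_iff₀ hT (by positivity), one_mul]
    have h8 : G.Tyz Fb Sb B y x * (30 * (G.n : ℝ) * N) ≤
        (G.A * (3 * 2 ^ G.n)) * (30 * (G.n : ℝ) * N) :=
      mul_le_mul_of_nonneg_right hTyz (by positivity)
    refine h8.trans (le_trans (le_of_eq ?_) hkey)
    ring
  · have e1 : G.et / G.n = 200 * G.a * G.A ^ 2 * 2 ^ G.n / N ^ 2 := by
      unfold BG.et
      rw [← hN]
      field_simp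
    rw [e1, div_le_iff₀ hT, div_mul_eq_mul_div, le_div_iff₀ (by positivity)]
    have ha0 : (0 : ℝ) ≤ G.a := by positivity
    have hth' : G.th ^ G.n ≤ 2 ^ G.n := hth
    have h9 : (G.a : ℝ) * G.A * G.th ^ G.n ≤ G.a * G.A * 2 ^ G.n :=
      mul_le_mul_of_nonneg_left hth' (by positivity)
    calc 50 * 2 * ((G.a : ℝ) * G.A * G.th ^ G.n) * N ^ 2
        ≤ 50 * 2 * ((G.a : ℝ) * G.A * 2 ^ G.n) * N ^ 2 := by
          refine mul_le_mul_of_nonneg_right ?_ (by positivity)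
          linarith
      _ ≤ 40 * ((G.a : ℝ) * G.A * 2 ^ G.n) * (3 * N ^ 2) := by
          have : 0 ≤ ((G.a : ℝ) * G.A * 2 ^ G.n) * N ^ 2 := by positivity
          linarith
      _ ≤ 40 * ((G.a : ℝ) * G.A * 2 ^ G.n) * (5 * G.A * T) :=
          mul_le_mul_of_nonneg_left hTN (by positivity)
      _ = 200 * G.a * G.A ^ 2 * 2 ^ G.n * T := by ring

end VdWG
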