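import Pool.Agent.Lib.VdW.SpecB

/-!
# The sum `J` after a move of each player
-/

set_option autoImplicit false

namespace VdWG

open Finset

namespace XBStJ

/-- The inequality for one pair: `P = [y ∈ l]`, `Q = [x ∈ l]`, `R = [y ∈ U]`, `X = [x ∈ U]`; `c`, `cy`, `cx`
are the numbers of contact points, without `y`, without `x`. -/
theorem pair_ineq (P Q R X : Prop) [Decidable P] [Decidable Q] [Decidable R] [Decidable X]
    (lam v w c cy cx : ℝ) (hl0 : 0 ≤ lam) (hl1 : lam ≤ 1) (hv : 0 ≤ v) (hw : 0 ≤ w)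
    (hcy0 : 0 ≤ cy) (hcx0 : 0 ≤ cx) (hcy : cy ≤ c) (hcx : cx ≤ c) :
    (if Q then 0 else (v * (if P then (1 + lam) else 1)) *
      ((if R then 0 else (if X then (1 + lam) * w else w)) * cy)) ≤
    v * (w * c) - v * (if R then w * c else 0) + lam * (if P then v * (w * cy) else 0) +
      lam * (v * (if X then w * c else 0)) - (if Q then v * (w * cx) else 0) +
      (if Q then v * (if R then w * cx else 0) else 0) +
      (if P then v * (if X then w * cy else 0) else 0) := by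
  have hc0 : 0 ≤ c := le_trans hcy0 hcy
  have hvw : 0 ≤ v * w := mul_nonneg hv hw
  have h1 : 0 ≤ v * w * c := mul_nonneg hvw hc0
  have h2 : 0 ≤ v * w * cy := mul_nonneg hvw hcy0
  have h3 : 0 ≤ v * w * cx := mul_nonneg hvw hcx0
  have h4 : 0 ≤ v * w * (c - cx) := mul_nonneg hvw (by linarith)
  have h5 : 0 ≤ v * w * (c - cy) := mul_nonneg hvw (by linarith)
  have h6 : 0 ≤ lam * (v * w * c) := mul_nonneg hl0 h1
  have h7 : 0 ≤ lam * (v * w * cy) := mul_nonneg hl0 h2
  have h8 : 0 ≤ lam * (v * w * (c - cy)) := mul_nonneg hl0 h5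
  have h9 : 0 ≤ (1 - lam) * (v * w * cy) := mul_nonneg (by linarith) h2
  have h10 : 0 ≤ lam * ((1 - lam) * (v * w * cy)) := mul_nonneg hl0 h9
  by_cases hPP : P <;> by_cases hQ : Q <;> by_cases hR : R <;> by_cases hX : X
  all_goals simp only [hPP, hQ, hR, hX, if_true, if_false, mul_zero, zero_mul, add_zero, sub_zero,
    mul_one]
  all_goals nlinarith

section

variable {V ι₁ ι₂ : Type} [DecidableEq V] (G : BG V ι₁ ι₂)

theorem JC_eq (Fb Sb B : Finset V) (z : V) : G.JC Fb Sb B z = ∑ l ∈ G.Λ' Fb Sb B, ∑ i ∈ G.I₁,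
    G.th ^ (l ∩ Sb).card *
      (if z ∈ G.U₁ i then G.w₁ Fb Sb i * (((l \ Sb) ∩ G.Z₁ i).card : ℝ) else 0) := by
  unfold BG.JC
  apply Finset.sum_congr rfl
  intro l _
  rw [Finset.sum_filter, Finset.mul_sum]

theorem J_eq (Fb Sb B : Finset V) : G.J Fb Sb B = ∑ l ∈ G.Λ' Fb Sb B, ∑ i ∈ G.I₁,
    G.th ^ (l ∩ Sb).card * (G.w₁ Fb Sb i * (((l \ Sb) ∩ G.Z₁ i).card : ℝ)) := by
  unfold BG.J
  apply Finset.sum_congr rfl
  intro l _
  rw [Finset.mul_sum]

theorem JL_eq (Fb Sb B : Finset V) (z : V) : G.JL Fb Sb B z = ∑ l ∈ G.Λ' Fb Sb B, ∑ i ∈ G.I₁,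
    (if z ∈ l then G.th ^ (l ∩ Sb).card *
      (G.w₁ Fb Sb i * ((((l \ Sb) ∩ G.Z₁ i).erase z).card : ℝ)) else 0) := by
  unfold BG.JL
  rw [Finset.sum_filter]
  apply Finset.sum_congr rfl
  intro l _
  split_ifs
  · rw [Finset.mul_sum]
  · simp

theorem Cr_eq (Fb Sb B : Finset V) (x y : V) :
    ∑ l ∈ (G.Λ' Fb Sb B).filter (fun l => x ∈ l), G.th ^ (l ∩ Sb).card *
        ∑ i ∈ G.I₁.filter (fun i => y ∈ G.U₁ i), G.w₁ Fb Sb i *
          ((((l \ Sb) ∩ G.Z₁ i).erase x).card : ℝ) =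
    ∑ l ∈ G.Λ' Fb Sb B, ∑ i ∈ G.I₁, (if x ∈ l then G.th ^ (l ∩ Sb).card *
      (if y ∈ G.U₁ i then G.w₁ Fb Sb i * ((((l \ Sb) ∩ G.Z₁ i).erase x).card : ℝ) else 0)
        else 0) := by
  rw [Finset.sum_filter]
  apply Finset.sum_congr rfl
  intro l _
  split_ifs
  · rw [Finset.sum_filter, Finset.mul_sum]
  · simp

theorem w_new (hth : 0 < G.th) (Fb Sb U : Finset V) (c : ℝ) (x y : V) (hx : x ∉ Fb) :
    G.w (insert x Fb) (insert y Sb) U c =
      if y ∈ U then 0 else (if x ∈ U then G.th * G.w Fb Sb U c else G.w Fb Sb U c) := by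
  unfold BG.w
  by_cases hy : y ∈ U
  · rw [if_pos hy, if_neg]
    intro h
    exact Finset.disjoint_left.mp h hy (Finset.mem_insert_self y Sb)
  · rw [if_neg hy]
    have hdis : Disjoint U (insert y Sb) ↔ Disjoint U Sb := by
      rw [Finset.disjoint_insert_right]
      exact ⟨fun h => h.2, fun h => ⟨hy, h⟩⟩
    by_cases hd : Disjoint U Sb
    · rw [if_pos (hdis.mpr hd), if_pos hd]
      by_cases hxU : x ∈ U
      · rw [if_pos hxU]
        have hc : (U \ Fb).card = (U \ insert x Fb).card + 1 := by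
          have e : U \ Fb = insert x (U \ insert x Fb) := by
            ext p
            simp only [Finset.mem_sdiff, Finset.mem_insert, not_or]
            constructor
            · intro h
              by_cases hp : p = x
              · exact Or.inl hp
              · exact Or.inr ⟨h.1, hp, h.2⟩
            · rintro (h | h)
              · subst h
                exact ⟨hxU, hx⟩
              · exact ⟨h.1, h.2.2⟩
          rw [e, Finset.card_insert_of_notMem]
          simp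
        rw [hc, pow_succ]
        field_simp
      · rw [if_neg hxU]
        have e : U \ insert x Fb = U \ Fb := by
          ext p
          simp only [Finset.mem_sdiff, Finset.mem_insert, not_or]
          constructor
          · intro h
            exact ⟨h.1, h.2.2⟩
          · intro h
            exact ⟨h.1, fun hp => hxU (hp ▸ h.1), h.2⟩
        rw [e]
    · rw [if_neg (fun h => hd (hdis.mp h)), if_neg hd]
      simp

theorem Lam_new (Fb Sb B : Finset V) (x y : V) (hyB : y ∉ B) :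
    G.Λ' (insert x Fb) (insert y Sb) B = (G.Λ' Fb Sb B).filter (fun l => ¬ x ∈ l) := by
  ext l
  simp only [BG.Λ', Finset.mem_filter, Finset.disjoint_insert_right]
  constructor
  · rintro ⟨h1, ⟨h2, h3⟩, h4⟩
    refine ⟨⟨h1, h3, ?_⟩, h2⟩
    intro p hp
    rcases Finset.mem_insert.mp (h4 hp) with h | h
    · exact absurd (h ▸ (Finset.mem_inter.mp hp).2) hyB
    · exact h
  · rintro ⟨⟨h1, h3, h4⟩, h2⟩
    exact ⟨h1, ⟨h2, h3⟩, h4.trans (Finset.subset_insert y Sb)⟩

end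

end XBStJ

open XBStJ in
/-- **BStJ.** -/
theorem tBStJ (h1 : BBasStmt) (h2 : BCrStmt) : BStJStmt := by
  intro V ι₁ ι₂ _ _ G hG Fb Sb B x y hxF hxS hxB hyF hyS hyB hxy
  obtain ⟨-, hbas⟩ := h1 V ι₁ ι₂ G hG
  obtain ⟨hw1, -⟩ := hbas Fb Sb B
  have hn5 : (5 : ℝ) ≤ (G.n : ℝ) := by exact_mod_cast hG.n5
  have hinv : 0 ≤ 2 / (G.n : ℝ) := by positivity
  have hinv1 : 2 / (G.n : ℝ) ≤ 1 := by
    rw [div_le_one (by linarith)]
    linarith
  have hth : G.th = 1 + G.la := by
    unfold BG.th BG.la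
    ring
  have hla0 : 0 ≤ G.la := by
    unfold BG.la
    linarith
  have hla1 : G.la ≤ 1 := by
    unfold BG.la
    linarith
  have hth0 : 0 < G.th := by linarith
  have c1 := h2 V ι₁ ι₂ G hG Fb Sb B x y
  have c2 := h2 V ι₁ ι₂ G hG Fb Sb B y x
  rw [Cr_eq] at c1 c2
  -- the new value
  have hnew : G.J (insert x Fb) (insert y Sb) B = ∑ l ∈ G.Λ' Fb Sb B, ∑ i ∈ G.I₁,
      (if x ∈ l then 0 else (G.th ^ (l ∩ Sb).card * (if y ∈ l then (1 + G.la) else 1)) *
      ((if y ∈ G.U₁ i then 0 else (if x ∈ G.U₁ i then (1 + G.la) * G.w₁ Fb Sb i else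
        G.w₁ Fb Sb i)) * ((((l \ Sb) ∩ G.Z₁ i).erase y).card : ℝ))) := by
    unfold BG.J
    rw [Lam_new G Fb Sb B x y hyB, Finset.sum_filter]
    apply Finset.sum_congr rfl
    intro l _
    by_cases hxl : x ∈ l
    · rw [if_neg (not_not.mpr hxl)]
      symm
      apply Finset.sum_eq_zero
      intro i _
      rw [if_pos hxl]
    · rw [if_pos hxl, Finset.mul_sum]
      apply Finset.sum_congr rfl
      intro i _
      rw [if_neg hxl]
      have e1 : G.w₁ (insert x Fb) (insert y Sb) i =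
          (if y ∈ G.U₁ i then 0 else (if x ∈ G.U₁ i then (1 + G.la) * G.w₁ Fb Sb i else
            G.w₁ Fb Sb i)) := by
        unfold BG.w₁
        rw [w_new G hth0 Fb Sb _ _ x y hxF, hth]
      have e2 : (l \ insert y Sb) ∩ G.Z₁ i = ((l \ Sb) ∩ G.Z₁ i).erase y := by
        ext p
        simp only [Finset.mem_inter, Finset.mem_sdiff, Finset.mem_insert, not_or,
          Finset.mem_erase]
        tauto
      have e3 : G.th ^ (l ∩ insert y Sb).card =
          G.th ^ (l ∩ Sb).card * (if y ∈ l then (1 + G.la) else 1) := by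
        by_cases hyl : y ∈ l
        · rw [if_pos hyl, Finset.inter_insert_of_mem hyl, Finset.card_insert_of_notMem
            (fun h => hyS (Finset.mem_inter.mp h).2), pow_succ, hth]
        · rw [if_neg hyl, Finset.inter_insert_of_notMem hyl, mul_one]
      rw [e1, e2, e3]
  have hsum : G.J (insert x Fb) (insert y Sb) B ≤ ∑ l ∈ G.Λ' Fb Sb B, ∑ i ∈ G.I₁,
      (G.th ^ (l ∩ Sb).card * (G.w₁ Fb Sb i * (((l \ Sb) ∩ G.Z₁ i).card : ℝ)) -
      G.th ^ (l ∩ Sb).card *
        (if y ∈ G.U₁ i then G.w₁ Fb Sb i * (((l \ Sb) ∩ G.Z₁ i).card : ℝ) else 0) +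
      G.la * (if y ∈ l then G.th ^ (l ∩ Sb).card *
        (G.w₁ Fb Sb i * ((((l \ Sb) ∩ G.Z₁ i).erase y).card : ℝ)) else 0) +
      G.la * (G.th ^ (l ∩ Sb).card *
        (if x ∈ G.U₁ i then G.w₁ Fb Sb i * (((l \ Sb) ∩ G.Z₁ i).card : ℝ) else 0)) -
      (if x ∈ l then G.th ^ (l ∩ Sb).card *
        (G.w₁ Fb Sb i * ((((l \ Sb) ∩ G.Z₁ i).erase x).card : ℝ)) else 0) +
      (if x ∈ l then G.th ^ (l ∩ Sb).card *
        (if y ∈ G.U₁ i then G.w₁ Fb Sb i * ((((l \ Sb) ∩ G.Z₁ i).erase x).card : ℝ) else 0)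
          else 0) +
      (if y ∈ l then G.th ^ (l ∩ Sb).card *
        (if x ∈ G.U₁ i then G.w₁ Fb Sb i * ((((l \ Sb) ∩ G.Z₁ i).erase y).card : ℝ) else 0)
          else 0)) := by
    rw [hnew]
    apply Finset.sum_le_sum
    intro l _
    apply Finset.sum_le_sum
    intro i hi
    apply pair_ineq (y ∈ l) (x ∈ l) (y ∈ G.U₁ i) (x ∈ G.U₁ i) G.la _ _ _ _ _ hla0 hla1
      (pow_nonneg hth0.le _) (hw1 i hi) (Nat.cast_nonneg _) (Nat.cast_nonneg _)
    · exact_mod_cast Finset.card_le_card (Finset.erase_subset _ _)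
    · exact_mod_cast Finset.card_le_card (Finset.erase_subset _ _)
  simp only [Finset.sum_add_distrib, Finset.sum_sub_distrib, ← Finset.mul_sum] at hsum
  have eJ := J_eq G Fb Sb B
  have eCy := JC_eq G Fb Sb B y
  have eCx := JC_eq G Fb Sb B x
  have eLy := JL_eq G Fb Sb B y
  have eLx := JL_eq G Fb Sb B x
  simp only [← Finset.mul_sum] at eJ eCy eCx eLy eLx
  rw [← eJ, ← eCy, ← eCx, ← eLy, ← eLx] at hsum
  linarith

end VdWG
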