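import Pool.Agent.Lib.VdW.SpecB

/-!
# `Φ` and `Φ₁` after a pair of moves
-/

set_option autoImplicit false

namespace VdWG

open Finset

/-- One configuration. -/
theorem bstw_one {V ι₁ ι₂ : Type} [Fintype V] [DecidableEq V] (G : BG V ι₁ ι₂) (h : G.Hyp)
    (Fb Sb U : Finset V) {c : ℝ} (hc : 0 ≤ c) (x y : V) (hx : x ∉ Fb) :
    G.w (insert x Fb) (insert y Sb) U c ≤ G.w Fb Sb U c - (if y ∈ U then G.w Fb Sb U c else 0) +
      G.la * (if x ∈ U then G.w Fb Sb U c else 0) := by
  have hn5 : (5 : ℝ) ≤ G.n := by exact_mod_cast h.n5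
  have hn2 : 2 / (G.n : ℝ) ≤ 2 / 5 := div_le_div_of_nonneg_left (by norm_num) (by norm_num) hn5
  have hla : 0 ≤ G.la := by
    rw [BG.la]
    linarith
  have hth : 0 < G.th := by
    rw [BG.th]
    linarith
  have hw : 0 ≤ G.w Fb Sb U c := by
    rw [BG.w]
    split_ifs
    · positivity
    · exact le_rfl
  by_cases hy : y ∈ U
  · have h1 : ¬ Disjoint U (insert y Sb) := fun h2 =>
      (disjoint_left.1 h2 hy) (mem_insert_self _ _)
    have h2 : G.w (insert x Fb) (insert y Sb) U c = 0 := by rw [BG.w, if_neg h1]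
    rw [h2, if_pos hy, sub_self, zero_add]
    split_ifs
    · exact mul_nonneg hla hw
    · rw [mul_zero]
  · rw [if_neg hy, sub_zero]
    by_cases hd : Disjoint U Sb
    · have hd' : Disjoint U (insert y Sb) := disjoint_insert_right.2 ⟨hy, hd⟩
      by_cases hxU : x ∈ U
      · have h3 : (U \ Fb).card = (U \ insert x Fb).card + 1 := by
          rw [sdiff_insert, card_erase_add_one (mem_sdiff.2 ⟨hxU, hx⟩)]
        rw [if_pos hxU, BG.w, BG.w, if_pos hd, if_pos hd', h3, pow_succ]
        have h4 : G.la = G.th - 1 := by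
          rw [BG.la, BG.th]
          ring
        rw [h4]
        apply le_of_eq
        field_simp
        ring
      · have h3 : U \ insert x Fb = U \ Fb := by
          rw [sdiff_insert, erase_eq_of_notMem fun h4 => hxU (mem_sdiff.1 h4).1]
        rw [if_neg hxU, mul_zero, add_zero, BG.w, BG.w, if_pos hd, if_pos hd', h3]
    · have hd' : ¬ Disjoint U (insert y Sb) := fun h1 => hd (h1.mono_right (subset_insert _ _))
      have h2 : G.w (insert x Fb) (insert y Sb) U c = 0 := by rw [BG.w, if_neg hd']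
      rw [h2]
      split_ifs
      · exact add_nonneg hw (mul_nonneg hla hw)
      · rw [mul_zero, add_zero]
        exact hw

theorem tBStW : BStWStmt := by
  intro V ι₁ ι₂ _ _ G h Fb Sb x y hx
  constructor
  · rw [BG.Ph, BG.Ph, BG.D2, BG.D2, sum_filter, sum_filter, mul_sum, ← sum_sub_distrib,
      ← sum_add_distrib]
    exact sum_le_sum fun i hi => bstw_one G h Fb Sb (G.U₂ i) (h.c₂ i hi) x y hx
  · rw [BG.Ph1, BG.Ph1, BG.D1, BG.D1, sum_filter, sum_filter, mul_sum, ← sum_sub_distrib,
      ← sum_add_distrib]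
    exact sum_le_sum fun i hi => bstw_one G h Fb Sb (G.U₁ i) (h.c₁ i hi) x y hx

end VdWG
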