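import Pool.Agent.Lib.VdW.SpecB

/-!
# The invariant of the big game at the start
-/

set_option autoImplicit false

namespace VdWG

open Finset

namespace XBStart

theorem w_le {V ι₁ ι₂ : Type} [Fintype V] [DecidableEq V] (G : BG V ι₁ ι₂) (hn : 5 ≤ G.n)
    (x : V) (U : Finset V) (c : ℝ) (hc : 0 ≤ c) :
    G.w {x} ∅ U c ≤ 2 * G.w ∅ ∅ U c ∧ 0 ≤ G.w ∅ ∅ U c := by
  have hn5 : (5 : ℝ) ≤ (G.n : ℝ) := by exact_mod_cast hn
  have hinv : 0 ≤ 2 / (G.n : ℝ) := by positivity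
  have hinv1 : 2 / (G.n : ℝ) ≤ 1 := by
    rw [div_le_one (by linarith)]
    linarith
  have hth1 : 1 ≤ G.th := by
    unfold BG.th
    linarith
  have hth2 : G.th ≤ 2 := by
    unfold BG.th
    linarith
  have hth0 : 0 < G.th := by linarith
  unfold BG.w
  rw [if_pos (Finset.disjoint_empty_right U), if_pos (Finset.disjoint_empty_right U)]
  refine ⟨?_, by positivity⟩
  have hcard : (U \ ∅).card ≤ (U \ {x}).card + 1 := by
    rw [Finset.sdiff_empty, Finset.sdiff_singleton_eq_erase]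
    by_cases hx : x ∈ U
    · rw [Finset.card_erase_of_mem hx]
      omega
    · rw [Finset.erase_eq_of_notMem hx]
      omega
  have h1 : G.th ^ (U \ ∅).card ≤ 2 * G.th ^ (U \ {x}).card := by
    calc G.th ^ (U \ ∅).card ≤ G.th ^ ((U \ {x}).card + 1) := pow_le_pow_right₀ hth1 hcard
      _ = G.th * G.th ^ (U \ {x}).card := pow_succ' _ _
      _ ≤ 2 * G.th ^ (U \ {x}).card := mul_le_mul_of_nonneg_right hth2 (by positivity)
  have hp1 : 0 < G.th ^ (U \ ∅).card := pow_pos hth0 _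
  have hp2 : 0 < G.th ^ (U \ {x}).card := pow_pos hth0 _
  rw [div_le_iff₀ hp2]
  have e : 2 * (c / G.th ^ (U \ ∅).card) * G.th ^ (U \ {x}).card =
      c * ((2 * G.th ^ (U \ {x}).card) / G.th ^ (U \ ∅).card) := by ring
  rw [e]
  have h2 : 1 ≤ (2 * G.th ^ (U \ {x}).card) / G.th ^ (U \ ∅).card := by
    rw [le_div_iff₀ hp1]
    linarith
  nlinarith

/-- The real inequality. -/
theorem real_ineq (n L P Q J P' Q' J' T' : ℝ) (hn : 5 ≤ n) (hL : 0 < L)
    (hP : 512 * n * P ≤ 1) (hQ : 512 * n * Q ≤ 1) (hJ : 51200 * n * J ≤ L) (hJ0 : 0 ≤ J)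
    (hP' : P' ≤ 2 * P) (hQ' : Q' ≤ 2 * Q) (hJ' : J' ≤ 2 * J)
    (hT' : L * (1 - 1 / 24000) ≤ T') :
    0 < T' ∧ P' + Q' - 1 / (8 * n) * Real.log T' + 50 * (J' / T') ≤
      -(1 / (8 * n)) * Real.log L + 1 / (8 * n) / 4 := by
  have hT0 : 0 < T' := by nlinarith
  refine ⟨hT0, ?_⟩
  have hn0 : 0 < n := by linarith
  have hlog : Real.log L - 2 / 24000 ≤ Real.log T' := by
    have h1 : Real.log (L * (1 - 1 / 24000)) ≤ Real.log T' :=
      Real.log_le_log (by nlinarith) hT'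
    rw [Real.log_mul (ne_of_gt hL) (by norm_num)] at h1
    have h2 : 1 - (1 - 1 / 24000 : ℝ)⁻¹ ≤ Real.log (1 - 1 / 24000) :=
      Real.one_sub_inv_le_log_of_pos (by norm_num)
    have h3 : -(2 / 24000 : ℝ) ≤ 1 - (1 - 1 / 24000 : ℝ)⁻¹ := by norm_num
    linarith
  have hm : 0 < 1 / (8 * n) := by positivity
  have hJT : 50 * (J' / T') ≤ 1 / (256 * n) := by
    have e1 : J' / T' ≤ (1 / (12800 * n)) := by
      rw [div_le_div_iff₀ hT0 (by positivity)]
      nlinarith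
    have e2 : 50 * (1 / (12800 * n)) = 1 / (256 * n) := by
      field_simp
      norm_num
    linarith
  have hP2 : P ≤ 1 / (512 * n) := by
    rw [le_div_iff₀ (by positivity)]
    linarith
  have hQ2 : Q ≤ 1 / (512 * n) := by
    rw [le_div_iff₀ (by positivity)]
    linarith
  have hlog2 : -(1 / (8 * n)) * Real.log T' ≤
      -(1 / (8 * n)) * Real.log L + 1 / (8 * n) * (2 / 24000) := by
    have := mul_le_mul_of_nonneg_left hlog hm.le
    linarith
  have hfin : 2 * (1 / (512 * n)) + 2 * (1 / (512 * n)) + 1 / (256 * n) + 1 / (8 * n) * (2 / 24000) ≤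
      1 / (8 * n) / 4 := by
    have e : 1 / (8 * n) / 4 - (2 * (1 / (512 * n)) + 2 * (1 / (512 * n)) + 1 / (256 * n) +
        1 / (8 * n) * (2 / 24000)) = (1 / n) * (1 / 32 - 2 / 512 - 2 / 512 - 1 / 256 - 1 / 96000) := by
      field_simp
      norm_num
    have e2 : 0 ≤ (1 / n) * (1 / 32 - 2 / 512 - 2 / 512 - 1 / 256 - 1 / 96000 : ℝ) := by
      apply mul_nonneg (by positivity)
      norm_num
    linarith
  linarith

end XBStart

open XBStart in
/-- **BStart.** -/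
theorem tBStart (h1 : BBasStmt) : BStartStmt := by
  intro V ι₁ ι₂ _ _ G hG hPh hPh1 hJ
  obtain ⟨het, hbas⟩ := h1 V ι₁ ι₂ G hG
  obtain ⟨hw1, -, hP0, hP10, hJ0, -⟩ := hbas ∅ ∅ ∅
  have hn5n := hG.n5
  have hn5 : (5 : ℝ) ≤ (G.n : ℝ) := by exact_mod_cast hG.n5
  have hA1 := hG.A1
  have hbig := hG.big
  have htot := hG.tot
  have hΛ0 : G.Λ' ∅ ∅ ∅ = G.Λ := by
    unfold BG.Λ'
    apply Finset.filter_true_of_mem
    intro l _
    exact ⟨Finset.disjoint_empty_right l, by simp⟩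
  have hT0 : G.T ∅ ∅ ∅ = (G.Λ.card : ℝ) := by
    unfold BG.T
    rw [hΛ0]
    simp
  have h2n : 32 ≤ 2 ^ G.n := by
    calc 32 = 2 ^ 5 := by norm_num
      _ ≤ 2 ^ G.n := Nat.pow_le_pow_right (by norm_num) hn5n
  -- `24000 A² ≤ N`
  have hAN : 24000 * G.A ^ 2 ≤ Fintype.card V := by
    have e1 : 150 * 5 * G.A ^ 2 * 32 ≤ 150 * G.n * G.A ^ 2 * 2 ^ G.n :=
      Nat.mul_le_mul (Nat.mul_le_mul (Nat.mul_le_mul_left 150 hn5n) le_rfl) h2n
    calc 24000 * G.A ^ 2 = 150 * 5 * G.A ^ 2 * 32 := by ring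
      _ ≤ 150 * G.n * G.A ^ 2 * 2 ^ G.n := e1
      _ ≤ Fintype.card V := hbig
  have hNpos : 0 < Fintype.card V := by
    have : 0 < G.A ^ 2 := by positivity
    omega
  have hΛpos : 0 < G.Λ.card := by
    by_contra h
    have : G.Λ.card = 0 := by omega
    rw [this, mul_zero] at htot
    have := pow_pos hNpos 2
    omega
  -- `24000 A N ≤ |Λ|`
  have hANL : 24000 * (G.A * Fintype.card V) ≤ G.Λ.card := by
    have e1 : Fintype.card V * (24000 * (G.A * Fintype.card V)) ≤ Fintype.card V * G.Λ.card := by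
      calc Fintype.card V * (24000 * (G.A * Fintype.card V))
          = 24000 * G.A * Fintype.card V ^ 2 := by ring
        _ ≤ 24000 * G.A * (G.A * G.Λ.card) := Nat.mul_le_mul_left _ htot
        _ = (24000 * G.A ^ 2) * G.Λ.card := by ring
        _ ≤ Fintype.card V * G.Λ.card := Nat.mul_le_mul_right _ hAN
    exact Nat.le_of_mul_le_mul_left e1 hNpos
  have hLpos : (0 : ℝ) < (G.Λ.card : ℝ) := by exact_mod_cast hΛpos
  refine ⟨?_, ?_, ?_⟩
  · rw [hT0]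
    nlinarith
  · nlinarith
  · intro x _ _ _
    have hins : (insert x ∅ : Finset V) = {x} := rfl
    rw [hins]
    -- the new potentials
    have hPx : G.Ph {x} ∅ ≤ 2 * G.Ph ∅ ∅ := by
      unfold BG.Ph
      rw [Finset.mul_sum]
      exact Finset.sum_le_sum fun i hi => (w_le G hn5n x (G.U₂ i) (G.c₂ i) (hG.c₂ i hi)).1
    have hw1x : ∀ i ∈ G.I₁, G.w₁ {x} ∅ i ≤ 2 * G.w₁ ∅ ∅ i := fun i hi =>
      (w_le G hn5n x (G.U₁ i) (G.c₁ i) (hG.c₁ i hi)).1
    have hP1x : G.Ph1 {x} ∅ ≤ 2 * G.Ph1 ∅ ∅ := by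
      unfold BG.Ph1
      rw [Finset.mul_sum]
      exact Finset.sum_le_sum hw1x
    have hΛx : G.Λ' {x} ∅ ∅ ⊆ G.Λ := by
      unfold BG.Λ'
      exact Finset.filter_subset _ _
    have hJx : G.J {x} ∅ ∅ ≤ 2 * G.J ∅ ∅ ∅ := by
      unfold BG.J
      rw [hΛ0, Finset.mul_sum]
      calc ∑ l ∈ G.Λ' {x} ∅ ∅, G.th ^ (l ∩ ∅).card *
              ∑ i ∈ G.I₁, G.w₁ {x} ∅ i * (((l \ ∅) ∩ G.Z₁ i).card : ℝ)
          ≤ ∑ l ∈ G.Λ' {x} ∅ ∅, 2 * (G.th ^ (l ∩ ∅).card *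
              ∑ i ∈ G.I₁, G.w₁ ∅ ∅ i * (((l \ ∅) ∩ G.Z₁ i).card : ℝ)) := by
            apply Finset.sum_le_sum
            intro l _
            rw [Finset.inter_empty, Finset.card_empty, pow_zero, one_mul, one_mul, Finset.mul_sum]
            apply Finset.sum_le_sum
            intro i hi
            have hc : (0 : ℝ) ≤ (((l \ ∅) ∩ G.Z₁ i).card : ℝ) := Nat.cast_nonneg _
            nlinarith [mul_le_mul_of_nonneg_right (hw1x i hi) hc]
        _ ≤ ∑ l ∈ G.Λ, 2 * (G.th ^ (l ∩ ∅).card *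
              ∑ i ∈ G.I₁, G.w₁ ∅ ∅ i * (((l \ ∅) ∩ G.Z₁ i).card : ℝ)) := by
            apply Finset.sum_le_sum_of_subset_of_nonneg hΛx
            intro l _ _
            rw [Finset.inter_empty, Finset.card_empty, pow_zero, one_mul]
            have : 0 ≤ ∑ i ∈ G.I₁, G.w₁ ∅ ∅ i * (((l \ ∅) ∩ G.Z₁ i).card : ℝ) :=
              Finset.sum_nonneg fun i hi => mul_nonneg (hw1 i hi) (Nat.cast_nonneg _)
            linarith
    have hTx : (G.Λ.card : ℝ) * (1 - 1 / 24000) ≤ G.T {x} ∅ ∅ := by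
      have e1 : G.T {x} ∅ ∅ = ((G.Λ' {x} ∅ ∅).card : ℝ) := by
        unfold BG.T
        simp
      have e2 : G.Λ' {x} ∅ ∅ = G.Λ.filter (fun l => ¬ x ∈ l) := by
        unfold BG.Λ'
        apply Finset.filter_congr
        intro l _
        simp
      have e3 := Finset.card_filter_add_card_filter_not (s := G.Λ) (fun l => x ∈ l)
      have e4 := hG.deg x
      have e5 : (((G.Λ.filter (fun l => x ∈ l)).card : ℕ) : ℝ) +
          ((G.Λ.filter (fun l => ¬ x ∈ l)).card : ℝ) = (G.Λ.card : ℝ) := by exact_mod_cast e3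
      have e6 : 24000 * ((G.Λ.filter (fun l => x ∈ l)).card : ℝ) ≤ (G.Λ.card : ℝ) := by
        have : 24000 * (G.Λ.filter (fun l => x ∈ l)).card ≤ G.Λ.card := by omega
        exact_mod_cast this
      rw [e1, e2]
      linarith
    have hQ' : G.et * G.Ph1 {x} ∅ ≤ 2 * (G.et * G.Ph1 ∅ ∅) := by
      nlinarith [mul_le_mul_of_nonneg_left hP1x het]
    obtain ⟨r1, r2⟩ := real_ineq (G.n : ℝ) (G.Λ.card : ℝ) (G.Ph ∅ ∅) (G.et * G.Ph1 ∅ ∅)
      (G.J ∅ ∅ ∅) (G.Ph {x} ∅) (G.et * G.Ph1 {x} ∅) (G.J {x} ∅ ∅) (G.T {x} ∅ ∅) hn5 hLpos hPh hPh1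
      hJ hJ0 hPx hQ' hJx hTx
    refine ⟨r1, ?_⟩
    unfold BG.Th BG.bd BG.be
    rw [Finset.card_empty]
    simp only [Nat.cast_zero, zero_mul, add_zero]
    linarith

end VdWG
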