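import Pool.Agent.Lib.VdW.SpecA

/-!
# The hypotheses of the big game hold
-/

set_option autoImplicit false

namespace VdWG

open Finset

theorem tBgHyp : BgHypStmt := by
  intro V _ _ M hM
  have hcf : ∀ C : Finset (Finset V), 0 ≤ M.cf C := by
    intro C
    unfold Sys.cf
    positivity
  exact
    { n5 := hM.num.n5
      A1 := hM.num.A1
      c₁ := fun C _ => hcf C
      c₂ := fun p _ => hcf p.2
      UZ := by
        intro C _ z hz
        change z ∈ un C at hz
        change z ∈ M.zone C
        rw [un, Finset.mem_biUnion] at hz
        obtain ⟨K, hK, hzK⟩ := hz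
        rw [Sys.zone, Finset.mem_biUnion]
        exact ⟨K, hK, Finset.mem_union_left _ hzK⟩
      Zc := by
        intro C hC
        change C ∈ M.X1 at hC
        change (M.zone C).card ≤ M.q * M.A
        simp only [Sys.X1, Finset.mem_filter, Finset.mem_powerset] at hC
        obtain ⟨hCL, _, _, hq⟩ := hC
        refine (Finset.card_biUnion_le_card_mul C M.Z M.A fun K hK =>
          hM.hF.zone K (hCL hK)).trans ?_
        exact Nat.mul_le_mul_right _ hq
      card := hM.hS.card
      deg := hM.hS.deg
      pair := hM.hS.pair
      tot := hM.hS.tot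
      big := hM.num.h3 }

end VdWG
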