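import Pool.Agent.Lib.VdW.SpecC

set_option autoImplicit false

/-!
# The new block is a configuration of weight at least one (`CAddBStmt`)
-/

namespace VdWG

open Finset

theorem tCAddB (h1 : CSkStmt) (h2 : CWtStmt) : CAddBStmt := by
  intro V _ _ M st hM L hLsk hI
  classical
  obtain ⟨e1, e2, e3, e4, e5, e6, e7, e8, e9⟩ := h1 V M st L hLsk
  obtain ⟨b1, b2, b3⟩ := hI.blk _ e6
  refine ⟨?_, ?_⟩
  · unfold Sys.X1
    refine mem_filter.mpr ⟨mem_powerset.mpr b1, b2, ?_, b3⟩
    intro K hK K' hK' hne
    refine hI.unr K ?_ K' ?_ hne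
    · rw [e1]
      exact e5 hK
    · rw [e1]
      exact e5 hK'
  · have hsub : ({M.nb st L} : Finset (Finset (Finset V))) ⊆ (M.add st L).D :=
      singleton_subset_iff.mpr e6
    have hb : ({M.nb st L} : Finset (Finset (Finset V))).biUnion id = M.nb st L := by
      rw [singleton_biUnion]
      rfl
    have h := h2 V M (M.add st L) M.k hM.num.n5 hI {M.nb st L} hsub (by rw [hb]; omega)
    rw [hb] at h
    exact h

end VdWG
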