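import Pool.Agent.Lib.VdW.SpecC

set_option autoImplicit false

/-!
# Adding a line preserves the basic invariant (`CAddIStmt`)
-/

namespace VdWG

open Finset

theorem tCAddI (h1 : CSkStmt) (h2 : CConnStmt) : CAddIStmt := by
  intro V _ _ M st hM hI L hL hLS hreg hLk hnb
  have hLsk : L ∉ st.sk := fun h => hreg (hI.self L h)
  obtain ⟨e1, e2, e3, e4, e5, e6, e7, e8, e9⟩ := h1 V M st L hLsk
  have hself : ∀ K : Finset V, K ⊆ M.Z K := fun K => subset_union_left
  obtain ⟨E, H, hEH⟩ := hI.cl
  have hU := hI.unreg L hL hLS hreg
  have hLG : ∀ a ∈ st.sk, (L ∩ st.G a).card ≤ M.k := by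
    intro a ha
    by_contra hcon
    exact hreg ⟨a, ha, by omega⟩
  refine
    { FbF := hI.FbF
      SbS := hI.SbS
      disj := hI.disj
      blk := ?_
      dis := ?_
      unr := ?_
      G1 := ?_
      G2 := ?_
      F1 := ?_
      Sb1 := ?_
      cl := ?_
      unreg := ?_
      self := ?_ }
  · -- blocks
    intro D hD
    rw [show (M.add st L).D = insert (M.nb st L)
      (st.D.filter (fun D => Disjoint (M.Z L) (M.zone D))) from rfl, mem_insert] at hD
    rcases hD with rfl | hD
    · refine ⟨?_, ?_, hnb⟩
      · intro K hK
        have := e5 hK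
        rw [mem_insert] at this
        rcases this with rfl | hK2
        · exact hL
        · obtain ⟨D2, hD2, hKD2⟩ := mem_biUnion.mp hK2
          exact (hI.blk D2 hD2).1 hKD2
      · apply h2
        intro D hD
        rw [mem_filter] at hD
        exact ⟨(hI.blk D hD.1).2.1, hD.2⟩
    · exact hI.blk D (mem_filter.mp hD).1
  · -- disjoint zones
    have key : ∀ D ∈ st.D.filter (fun D => Disjoint (M.Z L) (M.zone D)),
        Disjoint (M.zone (M.nb st L)) (M.zone D) := by
      intro D hD
      rw [mem_filter] at hD
      rw [disjoint_left]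
      intro p hp hpD
      obtain ⟨K, hK, hpK⟩ := mem_biUnion.mp hp
      unfold Sys.nb at hK
      rw [mem_insert] at hK
      rcases hK with rfl | hK
      · exact disjoint_left.mp hD.2 hpK hpD
      · obtain ⟨D2, hD2, hKD2⟩ := mem_biUnion.mp hK
        rw [mem_filter] at hD2
        have hne : D2 ≠ D := by
          rintro rfl
          exact hD2.2 hD.2
        exact disjoint_left.mp (hI.dis D2 hD2.1 D hD.1 hne) (mem_biUnion.mpr ⟨K, hKD2, hpK⟩) hpD
    intro D hD D' hD' hne
    rw [show (M.add st L).D = insert (M.nb st L)
      (st.D.filter (fun D => Disjoint (M.Z L) (M.zone D))) from rfl, mem_insert] at hD hD'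
    rcases hD with rfl | hD
    · rcases hD' with rfl | hD'
      · exact (hne rfl).elim
      · exact key D' hD'
    · rcases hD' with rfl | hD'
      · exact (key D hD).symm
      · exact hI.dis D (mem_filter.mp hD).1 D' (mem_filter.mp hD').1 hne
  · -- unrelated
    rw [e1]
    intro K hK K' hK' hne
    rw [mem_insert] at hK hK'
    rcases hK with rfl | hK
    · rcases hK' with rfl | hK'
      · exact (hne rfl).elim
      · exact hU.2 K' hK'
    · rcases hK' with rfl | hK'
      · rw [inter_comm]
        exact hU.2 K hK
      · exact hI.unr K hK K' hK' hne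
  · -- G1
    rw [e1]
    intro K hK
    rw [mem_insert] at hK
    rcases hK with rfl | hK
    · rw [e7]
      exact Subset.refl _
    · rw [e8 K hK]
      exact hI.G1 K hK
  · -- G2
    rw [e1]
    intro K hK
    rw [mem_insert] at hK
    rcases hK with rfl | hK
    · rw [e7]
      exact sdiff_subset
    · rw [e8 K hK]
      exact hI.G2 K hK
  · -- F1
    intro p hp
    obtain ⟨K, hK, hpK⟩ := mem_biUnion.mp (hI.F1 hp)
    rw [e1]
    refine mem_biUnion.mpr ⟨K, mem_insert_of_mem hK, ?_⟩
    rw [e8 K hK]
    exact hpK
  · -- Sb1
    rw [e1]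
    intro K hK
    rw [mem_insert] at hK
    rcases hK with rfl | hK
    · exact disjoint_of_subset_right hI.SbS hLS
    · exact hI.Sb1 K hK
  · -- closure
    refine ⟨Function.update E L (L \ st.F),
      fun a b => if b = L then L ∩ st.G a else if a = L then ∅ else H a b, ?_⟩
    rw [e1]
    intro b hb
    rw [mem_insert] at hb
    rcases hb with rfl | hb
    · refine ⟨?_, ?_, ?_⟩
      · rw [Function.update_self]
        exact hLk.le
      · intro a ha hab
        rw [mem_insert] at ha
        rcases ha with rfl | ha
        · exact (hab rfl).elim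
        · simp only [if_true]
          exact ⟨inter_subset_inter_left (hI.G2 a ha), hLG a ha⟩
      · intro p hp
        rw [Function.update_self]
        by_cases hpF : p ∈ st.F
        · by_cases hpb : p ∈ st.Fb
          · exact mem_union_left _ (mem_union_left _ hpb)
          · obtain ⟨K, hK, hpK⟩ := mem_biUnion.mp (hI.F1 (mem_sdiff.mpr ⟨hpF, hpb⟩))
            refine mem_union_right _ (mem_biUnion.mpr ⟨K, ?_, ?_⟩)
            · rw [mem_erase]
              exact ⟨fun h => hLsk (h ▸ hK), mem_insert_of_mem hK⟩
            · simp only [if_true]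
              exact mem_inter.mpr ⟨hp, hpK⟩
        · exact mem_union_left _ (mem_union_right _ (mem_sdiff.mpr ⟨hp, hpF⟩))
    · have hbL : b ≠ L := fun h => hLsk (h ▸ hb)
      obtain ⟨f1, f2, f3⟩ := hEH b hb
      refine ⟨?_, ?_, ?_⟩
      · rw [Function.update_of_ne hbL]
        exact f1
      · intro a ha hab
        rw [mem_insert] at ha
        rcases ha with rfl | ha
        · simp only [if_neg hbL, if_true]
          exact ⟨empty_subset _, by simp⟩
        · have haL : a ≠ L := fun h => hLsk (h ▸ ha)
          simp only [if_neg hbL, if_neg haL]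
          exact f2 a ha hab
      · rw [Function.update_of_ne hbL]
        intro p hp
        have := f3 hp
        rw [mem_union] at this ⊢
        rcases this with h | h
        · exact Or.inl h
        · right
          obtain ⟨a, ha, hpa⟩ := mem_biUnion.mp h
          rw [mem_erase] at ha
          have haL : a ≠ L := fun h => hLsk (h ▸ ha.2)
          refine mem_biUnion.mpr ⟨a, mem_erase.mpr ⟨ha.1, mem_insert_of_mem ha.2⟩, ?_⟩
          simp only [if_neg hbL, if_neg haL]
          exact hpa
  · -- unregistered lines
    intro L' hL' hS' hr'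
    rw [e9] at hr'
    push Not at hr'
    obtain ⟨g1, g2⟩ := hI.unreg L' hL' hS' hr'.1
    refine ⟨g1, ?_⟩
    rw [e1]
    intro K hK
    rw [mem_insert] at hK
    rcases hK with rfl | hK
    · by_contra hcon
      have hsub : L' ⊆ M.Z K := by
        intro p hp
        refine mem_union_right _ (mem_biUnion.mpr ⟨L', ?_, hp⟩)
        rw [mem_filter]
        refine ⟨hL', ?_⟩
        rw [inter_comm]
        omega
      have hsub2 : L' \ st.F ⊆ L' ∩ (M.Z K \ (st.F ∪ st.S)) := by
        intro p hp
        rw [mem_sdiff] at hp
        rw [mem_inter, mem_sdiff, mem_union]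
        refine ⟨hp.1, hsub hp.1, ?_⟩
        rintro (h | h)
        · exact hp.2 h
        · exact disjoint_left.mp hS' hp.1 h
      have := card_le_card hsub2
      have := hr'.2
      have g1' : M.k ≤ (L' \ st.F).card := g1
      omega
    · exact g2 K hK
  · -- self
    rw [e1]
    intro K hK
    rw [mem_insert] at hK
    rw [e9]
    rcases hK with rfl | hK
    · right
      have hsub : K \ st.F ⊆ K ∩ (M.Z K \ (st.F ∪ st.S)) := by
        intro p hp
        rw [mem_sdiff] at hp
        rw [mem_inter, mem_sdiff, mem_union]
        refine ⟨hp.1, hself K hp.1, ?_⟩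
        rintro (h | h)
        · exact hp.2 h
        · exact disjoint_left.mp hLS hp.1 h
      have := card_le_card hsub
      omega
    · left
      exact hI.self K hK

end VdWG
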