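import Pool.Agent.Lib.VdW.SpecC

set_option autoImplicit false

/-!
# Adding a line preserves the invariant of the small games (`CAddSStmt`)
-/

namespace VdWG

open Finset

theorem tCAddS (h1 : CSkStmt) (h2 : CPotStmt) (h3 : CRegStmt) : CAddSStmt := by
  intro V _ _ M st X hM hI hX L hL hreg
  have hLsk : L ∉ st.sk := fun h => hreg (hI.self L h)
  obtain ⟨e1, e2, e3, e4, e5, e6, e7, e8, e9⟩ := h1 V M st L hLsk
  have hPDold : ∀ D ∈ st.D, M.PD (M.add st L) D = M.PD st D ∧
      ∀ x, M.PDx (M.add st L) D x = M.PDx st D x := by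
    intro D hD
    have hK : ∀ K ∈ D, (M.add st L).G K = st.G K := fun K hK =>
      e8 K (mem_biUnion.mpr ⟨D, hD, hK⟩)
    refine ⟨?_, fun x => ?_⟩
    · unfold Sys.PD
      apply sum_congr rfl
      intro K hKD
      rw [hK K hKD]
      rfl
    · unfold Sys.PDx
      apply sum_congr rfl
      intro K hKD
      rw [hK K hKD]
      rfl
  have hdisjB : ∀ D ∈ st.D, ∀ D' ∈ st.D, D ≠ D' → Disjoint D D' := by
    intro D hD D' hD' hne
    rw [disjoint_left]
    intro K hK hK'
    have hKne : K.Nonempty := by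
      rw [← card_pos, hM.hF.card K ((hI.blk D hD).1 hK)]
      have := hM.num.n5
      have := hM.num.nm
      omega
    obtain ⟨p, hp⟩ := hKne
    have hz : p ∈ M.Z K := mem_union_left _ hp
    exact disjoint_left.mp (hI.dis D hD D' hD' hne) (mem_biUnion.mpr ⟨K, hK, hz⟩)
      (mem_biUnion.mpr ⟨K, hK', hz⟩)
  intro D hD
  rw [show (M.add st L).D = insert (M.nb st L)
    (st.D.filter (fun D => Disjoint (M.Z L) (M.zone D))) from rfl, mem_insert] at hD
  rcases hD with rfl | hD
  · set A := st.D.filter (fun D => ¬ Disjoint (M.Z L) (M.zone D)) with hA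
    have hnb : M.nb st L = insert L (A.biUnion id) := rfl
    have hLA : L ∉ A.biUnion id := by
      intro h
      obtain ⟨D, hD, hLD⟩ := mem_biUnion.mp h
      exact hLsk (mem_biUnion.mpr ⟨D, (mem_filter.mp hD).1, hLD⟩)
    have hpw : (↑A : Set (Finset (Finset V))).PairwiseDisjoint id := by
      intro D hD D' hD' hne
      exact hdisjB D (mem_filter.mp hD).1 D' (mem_filter.mp hD').1 hne
    have hcard : ((M.nb st L).card : ℝ) = 1 + ∑ D ∈ A, (D.card : ℝ) := by
      rw [hnb, card_insert_of_notMem hLA, card_biUnion hpw]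
      push_cast
      rw [add_comm]
      rfl
    have hG0 : Disjoint (M.Z L \ (st.F ∪ st.S)) st.F :=
      disjoint_of_subset_right subset_union_left sdiff_disjoint
    have hPL : M.P st.F st.S (M.Z L \ (st.F ∪ st.S)) ≤ M.rho / 2 :=
      h3 V M hM L hL st.F st.S _ sdiff_subset hG0
    have hPD : M.PD (M.add st L) (M.nb st L) =
        M.P st.F st.S (M.Z L \ (st.F ∪ st.S)) + ∑ D ∈ A, M.PD st D := by
      have h6 : ∑ D ∈ A, ∑ K ∈ id D, M.P st.F st.S ((M.add st L).G K) = ∑ D ∈ A, M.PD st D := by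
        apply sum_congr rfl
        intro D hD
        exact (hPDold D (mem_filter.mp hD).1).1
      have h7 : M.PD (M.add st L) (M.nb st L) =
        ∑ K ∈ insert L (A.biUnion id), M.P st.F st.S ((M.add st L).G K) := rfl
      rw [h7, sum_insert hLA, e7, sum_biUnion hpw, h6]
    have hPDx : ∀ x, M.PDx (M.add st L) (M.nb st L) x =
        M.Px st.F st.S (M.Z L \ (st.F ∪ st.S)) x + ∑ D ∈ A, M.PDx st D x := by
      intro x
      have h6 : ∑ D ∈ A, ∑ K ∈ id D, M.Px st.F st.S ((M.add st L).G K) x =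
          ∑ D ∈ A, M.PDx st D x := by
        apply sum_congr rfl
        intro D hD
        exact (hPDold D (mem_filter.mp hD).1).2 x
      have h7 : M.PDx (M.add st L) (M.nb st L) x =
        ∑ K ∈ insert L (A.biUnion id), M.Px st.F st.S ((M.add st L).G K) x := rfl
      rw [h7, sum_insert hLA, e7, sum_biUnion hpw, h6]
    have hrho : 0 ≤ M.rho := by
      unfold Sys.rho
      positivity
    refine ⟨?_, ?_⟩
    · rw [hPD, hcard, add_mul, sum_mul]
      have : ∑ D ∈ A, M.PD st D ≤ ∑ D ∈ A, (D.card : ℝ) * M.rho :=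
        sum_le_sum (fun D hD => (hX D (mem_filter.mp hD).1).1)
      linarith
    · intro hd x hxF hxS
      rw [hPD, hPDx, hcard, add_mul, sum_mul]
      have h5 : M.Px st.F st.S (M.Z L \ (st.F ∪ st.S)) x ≤
          M.P st.F st.S (M.Z L \ (st.F ∪ st.S)) := ((h2 V M st.F st.S _).2.2.2.2.2 x).2
      have : ∑ D ∈ A, (M.PD st D + M.PDx st D x) ≤ ∑ D ∈ A, (D.card : ℝ) * M.rho := by
        apply sum_le_sum
        intro D hD
        apply (hX D (mem_filter.mp hD).1).2 _ x hxF hxS
        refine disjoint_of_subset_right ?_ hd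
        intro p hp
        obtain ⟨K, hK, hpK⟩ := mem_biUnion.mp hp
        refine mem_biUnion.mpr ⟨K, ?_, hpK⟩
        rw [hnb]
        exact mem_insert_of_mem (mem_biUnion.mpr ⟨D, hD, hK⟩)
      rw [sum_add_distrib] at this
      linarith
  · have hD' := (mem_filter.mp hD).1
    obtain ⟨g1, g2⟩ := hPDold D hD'
    obtain ⟨f1, f2⟩ := hX D hD'
    refine ⟨by rw [g1]; exact f1, ?_⟩
    intro hd x hxF hxS
    rw [g1, g2]
    exact f2 hd x hxF hxS

end VdWG
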