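import Pool.Agent.Lib.VdW.SpecC

set_option autoImplicit false

/-!
# The union of a line and adjacent blocks is connected (`CConnStmt`)
-/

namespace VdWG

open Finset

namespace CConnM

variable {V : Type} [Fintype V] [DecidableEq V] (M : Sys V)

theorem union (C C' : Finset (Finset V)) (hC : M.Conn C) (hC' : M.Conn C')
    (hadj : ∃ K ∈ C, ∃ K' ∈ C', ¬ Disjoint (M.Z K) (M.Z K')) : M.Conn (C ∪ C') := by
  refine ⟨hC.1.mono subset_union_left, ?_⟩
  intro X hX hXne hXneq
  obtain ⟨K, hK, K', hK', hKK⟩ := hadj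
  by_cases h1 : (X ∩ C).Nonempty ∧ X ∩ C ≠ C
  · obtain ⟨a, ha, b, hb, hab⟩ := hC.2 (X ∩ C) inter_subset_right h1.1 h1.2
    rw [mem_inter] at ha
    rw [mem_sdiff, mem_inter] at hb
    refine ⟨a, ha.1, b, ?_, hab⟩
    rw [mem_sdiff, mem_union]
    exact ⟨Or.inl hb.1, fun h => hb.2 ⟨h, hb.1⟩⟩
  by_cases h2 : (X ∩ C').Nonempty ∧ X ∩ C' ≠ C'
  · obtain ⟨a, ha, b, hb, hab⟩ := hC'.2 (X ∩ C') inter_subset_right h2.1 h2.2
    rw [mem_inter] at ha
    rw [mem_sdiff, mem_inter] at hb
    refine ⟨a, ha.1, b, ?_, hab⟩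
    rw [mem_sdiff, mem_union]
    exact ⟨Or.inr hb.1, fun h => hb.2 ⟨h, hb.1⟩⟩
  have e1 : X ∩ C = ∅ ∨ C ⊆ X := by
    by_cases h : (X ∩ C).Nonempty
    · right
      by_contra hcon
      apply h1
      refine ⟨h, ?_⟩
      intro heq
      apply hcon
      rw [← heq]
      exact inter_subset_left
    · left
      exact not_nonempty_iff_eq_empty.mp h
  have e2 : X ∩ C' = ∅ ∨ C' ⊆ X := by
    by_cases h : (X ∩ C').Nonempty
    · right
      by_contra hcon
      apply h2
      refine ⟨h, ?_⟩
      intro heq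
      apply hcon
      rw [← heq]
      exact inter_subset_left
    · left
      exact not_nonempty_iff_eq_empty.mp h
  rcases e1 with e1 | e1
  · rcases e2 with e2 | e2
    · exfalso
      obtain ⟨x, hx⟩ := hXne
      have := hX hx
      rw [mem_union] at this
      rcases this with h | h
      · have : x ∈ X ∩ C := mem_inter.mpr ⟨hx, h⟩
        rw [e1] at this
        exact (notMem_empty x this).elim
      · have : x ∈ X ∩ C' := mem_inter.mpr ⟨hx, h⟩
        rw [e2] at this
        exact (notMem_empty x this).elim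
    · refine ⟨K', e2 hK', K, ?_, fun h => hKK h.symm⟩
      rw [mem_sdiff, mem_union]
      refine ⟨Or.inl hK, ?_⟩
      intro h
      have : K ∈ X ∩ C := mem_inter.mpr ⟨h, hK⟩
      rw [e1] at this
      exact (notMem_empty K this).elim
  · rcases e2 with e2 | e2
    · refine ⟨K, e1 hK, K', ?_, hKK⟩
      rw [mem_sdiff, mem_union]
      refine ⟨Or.inr hK', ?_⟩
      intro h
      have : K' ∈ X ∩ C' := mem_inter.mpr ⟨h, hK'⟩
      rw [e2] at this
      exact (notMem_empty K' this).elim
    · exact (hXneq (subset_antisymm hX (union_subset e1 e2))).elim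

theorem single (L : Finset V) : M.Conn {L} := by
  refine ⟨singleton_nonempty L, ?_⟩
  intro X hX hne hneq
  rw [subset_singleton_iff] at hX
  rcases hX with rfl | rfl
  · exact (not_nonempty_empty hne).elim
  · exact (hneq rfl).elim

end CConnM

theorem tCConn : CConnStmt := by
  intro V _ _ M L D' hD'
  induction D' using Finset.induction_on with
  | empty =>
    rw [biUnion_empty]
    exact CConnM.single M L
  | insert D E hDE ih =>
    have h1 := ih (fun D hD => hD' D (mem_insert_of_mem hD))
    obtain ⟨h2, h3⟩ := hD' D (mem_insert_self _ _)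
    have e : insert L ((insert D E).biUnion id) = insert L (E.biUnion id) ∪ D := by
      rw [biUnion_insert, insert_union]
      simp only [id]
      rw [union_comm D]
    rw [e]
    apply CConnM.union M _ _ h1 h2
    rw [not_disjoint_iff] at h3
    obtain ⟨p, hp, hp2⟩ := h3
    obtain ⟨K, hK, hpK⟩ := mem_biUnion.mp hp2
    exact ⟨L, mem_insert_self _ _, K, hK, not_disjoint_iff.mpr ⟨p, hp, hpK⟩⟩

end VdWG
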