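import Pool.Agent.Lib.VdW.SpecC

set_option autoImplicit false

/-!
# The end of the play (`CEndStmt`)
-/

namespace VdWG

open Finset

theorem tCEnd (h0 : CHypP) (h1 : CFSStmt) (h2 : CFBStmt) (h3 : CEnd1Stmt) : CEndStmt := by
  intro V _ _ M hM F S hPos
  obtain ⟨st, rfl, rfl, hInv⟩ := hPos
  refine ⟨?_, ?_⟩
  · intro huniv
    exact h3 V M hM st ∅ (M.k + 1) (by omega) hInv.1 hInv.2.1
      ((h0.cons V M hM st.Fb st.Sb (M.B st)).2 hInv.2.2).1 huniv
  · intro x hxF hxS huniv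
    have hk : 1 ≤ M.k := by
      have := hM.num.k2
      omega
    by_cases hB : x ∈ M.B st
    · obtain ⟨g1, g2, g3, g4, g5⟩ := h1 V M hM st x hInv hxF hxS hB
      exact h3 V M hM {st with F := insert x st.F} {x} M.k hk g1 g2
        ((h0.cons V M hM st.Fb st.Sb (M.B st)).2 g5).1 huniv
    · obtain ⟨g1, g2, g3⟩ := h2 V M hM st x hInv hxF hxS hB
      exact h3 V M hM {st with F := insert x st.F, Fb := insert x st.Fb} ∅ M.k hk g1 g2
        g3.1 huniv

end VdWG
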