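import Pool.Agent.Lib.VdW.SpecC

set_option autoImplicit false

/-!
# The end of the play, for a state (`CEnd1Stmt`)
-/

namespace VdWG

open Finset

theorem tCEnd1 : CEnd1Stmt := by
  intro V _ _ M hM st X t ht hI hX hT huniv
  refine ⟨?_, ?_⟩
  · have hne : (M.bg.Λ' st.Fb st.Sb (M.B st)).Nonempty := by
      rw [nonempty_iff_ne_empty]
      intro h
      unfold BG.T at hT
      rw [h, sum_empty] at hT
      exact lt_irrefl _ hT
    obtain ⟨l, hl⟩ := hne
    unfold BG.Λ' at hl
    rw [mem_filter] at hl
    obtain ⟨hl1, hl2, hl3⟩ := hl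
    refine ⟨l, hl1, ?_⟩
    intro p hp
    have hpu : p ∈ st.F ∪ st.S := by
      rw [huniv]
      exact mem_univ p
    rw [mem_union] at hpu
    rcases hpu with hpF | hpS
    · by_cases hpb : p ∈ st.Fb
      · exact (disjoint_left.mp hl2 hp hpb).elim
      · obtain ⟨K, hK, hpK⟩ := mem_biUnion.mp (hI.F1 (mem_sdiff.mpr ⟨hpF, hpb⟩))
        have hpB : p ∈ M.B st := mem_biUnion.mpr ⟨K, hK, hI.G2 K hK hpK⟩
        exact hI.SbS (hl3 (mem_inter.mpr ⟨hp, hpB⟩))
    · exact hpS
  · intro L hL hLF
    have hLS : Disjoint L st.S := disjoint_of_subset_left hLF hI.disj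
    have hL0 : (L \ st.F).card = 0 := by
      rw [card_eq_zero, sdiff_eq_empty_iff_subset]
      exact hLF
    by_cases hr : M.reg st L
    · obtain ⟨K, hK, hc⟩ := hr
      obtain ⟨D, hD, hKD⟩ := mem_biUnion.mp hK
      have hKD' : K ∈ D := hKD
      have hnn : ∀ (G : Finset V) (L : Finset V), 0 ≤ (if Disjoint (L ∩ G) st.S then
          (1 / 2 : ℝ) ^ ((L ∩ G) \ st.F).card else 0) := by
        intro G L
        split_ifs
        · positivity
        · exact le_refl _
      have h1 : 1 ≤ M.P st.F st.S (st.G K) := by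
        have hmem : L ∈ M.LF.filter (fun L => M.k ≤ (L ∩ st.G K).card) :=
          mem_filter.mpr ⟨hL, hc⟩
        have h2 := single_le_sum (f := fun L : Finset V => if Disjoint (L ∩ st.G K) st.S then
          (1 / 2 : ℝ) ^ ((L ∩ st.G K) \ st.F).card else 0)
          (fun L _ => hnn (st.G K) L) hmem
        have h3 : Disjoint (L ∩ st.G K) st.S := disjoint_of_subset_left inter_subset_left hLS
        have h4 : ((L ∩ st.G K) \ st.F).card = 0 := by
          rw [card_eq_zero, sdiff_eq_empty_iff_subset]
          exact inter_subset_left.trans hLF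
        simp only [if_pos h3, h4, pow_zero] at h2
        exact h2
      have h2 : 1 ≤ M.PD st D := by
        refine h1.trans ?_
        exact single_le_sum (f := fun K => M.P st.F st.S (st.G K))
          (fun K _ => sum_nonneg (fun L _ => hnn (st.G K) L)) hKD'
      have h3 := (hX D hD).1
      have h4 : (D.card : ℝ) * M.rho < 1 := by
        have h5 : (D.card : ℝ) ≤ M.q := by exact_mod_cast (hI.blk D hD).2.2
        have h6 : 2 * (M.q : ℝ) * (M.A : ℝ) ^ 3 < 2 ^ M.k := by exact_mod_cast hM.num.h2
        have h7 : 0 ≤ M.rho := by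
          unfold Sys.rho
          positivity
        refine lt_of_le_of_lt (mul_le_mul_of_nonneg_right h5 h7) ?_
        unfold Sys.rho
        rw [← mul_div_assoc, div_lt_one (by positivity)]
        linarith
      linarith
    · have := (hI.unreg L hL hLS hr).1
      omega

end VdWG
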