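import Pool.Agent.Lib.VdW.SpecC

/-!
# The van der Waerden game: module CExtra
-/

set_option autoImplicit false

namespace VdWG

open Finset

theorem tCExtra (h1 : CMonoStmt) : CExtraStmt := by
  intro V _ _ M st z h hz
  obtain ⟨hI, hS, hM⟩ := h
  have hd : Disjoint st.F (insert z st.S) := Finset.disjoint_insert_right.2 ⟨hz, hI.disj⟩
  obtain ⟨h2, h3⟩ := h1 V M st (insert z st.S) (Finset.subset_insert z st.S) hd
  exact ⟨h2 _ hI, h3 _ hS, hM⟩

end VdWG
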