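import Pool.Agent.Lib.VdW.SpecC

/-!
# A big move of the first player
-/

set_option autoImplicit false

namespace VdWG

open Finset

namespace CFBM

private lemma inv {V : Type} [DecidableEq V] (M : Sys V) (st : St V) (x : V) (hI : M.Inv st (M.k + 1)) (hxS : x ∉ st.S) :
    M.Inv {st with F := insert x st.F, Fb := insert x st.Fb} M.k where
  FbF := insert_subset_insert x hI.FbF
  SbS := hI.SbS
  disj := disjoint_insert_left.2 ⟨hxS, hI.disj⟩
  blk := hI.blk
  dis := hI.dis
  unr := hI.unr
  G1 := fun K hK => by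
    refine Subset.trans ?_ (hI.G1 K hK)
    exact sdiff_subset_sdiff (Subset.refl _) (union_subset_union (subset_insert x st.F) (Subset.refl _))
  G2 := hI.G2
  F1 := by
    refine Subset.trans ?_ hI.F1
    intro y hy
    have hy' : y ∈ insert x st.F \ insert x st.Fb := hy
    rw [mem_sdiff, mem_insert, mem_insert, not_or] at hy'
    rw [mem_sdiff]
    exact ⟨hy'.1.resolve_left hy'.2.1, hy'.2.2⟩
  Sb1 := hI.Sb1
  cl := by
    obtain ⟨E, H, h⟩ := hI.cl
    refine ⟨E, H, fun b hb => ⟨(h b hb).1, (h b hb).2.1, Subset.trans (h b hb).2.2 ?_⟩⟩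
    exact union_subset_union (union_subset_union (subset_insert x st.Fb) (Subset.refl _))
      (Subset.refl _)
  unreg := fun L hL hLS hr => by
    have h1 : M.k + 1 ≤ (L \ st.F).card ∧ ∀ K ∈ st.sk, (L ∩ K).card ≤ 1 := hI.unreg L hL hLS hr
    refine ⟨?_, h1.2⟩
    show M.k ≤ (L \ insert x st.F).card
    rw [sdiff_insert]
    have h2 := pred_card_le_card_erase (s := L \ st.F) (a := x)
    omega
  self := hI.self

end CFBM

theorem tCFB (h1 : CHypP) (h2 : CPotStmt) : CFBStmt := by
  intro V _ _ M hM st x hF hxF hxS hxB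
  obtain ⟨hI, hSm, hMF⟩ := hF
  refine ⟨CFBM.inv M st x hI hxS, ?_, ?_⟩
  · intro D hD
    have hxG : ∀ K ∈ D, x ∉ st.G K := by
      intro K hK hx
      have hKs : K ∈ st.sk := by
        rw [St.sk, mem_biUnion]
        exact ⟨D, hD, hK⟩
      refine hxB ?_
      rw [Sys.B, Sys.zone, mem_biUnion]
      exact ⟨K, hKs, hI.G2 K hKs hx⟩
    have e1 : M.PD {st with F := insert x st.F, Fb := insert x st.Fb} D = M.PD st D := by
      refine sum_congr rfl fun K hK => ?_
      exact ((h2 V M st.F st.S (st.G K)).2.2.2.1 x (hxG K hK)).1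
    have e2 : ∀ x', M.PDx {st with F := insert x st.F, Fb := insert x st.Fb} D x' =
        M.PDx st D x' := by
      intro x'
      refine sum_congr rfl fun K hK => ?_
      exact ((h2 V M st.F st.S (st.G K)).2.2.2.1 x (hxG K hK)).2 x'
    have h3 := hSm D hD
    refine ⟨?_, fun hd x' hx' hx'' => ?_⟩
    · rw [e1]
      exact h3.1
    · rw [e1, e2]
      exact h3.2 hd x' (fun h => hx' (mem_insert_of_mem h)) hx''
  · exact ((h1.cons V M hM st.Fb st.Sb (M.B st)).2 hMF).2.2 x (fun h => hxF (hI.FbF h))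
      (fun h => hxS (hI.SbS h)) hxB

end VdWG
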