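import Pool.Agent.Lib.VdW.SpecC

set_option autoImplicit false

/-!
# A small move of the first player (`CFSStmt`)
-/

namespace VdWG

open Finset

theorem tCFS (h1 : CPotStmt) : CFSStmt := by
  intro V _ _ M hG st x hInv hxF hxS hxB
  obtain ⟨hI, hSm, hMF⟩ := hInv
  obtain ⟨K₀, hK₀, hxK₀⟩ := mem_biUnion.mp hxB
  have hxG₀ : x ∈ st.G K₀ := by
    apply hI.G1 K₀ hK₀
    rw [mem_sdiff, mem_union]
    exact ⟨hxK₀, fun h => h.elim hxF hxS⟩
  refine ⟨?_, ?_, mem_insert_self _ _, hxB, hMF⟩
  · exact
    { FbF := hI.FbF.trans (subset_insert _ _)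
      SbS := hI.SbS
      disj := by
        change Disjoint (insert x st.F) st.S
        rw [disjoint_insert_left]
        exact ⟨hxS, hI.disj⟩
      blk := hI.blk
      dis := hI.dis
      unr := hI.unr
      G1 := fun K hK => by
        change M.Z K \ (insert x st.F ∪ st.S) ⊆ st.G K
        refine subset_trans ?_ (hI.G1 K hK)
        exact sdiff_subset_sdiff (subset_refl _)
          (union_subset_union_left (subset_insert _ _))
      G2 := hI.G2
      F1 := by
        change insert x st.F \ st.Fb ⊆ st.sk.biUnion st.G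
        intro y hy
        rw [mem_sdiff, mem_insert] at hy
        rcases hy with ⟨rfl | hy1, hy2⟩
        · exact mem_biUnion.mpr ⟨K₀, hK₀, hxG₀⟩
        · exact hI.F1 (mem_sdiff.mpr ⟨hy1, hy2⟩)
      Sb1 := hI.Sb1
      cl := hI.cl
      unreg := fun L hL hd hr => by
        obtain ⟨u1, u2⟩ := hI.unreg L hL hd hr
        refine ⟨?_, u2⟩
        change M.k ≤ (L \ insert x st.F).card
        have h2 : L \ insert x st.F = (L \ st.F).erase x := by
          ext y
          simp only [mem_sdiff, mem_insert, mem_erase]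
          tauto
        rw [h2]
        have h3 := pred_card_le_card_erase (s := L \ st.F) (a := x)
        omega
      self := hI.self }
  · intro D hD
    have hD' : D ∈ st.D := hD
    obtain ⟨g1, g2⟩ := hSm D hD'
    have e1 : M.PD {st with F := insert x st.F} D = M.PD st D + M.PDx st D x := by
      unfold Sys.PD Sys.PDx
      rw [← sum_add_distrib]
      exact sum_congr rfl fun K hK => (h1 V M st.F st.S (st.G K)).1 x hxF
    refine ⟨?_, fun hX x' hx'F hx'S => ?_⟩
    · rw [e1]
      exact g2 (disjoint_empty_left _) x hxF hxS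
    · have hx'F' : x' ∉ insert x st.F := hx'F
      have hxG : ∀ K ∈ D, x ∉ st.G K := by
        intro K hK hxK
        have hKsk : K ∈ st.sk := mem_biUnion.mpr ⟨D, hD', hK⟩
        have hxZ : x ∈ M.zone D := mem_biUnion.mpr ⟨K, hK, hI.G2 K hKsk hxK⟩
        exact disjoint_left.mp hX (mem_singleton_self x) hxZ
      have e2 : M.PD {st with F := insert x st.F} D = M.PD st D := by
        unfold Sys.PD
        exact sum_congr rfl fun K hK =>
          ((h1 V M st.F st.S (st.G K)).2.2.2.1 x (hxG K hK)).1
      have e3 : M.PDx {st with F := insert x st.F} D x' = M.PDx st D x' := by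
        unfold Sys.PDx
        exact sum_congr rfl fun K hK =>
          ((h1 V M st.F st.S (st.G K)).2.2.2.1 x (hxG K hK)).2 x'
      rw [e2, e3]
      exact g2 (disjoint_empty_left _) x' (fun h => hx'F' (mem_insert_of_mem h)) hx'S

end VdWG
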