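import Pool.Agent.Lib.VdW.SpecC

set_option autoImplicit false

/-!
# Monotonicity in the stones of the second player (`CMonoStmt`)
-/

namespace VdWG

open Finset

theorem tCMono (h1 : CPotStmt) : CMonoStmt := by
  intro V _ _ M st S' hS hF
  refine ⟨?_, ?_⟩
  · intro t hI
    exact
      { FbF := hI.FbF
        SbS := hI.SbS.trans hS
        disj := hF
        blk := hI.blk
        dis := hI.dis
        unr := hI.unr
        G1 := by
          intro K hK
          refine subset_trans ?_ (hI.G1 K hK)
          exact sdiff_subset_sdiff (Subset.refl _) (union_subset_union (Subset.refl _) hS)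
        G2 := hI.G2
        F1 := hI.F1
        Sb1 := hI.Sb1
        cl := hI.cl
        unreg := by
          intro L hL hd hr
          exact hI.unreg L hL (disjoint_of_subset_right hS hd) hr
        self := hI.self }
  · intro X hX D hD
    obtain ⟨g1, g2⟩ := hX D hD
    have e1 : M.PD {st with S := S'} D ≤ M.PD st D :=
      sum_le_sum (fun K _ => ((h1 V M st.F st.S (st.G K)).2.2.1 S' hS).1)
    refine ⟨e1.trans g1, ?_⟩
    intro hd x hxF hxS
    have e2 : M.PDx {st with S := S'} D x ≤ M.PDx st D x :=
      sum_le_sum (fun K _ => ((h1 V M st.F st.S (st.G K)).2.2.1 S' hS).2 x)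
    have := g2 hd x hxF (fun h => hxS (hS h))
    linarith

end VdWG
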