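import Pool.Agent.Lib.VdW.SpecC

set_option autoImplicit false

/-!
# The small potential (`CPotStmt`)
-/

namespace VdWG

open Finset

theorem CPotM.px_eq {V : Type} [Fintype V] [DecidableEq V] (M : Sys V) (F S G : Finset V) (x : V) :
    M.Px F S G x = ∑ L ∈ M.LF.filter (fun L => M.k ≤ (L ∩ G).card),
      if x ∈ L ∩ G then (if Disjoint (L ∩ G) S then (1 / 2 : ℝ) ^ ((L ∩ G) \ F).card else 0)
        else 0 := by
  unfold Sys.Px
  rw [← filter_filter, sum_filter (fun L => x ∈ L ∩ G)]

theorem tCPot : CPotStmt := by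
  intro V _ _ M F S G
  have hnn : ∀ L : Finset V, 0 ≤ (if Disjoint (L ∩ G) S then
      (1 / 2 : ℝ) ^ ((L ∩ G) \ F).card else 0) := by
    intro L
    split_ifs
    · positivity
    · exact le_refl _
  refine ⟨?_, ?_, ?_, ?_, ?_, ?_⟩
  · intro x hx
    rw [CPotM.px_eq]
    unfold Sys.P
    rw [← sum_add_distrib]
    apply sum_congr rfl
    intro L _
    by_cases hd : Disjoint (L ∩ G) S
    · simp only [if_pos hd]
      by_cases hxL : x ∈ L ∩ G
      · rw [if_pos hxL]
        have h1 : (L ∩ G) \ insert x F = ((L ∩ G) \ F).erase x := by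
          rw [sdiff_insert]
        have h2 : x ∈ (L ∩ G) \ F := mem_sdiff.mpr ⟨hxL, hx⟩
        have h3 : (((L ∩ G) \ F).erase x).card + 1 = ((L ∩ G) \ F).card :=
          card_erase_add_one h2
        rw [h1, ← h3, pow_succ]
        ring
      · rw [if_neg hxL]
        have h1 : (L ∩ G) \ insert x F = (L ∩ G) \ F := by
          rw [sdiff_insert, erase_eq_of_notMem]
          exact fun h => hxL (mem_sdiff.mp h).1
        rw [h1, add_zero]
    · simp only [if_neg hd]
      simp
  · intro y
    rw [CPotM.px_eq]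
    unfold Sys.P
    rw [← sum_sub_distrib]
    apply sum_congr rfl
    intro L _
    by_cases hy : y ∈ L ∩ G
    · rw [if_pos hy]
      have : ¬ Disjoint (L ∩ G) (insert y S) := by
        rw [not_disjoint_iff]
        exact ⟨y, hy, mem_insert_self _ _⟩
      rw [if_neg this]
      ring
    · rw [if_neg hy, sub_zero]
      have : Disjoint (L ∩ G) (insert y S) ↔ Disjoint (L ∩ G) S := by
        rw [disjoint_insert_right]
        exact ⟨fun h => h.2, fun h => ⟨hy, h⟩⟩
      simp only [this]
  · intro S' hS'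
    have hle : ∀ L : Finset V, (if Disjoint (L ∩ G) S' then
        (1 / 2 : ℝ) ^ ((L ∩ G) \ F).card else 0) ≤ (if Disjoint (L ∩ G) S then
        (1 / 2 : ℝ) ^ ((L ∩ G) \ F).card else 0) := by
      intro L
      by_cases hd : Disjoint (L ∩ G) S'
      · have : Disjoint (L ∩ G) S := disjoint_of_subset_right hS' hd
        rw [if_pos hd, if_pos this]
      · rw [if_neg hd]
        exact hnn L
    exact ⟨sum_le_sum (fun L _ => hle L), fun x => sum_le_sum (fun L _ => hle L)⟩
  · intro x hx
    have hT : ∀ L : Finset V, (L ∩ G) \ insert x F = (L ∩ G) \ F := by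
      intro L
      rw [sdiff_insert, erase_eq_of_notMem]
      exact fun h => hx (mem_inter.mp (mem_sdiff.mp h).1).2
    refine ⟨?_, ?_⟩
    · unfold Sys.P
      simp only [hT]
    · intro x'
      unfold Sys.Px
      simp only [hT]
  · intro x hx
    unfold Sys.Px
    apply sum_eq_zero
    intro L hL
    rw [mem_filter] at hL
    exact (hx (mem_inter.mp hL.2.2).2).elim
  · intro x
    refine ⟨sum_nonneg (fun L _ => hnn L), ?_⟩
    rw [CPotM.px_eq]
    unfold Sys.P
    apply sum_le_sum
    intro L _
    by_cases h : x ∈ L ∩ G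
    · rw [if_pos h]
    · rw [if_neg h]
      exact hnn L

end VdWG
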