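import Pool.Agent.Lib.VdW.SpecC

/-!
# The answer to a big move (`CRBStmt`)
-/

set_option autoImplicit false

namespace VdWG

open Finset

/-- **CRB.** The answer to a big move. -/
theorem tCRB (h1 : CHypP) (h2 : CMonoStmt) : CRBStmt := by
  intro V _ _ M hM st hst
  obtain ⟨hI, hSm, hMS⟩ := hst
  obtain ⟨m1, m2⟩ := h1.move V M hM st.Fb st.Sb (M.B st) hMS
  by_cases hz : ∀ z, z ∈ st.Fb ∨ z ∈ st.Sb ∨ z ∈ M.B st
  · exact ⟨st, rfl, Or.inl rfl, hI, hSm, m1 hz⟩
  · push Not at hz
    obtain ⟨y, hy1, hy2, hy3, hMF⟩ := m2 hz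
    have hZ : ∀ K ∈ st.sk, y ∉ M.Z K := fun K hK hyK =>
      hy3 (mem_biUnion.2 ⟨K, hK, hyK⟩)
    have hyF : y ∉ st.F := by
      intro hF
      obtain ⟨K, hK, hyK⟩ := mem_biUnion.1 (hI.F1 (mem_sdiff.2 ⟨hF, hy1⟩))
      exact hZ K hK (hI.G2 K hK hyK)
    have hd : Disjoint st.F (insert y st.S) := disjoint_insert_right.2 ⟨hyF, hI.disj⟩
    obtain ⟨g1, g2⟩ := h2 V M st (insert y st.S) (subset_insert _ _) hd
    have hI' := g1 _ hI
    refine ⟨{st with S := insert y st.S, Sb := insert y st.Sb}, rfl, ?_, ?_, ?_, hMF⟩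
    · by_cases hyS : y ∈ st.S
      · exact Or.inl (insert_eq_self.2 hyS)
      · exact Or.inr ⟨y, hyF, hyS, rfl⟩
    · exact
        { FbF := hI'.FbF
          SbS := insert_subset_insert y hI.SbS
          disj := hI'.disj
          blk := hI'.blk
          dis := hI'.dis
          unr := hI'.unr
          G1 := hI'.G1
          G2 := hI'.G2
          F1 := hI'.F1
          Sb1 := fun K hK => disjoint_insert_right.2
            ⟨fun hyK => hZ K hK (mem_union_left _ hyK), hI.Sb1 K hK⟩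
          cl := hI'.cl
          unreg := hI'.unreg
          self := hI'.self }
    · exact g2 _ hSm

end VdWG
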