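import Pool.Agent.Lib.VdW.SpecC

set_option autoImplicit false

/-!
# The answer to a small move (`CRSStmt`)
-/

namespace VdWG

open Finset

theorem tCRS (h1 : CPotStmt) (h2 : CMonoStmt) : CRSStmt := by
  intro V _ _ M hM st x hInv
  obtain ⟨hI, hX, hxF, hxB, hMF⟩ := hInv
  obtain ⟨K₀, hK₀, hxK₀⟩ := mem_biUnion.mp hxB
  obtain ⟨D₀, hD₀, hKD₀⟩ := mem_biUnion.mp hK₀
  have hxD₀ : x ∈ M.zone D₀ := mem_biUnion.mpr ⟨K₀, hKD₀, hxK₀⟩
  have hother : ∀ D ∈ st.D, D ≠ D₀ → Disjoint {x} (M.zone D) := by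
    intro D hD hne
    rw [disjoint_singleton_left]
    intro h
    exact disjoint_left.mp (hI.dis D hD D₀ hD₀ hne) h hxD₀
  have hG : ∀ K ∈ D₀, st.G K ⊆ M.zone D₀ := by
    intro K hK p hp
    exact mem_biUnion.mpr ⟨K, hK, hI.G2 K (mem_biUnion.mpr ⟨D₀, hD₀, hK⟩) hp⟩
  have hzero : ∀ x', x' ∉ M.zone D₀ → M.PDx st D₀ x' = 0 := by
    intro x' hx'
    apply sum_eq_zero
    intro K hK
    exact (h1 V M st.F st.S (st.G K)).2.2.2.2.1 x' (fun h => hx' (hG K hK h))
  have hnn : ∀ x', 0 ≤ M.PDx st D₀ x' := by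
    intro x'
    apply sum_nonneg
    intro K _
    exact ((h1 V M st.F st.S (st.G K)).2.2.2.2.2 x').1
  by_cases hfree : ((M.zone D₀) \ (st.F ∪ st.S)).Nonempty
  · obtain ⟨y, hy, hmax⟩ := exists_max_image _ (fun y => M.PDx st D₀ y) hfree
    rw [mem_sdiff, mem_union] at hy
    push Not at hy
    have hd : Disjoint st.F (insert y st.S) := by
      rw [disjoint_insert_right]
      exact ⟨hy.2.1, hI.disj⟩
    obtain ⟨b1, b2⟩ := h2 V M st (insert y st.S) (subset_insert _ _) hd
    refine ⟨{st with S := insert y st.S}, rfl, Or.inr ⟨y, hy.2.1, hy.2.2, rfl⟩, b1 _ hI, ?_, hMF⟩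
    intro D hD
    by_cases hDD : D = D₀
    · subst hDD
      have e1 : M.PD {st with S := insert y st.S} D = M.PD st D - M.PDx st D y := by
        unfold Sys.PD Sys.PDx
        rw [← sum_sub_distrib]
        exact sum_congr rfl (fun K _ => (h1 V M st.F st.S (st.G K)).2.1 y)
      have e2 : ∀ x', M.PDx {st with S := insert y st.S} D x' ≤ M.PDx st D x' := by
        intro x'
        exact sum_le_sum (fun K _ =>
          ((h1 V M st.F st.S (st.G K)).2.2.1 (insert y st.S) (subset_insert _ _)).2 x')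
      have g1 := (hX D hD).1
      refine ⟨?_, ?_⟩
      · rw [e1]
        have := hnn y
        linarith
      · intro _ x' hx'F hx'S
        have hx'S' : x' ∉ st.S := fun h => hx'S (mem_insert_of_mem h)
        rw [e1]
        have h5 := e2 x'
        have h6 : M.PDx st D x' ≤ M.PDx st D y := by
          by_cases hz : x' ∈ M.zone D
          · apply hmax
            rw [mem_sdiff, mem_union]
            refine ⟨hz, ?_⟩
            rintro (h | h)
            · exact hx'F h
            · exact hx'S' h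
          · rw [hzero x' hz]
            exact hnn y
        linarith
    · obtain ⟨f1, f2⟩ := b2 _ hX D hD
      exact ⟨f1, fun _ => f2 (hother D hD hDD)⟩
  · refine ⟨st, rfl, Or.inl rfl, hI, ?_, hMF⟩
    intro D hD
    by_cases hDD : D = D₀
    · subst hDD
      have g1 := (hX D hD).1
      refine ⟨g1, ?_⟩
      intro _ x' hx'F hx'S
      have hz : x' ∉ M.zone D := by
        intro h
        apply hfree
        refine ⟨x', ?_⟩
        rw [mem_sdiff, mem_union]
        refine ⟨h, ?_⟩
        rintro (h | h)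
        · exact hx'F h
        · exact hx'S h
      rw [hzero x' hz, add_zero]
      exact g1
    · obtain ⟨f1, f2⟩ := hX D hD
      exact ⟨f1, fun _ => f2 (hother D hD hDD)⟩

end VdWG
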