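import Pool.Agent.Lib.VdW.SpecC

set_option autoImplicit false

/-!
# The number of the lines which a new line registers (`CRegStmt`)
-/

namespace VdWG

open Finset

theorem tCReg : CRegStmt := by
  intro V _ _ M hM L hL F S G₀ hG hGF
  have hcount : (M.LF.filter (fun L' => M.k ≤ (L' ∩ G₀).card)).card ≤ M.A ^ 3 := by
    have hsub : M.LF.filter (fun L' => M.k ≤ (L' ∩ G₀).card) ⊆
        (M.Z L).offDiag.biUnion (fun p => M.LF.filter (fun L' => p.1 ∈ M.Z L' ∧ p.2 ∈ M.Z L')) := by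
      intro L' hL'
      rw [mem_filter] at hL'
      have h2 : 1 < (L' ∩ G₀).card := by
        have := hM.num.k2
        omega
      obtain ⟨a, ha, b, hb, hab⟩ := one_lt_card.mp h2
      rw [mem_inter] at ha hb
      refine mem_biUnion.mpr ⟨(a, b), ?_, ?_⟩
      · rw [mem_offDiag]
        exact ⟨hG ha.2, hG hb.2, hab⟩
      · rw [mem_filter]
        exact ⟨hL'.1, mem_union_left _ ha.1, mem_union_left _ hb.1⟩
    refine (card_le_card hsub).trans ?_
    refine (card_biUnion_le_card_mul _ _ M.A ?_).trans ?_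
    · intro p hp
      rw [mem_offDiag] at hp
      exact hM.hF.pair p.1 p.2 hp.2.2
    · have h1 : (M.Z L).offDiag.card ≤ M.A * M.A := by
        rw [offDiag_card]
        have := Nat.mul_le_mul (hM.hF.zone L hL) (hM.hF.zone L hL)
        omega
      calc (M.Z L).offDiag.card * M.A ≤ (M.A * M.A) * M.A := Nat.mul_le_mul_right _ h1
        _ = M.A ^ 3 := by ring
  unfold Sys.P
  have hterm : ∀ L' ∈ M.LF.filter (fun L' => M.k ≤ (L' ∩ G₀).card),
      (if Disjoint (L' ∩ G₀) S then (1 / 2 : ℝ) ^ ((L' ∩ G₀) \ F).card else 0) ≤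
      (1 / 2 : ℝ) ^ M.k := by
    intro L' hL'
    rw [mem_filter] at hL'
    split_ifs
    · have e : (L' ∩ G₀) \ F = L' ∩ G₀ := by
        exact Finset.sdiff_eq_self_of_disjoint (disjoint_of_subset_left inter_subset_right hGF)
      rw [e]
      exact pow_le_pow_of_le_one (by norm_num) (by norm_num) hL'.2
    · positivity
  refine (sum_le_card_nsmul _ _ _ hterm).trans ?_
  rw [nsmul_eq_mul]
  unfold Sys.rho
  have h3 : ((M.LF.filter (fun L' => M.k ≤ (L' ∩ G₀).card)).card : ℝ) ≤ (M.A : ℝ) ^ 3 := by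
    exact_mod_cast hcount
  calc ((M.LF.filter (fun L' => M.k ≤ (L' ∩ G₀).card)).card : ℝ) * (1 / 2 : ℝ) ^ M.k
      ≤ (M.A : ℝ) ^ 3 * (1 / 2 : ℝ) ^ M.k := mul_le_mul_of_nonneg_right h3 (by positivity)
    _ = 2 * (M.A : ℝ) ^ 3 / 2 ^ M.k / 2 := by
      rw [one_div, inv_pow]
      field_simp

end VdWG
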