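import Pool.Agent.Lib.VdW.SpecC

set_option autoImplicit false

/-!
# The size of the new block (`CSizeStmt`)
-/

namespace VdWG

open Finset

theorem CSizeM.ne {V : Type} [Fintype V] [DecidableEq V] {M : Sys V} (hM : M.Good) {K : Finset V}
    (hK : K ∈ M.LF) : K.Nonempty := by
  rw [← card_pos, hM.hF.card K hK]
  have := hM.num.n5
  have := hM.num.nm
  omega

theorem CSizeM.disj {V : Type} [Fintype V] [DecidableEq V] {M : Sys V} {st : St V} {t : ℕ}
    (hM : M.Good) (hI : M.Inv st t) {D D' : Finset (Finset V)} (hD : D ∈ st.D) (hD' : D' ∈ st.D)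
    (hne : D ≠ D') : Disjoint D D' := by
  rw [disjoint_left]
  intro K hK hK'
  obtain ⟨p, hp⟩ := CSizeM.ne hM ((hI.blk D hD).1 hK)
  have hz : p ∈ M.Z K := mem_union_left _ hp
  exact disjoint_left.mp (hI.dis D hD D' hD' hne) (mem_biUnion.mpr ⟨K, hK, hz⟩)
    (mem_biUnion.mpr ⟨K, hK', hz⟩)

theorem tCSize (h1 : CWtStmt) (h2 : CSubStmt) (h3 : CConnStmt) : CSizeStmt := by
  intro V _ _ M st t hM hI hPh L hL hreg
  classical
  have hLsk : L ∉ st.sk := fun h => hreg (hI.self L h)
  by_contra hcon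
  push Not at hcon
  set X := st.D.filter (fun D => ¬ Disjoint (M.Z L) (M.zone D)) with hX
  have hc1 : (M.nb st L).card ≤ 1 + ∑ D ∈ X, D.card := by
    unfold Sys.nb
    refine (card_insert_le _ _).trans ?_
    have h5 : ((st.D.filter (fun D => ¬ Disjoint (M.Z L) (M.zone D))).biUnion id).card ≤
        ∑ D ∈ X, D.card := card_biUnion_le (s := X) (t := id)
    omega
  obtain ⟨Y, hY, hY1, hY2⟩ := h2 (Finset (Finset V)) X (fun D => D.card) M.q hM.num.q1
    (fun D hD => (hI.blk D (mem_filter.mp hD).1).2.2) (by omega)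
  have hYD : Y ⊆ st.D := hY.trans (filter_subset _ _)
  have hcard : (Y.biUnion id).card = ∑ D ∈ Y, D.card := by
    rw [card_biUnion]
    · rfl
    · intro D hD D' hD' hne
      exact CSizeM.disj hM hI (hYD hD) (hYD hD') hne
  have hsub : Y.biUnion id ⊆ st.sk := by
    intro K hK
    obtain ⟨D, hD, hKD⟩ := mem_biUnion.mp hK
    exact mem_biUnion.mpr ⟨D, hYD hD, hKD⟩
  have hw := h1 V M st t hM.num.n5 hI Y hYD (by omega)
  have hmem : (L, Y.biUnion id) ∈ M.X2 := by
    unfold Sys.X2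
    refine mem_filter.mpr ⟨mem_product.mpr ⟨hL, mem_powerset.mpr ?_⟩, ?_, ?_, ?_, ?_, ?_⟩
    · intro K hK
      obtain ⟨D, hD, hKD⟩ := mem_biUnion.mp hK
      exact (hI.blk D (hYD hD)).1 hKD
    · exact fun h => hLsk (hsub h)
    · apply h3
      intro D hD
      have := mem_filter.mp (hY hD)
      exact ⟨(hI.blk D this.1).2.1, this.2⟩
    · intro K hK K' hK' hne
      exact hI.unr K (hsub hK) K' (hsub hK') hne
    · show M.q ≤ (Y.biUnion id).card
      omega
    · show (Y.biUnion id).card < 2 * M.q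
      omega
  have hge : M.bg.w₂ st.Fb st.Sb (L, Y.biUnion id) ≤ M.bg.Ph st.Fb st.Sb := by
    unfold BG.Ph
    refine single_le_sum (f := fun i => M.bg.w₂ st.Fb st.Sb i) ?_ hmem
    intro i _
    show 0 ≤ M.bg.w₂ st.Fb st.Sb i
    unfold BG.w₂ BG.w
    split_ifs
    · apply div_nonneg
      · show 0 ≤ M.cf i.2
        unfold Sys.cf
        positivity
      · apply pow_nonneg
        show 0 ≤ 2 - 2 / (M.n : ℝ)
        have hn : (5 : ℝ) ≤ M.n := by exact_mod_cast hM.num.n5
        have : 2 / (M.n : ℝ) ≤ 1 := by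
          rw [div_le_one (by linarith)]
          linarith
        linarith
    · exact le_refl _
  have : M.bg.w₂ st.Fb st.Sb (L, Y.biUnion id) =
    M.bg.w st.Fb st.Sb (un (Y.biUnion id)) (M.cf (Y.biUnion id)) := rfl
  rw [this] at hge
  linarith

end VdWG
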