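import Pool.Agent.Lib.VdW.SpecC

set_option autoImplicit false

/-!
# The skeleton after adding a line (`CSkStmt`)
-/

namespace VdWG

open Finset

theorem tCSk : CSkStmt := by
  intro V _ _ M st L hL
  have hD : (M.add st L).D = insert (M.nb st L)
      (st.D.filter (fun D => Disjoint (M.Z L) (M.zone D))) := rfl
  have e1 : (M.add st L).sk = insert L st.sk := by
    unfold St.sk
    rw [hD]
    ext K
    rw [mem_biUnion, mem_insert, mem_biUnion]
    constructor
    · rintro ⟨D, hD1, hK⟩
      rw [mem_insert] at hD1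
      rcases hD1 with rfl | hD1
      · have hK' : K ∈ M.nb st L := hK
        unfold Sys.nb at hK'
        rw [mem_insert] at hK'
        rcases hK' with h | h
        · exact Or.inl h
        · obtain ⟨D2, hD2, hK2⟩ := mem_biUnion.mp h
          exact Or.inr ⟨D2, (mem_filter.mp hD2).1, hK2⟩
      · exact Or.inr ⟨D, (mem_filter.mp hD1).1, hK⟩
    · rintro (rfl | ⟨D, hD1, hK⟩)
      · exact ⟨M.nb st K, mem_insert_self _ _, mem_insert_self _ _⟩
      · by_cases hdj : Disjoint (M.Z L) (M.zone D)
        · exact ⟨D, mem_insert_of_mem (mem_filter.mpr ⟨hD1, hdj⟩), hK⟩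
        · refine ⟨M.nb st L, mem_insert_self _ _, ?_⟩
          exact mem_insert_of_mem (mem_biUnion.mpr ⟨D, mem_filter.mpr ⟨hD1, hdj⟩, hK⟩)
  have e2 : M.B (M.add st L) = M.Z L ∪ M.B st := by
    unfold Sys.B Sys.zone
    rw [e1, biUnion_insert]
  have e5 : M.nb st L ⊆ insert L st.sk := by
    intro K hK
    unfold Sys.nb at hK
    rw [mem_insert] at hK ⊢
    rcases hK with h | h
    · exact Or.inl h
    · obtain ⟨D2, hD2, hK2⟩ := mem_biUnion.mp h
      exact Or.inr (mem_biUnion.mpr ⟨D2, (mem_filter.mp hD2).1, hK2⟩)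
  have e7 : (M.add st L).G L = M.Z L \ (st.F ∪ st.S) := Function.update_self _ _ _
  have e8 : ∀ K ∈ st.sk, (M.add st L).G K = st.G K := by
    intro K hK
    have hne : K ≠ L := fun h => hL (h ▸ hK)
    exact Function.update_of_ne hne _ _
  refine ⟨e1, e2, ?_, ?_, e5, mem_insert_self _ _, e7, e8, ?_⟩
  · rw [e2]
    exact subset_union_right
  · rw [e2]
    apply union_subset
    · refine subset_trans ?_ subset_union_right
      intro p hp
      exact mem_biUnion.mpr ⟨L, mem_insert_self _ _, hp⟩
    · exact subset_union_left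
  · intro L'
    unfold Sys.reg
    rw [e1]
    constructor
    · rintro ⟨K, hK, hc⟩
      rw [mem_insert] at hK
      rcases hK with rfl | hK
      · rw [e7] at hc
        exact Or.inr hc
      · rw [e8 K hK] at hc
        exact Or.inl ⟨K, hK, hc⟩
    · rintro (⟨K, hK, hc⟩ | hc)
      · refine ⟨K, mem_insert_of_mem hK, ?_⟩
        rw [e8 K hK]
        exact hc
      · refine ⟨L, mem_insert_self _ _, ?_⟩
        rw [e7]
        exact hc

end VdWG
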