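import Pool.Agent.Lib.VdW.SpecC

set_option autoImplicit false

/-!
# The start (`CStartStmt`)
-/

namespace VdWG

open Finset

theorem tCStart (h0 : CHypP) : CStartStmt := by
  intro V _ _ M hM
  have hsk : (⟨∅, ∅, ∅, ∅, ∅, fun _ => ∅⟩ : St V).sk = ∅ := by
    unfold St.sk
    exact biUnion_empty
  have hB : M.B (⟨∅, ∅, ∅, ∅, ∅, fun _ => ∅⟩ : St V) = ∅ := by
    unfold Sys.B Sys.zone
    rw [hsk]
    exact biUnion_empty
  have hmk : M.k + 1 ≤ M.m := by
    have h4 := hM.num.h4
    have hn := hM.num.n5
    have hq := hM.num.q1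
    have hA := hM.num.A1
    by_contra hcon
    push Not at hcon
    have h5 : 2 ^ M.m ≤ 2 ^ M.k := Nat.pow_le_pow_right (by norm_num) (by omega)
    have h6 : 2 ^ M.k < 2 ^ (M.n + M.k) := Nat.pow_lt_pow_right (by norm_num) (by omega)
    have h7 : 1 ≤ 3276800 * M.n ^ 2 * M.q * M.A ^ 3 := by
      have a1 : 1 ≤ M.n ^ 2 := Nat.one_le_pow _ _ (by omega)
      have a2 : 1 ≤ M.A ^ 3 := Nat.one_le_pow _ _ (by omega)
      have a3 : 1 ≤ 3276800 * M.n ^ 2 := by omega
      have a4 : 1 ≤ 3276800 * M.n ^ 2 * M.q := Nat.mul_le_mul a3 hq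
      exact Nat.mul_le_mul a4 a2
    have h8 : 2 ^ (M.n + M.k) ≤ 3276800 * M.n ^ 2 * M.q * M.A ^ 3 * 2 ^ (M.n + M.k) := by
      calc 2 ^ (M.n + M.k) = 1 * 2 ^ (M.n + M.k) := (one_mul _).symm
        _ ≤ _ := Nat.mul_le_mul_right _ h7
    omega
  refine ⟨⟨∅, ∅, ∅, ∅, ∅, fun _ => ∅⟩, rfl, rfl, ?_, ?_, ?_⟩
  · exact
      { FbF := Subset.refl _
        SbS := Subset.refl _
        disj := disjoint_empty_left _
        blk := fun D hD => (notMem_empty D hD).elim
        dis := fun D hD => (notMem_empty D hD).elim
        unr := by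
          intro K hK
          rw [hsk] at hK
          exact (notMem_empty K hK).elim
        G1 := by
          intro K hK
          rw [hsk] at hK
          exact (notMem_empty K hK).elim
        G2 := by
          intro K hK
          rw [hsk] at hK
          exact (notMem_empty K hK).elim
        F1 := by
          intro p hp
          exact (notMem_empty p (mem_sdiff.mp hp).1).elim
        Sb1 := by
          intro K hK
          rw [hsk] at hK
          exact (notMem_empty K hK).elim
        cl := by
          refine ⟨fun _ => ∅, fun _ _ => ∅, ?_⟩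
          intro K hK
          rw [hsk] at hK
          exact (notMem_empty K hK).elim
        unreg := by
          intro L hL _ _
          refine ⟨?_, ?_⟩
          · show M.k + 1 ≤ (L \ ∅).card
            rw [sdiff_empty, hM.hF.card L hL]
            exact hmk
          · intro K hK
            rw [hsk] at hK
            exact (notMem_empty K hK).elim
        self := by
          intro K hK
          rw [hsk] at hK
          exact (notMem_empty K hK).elim }
  · intro D hD
    exact (notMem_empty D hD).elim
  · rw [hB]
    exact h0.start V M hM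

end VdWG
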