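import Pool.Agent.Lib.VdW.SpecC

set_option autoImplicit false

/-!
# A subset with weight in `[q, 2q)` (`CSubStmt`)
-/

namespace VdWG

open Finset

theorem tCSub : CSubStmt := by
  intro α _ X f q hq hf hX
  obtain ⟨Y, hY, hmin⟩ := exists_min_image
    (X.powerset.filter (fun Y => q ≤ ∑ x ∈ Y, f x)) (fun Y => Y.card)
    ⟨X, mem_filter.mpr ⟨mem_powerset_self X, hX⟩⟩
  rw [mem_filter, mem_powerset] at hY
  refine ⟨Y, hY.1, hY.2, ?_⟩
  have hne : Y.Nonempty := by
    rw [nonempty_iff_ne_empty]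
    rintro rfl
    have := hY.2
    simp at this
    omega
  obtain ⟨y, hy⟩ := hne
  by_contra hcon
  push Not at hcon
  have hsum := add_sum_erase Y f hy
  have hfy := hf y (hY.1 hy)
  have h2 : q ≤ ∑ x ∈ Y.erase y, f x := by omega
  have := hmin (Y.erase y) (mem_filter.mpr
    ⟨mem_powerset.mpr ((erase_subset _ _).trans hY.1), h2⟩)
  have h3 := card_erase_lt_of_mem hy
  omega

end VdWG
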