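import Pool.Agent.Lib.VdW.SpecC

set_option autoImplicit false

/-!
# The update (`CUpdStmt`)
-/

namespace VdWG

open Finset

theorem CUpdM.inv {V : Type} [Fintype V] [DecidableEq V] {M : Sys V} {st : St V}
    (hI : M.Inv st M.k)
    (h : ∀ L ∈ M.LF, Disjoint L st.S → ¬ M.reg st L → (L \ st.F).card ≠ M.k) :
    M.Inv st (M.k + 1) where
  FbF := hI.FbF
  SbS := hI.SbS
  disj := hI.disj
  blk := hI.blk
  dis := hI.dis
  unr := hI.unr
  G1 := hI.G1
  G2 := hI.G2
  F1 := hI.F1
  Sb1 := hI.Sb1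
  cl := hI.cl
  unreg := by
    intro L hL hS hr
    obtain ⟨g1, g2⟩ := hI.unreg L hL hS hr
    have := h L hL hS hr
    exact ⟨by omega, g2⟩
  self := hI.self

theorem tCUpd (h1 : CSkStmt) (h2 : CUpd1Stmt) : CUpdStmt := by
  intro V _ _ M hM
  have key : ∀ (c : ℕ) (st : St V), (M.LF \ st.sk).card = c →
      (∀ x, M.InvS st x M.k → ∃ st' : St V, st'.F = st.F ∧ st'.S = st.S ∧
        M.InvS st' x (M.k + 1)) ∧
      (M.InvB st M.k → ∃ st' : St V, st'.F = st.F ∧ st'.S = st.S ∧
        M.InvB st' (M.k + 1)) := by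
    intro c
    induction c using Nat.strong_induction_on with
    | _ c ih =>
      intro st hc
      by_cases hex : ∃ L ∈ M.LF, Disjoint L st.S ∧ ¬ M.reg st L ∧ (L \ st.F).card = M.k
      · obtain ⟨L, hL, hS, hr, hk⟩ := hex
        obtain ⟨u1, u2⟩ := h2 V M hM st L hL hS hr hk
        have hlt : ∀ t, M.Inv st t → (M.LF \ (M.add st L).sk).card < c := by
          intro t hI
          have hLsk : L ∉ st.sk := fun h => hr (hI.self L h)
          rw [(h1 V M st L hLsk).1, ← hc]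
          apply card_lt_card
          rw [ssubset_iff_of_subset (sdiff_subset_sdiff (Subset.refl _) (subset_insert _ _))]
          exact ⟨L, mem_sdiff.mpr ⟨hL, hLsk⟩,
            fun h => (mem_sdiff.mp h).2 (mem_insert_self _ _)⟩
        refine ⟨?_, ?_⟩
        · intro x hx
          obtain ⟨st', a1, a2, a3⟩ := (ih _ (hlt M.k hx.1) (M.add st L) rfl).1 x (u1 x hx)
          exact ⟨st', a1, a2, a3⟩
        · intro hx
          obtain ⟨st', a1, a2, a3⟩ := (ih _ (hlt M.k hx.1) (M.add st L) rfl).2 (u2 hx)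
          exact ⟨st', a1, a2, a3⟩
      · push Not at hex
        refine ⟨?_, ?_⟩
        · rintro x ⟨hI, hX, hxF, hxB, hMF⟩
          exact ⟨st, rfl, rfl, CUpdM.inv hI hex, hX, hxF, hxB, hMF⟩
        · rintro ⟨hI, hX, hMS⟩
          exact ⟨st, rfl, rfl, CUpdM.inv hI hex, hX, hMS⟩
  intro st
  exact key _ st rfl

end VdWG
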