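import Pool.Agent.Lib.VdW.SpecC

set_option autoImplicit false

/-!
# One step of the update (`CUpd1Stmt`)
-/

namespace VdWG

open Finset

theorem tCUpd1 (h0 : CHypP) (h1 : CSkStmt) (h2 : CSizeStmt) (h3 : CAddIStmt) (h4 : CAddSStmt)
    (h5 : CAddBStmt) : CUpd1Stmt := by
  intro V _ _ M hM st L hL hLS hreg hLk
  refine ⟨?_, ?_⟩
  · rintro x ⟨hI, hX, hxF, hxB, hMF⟩
    have hLsk : L ∉ st.sk := fun h => hreg (hI.self L h)
    obtain ⟨e1, e2, e3, e4, e5, e6, e7, e8, e9⟩ := h1 V M st L hLsk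
    have hPh := (((h0.cons V M hM st.Fb st.Sb (M.B st)).2) hMF).2.1
    have hnb := h2 V M st M.k hM hI hPh L hL hreg
    have hI' := h3 V M st hM hI L hL hLS hreg hLk hnb
    obtain ⟨hC, hw⟩ := h5 V M st hM L hLsk hI'
    exact ⟨hI', h4 V M st {x} hM hI hX L hL hreg, hxF, e3 hxB,
      (h0.pres V M hM st.Fb st.Sb (M.B st) (M.B (M.add st L)) (M.nb st L) hC hw e3 e4).2 hMF⟩
  · rintro ⟨hI, hX, hMS⟩
    have hLsk : L ∉ st.sk := fun h => hreg (hI.self L h)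
    obtain ⟨e1, e2, e3, e4, e5, e6, e7, e8, e9⟩ := h1 V M st L hLsk
    have hPh := (((h0.cons V M hM st.Fb st.Sb (M.B st)).1) hMS).2
    have hnb := h2 V M st M.k hM hI hPh L hL hreg
    have hI' := h3 V M st hM hI L hL hLS hreg hLk hnb
    obtain ⟨hC, hw⟩ := h5 V M st hM L hLsk hI'
    exact ⟨hI', h4 V M st ∅ hM hI hX L hL hreg,
      (h0.pres V M hM st.Fb st.Sb (M.B st) (M.B (M.add st L)) (M.nb st L) hC hw e3 e4).1 hMS⟩

end VdWG
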