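import Pool.Agent.Lib.VdW.SpecC

set_option autoImplicit false

/-!
# The weight of a union of blocks is at least one (`CWtStmt`)
-/

namespace VdWG

open Finset

theorem tCWt (h1 : CCovStmt) : CWtStmt := by
  intro V _ _ M st t hn hI D' hD' hq
  obtain ⟨g1, g2⟩ := h1 V M st t hI D' hD' hq
  unfold BG.w
  rw [if_pos g2]
  have hth : M.bg.th = 2 - 2 / (M.n : ℝ) := rfl
  have hn' : (5 : ℝ) ≤ M.n := by exact_mod_cast hn
  have h2n : 0 < 2 / (M.n : ℝ) := by positivity
  have h2n' : 2 / (M.n : ℝ) ≤ 1 := by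
    rw [div_le_one (by linarith)]
    linarith
  have t1 : 1 ≤ M.bg.th := by rw [hth]; linarith
  have t2 : M.bg.th ≤ 2 := by rw [hth]; linarith
  rw [le_div_iff₀ (by positivity), one_mul]
  unfold Sys.cf
  calc M.bg.th ^ (un (D'.biUnion id) \ st.Fb).card
      ≤ M.bg.th ^ (M.k * (D'.biUnion id).card + M.s (D'.biUnion id)) :=
        pow_le_pow_right₀ t1 g1
    _ ≤ 2 ^ (M.k * (D'.biUnion id).card + M.s (D'.biUnion id)) :=
        pow_le_pow_left₀ (by linarith) t2 _

end VdWG
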