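import Pool.Agent.Lib.VdW.SpecA

/-!
# The sums over the configurations with a given root
-/

set_option autoImplicit false

namespace VdWG

open Finset

namespace XCnt

/-- If every element `C` of `T` can be written as `insert L D` with `D ∈ S` and `L ∈ e D`, then the sum over
`T` is at most the double sum. -/
theorem sum_step {V : Type} [DecidableEq V] (T S : Finset (Finset (Finset V)))
    (e : Finset (Finset V) → Finset (Finset V)) (f : Finset (Finset V) → ℝ) (hf : ∀ C, 0 ≤ f C)
    (h : ∀ C ∈ T, ∃ L ∈ C, C.erase L ∈ S ∧ L ∈ e (C.erase L)) :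
    ∑ C ∈ T, f C ≤ ∑ D ∈ S, ∑ L ∈ e D, f (insert L D) := by
  classical
  have hall : ∀ C : Finset (Finset V), ∃ L : Finset V,
      C ∈ T → L ∈ C ∧ C.erase L ∈ S ∧ L ∈ e (C.erase L) := by
    intro C
    by_cases hC : C ∈ T
    · obtain ⟨L, hL⟩ := h C hC
      exact ⟨L, fun _ => hL⟩
    · exact ⟨∅, fun h => absurd h hC⟩
  choose g hg using hall
  rw [Finset.sum_sigma']
  have hinj : ∀ C ∈ T, insert (g C) (C.erase (g C)) = C := fun C hC =>
    Finset.insert_erase (hg C hC).1
  have e1 : ∑ C ∈ T, f C = ∑ p ∈ T.image (fun C => (⟨C.erase (g C), g C⟩ :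
      (_ : Finset (Finset V)) × Finset V)), f (insert p.2 p.1) := by
    rw [Finset.sum_image]
    · apply Finset.sum_congr rfl
      intro C hC
      show f C = f (insert (g C) (C.erase (g C)))
      rw [hinj C hC]
    · intro C hC C' hC' hEq
      have h1 : C.erase (g C) = C'.erase (g C') := congrArg Sigma.fst hEq
      have h2 : g C = g C' := by
        have := congrArg (fun p : ((_ : Finset (Finset V)) × Finset V) => p.2) hEq
        exact this
      rw [← hinj C hC, ← hinj C' hC', h1, h2]
  rw [e1]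
  apply Finset.sum_le_sum_of_subset_of_nonneg
  · intro p hp
    rw [Finset.mem_image] at hp
    obtain ⟨C, hC, rfl⟩ := hp
    rw [Finset.mem_sigma]
    exact (hg C hC).2
  · intro p _ _
    exact hf _

variable {V : Type} [DecidableEq V]

theorem unrel_sub {C D : Finset (Finset V)} (h : Unrel C) (hDC : D ⊆ C) : Unrel D :=
  fun K hK K' hK' hne => h K (hDC hK) K' (hDC hK') hne

variable (M : Sys V)

theorem wt_nonneg (hn : 5 ≤ M.n) (C : Finset (Finset V)) : 0 ≤ M.wt0 C := by
  have h5 : (5 : ℝ) ≤ (M.n : ℝ) := by exact_mod_cast hn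
  have h2 : 2 / (M.n : ℝ) ≤ 1 := by
    rw [div_le_one (by linarith)]
    linarith
  have ht : 0 ≤ M.th := by
    unfold Sys.th
    linarith
  unfold Sys.wt0 Sys.cf
  positivity

theorem dl_nonneg (N m k q A : ℕ) : 0 ≤ dl N m k q A := by
  unfold dl
  positivity

end XCnt

open XCnt in
/-- **Cnt.** -/
theorem tCnt (h1 : SMinStmt) (h2 : ExtStmt) (h3 : LeafStmt) : CntStmt := by
  intro V _ _ M hF hN r hr j
  obtain ⟨-, -, hs0, -⟩ := h1 V M
  have hd0 := dl_nonneg (Fintype.card V) M.m M.k M.q M.A
  have hw0 : ∀ C, 0 ≤ M.wt0 C := wt_nonneg M hN.n5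
  set δ := dl (Fintype.card V) M.m M.k M.q M.A with hδ
  induction j with
  | zero =>
    intro _
    refine ⟨?_, ?_⟩
    · have hsub : M.WW r 0 ⊆ {∅} := by
        intro C hC
        simp only [Sys.WW, Finset.mem_filter] at hC
        rw [Finset.mem_singleton]
        exact Finset.card_eq_zero.mp hC.2.2.2.2
      have hw : M.wt0 ∅ = 1 := by
        unfold Sys.wt0 Sys.cf un
        rw [hs0]
        simp
      calc ∑ C ∈ M.WW r 0, M.wt0 C ≤ ∑ C ∈ {∅}, M.wt0 C :=
            Finset.sum_le_sum_of_subset_of_nonneg hsub (fun C _ _ => hw0 C)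
        _ = 1 := by rw [Finset.sum_singleton, hw]
        _ = δ ^ 0 := (pow_zero δ).symm
        _ ≤ δ ^ 0 := le_rfl
    · have hsub : M.VV r 0 ⊆ {{r}} := by
        intro C hC
        simp only [Sys.VV, Finset.mem_filter] at hC
        obtain ⟨-, hrC, -, -, hc⟩ := hC
        rw [Finset.mem_singleton]
        obtain ⟨a, ha⟩ := Finset.card_eq_one.mp (by omega : C.card = 1)
        rw [ha] at hrC ⊢
        rw [Finset.mem_singleton.mp hrC]
      calc ∑ C ∈ M.VV r 0, M.wt0 C ≤ ∑ C ∈ {{r}}, M.wt0 C :=
            Finset.sum_le_sum_of_subset_of_nonneg hsub (fun C _ _ => hw0 C)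
        _ = M.wt0 {r} := Finset.sum_singleton _ _
        _ = M.wt0 {r} * δ ^ 0 := by rw [pow_zero, mul_one]
        _ ≤ M.wt0 {r} * δ ^ 0 := le_rfl
  | succ j ih =>
    intro hj
    obtain ⟨ih1, ih2⟩ := ih (by omega)
    refine ⟨?_, ?_⟩
    · have hstep : ∀ C ∈ M.WW r (j + 1), ∃ L ∈ C, C.erase L ∈ M.WW r j ∧
          L ∈ M.ext (C.erase L) (insert r (C.erase L)) := by
        intro C hC
        simp only [Sys.WW, Finset.mem_filter, Finset.mem_powerset] at hC
        obtain ⟨hCF, hrC, hconn, hun, hc⟩ := hC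
        have hc2 : 2 ≤ (insert r C).card := by
          rw [Finset.card_insert_of_notMem hrC]
          omega
        obtain ⟨L, hL, hLr, hLc, hLd⟩ := h3 V M (insert r C) r hconn
          (Finset.mem_insert_self r C) hc2
        have hLC : L ∈ C := by
          rcases Finset.mem_insert.mp hL with h | h
          · exact absurd h hLr
          · exact h
        rw [Finset.erase_insert_of_ne (Ne.symm hLr)] at hLc hLd
        refine ⟨L, hLC, ?_, ?_⟩
        · simp only [Sys.WW, Finset.mem_filter, Finset.mem_powerset]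
          refine ⟨(Finset.erase_subset L C).trans hCF, fun h => hrC (Finset.mem_of_mem_erase h),
            hLc, unrel_sub hun (Finset.erase_subset L C), ?_⟩
          rw [Finset.card_erase_of_mem hLC]
          omega
        · simp only [Sys.ext, Finset.mem_filter]
          refine ⟨hCF hLC, Finset.notMem_erase L C, hLd, ?_⟩
          rw [Finset.insert_erase hLC]
          exact hun
      calc ∑ C ∈ M.WW r (j + 1), M.wt0 C
          ≤ ∑ D ∈ M.WW r j, ∑ L ∈ M.ext D (insert r D), M.wt0 (insert L D) :=
            sum_step _ _ (fun D => M.ext D (insert r D)) M.wt0 hw0 hstep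
        _ ≤ ∑ D ∈ M.WW r j, δ * M.wt0 D := by
            apply Finset.sum_le_sum
            intro D hD
            simp only [Sys.WW, Finset.mem_filter, Finset.mem_powerset] at hD
            obtain ⟨hDF, hrD, -, -, hDc⟩ := hD
            apply h2 V M hF hN D (insert r D) (Finset.subset_insert r D)
            · exact Finset.insert_subset hr hDF
            · rw [Finset.card_insert_of_notMem hrD]
              omega
        _ = δ * ∑ D ∈ M.WW r j, M.wt0 D := by rw [Finset.mul_sum]
        _ ≤ δ * δ ^ j := mul_le_mul_of_nonneg_left ih1 hd0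
        _ = δ ^ (j + 1) := (pow_succ' δ j).symm
    · have hstep : ∀ C ∈ M.VV r (j + 1), ∃ L ∈ C, C.erase L ∈ M.VV r j ∧
          L ∈ M.ext (C.erase L) (C.erase L) := by
        intro C hC
        simp only [Sys.VV, Finset.mem_filter, Finset.mem_powerset] at hC
        obtain ⟨hCF, hrC, hconn, hun, hc⟩ := hC
        obtain ⟨L, hL, hLr, hLc, hLd⟩ := h3 V M C r hconn hrC (by omega)
        refine ⟨L, hL, ?_, ?_⟩
        · simp only [Sys.VV, Finset.mem_filter, Finset.mem_powerset]
          refine ⟨(Finset.erase_subset L C).trans hCF, Finset.mem_erase.mpr ⟨Ne.symm hLr, hrC⟩,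
            hLc, unrel_sub hun (Finset.erase_subset L C), ?_⟩
          rw [Finset.card_erase_of_mem hL]
          omega
        · simp only [Sys.ext, Finset.mem_filter]
          refine ⟨hCF hL, Finset.notMem_erase L C, hLd, ?_⟩
          rw [Finset.insert_erase hL]
          exact hun
      calc ∑ C ∈ M.VV r (j + 1), M.wt0 C
          ≤ ∑ D ∈ M.VV r j, ∑ L ∈ M.ext D D, M.wt0 (insert L D) :=
            sum_step _ _ (fun D => M.ext D D) M.wt0 hw0 hstep
        _ ≤ ∑ D ∈ M.VV r j, δ * M.wt0 D := by
            apply Finset.sum_le_sum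
            intro D hD
            simp only [Sys.VV, Finset.mem_filter, Finset.mem_powerset] at hD
            obtain ⟨hDF, -, -, -, hDc⟩ := hD
            exact h2 V M hF hN D D (Finset.Subset.refl D) hDF (by omega)
        _ = δ * ∑ D ∈ M.VV r j, M.wt0 D := by rw [Finset.mul_sum]
        _ ≤ δ * (M.wt0 {r} * δ ^ j) := mul_le_mul_of_nonneg_left ih2 hd0
        _ = M.wt0 {r} * δ ^ (j + 1) := by rw [pow_succ']; ring

end VdWG
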