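import Pool.Agent.Lib.VdW.SpecA

/-!
# Unions of connected sets
-/

set_option autoImplicit false

namespace VdWG

open Finset

namespace ConnUM

variable {V : Type} [Fintype V] [DecidableEq V] (M : Sys V)

theorem aux (C C' X : Finset (Finset V)) (hC : M.Conn C) (hX1 : (X ∩ C).Nonempty)
    (hX2 : X ∩ C ≠ C) : ∃ K ∈ X, ∃ K' ∈ (C ∪ C') \ X, ¬ Disjoint (M.Z K) (M.Z K') := by
  obtain ⟨K, hK, K', hK', hd⟩ := hC.2 (X ∩ C) Finset.inter_subset_right hX1 hX2
  rw [Finset.mem_inter] at hK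
  rw [Finset.mem_sdiff, Finset.mem_inter] at hK'
  refine ⟨K, hK.1, K', ?_, hd⟩
  rw [Finset.mem_sdiff, Finset.mem_union]
  exact ⟨Or.inl hK'.1, fun h => hK'.2 ⟨h, hK'.1⟩⟩

end ConnUM

open ConnUM

theorem tConnU : ConnUStmt := by
  intro V _ _ M
  constructor
  · intro L
    refine ⟨Finset.singleton_nonempty L, fun X hX hne hX' => ?_⟩
    rcases Finset.subset_singleton_iff.1 hX with h | h
    · exact absurd h hne.ne_empty
    · exact absurd h hX'
  · intro C C' hC hC' hCC
    refine ⟨hC.1.mono Finset.subset_union_left, fun X hX hne hX' => ?_⟩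
    by_cases h1 : (X ∩ C).Nonempty ∧ X ∩ C ≠ C
    · exact aux M C C' X hC h1.1 h1.2
    by_cases h2 : (X ∩ C').Nonempty ∧ X ∩ C' ≠ C'
    · have := aux M C' C X hC' h2.1 h2.2
      rwa [Finset.union_comm] at this
    -- a pair meeting
    have hpair : ∃ K ∈ C, ∃ K' ∈ C', K = K' ∨ ¬ Disjoint (M.Z K) (M.Z K') := by
      rcases hCC with ⟨K, h3, h4⟩ | ⟨K, h3, K', h4, h5⟩
      · exact ⟨K, h3, K, h4, Or.inl rfl⟩
      · exact ⟨K, h3, K', h4, Or.inr h5⟩
    obtain ⟨K, hK, K', hK', hKK⟩ := hpair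
    by_cases h3 : (X ∩ C).Nonempty
    · have h4 : X ∩ C = C := by
        by_contra h
        exact h1 ⟨h3, h⟩
      have hCX : C ⊆ X := by
        rw [← h4]
        exact Finset.inter_subset_left
      by_cases h5 : (X ∩ C').Nonempty
      · have h6 : X ∩ C' = C' := by
          by_contra h
          exact h2 ⟨h5, h⟩
        have hCX' : C' ⊆ X := by
          rw [← h6]
          exact Finset.inter_subset_left
        exact absurd (Finset.Subset.antisymm hX (Finset.union_subset hCX hCX')) hX'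
      · have hK'X : K' ∉ X := fun h => h5 ⟨K', Finset.mem_inter.2 ⟨h, hK'⟩⟩
        rcases hKK with h | h
        · exact absurd (h ▸ hCX hK) hK'X
        · exact ⟨K, hCX hK, K', Finset.mem_sdiff.2 ⟨Finset.mem_union_right _ hK', hK'X⟩, h⟩
    · have hKX : K ∉ X := fun h => h3 ⟨K, Finset.mem_inter.2 ⟨h, hK⟩⟩
      have h5 : (X ∩ C').Nonempty := by
        obtain ⟨Y, hY⟩ := hne
        rcases Finset.mem_union.1 (hX hY) with h | h
        · exact absurd ⟨Y, Finset.mem_inter.2 ⟨hY, h⟩⟩ h3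
        · exact ⟨Y, Finset.mem_inter.2 ⟨hY, h⟩⟩
      have h6 : X ∩ C' = C' := by
        by_contra h
        exact h2 ⟨h5, h⟩
      have hCX' : C' ⊆ X := by
        rw [← h6]
        exact Finset.inter_subset_left
      rcases hKK with h | h
      · exact absurd (h ▸ hCX' hK') hKX
      · exact ⟨K', hCX' hK', K, Finset.mem_sdiff.2 ⟨Finset.mem_union_left _ hK, hKX⟩,
          fun h' => h h'.symm⟩

end VdWG
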