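import Pool.Agent.Lib.VdW.SpecD

/-!
# Elementary properties of the progressions
-/

set_option autoImplicit false

namespace VdWG

open Finset

namespace DApM

theorem mem_ap {N m a d : ℕ} {v : Fin N} :
    v ∈ ap N m a d ↔ ∃ j, j < m ∧ (v : ℕ) + 1 = a + j * d := by
  simp [ap]

theorem bd {N m a d j : ℕ} (h : a + (m - 1) * d ≤ N) (hj : j < m) : a + j * d ≤ N := by
  have : j * d ≤ (m - 1) * d := Nat.mul_le_mul_right d (by omega)
  omega

theorem aux {N m a d a' d' : ℕ} (hm : 2 ≤ m) (ha : 1 ≤ a)
    (h : a + (m - 1) * d ≤ N) (he : ap N m a d = ap N m a' d') :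
    a' ≤ a ∧ a + (m - 1) * d ≤ a' + (m - 1) * d' := by
  constructor
  · have hv : (⟨a - 1, by omega⟩ : Fin N) ∈ ap N m a d :=
      mem_ap.2 ⟨0, by omega, by simp; omega⟩
    rw [he] at hv
    obtain ⟨j, hj, hv⟩ := mem_ap.1 hv
    simp only at hv
    omega
  · have hv : (⟨a + (m - 1) * d - 1, by omega⟩ : Fin N) ∈ ap N m a d :=
      mem_ap.2 ⟨m - 1, by omega, by simp only; omega⟩
    rw [he] at hv
    obtain ⟨j, hj, hv⟩ := mem_ap.1 hv
    simp only at hv
    have : j * d' ≤ (m - 1) * d' := Nat.mul_le_mul_right d' (by omega)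
    omega

end DApM

open DApM in
theorem tDAp : DApStmt := by
  intro N m
  constructor
  · intro a d ha hd h
    have e : (Finset.range m).card = (ap N m a d).card := by
      refine Finset.card_bij
        (fun j hj => (⟨a + j * d - 1, by
          have := bd h (Finset.mem_range.1 hj)
          omega⟩ : Fin N)) ?_ ?_ ?_
      · intro j hj
        exact mem_ap.2 ⟨j, Finset.mem_range.1 hj, by simp only; omega⟩
      · intro j hj j' hj' hh
        have h1 : a + j * d - 1 = a + j' * d - 1 := by
          simpa using congrArg Fin.val hh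
        have h2 : j * d = j' * d := by omega
        exact Nat.eq_of_mul_eq_mul_right hd h2
      · intro v hv
        obtain ⟨j, hj, hv⟩ := mem_ap.1 hv
        refine ⟨j, Finset.mem_range.2 hj, ?_⟩
        apply Fin.ext
        simp only
        omega
    rw [← e, Finset.card_range]
  · intro hm a d a' d' ha hd h ha' hd' h' he
    have h1 := aux hm ha h he
    have h2 := aux hm ha' h' he.symm
    have h3 : a = a' := by omega
    have h4 : (m - 1) * d = (m - 1) * d' := by omega
    exact ⟨h3, Nat.eq_of_mul_eq_mul_left (by omega) h4⟩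

end VdWG
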