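import Pool.Agent.Lib.VdW.SpecD

/-!
# The hypotheses on the lines of the first player
-/

set_option autoImplicit false

namespace VdWG

open Finset

namespace DFM

theorem mem_aps {N m : ℕ} {l : Finset (Fin N)} :
    l ∈ aps N m ↔ ∃ a d, 1 ≤ a ∧ a ≤ N ∧ 1 ≤ d ∧ d ≤ N ∧ a + (m - 1) * d ≤ N ∧ ap N m a d = l := by
  simp only [aps, Finset.mem_image, Finset.mem_filter, Finset.mem_product, Finset.mem_Icc,
    Prod.exists]
  constructor
  · rintro ⟨a, d, ⟨⟨⟨h1, h2⟩, h3, h4⟩, h5⟩, h6⟩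
    exact ⟨a, d, h1, h2, h3, h4, h5, h6⟩
  · rintro ⟨a, d, h1, h2, h3, h4, h5, h6⟩
    exact ⟨a, d, ⟨⟨⟨h1, h2⟩, h3, h4⟩, h5⟩, h6⟩

/-- the pairs `(r, p)` -/
noncomputable def R (m : ℕ) : Finset (ℕ × ℤ) :=
  Finset.Icc 1 m ×ˢ Finset.Icc (-(2 * (m : ℤ) ^ 2)) (2 * (m : ℤ) ^ 2)

theorem R_card {m : ℕ} (hm : 2 ≤ m) : (R m).card ≤ 5 * m ^ 3 := by
  rw [R, Finset.card_product, Nat.card_Icc, Int.card_Icc]
  have e : (2 * (m : ℤ) ^ 2 + 1 - -(2 * (m : ℤ) ^ 2)).toNat = 4 * m ^ 2 + 1 := by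
    have : (2 * (m : ℤ) ^ 2 + 1 - -(2 * (m : ℤ) ^ 2)) = ((4 * m ^ 2 + 1 : ℕ) : ℤ) := by
      push_cast; ring
    rw [this, Int.toNat_natCast]
  rw [e]
  have h1 : m + 1 - 1 = m := by omega
  rw [h1]
  have h2 : m ≤ m ^ 3 := by nlinarith [Nat.pow_le_pow_right (show 1 ≤ m by omega) (show 1 ≤ 3 by norm_num)]
  nlinarith

/-- `DZ` in a useful form -/
theorem ex_rp (h2 : DZStmt) {N n m k q : ℕ} (hm : 2 ≤ m) {a d : ℕ} (ha : 1 ≤ a) (hd : 1 ≤ d)
    (had : a + (m - 1) * d ≤ N) {z : Fin N} (hz : z ∈ (apSys N n m k q).Z (ap N m a d)) :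
    ∃ b : ℕ × ℤ, b ∈ R m ∧ (b.1 : ℤ) * ((z : ℕ) + 1 - (a : ℤ)) = b.2 * d := by
  obtain ⟨r, p, h3, h4, h5, h6⟩ := h2 N n m k q hm a d ha hd had z hz
  refine ⟨(r, p), ?_, h6⟩
  rw [R, Finset.mem_product, Finset.mem_Icc, Finset.mem_Icc]
  rw [abs_le] at h5
  exact ⟨⟨h3, h4.le⟩, h5⟩

theorem R_pos {m : ℕ} {b : ℕ × ℤ} (hb : b ∈ R m) : (b.1 : ℤ) ≠ 0 := by
  rw [R, Finset.mem_product, Finset.mem_Icc] at hb
  have := hb.1.1
  omega

end DFM

open DFM in
theorem tDF (h1 : DApStmt) (h2 : DZStmt) : DFStmt := by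
  classical
  intro N n m k q hm
  have hR := R_card hm
  have hm3 : 1 ≤ m ^ 3 := Nat.one_le_pow _ _ (by omega)
  have hRA : (R m).card ≤ 25 * m ^ 6 := by
    have : m ^ 6 = m ^ 3 * m ^ 3 := by ring
    nlinarith
  refine ⟨?_, ?_, ?_, ?_, ?_⟩
  · intro l hl
    obtain ⟨a, d, ha, -, hd, -, had, rfl⟩ := mem_aps.1 hl
    exact (h1 N m).1 a d ha hd had
  · intro L hL
    obtain ⟨a, d, ha, -, hd, -, had, rfl⟩ := mem_aps.1 hL
    refine le_trans ?_ hRA
    refine Finset.card_le_card_of_forall_subsingleton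
      (fun (z : Fin N) (b : ℕ × ℤ) => (b.1 : ℤ) * ((z : ℕ) + 1 - (a : ℤ)) = b.2 * d) ?_ ?_
    · intro z hz
      exact ex_rp h2 hm ha hd had hz
    · intro b hb z hz z' hz'
      have hb0 := R_pos hb
      have e1 : (b.1 : ℤ) * ((z : ℕ) + 1 - (a : ℤ)) = b.2 * d := hz.2
      have e2 : (b.1 : ℤ) * ((z' : ℕ) + 1 - (a : ℤ)) = b.2 * d := hz'.2
      have e3 := mul_left_cancel₀ hb0 (e1.trans e2.symm)
      apply Fin.ext
      omega
  · intro z
    show _ ≤ 25 * m ^ 6 * Fintype.card (Fin N)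
    rw [Fintype.card_fin]
    have hc : ((apSys N n m k q).LF.filter (fun L => z ∈ (apSys N n m k q).Z L)).card ≤
        (R m ×ˢ Finset.Icc 1 N).card := by
      refine Finset.card_le_card_of_forall_subsingleton
        (fun (L : Finset (Fin N)) (b : (ℕ × ℤ) × ℕ) => ∃ a : ℕ, L = ap N m a b.2 ∧
          (b.1.1 : ℤ) * ((z : ℕ) + 1 - (a : ℤ)) = b.1.2 * b.2) ?_ ?_
      · intro L hL
        rw [Finset.mem_filter] at hL
        obtain ⟨a, d, ha, -, hd, hdN, had, rfl⟩ := mem_aps.1 hL.1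
        obtain ⟨b, hb, hb2⟩ := ex_rp h2 hm ha hd had hL.2
        refine ⟨(b, d), ?_, a, rfl, hb2⟩
        rw [Finset.mem_product]
        exact ⟨hb, Finset.mem_Icc.2 ⟨hd, hdN⟩⟩
      · rintro ⟨b, d⟩ hb L hL L' hL'
        rw [Finset.mem_product] at hb
        have hb0 := R_pos hb.1
        obtain ⟨-, a, rfl, e1⟩ := hL
        obtain ⟨-, a', rfl, e2⟩ := hL'
        have e3 := mul_left_cancel₀ hb0 (e1.trans e2.symm)
        have : a = a' := by omega
        rw [this]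
    calc _ ≤ _ := hc
      _ = (R m).card * N := by rw [Finset.card_product]; simp
      _ ≤ _ := Nat.mul_le_mul_right N hRA
  · intro z z' hzz
    have hc : ((apSys N n m k q).LF.filter (fun L => z ∈ (apSys N n m k q).Z L ∧
        z' ∈ (apSys N n m k q).Z L)).card ≤ (R m ×ˢ R m).card := by
      refine Finset.card_le_card_of_forall_subsingleton
        (fun (L : Finset (Fin N)) (b : (ℕ × ℤ) × (ℕ × ℤ)) => ∃ a d : ℕ, 1 ≤ d ∧ L = ap N m a d ∧
          (b.1.1 : ℤ) * ((z : ℕ) + 1 - (a : ℤ)) = b.1.2 * d ∧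
          (b.2.1 : ℤ) * ((z' : ℕ) + 1 - (a : ℤ)) = b.2.2 * d) ?_ ?_
      · intro L hL
        rw [Finset.mem_filter] at hL
        obtain ⟨a, d, ha, -, hd, hdN, had, rfl⟩ := mem_aps.1 hL.1
        obtain ⟨b, hb, hb2⟩ := ex_rp h2 hm ha hd had hL.2.1
        obtain ⟨b', hb', hb2'⟩ := ex_rp h2 hm ha hd had hL.2.2
        exact ⟨(b, b'), Finset.mem_product.2 ⟨hb, hb'⟩, a, d, hd, rfl, hb2, hb2'⟩
      · rintro ⟨⟨r, p⟩, ⟨r', p'⟩⟩ hb L hL L' hL'
        rw [Finset.mem_product] at hb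
        have hr := R_pos hb.1
        have hr' := R_pos hb.2
        obtain ⟨-, a, d, hd, rfl, e1, e2⟩ := hL
        obtain ⟨-, a', d', hd', rfl, e3, e4⟩ := hL'
        simp only at e1 e2 e3 e4 hr hr'
        have hne : ((z : ℕ) : ℤ) - ((z' : ℕ) : ℤ) ≠ 0 := by
          intro h
          apply hzz
          apply Fin.ext
          omega
        have f1 : (r : ℤ) * r' * (((z : ℕ) : ℤ) - ((z' : ℕ) : ℤ)) = (r' * p - r * p') * d := by
          linear_combination (r' : ℤ) * e1 - (r : ℤ) * e2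
        have f2 : (r : ℤ) * r' * (((z : ℕ) : ℤ) - ((z' : ℕ) : ℤ)) = (r' * p - r * p') * d' := by
          linear_combination (r' : ℤ) * e3 - (r : ℤ) * e4
        have hq : (r' : ℤ) * p - r * p' ≠ 0 := by
          intro h
          rw [h, zero_mul] at f1
          exact mul_ne_zero (mul_ne_zero hr hr') hne f1
        have hdd : (d : ℤ) = d' := mul_left_cancel₀ hq (f1.symm.trans f2)
        have hd2 : d = d' := by exact_mod_cast hdd
        subst hd2
        have e5 := mul_left_cancel₀ hr (e1.trans e3.symm)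
        have : a = a' := by omega
        rw [this]
    show _ ≤ 25 * m ^ 6
    calc _ ≤ _ := hc
      _ = (R m).card * (R m).card := Finset.card_product _ _
      _ ≤ (5 * m ^ 3) * (5 * m ^ 3) := Nat.mul_le_mul hR hR
      _ = 25 * m ^ 6 := by ring
  · show (aps N m).card ≤ Fintype.card (Fin N) ^ 2
    rw [Fintype.card_fin]
    calc (aps N m).card ≤ _ := Finset.card_image_le
      _ ≤ _ := Finset.card_filter_le _ _
      _ = N ^ 2 := by rw [Finset.card_product]; simp; ring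

end VdWG
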