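import Pool.Agent.Lib.VdW.SpecD

set_option autoImplicit false

/-!
# The theorem (`DFinStmt`) from the statements on progressions and parameters
-/

namespace VdWG

open Finset

theorem tDFin2 (h1 : DFStmt) (h2 : DSStmt) (h3 : DPaStmt) (h4 : DPbStmt) (h5 : DWinStmt) :
    ∀ N ≥ fN (2 ^ 41), ∃ n : ℕ, n ≤ Nat.log 2 N ∧ Nat.log 2 N ≤ n + 2000 * Nat.log 2 n ∧
      Wins N n (n + 2000 * Nat.log 2 n) := by
  intro N hN
  obtain ⟨n, hn, hf, hle⟩ := h3 N hN
  obtain ⟨k, q, hnum⟩ := h4 N n hn hf hle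
  have hn1 : 1 ≤ n := le_trans (Nat.one_le_two_pow) hn
  have hL : 41 ≤ Nat.log 2 n := by
    have := Nat.log_mono_right (b := 2) hn
    rwa [Nat.log_pow (by norm_num)] at this
  have hA1 : 1 ≤ 25 * (n + 2000 * Nat.log 2 n) ^ 6 := by
    have : 1 ≤ (n + 2000 * Nat.log 2 n) ^ 6 := Nat.one_le_pow _ _ (by omega)
    omega
  have hA2 : 1 ≤ (25 * (n + 2000 * Nat.log 2 n) ^ 6) ^ 2 := Nat.one_le_pow _ _ hA1
  have h2n : 2 ^ n ≤ N := by
    refine le_trans ?_ hf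
    unfold fN
    have : 1 ≤ 150 * n * (25 * (n + 2000 * Nat.log 2 n) ^ 6) ^ 2 := by
      have : 1 ≤ 150 * n := by omega
      exact Nat.mul_le_mul this hA2
    calc 2 ^ n = 1 * 2 ^ n := (one_mul _).symm
      _ ≤ _ := Nat.mul_le_mul_right _ this
  have h2nN : 2 * n ≤ N := by
    refine le_trans ?_ hf
    unfold fN
    have e1 : 2 * n ≤ 150 * n := by omega
    calc 2 * n ≤ 150 * n := e1
      _ = 150 * n * 1 * 1 := by ring
      _ ≤ 150 * n * (25 * (n + 2000 * Nat.log 2 n) ^ 6) ^ 2 * 2 ^ n :=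
        Nat.mul_le_mul (Nat.mul_le_mul_left _ hA2) Nat.one_le_two_pow
  refine ⟨n, ?_, ?_, ?_⟩
  · have := Nat.log_mono_right (b := 2) h2n
    rwa [Nat.log_pow (by norm_num)] at this
  · have := Nat.log_mono_right (b := 2) hle
    rw [Nat.log_pow (by norm_num)] at this
    omega
  · apply h5 N n (n + 2000 * Nat.log 2 n) k q
    refine ⟨?_, ?_, ?_⟩
    · exact h1 N n _ k q (by omega)
    · exact h2 N n _ k q (by omega) (by omega) h2nN
    · simpa [apSys] using hnum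

theorem tDFin (h1 : DFStmt) (h2 : DSStmt) (h3 : DPaStmt) (h4 : DPbStmt) (h5 : DWinStmt) :
    DFinStmt := ⟨2000, fN (2 ^ 41), tDFin2 h1 h2 h3 h4 h5⟩

end VdWG
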