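import Pool.Agent.Lib.VdW.SpecD

/-!
# The statements of A and B give the hypotheses of C
-/

set_option autoImplicit false

namespace VdWG

open Finset

theorem tDHyp : DHypStmt := by
  intro h1 h2 h3 h4 h5 h6
  refine ⟨?_, ?_, ?_, ?_, ?_⟩
  · intro V _ _ M hM
    exact h1 V M hM
  · intro V _ _ M hM Fb Sb B
    have h := h3 V _ _ M.bg (h1 V M hM) Fb Sb B
    refine ⟨fun a => ⟨(h.1 a).1, (h.1 a).2.1⟩, fun a => ?_⟩
    obtain ⟨b1, b2, b3⟩ := h.2 a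
    exact ⟨b1, b2, fun x hx hx' hx'' => (b3 x hx hx' hx'').1⟩
  · intro V _ _ M hM Fb Sb B B' C hC hw hB hB'
    exact h4 V _ _ M.bg (h1 V M hM) Fb Sb B B' C hC hw hB hB'
  · intro V _ _ M hM Fb Sb B hMS
    exact h5 V _ _ M.bg (h1 V M hM) Fb Sb B hMS
  · intro V _ _ M hM
    obtain ⟨a, b, c⟩ := h2 V M hM
    exact h6 V _ _ M.bg (h1 V M hM) a b c

end VdWG
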