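import Pool.Agent.Lib.VdW.SpecD

/-!
# The choice of `n`
-/

set_option autoImplicit false

namespace VdWG

open Finset

namespace DPaM

theorem pow_bd {L : ℕ} (h : 41 ≤ L) : 2000 * (L + 1) ≤ 2 ^ L := by
  induction L, h using Nat.le_induction with
  | base => norm_num
  | succ L hL ih =>
    rw [pow_succ]
    omega

theorem le_fN (n : ℕ) : n ≤ fN n := by
  rcases Nat.eq_zero_or_pos n with rfl | hn
  · exact Nat.zero_le _
  · unfold fN
    have h1 : 1 ≤ (25 * (n + 2000 * Nat.log 2 n) ^ 6) ^ 2 := by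
      apply Nat.one_le_pow
      have : 1 ≤ (n + 2000 * Nat.log 2 n) ^ 6 := Nat.one_le_pow _ _ (by omega)
      omega
    have h2 : 1 ≤ 2 ^ n := Nat.one_le_two_pow
    calc n ≤ 150 * n := by omega
      _ = 150 * n * 1 * 1 := by ring
      _ ≤ _ := Nat.mul_le_mul (Nat.mul_le_mul_left _ h1) h2

theorem fN_bd (n : ℕ) (hn : 2 ^ 41 ≤ n) : fN (n + 1) ≤ 2 ^ (n + 57 + 13 * Nat.log 2 n) := by
  have hn0 : n ≠ 0 := by
    rintro rfl
    exact absurd hn (by norm_num)
  have hL : 41 ≤ Nat.log 2 n := by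
    have := Nat.log_mono_right (b := 2) hn
    rwa [Nat.log_pow (by norm_num)] at this
  have h1 : 2 ^ Nat.log 2 n ≤ n := Nat.pow_log_le_self 2 hn0
  have h2 : n < 2 ^ (Nat.log 2 n + 1) := Nat.lt_pow_succ_log_self (by norm_num) n
  have h3 : Nat.log 2 (n + 1) ≤ Nat.log 2 n + 1 := by
    have := Nat.log_mono_right (b := 2) (show n + 1 ≤ 2 ^ (Nat.log 2 n + 1) from h2)
    rwa [Nat.log_pow (by norm_num)] at this
  generalize hLd : Nat.log 2 n = L at *
  generalize hMd : Nat.log 2 (n + 1) = M at *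
  have h4 := pow_bd hL
  have h5 : n + 1 + 2000 * M ≤ 2 ^ (L + 2) := by
    have e1 : 2 ^ (L + 1) = 2 * 2 ^ L := by rw [pow_succ]; ring
    have e2 : 2 ^ (L + 2) = 4 * 2 ^ L := by rw [pow_add]; ring
    rw [e2]
    have : 2000 * M ≤ 2000 * (L + 1) := Nat.mul_le_mul_left _ h3
    omega
  have h6 : 25 * (n + 1 + 2000 * M) ^ 6 ≤ 2 ^ (6 * L + 17) := by
    calc 25 * (n + 1 + 2000 * M) ^ 6 ≤ 2 ^ 5 * (2 ^ (L + 2)) ^ 6 :=
          Nat.mul_le_mul (by norm_num) (Nat.pow_le_pow_left h5 6)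
      _ = 2 ^ (6 * L + 17) := by rw [← pow_mul, ← pow_add]; congr 1; ring
  unfold fN
  rw [hMd]
  calc 150 * (n + 1) * (25 * (n + 1 + 2000 * M) ^ 6) ^ 2 * 2 ^ (n + 1)
      ≤ 2 ^ 8 * 2 ^ (L + 1) * (2 ^ (6 * L + 17)) ^ 2 * 2 ^ (n + 1) := by
        apply Nat.mul_le_mul_right
        apply Nat.mul_le_mul _ (Nat.pow_le_pow_left h6 2)
        exact Nat.mul_le_mul (by norm_num) h2
    _ = 2 ^ (n + 44 + 13 * L) := by
        rw [← pow_mul, ← pow_add, ← pow_add, ← pow_add]; congr 1; ring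
    _ ≤ 2 ^ (n + 57 + 13 * L) := Nat.pow_le_pow_right (by norm_num) (by omega)

end DPaM

open DPaM in
theorem tDPa : DPaStmt := by
  intro N hN
  have hK : 2 ^ 41 ≤ N := le_trans (le_fN _) hN
  refine ⟨Nat.findGreatest (fun n => fN n ≤ N) N, ?_, ?_, ?_⟩
  · exact Nat.le_findGreatest hK hN
  · exact Nat.findGreatest_spec (P := fun n => fN n ≤ N) hK hN
  · have h41 : 2 ^ 41 ≤ Nat.findGreatest (fun n => fN n ≤ N) N := Nat.le_findGreatest hK hN
    have hle : Nat.findGreatest (fun n => fN n ≤ N) N ≤ N := Nat.findGreatest_le N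
    have hlt : N < fN (Nat.findGreatest (fun n => fN n ≤ N) N + 1) := by
      rcases lt_or_eq_of_le hle with h | h
      · have := Nat.findGreatest_is_greatest (P := fun n => fN n ≤ N)
          (Nat.lt_succ_self _) h
        exact not_le.1 this
      · have h2 := le_fN (Nat.findGreatest (fun n => fN n ≤ N) N + 1)
        rw [h] at h2 ⊢
        omega
    exact le_trans hlt.le (fN_bd _ h41)

end VdWG
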