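import Pool.Agent.Lib.VdW.SpecD

/-!
# The numerical hypotheses (DPb)
-/

set_option autoImplicit false

namespace VdWG

namespace DPbM

private theorem mulp {a b x y : ℕ} (h1 : a ≤ 2 ^ x) (h2 : b ≤ 2 ^ y) : a * b ≤ 2 ^ (x + y) := by
  rw [pow_add]
  exact Nat.mul_le_mul h1 h2

private theorem powp {a x : ℕ} (h : a ≤ 2 ^ x) (j : ℕ) : a ^ j ≤ 2 ^ (x * j) := by
  rw [pow_mul]
  exact Nat.pow_le_pow_left h j

private theorem lin (L : ℕ) (h : 41 ≤ L) : 2000 * L ≤ 2 ^ L := by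
  induction L, h using Nat.le_induction with
  | base => norm_num
  | succ L hL ih =>
    rw [pow_succ]
    omega

/-- the number `dl` is small -/
private theorem dlb (N n L m k q A : ℕ) (hL : 41 ≤ L) (hnL : 2000 * L ≤ n) (hm : m = n + 2000 * L)
    (hk : k = 54 + 19 * L) (hkq : 16 * k * q ≤ n) (hA : A ≤ 2 ^ (5 + (L + 2) * 6))
    (hq : q ≤ 2 ^ (L + 1)) (hN : N ≤ 2 ^ (n + 57 + 13 * L)) :
    dl N m k q A * 2 ^ (96 * k) ≤ 1 := by
  have h1 : 16 * (8 * q * A ^ 2 * N * 2 ^ k) * 2 ^ (96 * k + 1) ≤ 2 ^ m := by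
    have e1 := mulp (mulp (show 16 ≤ 2 ^ 4 by norm_num) (mulp (mulp (mulp (mulp
      (show 8 ≤ 2 ^ 3 by norm_num) hq) (powp hA 2)) hN) (le_refl (2 ^ k))))
      (le_refl (2 ^ (96 * k + 1)))
    refine e1.trans (Nat.pow_le_pow_right (by norm_num) ?_)
    omega
  have hq2 : 16 * q ≤ n := by
    have e1 : 1 ≤ k := by omega
    calc 16 * q = 16 * 1 * q := by ring
      _ ≤ 16 * k * q := by
        apply Nat.mul_le_mul_right
        omega
      _ ≤ n := hkq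
  have h2 : 16 * (4 * q ^ 2 * A ^ 3 * 2 ^ (k + 4 * k * q + 2 * q)) * 2 ^ (96 * k + 1) ≤ 2 ^ m := by
    have e1 := mulp (mulp (show 16 ≤ 2 ^ 4 by norm_num) (mulp (mulp (mulp
      (show 4 ≤ 2 ^ 2 by norm_num) (powp hq 2)) (powp hA 3))
      (le_refl (2 ^ (k + 4 * k * q + 2 * q))))) (le_refl (2 ^ (96 * k + 1)))
    refine e1.trans (Nat.pow_le_pow_right (by norm_num) ?_)
    have e2 : 4 * (4 * k * q) ≤ n := by
      calc 4 * (4 * k * q) = 16 * k * q := by ring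
        _ ≤ n := hkq
    omega
  have h3 : 16 * (8 * q * A ^ 2 * N * 2 ^ k + 4 * q ^ 2 * A ^ 3 * 2 ^ (k + 4 * k * q + 2 * q)) *
      2 ^ (96 * k) ≤ 2 ^ m := by
    have e0 : 2 ^ (96 * k + 1) = 2 ^ (96 * k) * 2 := pow_succ 2 _
    rw [e0] at h1 h2
    have e1 : 2 * (16 * (8 * q * A ^ 2 * N * 2 ^ k + 4 * q ^ 2 * A ^ 3 *
        2 ^ (k + 4 * k * q + 2 * q)) * 2 ^ (96 * k)) =
        16 * (8 * q * A ^ 2 * N * 2 ^ k) * (2 ^ (96 * k) * 2) +
        16 * (4 * q ^ 2 * A ^ 3 * 2 ^ (k + 4 * k * q + 2 * q)) * (2 ^ (96 * k) * 2) := by ring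
    omega
  unfold dl
  rw [div_mul_eq_mul_div, div_le_one (by positivity)]
  exact_mod_cast h3

end DPbM

open DPbM in
theorem tDPb : DPbStmt := by
  intro N n hn hf hN
  have hL : 41 ≤ Nat.log 2 n := by
    have h1 : Nat.log 2 (2 ^ 41) ≤ Nat.log 2 n := Nat.log_mono_right hn
    rwa [Nat.log_pow (by norm_num)] at h1
  have hn0 : n ≠ 0 := by
    intro h
    rw [h] at hn
    norm_num at hn
  have hL1 : 2 ^ Nat.log 2 n ≤ n := Nat.pow_log_le_self 2 hn0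
  have hL2 : n < 2 ^ (Nat.log 2 n + 1) := Nat.lt_pow_succ_log_self (by norm_num) n
  have hf' : 150 * n * (25 * (n + 2000 * Nat.log 2 n) ^ 6) ^ 2 * 2 ^ n ≤ N := hf
  clear hf
  generalize Nat.log 2 n = L at *
  have h1 := (lin L hL).trans hL1
  refine ⟨54 + 19 * L, n / (16 * (54 + 19 * L)), ?_⟩
  obtain ⟨m, hm⟩ : ∃ m, m = n + 2000 * L := ⟨_, rfl⟩
  rw [← hm] at hf' ⊢
  obtain ⟨A, hA⟩ : ∃ A, A = 25 * m ^ 6 := ⟨_, rfl⟩
  rw [← hA] at hf' ⊢
  obtain ⟨k, hk⟩ : ∃ k, k = 54 + 19 * L := ⟨_, rfl⟩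
  rw [← hk]
  obtain ⟨q, hq⟩ : ∃ q, q = n / (16 * k) := ⟨_, rfl⟩
  rw [← hq]
  have hkpos : 0 < 16 * k := by omega
  have hkq : 16 * k * q ≤ n := by
    rw [hq]
    exact Nat.mul_div_le n (16 * k)
  have hkq2 : n ≤ 32 * (k * q) := by
    have e1 : n < 16 * k * (q + 1) := by
      rw [hq]
      exact Nat.lt_mul_div_succ n hkpos
    have e2 : 16 * k * (q + 1) = 16 * (k * q) + 16 * k := by ring
    have e3 : 16 * k * q = 16 * (k * q) := by ring
    have e4 : 32 * k ≤ n := by omega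
    omega
  have hq1 : 1 ≤ q := by
    rw [Nat.one_le_iff_ne_zero]
    intro h
    rw [h, mul_zero, mul_zero] at hkq2
    omega
  have hqn : q ≤ 2 ^ (L + 1) := by
    rw [hq]
    exact (Nat.div_le_self n (16 * k)).trans hL2.le
  have hm2 : m ≤ 2 ^ (L + 2) := by
    have e1 : 2 ^ (L + 2) = 2 * 2 ^ (L + 1) := by ring
    omega
  have hA2 : A ≤ 2 ^ (5 + (L + 2) * 6) := by
    rw [hA]
    exact mulp (show 25 ≤ 2 ^ 5 by norm_num) (powp hm2 6)
  have hdl := dlb N n L m k q A hL h1 hm hk hkq hA2 hqn hN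
  have hdl0 : 0 ≤ dl N m k q A := by
    unfold dl
    positivity
  refine ⟨by omega, by omega, by omega, by omega, hq1, ?_, ?_, hf', ?_, ?_, ?_⟩
  · rw [hA]
    have e1 : 1 ≤ m ^ 6 := Nat.one_le_pow _ _ (by omega)
    omega
  · have e1 := mulp (mulp (show 2 ≤ 2 ^ 1 by norm_num) hqn) (powp hA2 3)
    refine lt_of_le_of_lt e1 (Nat.pow_lt_pow_right (by norm_num) ?_)
    omega
  · have e1 := mulp (mulp (mulp (mulp (show 3276800 ≤ 2 ^ 22 by norm_num) (powp hL2.le 2)) hqn)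
      (powp hA2 3)) (le_refl (2 ^ (n + k)))
    refine e1.trans (Nat.pow_le_pow_right (by norm_num) ?_)
    omega
  · have e1 : 51200 * n ^ 2 ≤ 2 ^ (96 * k) := by
      have e2 := mulp (show 51200 ≤ 2 ^ 16 by norm_num) (powp hL2.le 2)
      refine e2.trans (Nat.pow_le_pow_right (by norm_num) ?_)
      omega
    have e2 : (51200 * (n : ℝ) ^ 2) ≤ 2 ^ (96 * k) := by exact_mod_cast e1
    calc 51200 * (n : ℝ) ^ 2 * dl N m k q A ≤ 2 ^ (96 * k) * dl N m k q A :=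
          mul_le_mul_of_nonneg_right e2 hdl0
      _ = dl N m k q A * 2 ^ (96 * k) := mul_comm _ _
      _ ≤ 1 := hdl
  · have e1 : 1024 * n * N ^ 2 ≤ 2 ^ (96 * k * q) := by
      have e2 := mulp (mulp (show 1024 ≤ 2 ^ 10 by norm_num) hL2.le) (powp hN 2)
      refine e2.trans (Nat.pow_le_pow_right (by norm_num) ?_)
      have e3 : 96 * k * q = 3 * (32 * (k * q)) := by ring
      rw [e3]
      omega
    have e2 : (1024 * (n : ℝ) * (N : ℝ) ^ 2) ≤ (2 ^ (96 * k)) ^ q := by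
      rw [← pow_mul]
      exact_mod_cast e1
    calc 1024 * (n : ℝ) * (N : ℝ) ^ 2 * dl N m k q A ^ q ≤
          (2 ^ (96 * k)) ^ q * dl N m k q A ^ q :=
          mul_le_mul_of_nonneg_right e2 (pow_nonneg hdl0 q)
      _ = (dl N m k q A * 2 ^ (96 * k)) ^ q := by rw [mul_pow, mul_comm]
      _ ≤ 1 := pow_le_one₀ (by positivity) hdl

end VdWG
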