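import Pool.Agent.Lib.VdW.SpecD

/-!
# The hypotheses on the lines of the second player
-/

set_option autoImplicit false

namespace VdWG

open Finset

namespace DSM

theorem mem_ap {N m a d : ℕ} {v : Fin N} :
    v ∈ ap N m a d ↔ ∃ j, j < m ∧ (v : ℕ) + 1 = a + j * d := by
  simp [ap]

theorem mem_aps {N m : ℕ} {l : Finset (Fin N)} :
    l ∈ aps N m ↔ ∃ a d, 1 ≤ a ∧ a ≤ N ∧ 1 ≤ d ∧ d ≤ N ∧ a + (m - 1) * d ≤ N ∧ ap N m a d = l := by
  simp only [aps, Finset.mem_image, Finset.mem_filter, Finset.mem_product, Finset.mem_Icc,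
    Prod.exists]
  constructor
  · rintro ⟨a, d, ⟨⟨⟨h1, h2⟩, h3, h4⟩, h5⟩, h6⟩
    exact ⟨a, d, h1, h2, h3, h4, h5, h6⟩
  · rintro ⟨a, d, h1, h2, h3, h4, h5, h6⟩
    exact ⟨a, d, ⟨⟨⟨h1, h2⟩, h3, h4⟩, h5⟩, h6⟩

theorem A_ge {n m : ℕ} (hn : 2 ≤ n) (hm : n ≤ m) : 16 * n ≤ 25 * m ^ 6 ∧ n * n ≤ 25 * m ^ 6 := by
  have h1 : 1 ≤ m := by omega
  have h2 : m ^ 2 ≤ m ^ 6 := Nat.pow_le_pow_right h1 (by norm_num)
  have h3 : n * n ≤ m ^ 2 := by nlinarith
  have h4 : m ≤ m ^ 2 := by nlinarith
  constructor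
  · nlinarith
  · nlinarith

end DSM

open DSM in
theorem tDS (h1 : DApStmt) : DSStmt := by
  classical
  intro N n m k q hn hm hN
  obtain ⟨hA1, hA2⟩ := A_ge hn hm
  have hA3 : n ≤ 25 * m ^ 6 := by omega
  refine ⟨?_, ?_, ?_, ?_⟩
  · intro l hl
    obtain ⟨a, d, ha, -, hd, -, had, rfl⟩ := mem_aps.1 hl
    exact (h1 N n).1 a d ha hd had
  · intro y
    show ((aps N n).filter (fun l => y ∈ l)).card ≤ 25 * m ^ 6 * Fintype.card (Fin N)
    rw [Fintype.card_fin]
    have hsub : (aps N n).filter (fun l => y ∈ l) ⊆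
        (Finset.range n ×ˢ Finset.Icc 1 N).image
          (fun p => ap N n ((y : ℕ) + 1 - p.1 * p.2) p.2) := by
      intro l hl
      rw [Finset.mem_filter] at hl
      obtain ⟨a, d, ha, -, hd, hdN, had, rfl⟩ := mem_aps.1 hl.1
      obtain ⟨j, hj, hy⟩ := mem_ap.1 hl.2
      rw [Finset.mem_image]
      refine ⟨(j, d), ?_, ?_⟩
      · simp [hj, hd, hdN]
      · simp only
        rw [hy, Nat.add_sub_cancel]
    calc _ ≤ _ := Finset.card_le_card hsub
      _ ≤ _ := Finset.card_image_le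
      _ = n * N := by rw [Finset.card_product]; simp
      _ ≤ _ := Nat.mul_le_mul_right N hA3
  · intro y z hyz
    show ((aps N n).filter (fun l => y ∈ l ∧ z ∈ l)).card ≤ 25 * m ^ 6
    let dd : ℕ × ℕ → ℕ := fun p =>
      if p.2 < p.1 then ((y : ℕ) - z) / (p.1 - p.2) else ((z : ℕ) - y) / (p.2 - p.1)
    have hsub : (aps N n).filter (fun l => y ∈ l ∧ z ∈ l) ⊆
        (Finset.range n ×ˢ Finset.range n).image
          (fun p => ap N n ((y : ℕ) + 1 - p.1 * dd p) (dd p)) := by
      intro l hl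
      rw [Finset.mem_filter] at hl
      obtain ⟨a, d, ha, -, hd, hdN, had, rfl⟩ := mem_aps.1 hl.1
      obtain ⟨i, hi, hy⟩ := mem_ap.1 hl.2.1
      obtain ⟨j, hj, hz⟩ := mem_ap.1 hl.2.2
      have hdd : dd (i, j) = d := by
        simp only [dd]
        rcases lt_trichotomy j i with h | h | h
        · rw [if_pos h]
          obtain ⟨t, rfl⟩ := Nat.exists_eq_add_of_lt h
          have e1 : (y : ℕ) - z = (t + 1) * d := by
            have : (y : ℕ) = z + (t + 1) * d := by
              have : (y : ℕ) + 1 = z + 1 + (t + 1) * d := by rw [hy, hz]; ring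
              omega
            omega
          have e2 : j + t + 1 - j = t + 1 := by omega
          rw [e1, e2]
          exact Nat.mul_div_cancel_left d (by omega)
        · exfalso
          subst h
          apply hyz
          apply Fin.ext
          omega
        · rw [if_neg (by omega)]
          obtain ⟨t, rfl⟩ := Nat.exists_eq_add_of_lt h
          have e1 : (z : ℕ) - y = (t + 1) * d := by
            have : (z : ℕ) = y + (t + 1) * d := by
              have : (z : ℕ) + 1 = y + 1 + (t + 1) * d := by rw [hy, hz]; ring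
              omega
            omega
          have e2 : i + t + 1 - i = t + 1 := by omega
          rw [e1, e2]
          exact Nat.mul_div_cancel_left d (by omega)
      rw [Finset.mem_image]
      refine ⟨(i, j), ?_, ?_⟩
      · simp [hi, hj]
      · simp only
        rw [hdd, hy, Nat.add_sub_cancel]
    calc _ ≤ _ := Finset.card_le_card hsub
      _ ≤ _ := Finset.card_image_le
      _ = n * n := by rw [Finset.card_product]; simp
      _ ≤ _ := hA2
  · show Fintype.card (Fin N) ^ 2 ≤ 25 * m ^ 6 * (aps N n).card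
    rw [Fintype.card_fin]
    have hc : (N / 2) * (N / (2 * n)) ≤ (aps N n).card := by
      have e : (N / 2) * (N / (2 * n)) =
          (Finset.Icc 1 (N / 2) ×ˢ Finset.Icc 1 (N / (2 * n))).card := by
        rw [Finset.card_product]; simp
      rw [e]
      have hbd : ∀ a d : ℕ, a ≤ N / 2 → d ≤ N / (2 * n) → a + (n - 1) * d ≤ N := by
        intro a d ha hd
        have h3 : (n - 1) * d ≤ n * (N / (2 * n)) := Nat.mul_le_mul (by omega) hd
        have h4 : n * (N / (2 * n)) ≤ N / 2 := by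
          rw [← Nat.div_div_eq_div_mul]
          exact Nat.mul_div_le _ _
        omega
      refine Finset.card_le_card_of_injOn (fun p => ap N n p.1 p.2) ?_ ?_
      · rintro ⟨a, d⟩ hp
        simp only [Finset.coe_product, Set.mem_prod, Finset.mem_coe, Finset.mem_Icc] at hp
        obtain ⟨⟨ha1, ha2⟩, hd1, hd2⟩ := hp
        have hb := hbd a d ha2 hd2
        rw [Finset.mem_coe]
        apply mem_aps.2
        refine ⟨a, d, ha1, by omega, hd1, ?_, hb, rfl⟩
        exact le_trans hd2 (Nat.div_le_self _ _)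
      · rintro ⟨a, d⟩ hp ⟨a', d'⟩ hp' heq
        simp only [Finset.coe_product, Set.mem_prod, Finset.mem_coe, Finset.mem_Icc] at hp hp'
        obtain ⟨⟨ha1, ha2⟩, hd1, hd2⟩ := hp
        obtain ⟨⟨ha1', ha2'⟩, hd1', hd2'⟩ := hp'
        have := (h1 N n).2 hn a d a' d' ha1 hd1 (hbd a d ha2 hd2) ha1' hd1' (hbd a' d' ha2' hd2') heq
        rw [this.1, this.2]
    have h2 : 1 ≤ N / 2 := by omega
    have h3 : 1 ≤ N / (2 * n) := (Nat.one_le_div_iff (by omega)).2 hN
    have h4 : N ≤ 4 * (N / 2) := by omega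
    have h5 : N ≤ 4 * n * (N / (2 * n)) := by
      have := Nat.lt_mul_div_succ N (show 0 < 2 * n by omega)
      calc N ≤ 2 * n * (N / (2 * n) + 1) := this.le
        _ ≤ 2 * n * (N / (2 * n) + N / (2 * n)) := Nat.mul_le_mul_left _ (by omega)
        _ = 4 * n * (N / (2 * n)) := by ring
    calc N ^ 2 = N * N := by ring
      _ ≤ (4 * (N / 2)) * (4 * n * (N / (2 * n))) := Nat.mul_le_mul h4 h5
      _ = 16 * n * ((N / 2) * (N / (2 * n))) := by ring
      _ ≤ 25 * m ^ 6 * (aps N n).card := Nat.mul_le_mul hA1 hc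

end VdWG
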