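import Pool.Agent.Lib.VdW.SpecD

/-!
# A strategy from an invariant
-/

set_option autoImplicit false

namespace VdWG

open Finset

namespace StratAux

theorem mem_stones {N : ℕ} {l : List ℕ} {par : ℕ → Prop} {v : Fin N} :
    v ∈ stones N l par ↔ ∃ i : ℕ, par i ∧ l[i]? = some ((v : ℕ) + 1) := by
  classical
  simp [stones]

theorem stones_snoc {N : ℕ} (l : List ℕ) (par : ℕ → Prop) (v : Fin N) (h : par l.length) :
    stones N (l ++ [(v : ℕ) + 1]) par = insert v (stones N l par) := by
  classical
  ext w
  rw [mem_stones, mem_insert, mem_stones]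
  constructor
  · rintro ⟨i, hi, he⟩
    rcases lt_trichotomy i l.length with hlt | heq | hgt
    · right
      rw [List.getElem?_append_left hlt] at he
      exact ⟨i, hi, he⟩
    · left
      subst heq
      rw [List.getElem?_append_right (le_refl _)] at he
      simp at he
      exact Fin.ext he.symm
    · exfalso
      rw [List.getElem?_append_right hgt.le] at he
      have h1 : 1 ≤ i - l.length := by omega
      rw [List.getElem?_eq_none (by simpa using h1)] at he
      simp at he
  · rintro (rfl | ⟨i, hi, he⟩)
    · refine ⟨l.length, h, ?_⟩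
      rw [List.getElem?_append_right (le_refl _)]
      simp
    · refine ⟨i, hi, ?_⟩
      have hlt : i < l.length := by
        by_contra hc
        rw [List.getElem?_eq_none (by omega)] at he
        simp at he
      rw [List.getElem?_append_left hlt]
      exact he

theorem stones_snoc' {N : ℕ} (l : List ℕ) (par : ℕ → Prop) (a : ℕ) (h : ¬ par l.length) :
    stones N (l ++ [a]) par = stones N l par := by
  classical
  ext w
  rw [mem_stones, mem_stones]
  constructor
  · rintro ⟨i, hi, he⟩
    rcases lt_trichotomy i l.length with hlt | heq | hgt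
    · rw [List.getElem?_append_left hlt] at he
      exact ⟨i, hi, he⟩
    · subst heq
      exact absurd hi h
    · exfalso
      rw [List.getElem?_append_right hgt.le] at he
      have h1 : 1 ≤ i - l.length := by omega
      rw [List.getElem?_eq_none (by simpa using h1)] at he
      simp at he
  · rintro ⟨i, hi, he⟩
    refine ⟨i, hi, ?_⟩
    have hlt : i < l.length := by
      by_contra hc
      rw [List.getElem?_eq_none (by omega)] at he
      simp at he
    rw [List.getElem?_append_left hlt]
    exact he

theorem mem_union {N : ℕ} {l : List ℕ} {v : Fin N} :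
    v ∈ stones N l Even ∪ stones N l Odd ↔ ((v : ℕ) + 1) ∈ l := by
  classical
  rw [Finset.mem_union, mem_stones, mem_stones, List.mem_iff_getElem?]
  constructor
  · rintro (⟨i, -, h⟩ | ⟨i, -, h⟩) <;> exact ⟨i, h⟩
  · rintro ⟨i, h⟩
    rcases Nat.even_or_odd i with hi | hi
    · exact Or.inl ⟨i, hi, h⟩
    · exact Or.inr ⟨i, hi, h⟩

theorem union_ne {N : ℕ} {l : List ℕ} (hl : l.length < N) :
    stones N l Even ∪ stones N l Odd ≠ univ := by
  classical
  intro h
  have h1 : (univ : Finset (Fin N)).card ≤ l.toFinset.card := by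
    refine Finset.card_le_card_of_injOn (fun v => (v : ℕ) + 1) ?_ ?_
    · intro v _
      have : v ∈ stones N l Even ∪ stones N l Odd := by rw [h]; exact mem_univ v
      rw [mem_union] at this
      simpa using this
    · intro a _ b _ hab
      exact Fin.ext (by simpa using hab)
  have h2 := l.toFinset_card_le
  rw [Finset.card_univ, Fintype.card_fin] at h1
  omega

theorem union_eq {N : ℕ} {l : List ℕ} (hn : l.Nodup) (hb : ∀ x ∈ l, 1 ≤ x ∧ x ≤ N)
    (hl : l.length = N) : stones N l Even ∪ stones N l Odd = univ := by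
  classical
  have h1 : l.toFinset = Finset.Icc 1 N := by
    apply Finset.eq_of_subset_of_card_le
    · intro x hx
      rw [Finset.mem_Icc]
      exact hb x (by simpa using hx)
    · rw [List.toFinset_card_of_nodup hn, hl]
      simp
  ext v
  rw [mem_union]
  have h2 : (v : ℕ) + 1 ∈ l.toFinset := by
    rw [h1, Finset.mem_Icc]
    have := v.2
    omega
  simpa using h2

/-- the strategy -/
noncomputable def sg (N : ℕ) (P : Finset (Fin N) → Finset (Fin N) → Prop) (l : List ℕ) : ℕ := by
  classical
  exact if h : ∃ z : Fin N, z ∉ stones N l Even ∧ z ∉ stones N l Odd ∧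
      P (stones N l Even) (insert z (stones N l Odd)) then ((Classical.choose h : Fin N) : ℕ) + 1 else 0

theorem sg_spec {N : ℕ} {P : Finset (Fin N) → Finset (Fin N) → Prop} {l : List ℕ}
    (h : ∃ z : Fin N, z ∉ stones N l Even ∧ z ∉ stones N l Odd ∧
      P (stones N l Even) (insert z (stones N l Odd))) :
    ∃ z : Fin N, sg N P l = (z : ℕ) + 1 ∧ z ∉ stones N l Even ∧ z ∉ stones N l Odd ∧
      P (stones N l Even) (insert z (stones N l Odd)) := by
  classical
  refine ⟨Classical.choose h, ?_, Classical.choose_spec h⟩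
  rw [sg, dif_pos h]

/-- the list follows the strategy -/
def Fol (N : ℕ) (P : Finset (Fin N) → Finset (Fin N) → Prop) (l : List ℕ) : Prop :=
  ∀ i : ℕ, i < l.length → Odd i → l[i]? = some (sg N P (l.take i))

theorem fol_init {N : ℕ} {P : Finset (Fin N) → Finset (Fin N) → Prop} {l : List ℕ} {b : ℕ}
    (h : Fol N P (l ++ [b])) : Fol N P l := by
  intro i hi ho
  have h1 := h i (by rw [List.length_append]; simp; omega) ho
  rw [List.getElem?_append_left hi, List.take_append_of_le_length hi.le] at h1
  exact h1

theorem fol_last {N : ℕ} {P : Finset (Fin N) → Finset (Fin N) → Prop} {l : List ℕ} {b : ℕ}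
    (h : Fol N P (l ++ [b])) (ho : Odd l.length) : b = sg N P l := by
  have h1 := h l.length (by rw [List.length_append]; simp) ho
  rw [List.getElem?_append_right (le_refl _), List.take_append_of_le_length (le_refl _),
    List.take_length] at h1
  simpa using h1

section
variable {N : ℕ} {P : Finset (Fin N) → Finset (Fin N) → Prop}

theorem fin_of {a : ℕ} (h : 1 ≤ a ∧ a ≤ N) : ∃ x : Fin N, a = (x : ℕ) + 1 :=
  ⟨⟨a - 1, by omega⟩, by simp; omega⟩

theorem step (h2 : ∀ F S x, P F S → x ∉ F → x ∉ S → insert x F ∪ S ≠ univ →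
      ∃ z, z ∉ insert x F ∧ z ∉ S ∧ P (insert x F) (insert z S))
    (l : List ℕ) (a : ℕ) (hn : (l ++ [a]).Nodup) (ha : 1 ≤ a ∧ a ≤ N) (he : Even l.length)
    (hP : P (stones N l Even) (stones N l Odd))
    (hu : stones N (l ++ [a]) Even ∪ stones N (l ++ [a]) Odd ≠ univ) :
    ∃ z : Fin N, sg N P (l ++ [a]) = (z : ℕ) + 1 ∧ z ∉ stones N (l ++ [a]) Even ∧
      z ∉ stones N (l ++ [a]) Odd ∧
      P (stones N (l ++ [a]) Even) (insert z (stones N (l ++ [a]) Odd)) := by
  obtain ⟨x, rfl⟩ := fin_of ha
  apply sg_spec
  have ho : ¬ Odd l.length := Nat.not_odd_iff_even.2 he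
  rw [stones_snoc l Even x he, stones_snoc' l Odd _ ho] at hu ⊢
  have hx : x ∉ stones N l Even ∪ stones N l Odd := by
    rw [mem_union]
    intro hx
    rw [List.nodup_append] at hn
    exact hn.2.2 _ hx _ (by simp) rfl
  rw [Finset.mem_union, not_or] at hx
  exact h2 _ _ x hP hx.1 hx.2 hu

theorem inv (h1 : P ∅ ∅) (h2 : ∀ F S x, P F S → x ∉ F → x ∉ S → insert x F ∪ S ≠ univ →
      ∃ z, z ∉ insert x F ∧ z ∉ S ∧ P (insert x F) (insert z S)) (j : ℕ) :
    ∀ l : List ℕ, l.length = 2 * j → l.Nodup → (∀ x ∈ l, 1 ≤ x ∧ x ≤ N) → Fol N P l →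
      P (stones N l Even) (stones N l Odd) := by
  induction j with
  | zero =>
    intro l hl _ _ _
    have : l = [] := List.length_eq_zero_iff.1 (by omega)
    subst this
    have e1 : ∀ par : ℕ → Prop, stones N [] par = ∅ := by
      intro par
      ext v
      rw [mem_stones]
      simp
    rw [e1, e1]
    exact h1
  | succ j ih =>
    intro l hl hn hb hf
    rcases List.eq_nil_or_concat l with rfl | ⟨l1, b, rfl⟩
    · simp at hl
    rcases List.eq_nil_or_concat l1 with rfl | ⟨l2, a, rfl⟩
    · simp at hl; omega
    simp only [List.concat_eq_append] at *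
    have hlen : l2.length = 2 * j := by
      simp at hl; omega
    have hn1 : (l2 ++ [a]).Nodup := (List.nodup_append.1 hn).1
    have hf1 := fol_init hf
    have hP := ih l2 hlen (List.nodup_append.1 hn1).1
      (fun x hx => hb x (by simp [hx])) (fol_init hf1)
    have hev : Even l2.length := by rw [hlen]; exact even_two_mul j
    have hodd : Odd (l2 ++ [a]).length := by
      rw [List.length_append, hlen]; simp
    have hnev : ¬ Even (l2 ++ [a]).length := Nat.not_even_iff_odd.2 hodd
    obtain ⟨y, hy⟩ := fin_of (hb b (by simp))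
    have hu : stones N (l2 ++ [a]) Even ∪ stones N (l2 ++ [a]) Odd ≠ univ := by
      intro hc
      have : y ∈ stones N (l2 ++ [a]) Even ∪ stones N (l2 ++ [a]) Odd := by
        rw [hc]; exact mem_univ y
      rw [mem_union, ← hy] at this
      exact (List.nodup_append.1 hn).2.2 _ this _ (by simp) rfl
    obtain ⟨z, hz, -, -, hz3⟩ := step h2 l2 a hn1 (hb a (by simp)) hev hP hu
    have hbz : b = (z : ℕ) + 1 := by rw [fol_last hf hodd, hz]
    subst hbz
    rw [stones_snoc (l2 ++ [a]) Odd z hodd, stones_snoc' (l2 ++ [a]) Even _ hnev]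
    exact hz3

end

end StratAux

open StratAux in
theorem tDStrat : DStratStmt := by
  intro N P Q h1 h2 h3 h4
  refine ⟨sg N P, ?_⟩
  intro l hn hb hf
  have hfol : Fol N P l := hf
  constructor
  · rintro ⟨ho, hlt⟩
    rcases List.eq_nil_or_concat l with rfl | ⟨l1, a, rfl⟩
    · simp at ho
    simp only [List.concat_eq_append] at *
    have hev : Even l1.length := by
      rw [List.length_append] at ho
      have : Odd (l1.length + 1) := by simpa using ho
      rw [Nat.odd_add_one] at this
      exact Nat.not_odd_iff_even.1 this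
    obtain ⟨j, hj⟩ := hev
    have hP := inv h1 h2 j l1 (by omega) (List.nodup_append.1 hn).1
      (fun x hx => hb x (by simp [hx])) (fol_init hfol)
    obtain ⟨z, hz, hz1, hz2, -⟩ := step h2 l1 a hn (hb a (by simp)) ⟨j, hj⟩ hP (union_ne hlt)
    rw [hz]
    refine ⟨by omega, z.2, ?_⟩
    rw [← mem_union, Finset.mem_union, not_or]
    exact ⟨hz1, hz2⟩
  · intro hl
    rcases Nat.even_or_odd l.length with hev | ho
    · obtain ⟨j, hj⟩ := hev
      exact h3 _ _ (inv h1 h2 j l (by omega) hn hb hfol) (union_eq hn hb hl)
    · rcases List.eq_nil_or_concat l with rfl | ⟨l1, a, rfl⟩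
      · simp at ho
      simp only [List.concat_eq_append] at *
      have hev : Even l1.length := by
        rw [List.length_append] at ho
        have : Odd (l1.length + 1) := by simpa using ho
        rw [Nat.odd_add_one] at this
        exact Nat.not_odd_iff_even.1 this
      have hev' := hev
      obtain ⟨j, hj⟩ := hev
      have hP := inv h1 h2 j l1 (by omega) (List.nodup_append.1 hn).1
        (fun x hx => hb x (by simp [hx])) (fol_init hfol)
      have hU := union_eq hn hb hl
      obtain ⟨x, rfl⟩ := fin_of (hb a (by simp))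
      have hno : ¬ Odd l1.length := Nat.not_odd_iff_even.2 hev'
      have hx : x ∉ stones N l1 Even ∪ stones N l1 Odd := by
        rw [mem_union]
        intro hx
        rw [List.nodup_append] at hn
        exact hn.2.2 _ hx _ (by simp) rfl
      rw [Finset.mem_union, not_or] at hx
      rw [stones_snoc l1 Even x hev', stones_snoc' l1 Odd _ hno] at hU ⊢
      exact h4 _ _ x hP hx.1 hx.2 hU

end VdWG
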