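import Pool.Agent.Lib.VdW.SpecD

/-!
# From the abstract aim to the progressions
-/

set_option autoImplicit false

namespace VdWG

open Finset

namespace DWinM

theorem mem_ap {N m a d : ℕ} {v : Fin N} :
    v ∈ ap N m a d ↔ ∃ j, j < m ∧ (v : ℕ) + 1 = a + j * d := by
  simp [ap]

theorem mem_stones {N : ℕ} {l : List ℕ} {par : ℕ → Prop} {v : Fin N} :
    v ∈ stones N l par ↔ ∃ i : ℕ, par i ∧ l[i]? = some ((v : ℕ) + 1) := by
  classical
  simp [stones]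

theorem mem_aps {N m : ℕ} {l : Finset (Fin N)} :
    l ∈ aps N m ↔ ∃ a d, 1 ≤ a ∧ a ≤ N ∧ 1 ≤ d ∧ d ≤ N ∧ a + (m - 1) * d ≤ N ∧ ap N m a d = l := by
  simp only [aps, Finset.mem_image, Finset.mem_filter, Finset.mem_product, Finset.mem_Icc,
    Prod.exists]
  constructor
  · rintro ⟨a, d, ⟨⟨⟨h1, h2⟩, h3, h4⟩, h5⟩, h6⟩
    exact ⟨a, d, h1, h2, h3, h4, h5, h6⟩
  · rintro ⟨a, d, h1, h2, h3, h4, h5, h6⟩
    exact ⟨a, d, ⟨⟨⟨h1, h2⟩, h3, h4⟩, h5⟩, h6⟩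

end DWinM

open DWinM in
theorem tDWin (h1 : DStratStmt) (h2 : CStartStmt) (h3 : CStepStmt) (h4 : CEndStmt) :
    DWinStmt := by
  intro N n m k q hG
  obtain ⟨σ, hσ⟩ := h1 N (apSys N n m k q).Pos (apSys N n m k q).Goal
    (h2 (Fin N) _ hG) (fun F S x a b c d => h3 (Fin N) _ hG F S x a b c d)
    (fun F S a b => (h4 (Fin N) _ hG F S a).1 b)
    (fun F S x a b c d => (h4 (Fin N) _ hG F S a).2 x b c d)
  refine ⟨σ, fun l hn hb hf => ?_⟩
  obtain ⟨g1, g2⟩ := hσ l hn hb hf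
  refine ⟨g1, fun hl => ?_⟩
  obtain ⟨⟨L, hL, hLO⟩, hno⟩ := g2 hl
  have hm5 : 5 ≤ m := le_trans hG.num.n5 hG.num.nm
  constructor
  · obtain ⟨a, d, ha, -, hd, -, had, rfl⟩ := mem_aps.1 (show L ∈ aps N n from hL)
    refine ⟨a, d, hd, fun j hj => ?_⟩
    have hjd : a + j * d ≤ N := by
      have : j * d ≤ (n - 1) * d := Nat.mul_le_mul_right d (by omega)
      omega
    have hv : (⟨a + j * d - 1, by omega⟩ : Fin N) ∈ ap N n a d :=
      mem_ap.2 ⟨j, hj, by simp only; omega⟩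
    obtain ⟨i, hi, he⟩ := mem_stones.1 (hLO hv)
    refine ⟨i, hi, ?_⟩
    rw [he]
    simp only
    congr 1
    omega
  · rintro ⟨a, d, hd, hall⟩
    have hmem : ∀ j, j < m → 1 ≤ a + j * d ∧ a + j * d ≤ N := by
      intro j hj
      obtain ⟨i, -, he⟩ := hall j hj
      exact hb _ (List.mem_of_getElem? he)
    have ha := hmem 0 (by omega)
    have hlast := hmem (m - 1) (by omega)
    have h5 : d ≤ (m - 1) * d := Nat.le_mul_of_pos_left d (by omega)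
    refine hno (ap N m a d) (mem_aps.2 ⟨a, d, by omega, by omega, hd, by omega, hlast.2, rfl⟩) ?_
    intro v hv
    obtain ⟨j, hj, e⟩ := mem_ap.1 hv
    obtain ⟨i, hi, he⟩ := hall j hj
    exact mem_stones.2 ⟨i, hi, by rw [he, e]⟩

end VdWG
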