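import Pool.Agent.Lib.VdW.SpecD

/-!
# The points of the zone of a progression
-/

set_option autoImplicit false

namespace VdWG

open Finset

namespace DZM

theorem mem_ap {N m a d : ℕ} {v : Fin N} :
    v ∈ ap N m a d ↔ ∃ j, j < m ∧ (v : ℕ) + 1 = a + j * d := by
  simp [ap]

/-- the computation -/
theorem core {m : ℕ} {a d a' d' i j i' j' t Z U W : ℤ} (hi : 0 ≤ i) (him : i < m) (hj : 0 ≤ j)
    (hjm : j < m) (hi' : 0 ≤ i') (him' : i' < m) (hj' : 0 ≤ j') (hjm' : j' < m) (ht : 0 ≤ t)
    (htm : t < m) (hlt : j' < i') (hU : U = a + i * d) (hU' : U = a' + i' * d')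
    (hW : W = a + j * d) (hW' : W = a' + j' * d') (hZ : Z = a' + t * d') :
    |(i' - j') * i + (t - i') * (i - j)| ≤ 2 * (m : ℤ) ^ 2 ∧
      (i' - j') * (Z - a) = ((i' - j') * i + (t - i') * (i - j)) * d := by
  constructor
  · have h1 : |(i' - j') * i| ≤ (m : ℤ) ^ 2 := by
      rw [abs_mul, pow_two]
      apply mul_le_mul _ _ (abs_nonneg _) (by omega)
      · rw [abs_le]; constructor <;> omega
      · rw [abs_le]; constructor <;> omega
    have h2 : |(t - i') * (i - j)| ≤ (m : ℤ) ^ 2 := by
      rw [abs_mul, pow_two]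
      apply mul_le_mul _ _ (abs_nonneg _) (by omega)
      · rw [abs_le]; constructor <;> omega
      · rw [abs_le]; constructor <;> omega
    calc _ ≤ |(i' - j') * i| + |(t - i') * (i - j)| := abs_add_le _ _
      _ ≤ _ := by linarith
  · subst hU hW hZ
    have e1 : a = a' + i' * d' - i * d := by linarith
    have e2 : (i' - j') * d' = (i - j) * d := by linarith
    have e3 : a' + t * d' - a = i * d + (t - i') * d' := by rw [e1]; ring
    rw [e3]
    linear_combination (t - i') * e2

end DZM

open DZM in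
theorem tDZ : DZStmt := by
  classical
  intro N n m k q hm a d ha hd had z hz
  rw [Sys.Z, Finset.mem_union] at hz
  rcases hz with hz | hz
  · obtain ⟨j, hj, hz⟩ := mem_ap.1 hz
    refine ⟨1, j, le_refl _, by omega, ?_, ?_⟩
    · rw [abs_of_nonneg (by omega)]
      have h1 : (j : ℤ) ≤ m := by omega
      have h2 : (1 : ℤ) ≤ m := by omega
      nlinarith
    · have hz2 : ((z : ℕ) : ℤ) + 1 = a + j * d := by exact_mod_cast hz
      rw [hz2]
      push_cast
      ring
  · rw [Finset.mem_biUnion] at hz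
    obtain ⟨L', hL', hz⟩ := hz
    simp only [id] at hz
    rw [Finset.mem_filter] at hL'
    obtain ⟨hL, hc⟩ := hL'
    have hL2 : L' ∈ aps N m := hL
    simp only [aps, Finset.mem_image, Finset.mem_filter, Finset.mem_product, Finset.mem_Icc,
      Prod.exists] at hL2
    obtain ⟨a', d', -, rfl⟩ := hL2
    obtain ⟨u, w, hu, hw, huw⟩ := Finset.one_lt_card_iff.1 (show 1 < _ from hc)
    rw [Finset.mem_inter] at hu hw
    obtain ⟨i, hi, e1⟩ := mem_ap.1 hu.1
    obtain ⟨i', hi', e2⟩ := mem_ap.1 hu.2
    obtain ⟨j, hj, e3⟩ := mem_ap.1 hw.1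
    obtain ⟨j', hj', e4⟩ := mem_ap.1 hw.2
    obtain ⟨t, ht, e5⟩ := mem_ap.1 hz
    have f1 : ((u : ℕ) : ℤ) + 1 = a + i * d := by exact_mod_cast e1
    have f2 : ((u : ℕ) : ℤ) + 1 = a' + i' * d' := by exact_mod_cast e2
    have f3 : ((w : ℕ) : ℤ) + 1 = a + j * d := by exact_mod_cast e3
    have f4 : ((w : ℕ) : ℤ) + 1 = a' + j' * d' := by exact_mod_cast e4
    have f5 : ((z : ℕ) : ℤ) + 1 = a' + t * d' := by exact_mod_cast e5
    have hne : i' ≠ j' := by
      rintro rfl
      apply huw
      apply Fin.ext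
      omega
    rcases lt_or_gt_of_ne hne with h | h
    · have hc := core (m := m) (i := j) (j := i) (i' := j') (j' := i') (t := t)
        (by omega) (by omega) (by omega) (by omega) (by omega) (by omega) (by omega) (by omega)
        (by omega) (by omega) (by exact_mod_cast h) f3 f4 f1 f2 f5
      refine ⟨j' - i', _, by omega, by omega, hc.1, ?_⟩
      rw [← hc.2]
      push_cast [Nat.cast_sub h.le]
      ring
    · have hc := core (m := m) (i := i) (j := j) (i' := i') (j' := j') (t := t)
        (by omega) (by omega) (by omega) (by omega) (by omega) (by omega) (by omega) (by omega)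
        (by omega) (by omega) (by exact_mod_cast h) f1 f2 f3 f4 f5
      refine ⟨i' - j', _, by omega, by omega, hc.1, ?_⟩
      rw [← hc.2]
      push_cast [Nat.cast_sub h.le]
      ring

end VdWG
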