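import Pool.Agent.Lib.VdW.SpecA

/-!
# The sum of the weights of the extensions of a configuration
-/

set_option autoImplicit false

namespace VdWG

open Finset

namespace XExt

/-- The weight of a configuration with one line more, in terms of numbers. -/
theorem key (h3 : ThPowStmt) (n k c s s' d u u' e : ℕ) (hn : 5 ≤ n) (he : e ≤ 2 * n)
    (hs : s' ≤ s + d) (hu : u + e ≤ u') :
    (2 : ℝ) ^ (k * (c + 1) + s') / (2 - 2 / (n : ℝ)) ^ u' ≤
      (2 : ℝ) ^ (k * c + s) / (2 - 2 / (n : ℝ)) ^ u * (2 ^ (k + d) * (16 / 2 ^ e)) := by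
  obtain ⟨ht1, ht2, ht3⟩ := h3 n e hn he
  generalize (2 - 2 / (n : ℝ)) = t at ht1 ht2 ht3
  have ht0 : 0 < t := by linarith
  have e1 : (2 : ℝ) ^ (k * (c + 1) + s') ≤ 2 ^ (k * c + s) * 2 ^ (k + d) := by
    rw [← pow_add]
    apply pow_le_pow_right₀ (by norm_num)
    have : k * (c + 1) = k * c + k := by ring
    omega
  have e2 : t ^ u * t ^ e ≤ t ^ u' := by
    rw [← pow_add]
    exact pow_le_pow_right₀ ht1 hu
  have hu0 : 0 < t ^ u := pow_pos ht0 u
  have he0 : 0 < t ^ e := pow_pos ht0 e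
  have e3 : 1 / t ^ u' ≤ 1 / t ^ u * (16 / 2 ^ e) := by
    calc 1 / t ^ u' ≤ 1 / (t ^ u * t ^ e) := one_div_le_one_div_of_le (mul_pos hu0 he0) e2
      _ = 1 / t ^ u * (1 / t ^ e) := by rw [one_div_mul_one_div]
      _ ≤ 1 / t ^ u * (16 / 2 ^ e) := mul_le_mul_of_nonneg_left ht3 (by positivity)
  calc (2 : ℝ) ^ (k * (c + 1) + s') / t ^ u' = 2 ^ (k * (c + 1) + s') * (1 / t ^ u') := by
        rw [mul_one_div]
    _ ≤ (2 ^ (k * c + s) * 2 ^ (k + d)) * (1 / t ^ u * (16 / 2 ^ e)) :=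
        mul_le_mul e1 e3 (by positivity) (by positivity)
    _ = (2 : ℝ) ^ (k * c + s) / t ^ u * (2 ^ (k + d) * (16 / 2 ^ e)) := by ring

variable {V : Type} [DecidableEq V] (M : Sys V)

theorem un_mono (D : Finset (Finset V)) (L : Finset V) : un D ⊆ un (insert L D) := by
  unfold un
  exact Finset.biUnion_subset_biUnion_of_subset_left _ (Finset.subset_insert L D)

theorem wt_nonneg (hn : 5 ≤ M.n) (C : Finset (Finset V)) : 0 ≤ M.wt0 C := by
  have h5 : (5 : ℝ) ≤ (M.n : ℝ) := by exact_mod_cast hn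
  have h2 : 2 / (M.n : ℝ) ≤ 1 := by
    rw [div_le_one (by linarith)]
    linarith
  have ht : 0 ≤ M.th := by
    unfold Sys.th
    linarith
  unfold Sys.wt0 Sys.cf
  positivity

end XExt

open XExt in
/-- **Ext.** -/
theorem tExt (h1 : SAddStmt) (h2 : UnAddStmt) (h3 : ThPowStmt) (h4 : TypStmt) : ExtStmt := by
  intro V _ _ M hF hN D E hDE hE hEc
  have hw : 0 ≤ M.wt0 D := wt_nonneg M hN.n5 D
  have hDc : D.card ≤ 2 * M.q := le_trans (Finset.card_le_card hDE) hEc
  obtain ⟨hT1, hT2⟩ := h4 V M hF D E (hDE.trans hE) hE hDc hEc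
  -- the two types
  set a : ℝ := M.wt0 D * (64 * 2 ^ M.k / 2 ^ M.m) with ha
  set b : ℝ := M.wt0 D * (16 * 2 ^ (M.k + 4 * M.k * M.q + 2 * M.q) / 2 ^ M.m) with hb
  have ha0 : 0 ≤ a := by positivity
  have hb0 : 0 ≤ b := by positivity
  have hwt : ∀ L ∈ M.ext D E, M.wt0 (insert L D) ≤
      if 2 ≤ (M.Z L ∩ M.zone D).card then b else a := by
    intro L hL
    simp only [Sys.ext, Finset.mem_filter] at hL
    obtain ⟨hLF, hLD, -, hun⟩ := hL
    obtain ⟨s1, s2⟩ := h1 V M D L hLD
    obtain ⟨u1, u2⟩ := h2 V M D L hLD hun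
    have hm : L.card = M.m := hF.card L hLF
    have hn5 := hN.n5
    have hnm := hN.nm
    have hm2 := hN.m2n
    have hcard : (insert L D).card = D.card + 1 := Finset.card_insert_of_notMem hLD
    split_ifs with hc
    · have hle : (un D).card ≤ (un (insert L D)).card := Finset.card_le_card (un_mono D L)
      have hk := key h3 M.n M.k D.card (M.s D) (M.s (insert L D)) (4 * M.k * M.q) (un D).card
        (un (insert L D)).card (M.m - 2 * M.q) hn5 (by omega) s2 (by omega)
      have hpw : (16 : ℝ) / 2 ^ (M.m - 2 * M.q) ≤ 16 * 2 ^ (2 * M.q) / 2 ^ M.m := by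
        rw [div_le_div_iff₀ (by positivity) (by positivity)]
        have : (2 : ℝ) ^ M.m ≤ 2 ^ (2 * M.q) * 2 ^ (M.m - 2 * M.q) := by
          rw [← pow_add]
          exact pow_le_pow_right₀ (by norm_num) (by omega)
        nlinarith
      calc M.wt0 (insert L D) = (2 : ℝ) ^ (M.k * (D.card + 1) + M.s (insert L D)) /
            (2 - 2 / (M.n : ℝ)) ^ (un (insert L D)).card := by
            unfold Sys.wt0 Sys.cf Sys.th
            rw [hcard]
        _ ≤ _ := hk
        _ = M.wt0 D * (2 ^ (M.k + 4 * M.k * M.q) * (16 / 2 ^ (M.m - 2 * M.q))) := rfl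
        _ ≤ M.wt0 D * (2 ^ (M.k + 4 * M.k * M.q) * (16 * 2 ^ (2 * M.q) / 2 ^ M.m)) :=
            mul_le_mul_of_nonneg_left (mul_le_mul_of_nonneg_left hpw (by positivity)) hw
        _ = b := by
            rw [hb, pow_add (2 : ℝ) (M.k + 4 * M.k * M.q) (2 * M.q)]
            ring
    · have hk := key h3 M.n M.k D.card (M.s D) (M.s (insert L D)) 1 (un D).card
        (un (insert L D)).card (M.m - 1) hn5 (by omega) (by omega) (by omega)
      have hpw : (16 : ℝ) / 2 ^ (M.m - 1) = 32 / 2 ^ M.m := by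
        have : (2 : ℝ) ^ M.m = 2 ^ (M.m - 1) * 2 := by
          rw [← pow_succ]
          congr 1
          omega
        rw [this, div_eq_div_iff (by positivity) (by positivity)]
        ring
      calc M.wt0 (insert L D) = (2 : ℝ) ^ (M.k * (D.card + 1) + M.s (insert L D)) /
            (2 - 2 / (M.n : ℝ)) ^ (un (insert L D)).card := by
            unfold Sys.wt0 Sys.cf Sys.th
            rw [hcard]
        _ ≤ _ := hk
        _ = M.wt0 D * (2 ^ (M.k + 1) * (16 / 2 ^ (M.m - 1))) := rfl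
        _ = a := by
            rw [ha, hpw, pow_succ]
            ring
  -- the numbers of the lines of the two types
  have hn1 : (((M.ext D E).filter (fun L => ¬ 2 ≤ (M.Z L ∩ M.zone D).card)).card : ℝ) ≤
      2 * M.q * M.A * (M.A * Fintype.card V) := by
    have : ((M.ext D E).filter (fun L => ¬ 2 ≤ (M.Z L ∩ M.zone D).card)).card ≤
        2 * M.q * M.A * (M.A * Fintype.card V) := by
      refine le_trans (Finset.card_le_card ?_) hT1
      intro L hL
      unfold Sys.ext at hL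
      simp only [Finset.mem_filter] at hL ⊢
      exact ⟨hL.1.1, hL.1.2.2.1⟩
    exact_mod_cast this
  have hn2 : (((M.ext D E).filter (fun L => 2 ≤ (M.Z L ∩ M.zone D).card)).card : ℝ) ≤
      (2 * M.q * M.A) ^ 2 * M.A := by
    have : ((M.ext D E).filter (fun L => 2 ≤ (M.Z L ∩ M.zone D).card)).card ≤
        (2 * M.q * M.A) ^ 2 * M.A := by
      refine le_trans (Finset.card_le_card ?_) hT2
      intro L hL
      unfold Sys.ext at hL
      simp only [Finset.mem_filter] at hL ⊢
      exact ⟨hL.1.1, hL.2⟩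
    exact_mod_cast this
  calc ∑ L ∈ M.ext D E, M.wt0 (insert L D)
      ≤ ∑ L ∈ M.ext D E, (if 2 ≤ (M.Z L ∩ M.zone D).card then b else a) :=
        Finset.sum_le_sum hwt
    _ = (((M.ext D E).filter (fun L => 2 ≤ (M.Z L ∩ M.zone D).card)).card : ℝ) * b +
        (((M.ext D E).filter (fun L => ¬ 2 ≤ (M.Z L ∩ M.zone D).card)).card : ℝ) * a := by
        rw [Finset.sum_ite, Finset.sum_const, Finset.sum_const, nsmul_eq_mul, nsmul_eq_mul]
    _ ≤ ((2 * M.q * M.A) ^ 2 * M.A) * b + (2 * M.q * M.A * (M.A * Fintype.card V)) * a :=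
        add_le_add (mul_le_mul_of_nonneg_right hn2 hb0) (mul_le_mul_of_nonneg_right hn1 ha0)
    _ = dl (Fintype.card V) M.m M.k M.q M.A * M.wt0 D := by
        rw [ha, hb]
        unfold dl
        ring

end VdWG
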