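import Pool.Agent.Lib.VdW.SpecA

/-!
# The potentials at the start
-/

set_option autoImplicit false

namespace VdWG

open Finset

namespace InitM

theorem w_start {V : Type} [Fintype V] [DecidableEq V] (M : Sys V) (C : Finset (Finset V)) :
    M.bg.w ∅ ∅ (un C) (M.cf C) = M.wt0 C := by
  unfold BG.w
  rw [if_pos (Finset.disjoint_empty_right _), Finset.sdiff_empty]
  rfl

theorem inner {V : Type} [Fintype V] [DecidableEq V] (X : Finset (Finset (Finset V)))
    (f : Finset (Finset V) → ℝ) (Z : Finset (Finset V) → Finset V) (l : Finset V) :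
    ∑ C ∈ X, f C * ((l ∩ Z C).card : ℝ) = ∑ z ∈ l, ∑ C ∈ X.filter (fun C => z ∈ Z C), f C := by
  have h1 : ∀ C, ((l ∩ Z C).card : ℝ) = ∑ z ∈ l, if z ∈ Z C then (1 : ℝ) else 0 := by
    intro C
    rw [Finset.sum_boole, Finset.filter_mem_eq_inter]
  simp only [h1, Finset.mul_sum]
  rw [Finset.sum_comm]
  refine Finset.sum_congr rfl fun z _ => ?_
  rw [Finset.sum_filter]
  refine Finset.sum_congr rfl fun C _ => ?_
  split_ifs
  · rw [mul_one]
  · rw [mul_zero]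

end InitM

theorem tInit (h1 : SumStmt) : InitStmt := by
  intro V _ _ M hG
  obtain ⟨s1, s2, s3⟩ := h1 V M hG.hF hG.num
  have hn : (5 : ℝ) ≤ (M.n : ℝ) := by exact_mod_cast hG.num.n5
  have hN : 0 < Fintype.card V := by
    have h2 := hG.num.h3
    have h3 : 0 < 150 * M.n * M.A ^ 2 * 2 ^ M.n := by
      have h4 := hG.num.n5
      have h5 := hG.num.A1
      positivity
    omega
  have hNr : (0 : ℝ) < (Fintype.card V : ℝ) := by exact_mod_cast hN
  have hPh : M.bg.Ph ∅ ∅ = ∑ p ∈ M.X2, M.wt0 p.2 := by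
    unfold BG.Ph
    refine Finset.sum_congr rfl fun p _ => ?_
    exact InitM.w_start M p.2
  have hPh1 : M.bg.Ph1 ∅ ∅ = ∑ C ∈ M.X1, M.wt0 C := by
    unfold BG.Ph1
    refine Finset.sum_congr rfl fun C _ => ?_
    exact InitM.w_start M C
  refine ⟨?_, ?_, ?_⟩
  · rw [hPh]
    have h6 := hG.num.h6
    calc 512 * (M.n : ℝ) * ∑ p ∈ M.X2, M.wt0 p.2
        ≤ 512 * (M.n : ℝ) * (2 * (Fintype.card V : ℝ) ^ 2 *
          dl (Fintype.card V) M.m M.k M.q M.A ^ M.q) :=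
          mul_le_mul_of_nonneg_left s1 (by positivity)
      _ = 1024 * (M.n : ℝ) * (Fintype.card V : ℝ) ^ 2 *
          dl (Fintype.card V) M.m M.k M.q M.A ^ M.q := by ring
      _ ≤ 1 := h6
  · rw [hPh1]
    have het : M.bg.et = 200 * (M.n : ℝ) * ((M.q * M.A : ℕ) : ℝ) * (M.A : ℝ) ^ 2 * 2 ^ M.n /
        (Fintype.card V : ℝ) ^ 2 := rfl
    have het0 : 0 ≤ M.bg.et := by
      rw [het]
      positivity
    have h4 : (3276800 * (M.n : ℝ) ^ 2 * M.q * (M.A : ℝ) ^ 3 * 2 ^ (M.n + M.k) : ℝ) ≤ 2 ^ M.m := by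
      exact_mod_cast hG.num.h4
    calc 512 * (M.n : ℝ) * (M.bg.et * ∑ C ∈ M.X1, M.wt0 C)
        ≤ 512 * (M.n : ℝ) * (M.bg.et * (32 * (Fintype.card V : ℝ) ^ 2 * 2 ^ M.k / 2 ^ M.m)) :=
          mul_le_mul_of_nonneg_left (mul_le_mul_of_nonneg_left s2 het0) (by positivity)
      _ = (3276800 * (M.n : ℝ) ^ 2 * M.q * (M.A : ℝ) ^ 3 * 2 ^ (M.n + M.k)) / 2 ^ M.m := by
          rw [het, pow_add]
          push_cast
          field_simp
          ring
      _ ≤ 1 := (div_le_one (by positivity)).2 h4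
  · have hJ : M.bg.J ∅ ∅ ∅ ≤ (M.LS.card : ℝ) * ((M.n : ℝ) *
        dl (Fintype.card V) M.m M.k M.q M.A) := by
      have hL : M.bg.Λ' ∅ ∅ ∅ = M.LS := by
        unfold BG.Λ'
        refine Finset.filter_true_of_mem fun l _ => ?_
        exact ⟨Finset.disjoint_empty_right _, by simp⟩
      unfold BG.J
      rw [hL]
      have h5 : ∀ l ∈ M.LS, M.bg.th ^ (l ∩ ∅).card * ∑ i ∈ M.bg.I₁, M.bg.w₁ ∅ ∅ i *
          (((l \ ∅) ∩ M.bg.Z₁ i).card : ℝ) ≤
          (M.n : ℝ) * dl (Fintype.card V) M.m M.k M.q M.A := by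
        intro l hl
        rw [Finset.inter_empty, Finset.card_empty, pow_zero, one_mul, Finset.sdiff_empty]
        have h6 : ∑ i ∈ M.bg.I₁, M.bg.w₁ ∅ ∅ i * ((l ∩ M.bg.Z₁ i).card : ℝ) =
            ∑ C ∈ M.X1, M.wt0 C * ((l ∩ M.zone C).card : ℝ) := by
          refine Finset.sum_congr rfl fun C _ => ?_
          have h7 : M.bg.w₁ ∅ ∅ C = M.wt0 C := InitM.w_start M C
          rw [h7]
          rfl
        rw [h6, InitM.inner, ← hG.hS.card l hl, ← nsmul_eq_mul]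
        exact Finset.sum_le_card_nsmul _ _ _ fun z _ => s3 z
      have h8 := Finset.sum_le_card_nsmul _ _ _ h5
      rw [nsmul_eq_mul] at h8
      exact h8
    have h5 := hG.num.h5
    calc 51200 * (M.n : ℝ) * M.bg.J ∅ ∅ ∅
        ≤ 51200 * (M.n : ℝ) * ((M.LS.card : ℝ) * ((M.n : ℝ) *
          dl (Fintype.card V) M.m M.k M.q M.A)) :=
          mul_le_mul_of_nonneg_left hJ (by positivity)
      _ = (M.LS.card : ℝ) * (51200 * (M.n : ℝ) ^ 2 * dl (Fintype.card V) M.m M.k M.q M.A) := by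
          ring
      _ ≤ (M.LS.card : ℝ) * 1 := mul_le_mul_of_nonneg_left h5 (by positivity)
      _ = (M.LS.card : ℝ) := mul_one _

end VdWG
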