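import Pool.Agent.Lib.VdW.SpecA

/-!
# Removing a line different from the root
-/

set_option autoImplicit false

namespace VdWG

open Finset

theorem tLeaf (h1 : ConnUStmt) : LeafStmt := by
  classical
  intro V _ _ M C r hC hr h2
  obtain ⟨hsing, hun⟩ := h1 V M
  set F := C.powerset.filter fun X => r ∈ X ∧ M.Conn X ∧ X ≠ C with hF
  have hrF : {r} ∈ F := by
    rw [hF, Finset.mem_filter, Finset.mem_powerset, Finset.singleton_subset_iff]
    refine ⟨hr, Finset.mem_singleton_self r, hsing r, ?_⟩
    rintro rfl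
    rw [Finset.card_singleton] at h2
    omega
  obtain ⟨X, hX, hmax⟩ := Finset.exists_max_image F (fun X => X.card) ⟨_, hrF⟩
  rw [hF, Finset.mem_filter, Finset.mem_powerset] at hX
  obtain ⟨hXC, hrX, hXconn, hXne⟩ := hX
  obtain ⟨K, hK, L, hL, hd⟩ := hC.2 X hXC ⟨r, hrX⟩ hXne
  rw [Finset.mem_sdiff] at hL
  have hins : M.Conn (insert L X) := by
    have h3 := hun X {L} hXconn (hsing L) (Or.inr ⟨K, hK, L, Finset.mem_singleton_self L, hd⟩)
    rwa [Finset.union_comm, ← Finset.insert_eq] at h3
  have hCX : insert L X = C := by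
    by_contra hne
    have h4 : insert L X ∈ F := by
      rw [hF, Finset.mem_filter, Finset.mem_powerset]
      exact ⟨Finset.insert_subset hL.1 hXC, Finset.mem_insert_of_mem hrX, hins, hne⟩
    have h5 := hmax _ h4
    rw [Finset.card_insert_of_notMem hL.2] at h5
    omega
  have hXe : C.erase L = X := by
    rw [← hCX, Finset.erase_insert hL.2]
  refine ⟨L, hL.1, ?_, ?_, ?_⟩
  · rintro rfl
    exact hL.2 hrX
  · rw [hXe]
    exact hXconn
  · rw [hXe]
    intro hdis
    apply hd
    refine Disjoint.symm (hdis.mono_right ?_)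
    intro z hz
    rw [Sys.zone, Finset.mem_biUnion]
    exact ⟨K, hK, hz⟩

end VdWG
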