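import Pool.Agent.Lib.VdW.SpecA

/-!
# `s` when a line is added
-/

set_option autoImplicit false

namespace VdWG

open Finset

namespace SAddM

variable {V : Type} [Fintype V] [DecidableEq V] (M : Sys V)

theorem sub_Z (L : Finset V) : L ⊆ M.Z L := Finset.subset_union_left

theorem Pt_insert (C₁ D : Finset (Finset V)) (L : Finset V) (h : C₁ ⊆ D) :
    M.Pt (insert L C₁) ⊆ M.Pt C₁ ∪ (M.Z L ∩ M.zone D) := by
  intro p hp
  simp only [Sys.Pt, Finset.mem_biUnion, Finset.mem_erase, Finset.mem_insert, Finset.mem_inter] at hp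
  obtain ⟨a, ha, b, ⟨hba, hb⟩, hpb, hpa⟩ := hp
  rw [Finset.mem_union, Finset.mem_inter]
  by_cases haL : a = L
  · have hb' : b ∈ C₁ := by
      rcases hb with hb | hb
      · exact absurd (hb.trans haL.symm) hba
      · exact hb
    right
    subst haL
    refine ⟨hpa, ?_⟩
    rw [Sys.zone, Finset.mem_biUnion]
    exact ⟨b, h hb', sub_Z M b hpb⟩
  · have ha' : a ∈ C₁ := ha.resolve_left haL
    rcases hb with hb | hb
    · right
      subst hb
      refine ⟨sub_Z M b hpb, ?_⟩
      rw [Sys.zone, Finset.mem_biUnion]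
      exact ⟨a, h ha', hpa⟩
    · left
      simp only [Sys.Pt, Finset.mem_biUnion, Finset.mem_erase, Finset.mem_inter]
      exact ⟨a, ha', b, ⟨hba, hb⟩, hpb, hpa⟩

end SAddM

open SAddM

theorem tSAdd (h1 : SMinStmt) : SAddStmt := by
  intro V _ _ M D L hL
  obtain ⟨hle, hex, _, _⟩ := h1 V M
  obtain ⟨C₁, hC₁, hs⟩ := hex D
  constructor
  · have h2 := hle (insert L D) (insert L C₁) (Finset.insert_subset_insert L hC₁)
    have h3 : (M.Pt (insert L C₁)).card ≤ (M.Pt C₁).card + (M.Z L ∩ M.zone D).card :=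
      (Finset.card_le_card (Pt_insert M C₁ D L hC₁)).trans (Finset.card_union_le _ _)
    have h4 : (insert L D \ insert L C₁).card ≤ (D \ C₁).card := by
      refine Finset.card_le_card fun K hK => ?_
      rw [Finset.mem_sdiff, Finset.mem_insert, Finset.mem_insert, not_or] at hK
      rw [Finset.mem_sdiff]
      exact ⟨hK.1.resolve_left hK.2.1, hK.2.2⟩
    rw [hs]
    unfold Sys.sf at h2 ⊢
    have h5 := Nat.mul_le_mul_left (4 * M.k * M.q) h4
    omega
  · have h2 := hle (insert L D) C₁ (hC₁.trans (Finset.subset_insert L D))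
    have h4 : (insert L D \ C₁).card ≤ (D \ C₁).card + 1 := by
      have h5 : insert L D \ C₁ ⊆ insert L (D \ C₁) := by
        intro K hK
        rw [Finset.mem_sdiff, Finset.mem_insert] at hK
        rw [Finset.mem_insert, Finset.mem_sdiff]
        rcases hK.1 with h | h
        · exact Or.inl h
        · exact Or.inr ⟨h, hK.2⟩
      exact (Finset.card_le_card h5).trans (Finset.card_insert_le _ _)
    rw [hs]
    unfold Sys.sf at h2 ⊢
    have h5 := Nat.mul_le_mul_left (4 * M.k * M.q) h4
    rw [mul_add, mul_one] at h5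
    omega

end VdWG
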