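import Pool.Agent.Lib.VdW.SpecA

/-!
# The sums at the start
-/

set_option autoImplicit false

namespace VdWG

open Finset

namespace SumM

theorem geom {d : ℝ} (h0 : 0 ≤ d) (h1 : d ≤ 1 / 2) (J : ℕ) : ∑ j ∈ Finset.range J, d ^ j ≤ 2 := by
  have h2 := mul_neg_geom_sum d J
  have h3 : 0 ≤ ∑ j ∈ Finset.range J, d ^ j := Finset.sum_nonneg fun j _ => pow_nonneg h0 j
  have h4 : 0 ≤ d ^ J := pow_nonneg h0 J
  nlinarith

theorem wt_nonneg {V : Type} [Fintype V] [DecidableEq V] (M : Sys V) (h2 : ThPowStmt)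
    (hn : 5 ≤ M.n) (C : Finset (Finset V)) : 0 ≤ M.wt0 C := by
  have h3 := (h2 M.n 0 hn (Nat.zero_le _)).1
  unfold Sys.wt0 Sys.cf Sys.th
  have h4 : (0 : ℝ) ≤ 2 - 2 / (M.n : ℝ) := by linarith
  positivity

theorem wt_single {V : Type} [Fintype V] [DecidableEq V] (M : Sys V) (h1 : SMinStmt)
    (h2 : ThPowStmt) (hF : M.HypF) (hn : 5 ≤ M.n) (hm : M.m ≤ 2 * M.n) {r : Finset V}
    (hr : r ∈ M.LF) : M.wt0 {r} ≤ 16 * 2 ^ M.k / 2 ^ M.m := by
  have hs := (h1 V M).2.2.2 r
  have hu : un ({r} : Finset (Finset V)) = r := by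
    unfold un
    rw [Finset.singleton_biUnion]
    rfl
  have h3 := (h2 M.n M.m hn hm).2.2
  unfold Sys.wt0 Sys.cf Sys.th
  rw [hs, hu, hF.card r hr, Finset.card_singleton, mul_one, add_zero]
  calc (2 : ℝ) ^ M.k / (2 - 2 / (M.n : ℝ)) ^ M.m
      = 2 ^ M.k * (1 / (2 - 2 / (M.n : ℝ)) ^ M.m) := by ring
    _ ≤ 2 ^ M.k * (16 / 2 ^ M.m) := mul_le_mul_of_nonneg_left h3 (by positivity)
    _ = 16 * 2 ^ M.k / 2 ^ M.m := by ring

open Classical in
/-- The sum over the configurations of the first kind which meet `R`. -/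
theorem first {V : Type} [Fintype V] [DecidableEq V] (M : Sys V) (h1 : SMinStmt)
    (h2 : ThPowStmt) (h3 : CntStmt) (hF : M.HypF)
    (hN : Num (Fintype.card V) M.n M.m M.k M.q M.A)
    (hd0 : 0 ≤ dl (Fintype.card V) M.m M.k M.q M.A)
    (hd1 : dl (Fintype.card V) M.m M.k M.q M.A ≤ 1 / 2) (R : Finset (Finset V)) (hR : R ⊆ M.LF)
    (Y : Finset (Finset (Finset V))) (hY : Y ⊆ M.X1) (hYR : ∀ C ∈ Y, ∃ r ∈ R, r ∈ C) :
    ∑ C ∈ Y, M.wt0 C ≤ (R.card : ℝ) * (32 * 2 ^ M.k / 2 ^ M.m) := by
  have hw := wt_nonneg M h2 hN.n5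
  calc ∑ C ∈ Y, M.wt0 C ≤ ∑ C ∈ Y, ∑ r ∈ R, if r ∈ C then M.wt0 C else 0 := by
        refine Finset.sum_le_sum fun C hC => ?_
        obtain ⟨r, hr, hrC⟩ := hYR C hC
        have h4 := Finset.single_le_sum (f := fun r => if r ∈ C then M.wt0 C else 0)
          (fun r _ => by
            change 0 ≤ if r ∈ C then M.wt0 C else 0
            split_ifs
            · exact hw C
            · exact le_refl _) hr
        simp only [if_pos hrC] at h4
        exact h4
    _ = ∑ r ∈ R, ∑ C ∈ Y.filter (fun C => r ∈ C), M.wt0 C := by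
        rw [Finset.sum_comm]
        refine Finset.sum_congr rfl fun r _ => ?_
        rw [Finset.sum_filter]
    _ ≤ ∑ r ∈ R, (32 * 2 ^ M.k / 2 ^ M.m : ℝ) := by
        refine Finset.sum_le_sum fun r hr => ?_
        have hmaps : ∀ C ∈ Y.filter (fun C => r ∈ C), C.card - 1 ∈ Finset.range M.q := by
          intro C hC
          rw [Finset.mem_filter] at hC
          have h5 := hY hC.1
          unfold Sys.X1 at h5
          rw [Finset.mem_filter] at h5
          have h6 : 0 < C.card := Finset.card_pos.2 ⟨r, hC.2⟩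
          have h7 := h5.2.2.2
          rw [Finset.mem_range]
          omega
        rw [← Finset.sum_fiberwise_of_maps_to hmaps]
        calc ∑ j ∈ Finset.range M.q, ∑ C ∈ (Y.filter (fun C => r ∈ C)).filter
              (fun C => C.card - 1 = j), M.wt0 C
            ≤ ∑ j ∈ Finset.range M.q, (16 * 2 ^ M.k / 2 ^ M.m) *
              dl (Fintype.card V) M.m M.k M.q M.A ^ j := by
              refine Finset.sum_le_sum fun j hj => ?_
              rw [Finset.mem_range] at hj
              have h8 := (h3 V M hF hN r (hR hr) j (by omega)).2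
              have h9 : (Y.filter (fun C => r ∈ C)).filter (fun C => C.card - 1 = j) ⊆
                  M.VV r j := by
                intro C hC
                rw [Finset.mem_filter, Finset.mem_filter] at hC
                have h5 := hY hC.1.1
                unfold Sys.X1 at h5
                rw [Finset.mem_filter] at h5
                have h6 : 0 < C.card := Finset.card_pos.2 ⟨r, hC.1.2⟩
                have h7 := hC.2
                unfold Sys.VV
                rw [Finset.mem_filter]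
                exact ⟨h5.1, hC.1.2, h5.2.1, h5.2.2.1, by omega⟩
              refine (Finset.sum_le_sum_of_subset_of_nonneg h9 fun C _ _ => hw C).trans ?_
              refine h8.trans ?_
              exact mul_le_mul_of_nonneg_right (wt_single M h1 h2 hF hN.n5 hN.m2n (hR hr))
                (pow_nonneg hd0 j)
          _ = (16 * 2 ^ M.k / 2 ^ M.m) * ∑ j ∈ Finset.range M.q,
              dl (Fintype.card V) M.m M.k M.q M.A ^ j := by rw [Finset.mul_sum]
          _ ≤ (16 * 2 ^ M.k / 2 ^ M.m) * 2 :=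
              mul_le_mul_of_nonneg_left (geom hd0 hd1 _) (by positivity)
          _ = 32 * 2 ^ M.k / 2 ^ M.m := by ring
    _ = (R.card : ℝ) * (32 * 2 ^ M.k / 2 ^ M.m) := by
        rw [Finset.sum_const, nsmul_eq_mul]

end SumM

open Classical in
theorem tSum (h1 : SMinStmt) (h2 : ThPowStmt) (h3 : CntStmt) : SumStmt := by
  intro V _ _ M hF hN
  have hw := SumM.wt_nonneg M h2 hN.n5
  have hn : (5 : ℝ) ≤ (M.n : ℝ) := by exact_mod_cast hN.n5
  have hq : (1 : ℝ) ≤ (M.q : ℝ) := by exact_mod_cast hN.q1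
  have hA : (1 : ℝ) ≤ (M.A : ℝ) := by exact_mod_cast hN.A1
  have hd0 : 0 ≤ dl (Fintype.card V) M.m M.k M.q M.A := by
    unfold dl
    positivity
  have hd1 : dl (Fintype.card V) M.m M.k M.q M.A ≤ 1 / 2 := by
    have h5 := hN.h5
    nlinarith
  have htot : (M.LF.card : ℝ) ≤ (Fintype.card V : ℝ) ^ 2 := by exact_mod_cast hF.tot
  refine ⟨?_, ?_, fun z => ?_⟩
  · -- the second kind
    have hX : ∑ p ∈ M.X2, M.wt0 p.2 = ∑ r ∈ M.LF, ∑ C ∈ M.LF.powerset.filter
        (fun C => r ∉ C ∧ M.Conn (insert r C) ∧ Unrel C ∧ M.q ≤ C.card ∧ C.card < 2 * M.q),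
        M.wt0 C := by
      unfold Sys.X2
      rw [Finset.sum_filter, Finset.sum_product]
      refine Finset.sum_congr rfl fun r _ => ?_
      rw [Finset.sum_filter]
    rw [hX]
    calc ∑ r ∈ M.LF, ∑ C ∈ M.LF.powerset.filter
          (fun C => r ∉ C ∧ M.Conn (insert r C) ∧ Unrel C ∧ M.q ≤ C.card ∧ C.card < 2 * M.q),
          M.wt0 C
        ≤ ∑ r ∈ M.LF, (2 * dl (Fintype.card V) M.m M.k M.q M.A ^ M.q) := by
          refine Finset.sum_le_sum fun r hr => ?_
          have hmaps : ∀ C ∈ M.LF.powerset.filter (fun C => r ∉ C ∧ M.Conn (insert r C) ∧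
              Unrel C ∧ M.q ≤ C.card ∧ C.card < 2 * M.q), C.card - M.q ∈ Finset.range M.q := by
            intro C hC
            rw [Finset.mem_filter] at hC
            have h4 := hC.2.2.2.2
            rw [Finset.mem_range]
            omega
          rw [← Finset.sum_fiberwise_of_maps_to hmaps]
          calc ∑ j ∈ Finset.range M.q, ∑ C ∈ (M.LF.powerset.filter (fun C => r ∉ C ∧
                M.Conn (insert r C) ∧ Unrel C ∧ M.q ≤ C.card ∧ C.card < 2 * M.q)).filter
                (fun C => C.card - M.q = j), M.wt0 C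
              ≤ ∑ j ∈ Finset.range M.q, dl (Fintype.card V) M.m M.k M.q M.A ^ M.q *
                dl (Fintype.card V) M.m M.k M.q M.A ^ j := by
                refine Finset.sum_le_sum fun j hj => ?_
                rw [Finset.mem_range] at hj
                have h8 := (h3 V M hF hN r hr (M.q + j) (by omega)).1
                rw [← pow_add]
                refine le_trans (Finset.sum_le_sum_of_subset_of_nonneg ?_ fun C _ _ => hw C) h8
                intro C hC
                rw [Finset.mem_filter, Finset.mem_filter] at hC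
                obtain ⟨⟨c1, c2, c3, c4, c5, c6⟩, c7⟩ := hC
                unfold Sys.WW
                rw [Finset.mem_filter]
                exact ⟨c1, c2, c3, c4, by omega⟩
            _ = dl (Fintype.card V) M.m M.k M.q M.A ^ M.q * ∑ j ∈ Finset.range M.q,
                dl (Fintype.card V) M.m M.k M.q M.A ^ j := by rw [Finset.mul_sum]
            _ ≤ dl (Fintype.card V) M.m M.k M.q M.A ^ M.q * 2 :=
                mul_le_mul_of_nonneg_left (SumM.geom hd0 hd1 _) (pow_nonneg hd0 _)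
            _ = 2 * dl (Fintype.card V) M.m M.k M.q M.A ^ M.q := by ring
      _ = (M.LF.card : ℝ) * (2 * dl (Fintype.card V) M.m M.k M.q M.A ^ M.q) := by
          rw [Finset.sum_const, nsmul_eq_mul]
      _ ≤ (Fintype.card V : ℝ) ^ 2 * (2 * dl (Fintype.card V) M.m M.k M.q M.A ^ M.q) :=
          mul_le_mul_of_nonneg_right htot (by positivity)
      _ = 2 * (Fintype.card V : ℝ) ^ 2 * dl (Fintype.card V) M.m M.k M.q M.A ^ M.q := by ring
  · -- the first kind
    have h4 := SumM.first M h1 h2 h3 hF hN hd0 hd1 M.LF (Finset.Subset.refl _) M.X1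
      (Finset.Subset.refl _) (fun C hC => by
        unfold Sys.X1 at hC
        rw [Finset.mem_filter, Finset.mem_powerset] at hC
        obtain ⟨r, hr⟩ := hC.2.1.1
        exact ⟨r, hC.1 hr, hr⟩)
    refine h4.trans ?_
    calc (M.LF.card : ℝ) * (32 * 2 ^ M.k / 2 ^ M.m)
        ≤ (Fintype.card V : ℝ) ^ 2 * (32 * 2 ^ M.k / 2 ^ M.m) :=
          mul_le_mul_of_nonneg_right htot (by positivity)
      _ = 32 * (Fintype.card V : ℝ) ^ 2 * 2 ^ M.k / 2 ^ M.m := by ring
  · -- the first kind, through a point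
    have h4 := SumM.first M h1 h2 h3 hF hN hd0 hd1 (M.LF.filter (fun L => z ∈ M.Z L))
      (Finset.filter_subset _ _) (M.X1.filter (fun C => z ∈ M.zone C))
      (Finset.filter_subset _ _) (fun C hC => by
        rw [Finset.mem_filter] at hC
        obtain ⟨hC1, hC2⟩ := hC
        unfold Sys.X1 at hC1
        rw [Finset.mem_filter, Finset.mem_powerset] at hC1
        unfold Sys.zone at hC2
        rw [Finset.mem_biUnion] at hC2
        obtain ⟨r, hr, hz⟩ := hC2
        exact ⟨r, Finset.mem_filter.2 ⟨hC1.1 hr, hz⟩, hr⟩)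
    refine h4.trans ?_
    have h5 : ((M.LF.filter (fun L => z ∈ M.Z L)).card : ℝ) ≤ (M.A : ℝ) * Fintype.card V := by
      exact_mod_cast hF.deg z
    have hN0 : (0 : ℝ) ≤ (Fintype.card V : ℝ) := by positivity
    have h6 : (M.A : ℝ) * Fintype.card V * (32 * 2 ^ M.k) ≤
        16 * (8 * (M.q : ℝ) * (M.A : ℝ) ^ 2 * Fintype.card V * 2 ^ M.k +
          4 * (M.q : ℝ) ^ 2 * (M.A : ℝ) ^ 3 * 2 ^ (M.k + 4 * M.k * M.q + 2 * M.q)) := by
      have h7 : (0 : ℝ) ≤ 16 * (4 * (M.q : ℝ) ^ 2 * (M.A : ℝ) ^ 3 *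
          2 ^ (M.k + 4 * M.k * M.q + 2 * M.q)) := by positivity
      have h8 : (1 : ℝ) ≤ (M.q : ℝ) * (M.A : ℝ) := by nlinarith
      have h9 : (M.A : ℝ) * Fintype.card V * (32 * 2 ^ M.k) * 1 ≤
          (M.A : ℝ) * Fintype.card V * (32 * 2 ^ M.k) * ((M.q : ℝ) * (M.A : ℝ)) :=
        mul_le_mul_of_nonneg_left h8 (by positivity)
      have h10 : (0 : ℝ) ≤ (M.q : ℝ) * (M.A : ℝ) ^ 2 * Fintype.card V * 2 ^ M.k := by positivity
      nlinarith
    calc ((M.LF.filter (fun L => z ∈ M.Z L)).card : ℝ) * (32 * 2 ^ M.k / 2 ^ M.m)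
        ≤ ((M.A : ℝ) * Fintype.card V) * (32 * 2 ^ M.k / 2 ^ M.m) :=
          mul_le_mul_of_nonneg_right h5 (by positivity)
      _ = ((M.A : ℝ) * Fintype.card V * (32 * 2 ^ M.k)) / 2 ^ M.m := by ring
      _ ≤ (16 * (8 * (M.q : ℝ) * (M.A : ℝ) ^ 2 * Fintype.card V * 2 ^ M.k +
          4 * (M.q : ℝ) ^ 2 * (M.A : ℝ) ^ 3 * 2 ^ (M.k + 4 * M.k * M.q + 2 * M.q))) /
            2 ^ M.m := div_le_div_of_nonneg_right h6 (by positivity)
      _ = dl (Fintype.card V) M.m M.k M.q M.A := by
          unfold dl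
          rfl

end VdWG
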