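import Pool.Agent.Lib.VdW.SpecA

/-!
# Powers of `θ`
-/

set_option autoImplicit false

namespace VdWG

namespace ThPowM

theorem exp54 : Real.exp (5 / 4) ≤ 4 := by
  have h1 : Real.exp (5 / 4) ^ 4 ≤ 4 ^ 4 := by
    rw [← Real.exp_nat_mul]
    have h2 : Real.exp (((4 : ℕ) : ℝ) * (5 / 4)) = Real.exp 1 ^ 5 := by
      rw [← Real.exp_nat_mul]
      norm_num
    rw [h2]
    have h3 : Real.exp 1 ^ 5 ≤ 2.7182818286 ^ 5 :=
      pow_le_pow_left₀ (Real.exp_pos 1).le Real.exp_one_lt_d9.le 5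
    refine h3.trans ?_
    norm_num
  exact le_of_pow_le_pow_left₀ (by norm_num) (by norm_num) h1

theorem quarter (n : ℕ) (hn : 5 ≤ n) : (1 / 4 : ℝ) ≤ (1 - 1 / (n : ℝ)) ^ n := by
  have hn' : (5 : ℝ) ≤ n := by exact_mod_cast hn
  have hn0 : (0 : ℝ) < n := by linarith
  have hn1 : (0 : ℝ) < (n : ℝ) - 1 := by linarith
  have hx : (0 : ℝ) < 1 - 1 / (n : ℝ) := by
    rw [sub_pos, div_lt_one hn0]
    linarith
  have h1 : (1 - 1 / (n : ℝ))⁻¹ ≤ Real.exp (1 / ((n : ℝ) - 1)) := by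
    have h2 : (1 - 1 / (n : ℝ))⁻¹ = 1 / ((n : ℝ) - 1) + 1 := by
      field_simp
      ring
    rw [h2]
    exact Real.add_one_le_exp _
  have h3 : ((1 - 1 / (n : ℝ))⁻¹) ^ n ≤ 4 := by
    calc ((1 - 1 / (n : ℝ))⁻¹) ^ n ≤ Real.exp (1 / ((n : ℝ) - 1)) ^ n :=
          pow_le_pow_left₀ (inv_pos.2 hx).le h1 n
      _ = Real.exp ((n : ℝ) * (1 / ((n : ℝ) - 1))) := by rw [← Real.exp_nat_mul]
      _ ≤ Real.exp (5 / 4) := by
          refine Real.exp_le_exp.2 ?_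
          rw [mul_one_div, div_le_iff₀ hn1]
          linarith
      _ ≤ 4 := exp54
  rw [inv_pow] at h3
  rw [one_div]
  exact inv_le_of_inv_le₀ (pow_pos hx n) h3

end ThPowM

open ThPowM

theorem tThPow : ThPowStmt := by
  intro n j hn hj
  have hn' : (5 : ℝ) ≤ n := by exact_mod_cast hn
  have hn0 : (0 : ℝ) < n := by linarith
  have hx : (0 : ℝ) < 1 - 1 / (n : ℝ) := by
    rw [sub_pos, div_lt_one hn0]
    linarith
  have hx1 : 1 - 1 / (n : ℝ) ≤ 1 := by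
    have : 0 ≤ 1 / (n : ℝ) := by positivity
    linarith
  have e : 2 - 2 / (n : ℝ) = 2 * (1 - 1 / (n : ℝ)) := by ring
  have h15 : 1 / (n : ℝ) ≤ 1 / 5 := one_div_le_one_div_of_le (by norm_num) hn'
  refine ⟨?_, ?_, ?_⟩
  · rw [e]; linarith
  · rw [e]; linarith
  · have h1 : (1 / 16 : ℝ) ≤ (1 - 1 / (n : ℝ)) ^ j := by
      have h2 : (1 - 1 / (n : ℝ)) ^ (2 * n) ≤ (1 - 1 / (n : ℝ)) ^ j :=
        pow_le_pow_of_le_one hx.le hx1 hj
      have h3 := quarter n hn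
      have h4 : (1 / 4 : ℝ) ^ 2 ≤ ((1 - 1 / (n : ℝ)) ^ n) ^ 2 :=
        pow_le_pow_left₀ (by norm_num) h3 2
      rw [← pow_mul, mul_comm n 2] at h4
      refine le_trans ?_ (h4.trans h2)
      norm_num
    rw [e, mul_pow]
    have h2j : (0 : ℝ) < 2 ^ j := by positivity
    have hxj : (0 : ℝ) < (1 - 1 / (n : ℝ)) ^ j := pow_pos hx j
    rw [div_le_div_iff₀ (mul_pos h2j hxj) h2j]
    nlinarith

end VdWG
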