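import Pool.Agent.Lib.VdW.SpecA

/-!
# The numbers of lines of the two types
-/

set_option autoImplicit false

namespace VdWG

open Finset

namespace TypM

variable {V : Type} [Fintype V] [DecidableEq V] (M : Sys V)

theorem zone_card (hF : M.HypF) (E : Finset (Finset V)) (hE : E ⊆ M.LF) (hc : E.card ≤ 2 * M.q) :
    (M.zone E).card ≤ 2 * M.q * M.A := by
  refine (Finset.card_biUnion_le_card_mul E M.Z M.A fun K hK => hF.zone K (hE hK)).trans ?_
  exact Nat.mul_le_mul_right _ hc

end TypM

open TypM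

theorem tTyp : TypStmt := by
  intro V _ _ M hF D E hD hE hcD hcE
  constructor
  · have h1 : M.LF.filter (fun L => ¬ Disjoint (M.Z L) (M.zone E)) ⊆
        (M.zone E).biUnion fun z => M.LF.filter (fun L => z ∈ M.Z L) := by
      intro L hL
      rw [Finset.mem_filter] at hL
      obtain ⟨hL, hd⟩ := hL
      rw [Finset.not_disjoint_iff] at hd
      obtain ⟨z, hz, hz'⟩ := hd
      rw [Finset.mem_biUnion]
      exact ⟨z, hz', Finset.mem_filter.2 ⟨hL, hz⟩⟩
    refine (Finset.card_le_card h1).trans ?_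
    refine (Finset.card_biUnion_le_card_mul _ _ (M.A * Fintype.card V)
      fun z _ => hF.deg z).trans ?_
    exact Nat.mul_le_mul_right _ (zone_card M hF E hE hcE)
  · have h1 : M.LF.filter (fun L => 2 ≤ (M.Z L ∩ M.zone D).card) ⊆
        (M.zone D).offDiag.biUnion fun p => M.LF.filter (fun L => p.1 ∈ M.Z L ∧ p.2 ∈ M.Z L) := by
      intro L hL
      rw [Finset.mem_filter] at hL
      obtain ⟨hL, hd⟩ := hL
      obtain ⟨z, hz, z', hz', hne⟩ := Finset.one_lt_card.1 hd
      rw [Finset.mem_inter] at hz hz'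
      rw [Finset.mem_biUnion]
      exact ⟨(z, z'), Finset.mem_offDiag.2 ⟨hz.2, hz'.2, hne⟩,
        Finset.mem_filter.2 ⟨hL, hz.1, hz'.1⟩⟩
    refine (Finset.card_le_card h1).trans ?_
    refine (Finset.card_biUnion_le_card_mul _ _ M.A
      fun p hp => hF.pair p.1 p.2 (Finset.mem_offDiag.1 hp).2.2).trans ?_
    refine Nat.mul_le_mul_right _ ?_
    rw [Finset.offDiag_card, pow_two]
    exact (Nat.sub_le _ _).trans (Nat.mul_le_mul (zone_card M hF D hD hcD)
      (zone_card M hF D hD hcD))

end VdWG
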