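import Pool.Agent.Lib.VdW.SpecA

/-!
# The number of points when a line is added
-/

set_option autoImplicit false

namespace VdWG

open Finset

theorem tUnAdd : UnAddStmt := by
  intro V _ _ M D L hL hU
  have h1 : un (insert L D) = L ∪ un D := by
    unfold un
    rw [Finset.biUnion_insert, id]
  have h2 : (L ∪ un D).card + (L ∩ un D).card = L.card + (un D).card :=
    Finset.card_union_add_card_inter L (un D)
  rw [h1]
  constructor
  · have h3 : (L ∩ un D).card ≤ D.card := by
      have h4 : L ∩ un D ⊆ D.biUnion fun K => L ∩ K := by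
        intro p hp
        rw [Finset.mem_inter, un, Finset.mem_biUnion] at hp
        obtain ⟨hpL, K, hK, hpK⟩ := hp
        rw [Finset.mem_biUnion]
        exact ⟨K, hK, Finset.mem_inter.2 ⟨hpL, hpK⟩⟩
      refine (Finset.card_le_card h4).trans (Finset.card_biUnion_le.trans ?_)
      have h5 : ∀ K ∈ D, (L ∩ K).card ≤ 1 := by
        intro K hK
        refine hU L (Finset.mem_insert_self L D) K (Finset.mem_insert_of_mem hK) ?_
        rintro rfl
        exact hL hK
      calc ∑ K ∈ D, (L ∩ K).card ≤ ∑ _K ∈ D, 1 := Finset.sum_le_sum h5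
        _ = D.card := by simp
    omega
  · have h3 : (L ∩ un D).card ≤ (M.Z L ∩ M.zone D).card := by
      refine Finset.card_le_card fun p hp => ?_
      rw [Finset.mem_inter, un, Finset.mem_biUnion] at hp
      obtain ⟨hpL, K, hK, hpK⟩ := hp
      rw [Finset.mem_inter, Sys.zone, Finset.mem_biUnion]
      exact ⟨Finset.mem_union_left _ hpL, K, hK, Finset.mem_union_left _ hpK⟩
    omega

end VdWG
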