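import Pool.Agent.Lib.VdW.SMin
import Pool.Agent.Lib.VdW.SAdd
import Pool.Agent.Lib.VdW.UnAdd
import Pool.Agent.Lib.VdW.ThPow
import Pool.Agent.Lib.VdW.Typ
import Pool.Agent.Lib.VdW.Ext
import Pool.Agent.Lib.VdW.ConnU
import Pool.Agent.Lib.VdW.Leaf
import Pool.Agent.Lib.VdW.Cnt
import Pool.Agent.Lib.VdW.Sum
import Pool.Agent.Lib.VdW.Init
import Pool.Agent.Lib.VdW.BgHyp
import Pool.Agent.Lib.VdW.BMu
import Pool.Agent.Lib.VdW.BBas
import Pool.Agent.Lib.VdW.BBd
import Pool.Agent.Lib.VdW.BStT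
import Pool.Agent.Lib.VdW.BStW
import Pool.Agent.Lib.VdW.BCr
import Pool.Agent.Lib.VdW.BStJ
import Pool.Agent.Lib.VdW.BSiz
import Pool.Agent.Lib.VdW.BReal
import Pool.Agent.Lib.VdW.BCore
import Pool.Agent.Lib.VdW.BDrop
import Pool.Agent.Lib.VdW.BCons
import Pool.Agent.Lib.VdW.BMove
import Pool.Agent.Lib.VdW.BPres
import Pool.Agent.Lib.VdW.BStart
import Pool.Agent.Lib.VdW.CSk
import Pool.Agent.Lib.VdW.CPot
import Pool.Agent.Lib.VdW.CMono
import Pool.Agent.Lib.VdW.CCov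
import Pool.Agent.Lib.VdW.CWt
import Pool.Agent.Lib.VdW.CSub
import Pool.Agent.Lib.VdW.CConn
import Pool.Agent.Lib.VdW.CSize
import Pool.Agent.Lib.VdW.CAddI
import Pool.Agent.Lib.VdW.CReg
import Pool.Agent.Lib.VdW.CAddS
import Pool.Agent.Lib.VdW.CAddB
import Pool.Agent.Lib.VdW.CUpd1
import Pool.Agent.Lib.VdW.CUpd
import Pool.Agent.Lib.VdW.CFS
import Pool.Agent.Lib.VdW.CFB
import Pool.Agent.Lib.VdW.CExtra
import Pool.Agent.Lib.VdW.CRS
import Pool.Agent.Lib.VdW.CRB
import Pool.Agent.Lib.VdW.CStep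
import Pool.Agent.Lib.VdW.CEnd1
import Pool.Agent.Lib.VdW.CEnd
import Pool.Agent.Lib.VdW.CStart
import Pool.Agent.Lib.VdW.DHyp
import Pool.Agent.Lib.VdW.DStrat
import Pool.Agent.Lib.VdW.DAp
import Pool.Agent.Lib.VdW.DZ
import Pool.Agent.Lib.VdW.DF
import Pool.Agent.Lib.VdW.DS
import Pool.Agent.Lib.VdW.DPa
import Pool.Agent.Lib.VdW.DPb
import Pool.Agent.Lib.VdW.DWin
import Pool.Agent.Lib.VdW.DFin

set_option autoImplicit false

/-!
# Assembly: the joint strategy of the second player in the van der Waerden game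
-/

namespace VdWG

/-- All statements of specification A. -/
theorem allExt : ExtStmt := tExt (tSAdd tSMin) tUnAdd tThPow tTyp

theorem allInit : InitStmt :=
  tInit (tSum tSMin tThPow (tCnt tSMin allExt (tLeaf tConnU)))

theorem allBd : BBdStmt := tBBd tBBas

theorem allCore : BCoreStmt :=
  tBCore tBBas tBStT tBStW (tBStJ tBBas tBCr) (tBSiz tBMu) tBReal

theorem allCons : BConsStmt := tBCons tBBas allBd

/-- The statements on the big game. -/
theorem allHyp : CHypP :=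
  tDHyp tBgHyp allInit allCons (tBPres tBBas allCons (tBDrop tBMu tBBas))
    (tBMove tBBas allCons allCore) (tBStart tBBas)

theorem allMono : CMonoStmt := tCMono tCPot

theorem allUpd : CUpdStmt :=
  tCUpd tCSk (tCUpd1 allHyp tCSk (tCSize (tCWt tCCov) tCSub tCConn) (tCAddI tCSk tCConn)
    (tCAddS tCSk tCPot tCReg) (tCAddB tCSk (tCWt tCCov)))

theorem allStep : CStepStmt :=
  tCStep (tCFS tCPot) (tCFB allHyp tCPot) allUpd (tCRS tCPot allMono) (tCRB allHyp allMono)
    (tCExtra allMono)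

theorem allEnd : CEndStmt := tCEnd allHyp (tCFS tCPot) (tCFB allHyp tCPot) tCEnd1

theorem allWin : DWinStmt := tDWin tDStrat (tCStart allHyp) allStep allEnd

/-- The abstract theorem: for a good system of lines the second player can own a line of `LS` while the
first player owns no line of `LF`. -/
theorem allAbs (N : ℕ) (M : Sys (Fin N)) (hM : M.Good) :
    ∃ σ : List ℕ → ℕ, ∀ l : List ℕ, l.Nodup → (∀ x ∈ l, 1 ≤ x ∧ x ≤ N) →
      (∀ i : ℕ, i < l.length → Odd i → l[i]? = some (σ (l.take i))) →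
      ((Odd l.length ∧ l.length < N → 1 ≤ σ l ∧ σ l ≤ N ∧ σ l ∉ l) ∧
       (l.length = N → M.Goal (stones N l Even) (stones N l Odd))) :=
  tDStrat N M.Pos M.Goal (tCStart allHyp _ M hM) (fun F S x => allStep _ M hM F S x)
    (fun F S h => (allEnd _ M hM F S h).1) (fun F S x h => (allEnd _ M hM F S h).2 x)

theorem allFin : DFinStmt := tDFin (tDF tDAp tDZ) (tDS tDAp) tDPa tDPb allWin

end VdWG
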