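import Pool.Agent.Lib.VdW.SpecB

/-!
# `T` after a pair of moves
-/

set_option autoImplicit false

namespace VdWG

open Finset

theorem bstt_lines {V ι₁ ι₂ : Type} [Fintype V] [DecidableEq V] (G : BG V ι₁ ι₂)
    (Fb Sb B : Finset V) (x y : V) (hy : y ∉ B) :
    G.Λ' (insert x Fb) (insert y Sb) B = (G.Λ' Fb Sb B).filter fun l => ¬ x ∈ l := by
  ext l
  simp only [BG.Λ', mem_filter, disjoint_insert_right]
  constructor
  · rintro ⟨h1, ⟨h2, h3⟩, h4⟩
    refine ⟨⟨h1, h3, fun z hz => ?_⟩, h2⟩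
    rcases mem_insert.1 (h4 hz) with rfl | h5
    · exact absurd (mem_inter.1 hz).2 hy
    · exact h5
  · rintro ⟨⟨h1, h3, h4⟩, h2⟩
    exact ⟨h1, ⟨h2, h3⟩, h4.trans (subset_insert _ _)⟩

theorem bstt_card {V : Type} [DecidableEq V] (l Sb : Finset V) (y : V) (hy : y ∉ Sb) :
    (l ∩ insert y Sb).card = (l ∩ Sb).card + if y ∈ l then 1 else 0 := by
  split_ifs with h
  · rw [inter_insert_of_mem h, card_insert_of_notMem fun h1 => hy (mem_inter.1 h1).2]
  · rw [inter_insert_of_notMem h, add_zero]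

theorem tBStT : BStTStmt := by
  intro V ι₁ ι₂ _ _ G Fb Sb B x y _ _ _ _ hyS hyB _
  rw [BG.T, BG.T, BG.Tz, BG.Tyz, BG.Tz, bstt_lines G Fb Sb B x y hyB, sum_filter, sum_filter,
    sum_filter, sum_filter, ← sum_sub_distrib, mul_sum, ← sum_add_distrib, ← sum_sub_distrib]
  refine sum_congr rfl fun l _ => ?_
  rw [bstt_card l Sb y hyS, pow_add]
  by_cases h1 : x ∈ l <;> by_cases h2 : y ∈ l
  · simp only [h1, h2, not_true_eq_false, if_false, if_true, and_self]
    ring
  · simp only [h1, h2, not_true_eq_false, if_false, if_true, false_and]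
    ring
  · simp only [h1, h2, not_false_eq_true, if_false, if_true, and_false]
    ring
  · simp only [h1, h2, not_false_eq_true, if_false, if_true, and_false]
    ring

end VdWG
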