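import Pool.Agent.Lib.VdW.SpecC

set_option autoImplicit false

/-!
# The points of a union of blocks (`CCovStmt`)
-/

namespace VdWG

open Finset

theorem tCCov : CCovStmt := by
  intro V _ _ M st t hI D' hD' hq
  have hsub : ∀ b ∈ D'.biUnion id, b ∈ st.sk := by
    intro b hb
    obtain ⟨D, hD, hbD⟩ := mem_biUnion.mp hb
    exact mem_biUnion.mpr ⟨D, hD' hD, hbD⟩
  have hdisj : Disjoint (un (D'.biUnion id)) st.Sb := by
    rw [disjoint_left]
    intro p hp
    obtain ⟨K, hK, hpK⟩ := mem_biUnion.mp hp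
    exact disjoint_left.mp (hI.Sb1 K (hsub K hK)) hpK
  refine ⟨?_, hdisj⟩
  set C := D'.biUnion id with hC
  obtain ⟨C₁, hC₁, hs⟩ := exists_mem_eq_inf' (s := C.powerset)
    ⟨∅, Finset.empty_mem_powerset C⟩ (M.sf C)
  have hs' : M.s C = M.sf C C₁ := hs
  obtain ⟨E, H, hEH⟩ := hI.cl
  -- H a b is empty outside C
  have hself : ∀ K : Finset V, K ⊆ M.Z K := fun K => subset_union_left
  have hHe : ∀ b ∈ C, ∀ a ∈ st.sk, a ∉ C → a ≠ b → H a b = ∅ := by
    intro b hb a ha haC hab
    obtain ⟨D, hD, hbD⟩ := mem_biUnion.mp hb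
    obtain ⟨D2, hD2, haD2⟩ := mem_biUnion.mp ha
    have hne : D2 ≠ D := by
      rintro rfl
      exact haC (mem_biUnion.mpr ⟨D2, hD, haD2⟩)
    have hd := hI.dis D2 hD2 D (hD' hD) hne
    rw [← subset_empty]
    intro p hp
    have h1 := (hEH b (hsub b hb)).2.1 a ha hab
    have h2 := h1.1 hp
    rw [mem_inter] at h2
    exact (disjoint_left.mp hd (mem_biUnion.mpr ⟨a, haD2, h2.2⟩)
      (mem_biUnion.mpr ⟨b, hbD, hself b h2.1⟩)).elim
  -- the covering
  set R : Finset (Finset V × Finset V) :=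
    (C ×ˢ (C \ C₁)) ∪ ((C \ C₁) ×ˢ C) with hR
  have hcov : un C \ st.Fb ⊆ (C.biUnion E ∪ M.Pt C₁) ∪
      (R.filter (fun p => p.1 ≠ p.2)).biUnion (fun p => H p.1 p.2) := by
    intro p hp
    rw [mem_sdiff] at hp
    obtain ⟨b, hb, hpb⟩ := mem_biUnion.mp hp.1
    have hpb' : p ∈ b := hpb
    have h1 := (hEH b (hsub b hb)).2.2 hpb'
    rw [mem_union, mem_union] at h1
    rcases h1 with (h1 | h1) | h1
    · exact (hp.2 h1).elim
    · exact mem_union_left _ (mem_union_left _ (mem_biUnion.mpr ⟨b, hb, h1⟩))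
    · obtain ⟨a, ha, hpa⟩ := mem_biUnion.mp h1
      rw [mem_erase] at ha
      have haC : a ∈ C := by
        by_contra hcon
        have := hHe b hb a ha.2 hcon ha.1
        rw [this] at hpa
        exact (notMem_empty p hpa).elim
      by_cases hab : a ∈ C₁ ∧ b ∈ C₁
      · refine mem_union_left _ (mem_union_right _ ?_)
        have h2 := ((hEH b (hsub b hb)).2.1 a ha.2 ha.1).1 hpa
        exact mem_biUnion.mpr ⟨a, hab.1, mem_biUnion.mpr
          ⟨b, mem_erase.mpr ⟨fun h => ha.1 h.symm, hab.2⟩, h2⟩⟩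
      · refine mem_union_right _ (mem_biUnion.mpr ⟨(a, b), ?_, hpa⟩)
        rw [mem_filter, hR, mem_union, mem_product, mem_product]
        refine ⟨?_, ha.1⟩
        by_cases h3 : b ∈ C₁
        · right
          exact ⟨mem_sdiff.mpr ⟨haC, fun h => hab ⟨h, h3⟩⟩, hb⟩
        · left
          exact ⟨haC, mem_sdiff.mpr ⟨hb, h3⟩⟩
  have hR1 : R.card ≤ 2 * (C.card * (C \ C₁).card) := by
    refine le_trans (card_union_le _ _) ?_
    rw [card_product, card_product]
    have := Nat.mul_comm C.card (C \ C₁).card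
    omega
  have hHs : ((R.filter (fun p => p.1 ≠ p.2)).biUnion (fun p => H p.1 p.2)).card ≤
      R.card * M.k := by
    refine le_trans (card_biUnion_le_card_mul _ _ M.k ?_) ?_
    · intro p hp
      rw [mem_filter, hR, mem_union, mem_product, mem_product] at hp
      have h1 : p.1 ∈ C := by
        rcases hp.1 with h | h
        · exact h.1
        · exact (mem_sdiff.mp h.1).1
      have h2 : p.2 ∈ C := by
        rcases hp.1 with h | h
        · exact (mem_sdiff.mp h.2).1
        · exact h.2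
      exact ((hEH p.2 (hsub _ h2)).2.1 p.1 (hsub _ h1) hp.2).2
    · exact Nat.mul_le_mul_right _ (card_filter_le _ _)
  have hE : (C.biUnion E).card ≤ C.card * M.k :=
    card_biUnion_le_card_mul _ _ _ (fun b hb => (hEH b (hsub b hb)).1)
  refine le_trans (card_le_card hcov) ?_
  refine le_trans (card_union_le _ _) ?_
  refine le_trans (Nat.add_le_add_right (card_union_le _ _) _) ?_
  rw [hs']
  unfold Sys.sf
  have h5 : R.card * M.k ≤ 4 * M.k * M.q * (C \ C₁).card := by
    calc R.card * M.k ≤ (2 * (C.card * (C \ C₁).card)) * M.k := Nat.mul_le_mul_right _ hR1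
      _ ≤ (2 * ((2 * M.q) * (C \ C₁).card)) * M.k := by
        apply Nat.mul_le_mul_right
        apply Nat.mul_le_mul_left
        exact Nat.mul_le_mul_right _ hq
      _ = 4 * M.k * M.q * (C \ C₁).card := by ring
  have h6 : C.card * M.k = M.k * C.card := Nat.mul_comm _ _
  omega

end VdWG
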