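import Pool.Agent.Lib.VdW.SpecC

set_option autoImplicit false

/-!
# One round (`CStepStmt`)
-/

namespace VdWG

open Finset

theorem tCStep (h1 : CFSStmt) (h2 : CFBStmt) (h3 : CUpdStmt) (h4 : CRSStmt) (h5 : CRBStmt)
    (h6 : CExtraStmt) : CStepStmt := by
  intro V _ _ M hM F S x hPos hxF hxS hne
  obtain ⟨st, rfl, rfl, hInv⟩ := hPos
  have key : ∃ st' : St V, st'.F = insert x st.F ∧
      (st'.S = st.S ∨ ∃ y, y ∉ insert x st.F ∧ y ∉ st.S ∧ st'.S = insert y st.S) ∧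
      M.InvF st' := by
    by_cases hB : x ∈ M.B st
    · have g1 := h1 V M hM st x hInv hxF hxS hB
      obtain ⟨s1, a1, a2, a3⟩ := (h3 V M hM _).1 x g1
      obtain ⟨s2, b1, b2, b3⟩ := h4 V M hM s1 x a3
      rw [a1] at b1 b2
      rw [a2] at b2
      exact ⟨s2, b1, b2, b3⟩
    · have g1 := h2 V M hM st x hInv hxF hxS hB
      obtain ⟨s1, a1, a2, a3⟩ := (h3 V M hM _).2 g1
      obtain ⟨s2, b1, b2, b3⟩ := h5 V M hM s1 a3
      rw [a1] at b1 b2
      rw [a2] at b2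
      exact ⟨s2, b1, b2, b3⟩
  obtain ⟨st', c1, c2, c3⟩ := key
  rcases c2 with c2 | ⟨y, y1, y2, c2⟩
  · have hz : ∃ z, z ∉ insert x st.F ∪ st.S := by
      by_contra hcon
      push Not at hcon
      exact hne (eq_univ_of_forall hcon)
    obtain ⟨z, hz⟩ := hz
    rw [mem_union] at hz
    push Not at hz
    refine ⟨z, hz.1, hz.2, {st' with S := insert z st'.S}, c1, ?_, ?_⟩
    · show insert z st'.S = insert z st.S
      rw [c2]
    · apply h6 V M st' z c3
      rw [c1]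
      exact hz.1
  · exact ⟨y, y1, y2, st', c1, c2, c3⟩

end VdWG
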