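import Mathlib

/-!
# The van der Waerden game: a joint strategy of the second player

Problem `MP_474199_co`.  Definitions.  The first player is called `F`, the second player `S`.

* `Sys V`: the lines `LF` of `F` (sets of `m` points), the lines `LS` of `S` (sets of `n` points), and the
  parameters `k`, `q`, `A`.  `M.Z L`: the union of the lines of `F` which meet `L` in two points.
* `BG V ι₁ ι₂`: the data of the *big game*: two families of weighted configurations and the lines of `S`.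
  The potential is `Θ = Φ + η Φ₁ - β log T + γ J / T`.
* `St V`: the state of the play (stones, blocks of the skeleton).
* `stratSpec`: the generic form of the final statement.
-/

set_option autoImplicit false

namespace VdWG

open Finset

/-! ## Lines -/

/-- The two systems of lines and the parameters. -/
structure Sys (V : Type) where
  /-- the lines of the first player -/
  LF : Finset (Finset V)
  /-- the lines of the second player -/
  LS : Finset (Finset V)
  /-- size of the lines of the second player -/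
  n : ℕ
  /-- size of the lines of the first player -/
  m : ℕ
  /-- a line of the first player with only `k` points not occupied is urgent -/
  k : ℕ
  /-- bound for the number of lines in a block -/
  q : ℕ
  /-- bound for degrees -/
  A : ℕ

section Lines

variable {V : Type} [Fintype V] [DecidableEq V]

/-- The union of the lines of `C`. -/
def un (C : Finset (Finset V)) : Finset V := C.biUnion id

/-- Two different lines of `C` have at most one common point. -/
def Unrel (C : Finset (Finset V)) : Prop := ∀ K ∈ C, ∀ K' ∈ C, K ≠ K' → (K ∩ K').card ≤ 1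

namespace Sys

variable (M : Sys V)

/-- The zone of a line: `L` and all lines of `F` which have two points in common with `L`. -/
def Z (L : Finset V) : Finset V :=
  L ∪ (M.LF.filter (fun L' => 2 ≤ (L ∩ L').card)).biUnion id

/-- The zone of a set of lines. -/
def zone (C : Finset (Finset V)) : Finset V := C.biUnion M.Z

/-- The set `C` of lines is connected (adjacent: the zones meet). -/
def Conn (C : Finset (Finset V)) : Prop :=
  C.Nonempty ∧ ∀ X, X ⊆ C → X.Nonempty → X ≠ C →
    ∃ K ∈ X, ∃ K' ∈ C \ X, ¬ Disjoint (M.Z K) (M.Z K')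

/-- The contact points of a set of lines. -/
def Pt (C : Finset (Finset V)) : Finset V :=
  C.biUnion fun a => (C.erase a).biUnion fun b => b ∩ M.Z a

/-- The value for the subset `C₁` in the minimum which defines `s C`. -/
def sf (C C₁ : Finset (Finset V)) : ℕ := (M.Pt C₁).card + 4 * M.k * M.q * (C \ C₁).card

/-- The minimum of `sf C C₁` over the subsets `C₁` of `C`. -/
def s (C : Finset (Finset V)) : ℕ :=
  C.powerset.inf' ⟨∅, Finset.empty_mem_powerset C⟩ (M.sf C)

/-- The coefficient of a configuration. -/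
noncomputable def cf (C : Finset (Finset V)) : ℝ := 2 ^ (M.k * C.card + M.s C)

/-- `θ = 2 - 2/n`. -/
noncomputable def th : ℝ := 2 - 2 / (M.n : ℝ)

/-- The weight of a configuration at the start of the play. -/
noncomputable def wt0 (C : Finset (Finset V)) : ℝ := M.cf C / M.th ^ (un C).card

open Classical in
/-- The configurations of the first kind. -/
noncomputable def X1 : Finset (Finset (Finset V)) :=
  M.LF.powerset.filter fun C => M.Conn C ∧ Unrel C ∧ C.card ≤ M.q

open Classical in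
/-- The configurations of the second kind: a root and a set of lines. -/
noncomputable def X2 : Finset (Finset V × Finset (Finset V)) :=
  (M.LF ×ˢ M.LF.powerset).filter fun p =>
    p.1 ∉ p.2 ∧ M.Conn (insert p.1 p.2) ∧ Unrel p.2 ∧ M.q ≤ p.2.card ∧ p.2.card < 2 * M.q

/-- The hypotheses on the lines of the first player. -/
structure HypF : Prop where
  card : ∀ L ∈ M.LF, L.card = M.m
  zone : ∀ L ∈ M.LF, (M.Z L).card ≤ M.A
  deg : ∀ z, (M.LF.filter (fun L => z ∈ M.Z L)).card ≤ M.A * Fintype.card V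
  pair : ∀ z z', z ≠ z' → (M.LF.filter (fun L => z ∈ M.Z L ∧ z' ∈ M.Z L)).card ≤ M.A
  tot : M.LF.card ≤ Fintype.card V ^ 2

/-- The hypotheses on the lines of the second player. -/
structure HypS : Prop where
  card : ∀ l ∈ M.LS, l.card = M.n
  deg : ∀ y, (M.LS.filter (fun l => y ∈ l)).card ≤ M.A * Fintype.card V
  pair : ∀ y z, y ≠ z → (M.LS.filter (fun l => y ∈ l ∧ z ∈ l)).card ≤ M.A
  tot : Fintype.card V ^ 2 ≤ M.A * M.LS.card

end Sys

end Lines

/-- The number `δ` of the counting lemma. -/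
noncomputable def dl (N m k q A : ℕ) : ℝ :=
  16 * (8 * q * A ^ 2 * N * 2 ^ k + 4 * q ^ 2 * A ^ 3 * 2 ^ (k + 4 * k * q + 2 * q)) / 2 ^ m

/-- The numerical hypotheses. -/
structure Num (N n m k q A : ℕ) : Prop where
  n5 : 5 ≤ n
  nm : n ≤ m
  m2n : m ≤ 2 * n
  k2 : 2 ≤ k
  q1 : 1 ≤ q
  A1 : 1 ≤ A
  h2 : 2 * q * A ^ 3 < 2 ^ k
  h3 : 150 * n * A ^ 2 * 2 ^ n ≤ N
  h4 : 3276800 * n ^ 2 * q * A ^ 3 * 2 ^ (n + k) ≤ 2 ^ m
  h5 : 51200 * (n : ℝ) ^ 2 * dl N m k q A ≤ 1
  h6 : 1024 * (n : ℝ) * (N : ℝ) ^ 2 * dl N m k q A ^ q ≤ 1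

/-! ## The big game -/

/-- The data of the big game: two families of weighted configurations (`U`: the points of the
configuration; `Z₁`: its zone; `c`: its coefficient) and the lines `Λ` of the second player. -/
structure BG (V ι₁ ι₂ : Type) where
  I₁ : Finset ι₁
  I₂ : Finset ι₂
  U₁ : ι₁ → Finset V
  Z₁ : ι₁ → Finset V
  c₁ : ι₁ → ℝ
  U₂ : ι₂ → Finset V
  c₂ : ι₂ → ℝ
  Λ : Finset (Finset V)
  n : ℕ
  a : ℕ
  A : ℕ

namespace BG

variable {V ι₁ ι₂ : Type} [Fintype V] [DecidableEq V] (G : BG V ι₁ ι₂)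

/-- `θ = 2 - 2/n` -/
noncomputable def th : ℝ := 2 - 2 / (G.n : ℝ)
/-- `μ = 2 + 2/n` -/
noncomputable def mu : ℝ := 2 + 2 / (G.n : ℝ)
/-- `β = 1/(8n)` -/
noncomputable def be : ℝ := 1 / (8 * (G.n : ℝ))
/-- `κ = 1 - 1/n` -/
noncomputable def ka : ℝ := 1 - 1 / (G.n : ℝ)
/-- `ν = 1 + 1/n` -/
noncomputable def nu : ℝ := 1 + 1 / (G.n : ℝ)
/-- `λ = 1 - 2/n = θ - 1` -/
noncomputable def la : ℝ := 1 - 2 / (G.n : ℝ)
/-- `η = 200 n a A² 2ⁿ / N²` -/
noncomputable def et : ℝ :=
  200 * G.n * G.a * G.A ^ 2 * 2 ^ G.n / (Fintype.card V : ℝ) ^ 2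

/-- Weight of a configuration with points `U` and coefficient `c`, when the big stones of the first
player are `Fb` and those of the second player are `Sb`. -/
noncomputable def w (Fb Sb U : Finset V) (c : ℝ) : ℝ :=
  if Disjoint U Sb then c / G.th ^ (U \ Fb).card else 0

/-- Weight of the configuration `i` of the first family. -/
noncomputable def w₁ (Fb Sb : Finset V) (i : ι₁) : ℝ := G.w Fb Sb (G.U₁ i) (G.c₁ i)
/-- Weight of the configuration `i` of the second family. -/
noncomputable def w₂ (Fb Sb : Finset V) (i : ι₂) : ℝ := G.w Fb Sb (G.U₂ i) (G.c₂ i)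

/-- `Φ` -/
noncomputable def Ph (Fb Sb : Finset V) : ℝ := ∑ i ∈ G.I₂, G.w₂ Fb Sb i
/-- `Φ₁` -/
noncomputable def Ph1 (Fb Sb : Finset V) : ℝ := ∑ i ∈ G.I₁, G.w₁ Fb Sb i

/-- The lines of the second player which are still of use: no stone of `Fb`, and all points in the small
board `B` are in `Sb`. -/
def Λ' (Fb Sb B : Finset V) : Finset (Finset V) :=
  G.Λ.filter fun l => Disjoint l Fb ∧ l ∩ B ⊆ Sb

/-- `T` -/
noncomputable def T (Fb Sb B : Finset V) : ℝ := ∑ l ∈ G.Λ' Fb Sb B, G.mu ^ (l ∩ Sb).card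

/-- `J` -/
noncomputable def J (Fb Sb B : Finset V) : ℝ :=
  ∑ l ∈ G.Λ' Fb Sb B, G.th ^ (l ∩ Sb).card *
    ∑ i ∈ G.I₁, G.w₁ Fb Sb i * (((l \ Sb) ∩ G.Z₁ i).card : ℝ)

/-- The potential `Θ = Φ + η Φ₁ - β log T + 50 J / T`. -/
noncomputable def Th (Fb Sb B : Finset V) : ℝ :=
  G.Ph Fb Sb + G.et * G.Ph1 Fb Sb - G.be * Real.log (G.T Fb Sb B) + 50 * (G.J Fb Sb B / G.T Fb Sb B)

/-- `D(z)`: the configurations of the second family through `z`. -/
noncomputable def D2 (Fb Sb : Finset V) (z : V) : ℝ :=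
  ∑ i ∈ G.I₂.filter (fun i => z ∈ G.U₂ i), G.w₂ Fb Sb i
/-- `D₁(z)`: the configurations of the first family through `z`. -/
noncomputable def D1 (Fb Sb : Finset V) (z : V) : ℝ :=
  ∑ i ∈ G.I₁.filter (fun i => z ∈ G.U₁ i), G.w₁ Fb Sb i
/-- `T(z)` -/
noncomputable def Tz (Fb Sb B : Finset V) (z : V) : ℝ :=
  ∑ l ∈ (G.Λ' Fb Sb B).filter (fun l => z ∈ l), G.mu ^ (l ∩ Sb).card
/-- `T(y, z)` -/
noncomputable def Tyz (Fb Sb B : Finset V) (y z : V) : ℝ :=
  ∑ l ∈ (G.Λ' Fb Sb B).filter (fun l => y ∈ l ∧ z ∈ l), G.mu ^ (l ∩ Sb).card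
/-- `J_C(z)`: the part of `J` of the configurations through `z`. -/
noncomputable def JC (Fb Sb B : Finset V) (z : V) : ℝ :=
  ∑ l ∈ G.Λ' Fb Sb B, G.th ^ (l ∩ Sb).card *
    ∑ i ∈ G.I₁.filter (fun i => z ∈ G.U₁ i), G.w₁ Fb Sb i * (((l \ Sb) ∩ G.Z₁ i).card : ℝ)
/-- `J_ℓ(z)`: the part of `J` of the lines through `z`, with the contact points different from `z`. -/
noncomputable def JL (Fb Sb B : Finset V) (z : V) : ℝ :=
  ∑ l ∈ (G.Λ' Fb Sb B).filter (fun l => z ∈ l), G.th ^ (l ∩ Sb).card *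
    ∑ i ∈ G.I₁, G.w₁ Fb Sb i * ((((l \ Sb) ∩ G.Z₁ i).erase z).card : ℝ)

/-- The function which the second player maximizes. -/
noncomputable def GG (Fb Sb B : Finset V) (z : V) : ℝ :=
  G.ka * G.D2 Fb Sb z + G.ka * G.et * G.D1 Fb Sb z +
    (G.be + 50 * (G.J Fb Sb B / G.T Fb Sb B)) * G.nu * (G.Tz Fb Sb B z / G.T Fb Sb B) +
    50 * G.ka / G.T Fb Sb B * (G.JC Fb Sb B z - G.JL Fb Sb B z)

/-- The bound for `Θ` after `r` big moves of the second player. -/
noncomputable def bd (r : ℕ) : ℝ :=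
  -G.be * Real.log (G.Λ.card : ℝ) + G.be / 4 + r * (G.be / (4 * (Fintype.card V : ℝ)))

/-- The invariant when it is the turn of the second player in the big game. -/
def MS (Fb Sb B : Finset V) : Prop := 0 < G.T Fb Sb B ∧ G.Th Fb Sb B ≤ G.bd Sb.card

/-- The invariant when it is the turn of the first player in the big game. -/
def MF (Fb Sb B : Finset V) : Prop :=
  0 < G.T Fb Sb B - 9 * G.J Fb Sb B ∧ G.Ph Fb Sb < 1 ∧
    ∀ x, x ∉ Fb → x ∉ Sb → x ∉ B →
      0 < G.T (insert x Fb) Sb B ∧ G.Th (insert x Fb) Sb B ≤ G.bd Sb.card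

/-- The hypotheses on the data of the big game. -/
structure Hyp : Prop where
  n5 : 5 ≤ G.n
  A1 : 1 ≤ G.A
  c₁ : ∀ i ∈ G.I₁, 0 ≤ G.c₁ i
  c₂ : ∀ i ∈ G.I₂, 0 ≤ G.c₂ i
  UZ : ∀ i ∈ G.I₁, G.U₁ i ⊆ G.Z₁ i
  Zc : ∀ i ∈ G.I₁, (G.Z₁ i).card ≤ G.a
  card : ∀ l ∈ G.Λ, l.card = G.n
  deg : ∀ y, (G.Λ.filter (fun l => y ∈ l)).card ≤ G.A * Fintype.card V
  pair : ∀ y z, y ≠ z → (G.Λ.filter (fun l => y ∈ l ∧ z ∈ l)).card ≤ G.A
  tot : Fintype.card V ^ 2 ≤ G.A * G.Λ.card
  big : 150 * G.n * G.A ^ 2 * 2 ^ G.n ≤ Fintype.card V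

end BG

/-- The big game of a system of lines. -/
noncomputable def Sys.bg {V : Type} [Fintype V] [DecidableEq V] (M : Sys V) :
    BG V (Finset (Finset V)) (Finset V × Finset (Finset V)) where
  I₁ := M.X1
  I₂ := M.X2
  U₁ := un
  Z₁ := M.zone
  c₁ := M.cf
  U₂ := fun p => un p.2
  c₂ := fun p => M.cf p.2
  Λ := M.LS
  n := M.n
  a := M.q * M.A
  A := M.A

/-! ## The state of the play -/

/-- The state: the stones `F`, `S`; the big stones `Fb`, `Sb`; the blocks `D` of the skeleton; for every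
line `K` of the skeleton the set `G K` of the points of its zone which were free when it was added. -/
structure St (V : Type) where
  F : Finset V
  S : Finset V
  Fb : Finset V
  Sb : Finset V
  D : Finset (Finset (Finset V))
  G : Finset V → Finset V

section State

variable {V : Type} [Fintype V] [DecidableEq V]

/-- The skeleton. -/
def St.sk (st : St V) : Finset (Finset V) := st.D.biUnion id

namespace Sys

variable (M : Sys V)

/-- The small board. -/
def B (st : St V) : Finset V := M.zone st.sk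

/-- The line `L` is registered. -/
def reg (st : St V) (L : Finset V) : Prop := ∃ K ∈ st.sk, M.k ≤ (L ∩ st.G K).card

/-- The small potential of one line of the skeleton with set `G`. -/
noncomputable def P (F S G : Finset V) : ℝ :=
  ∑ L ∈ M.LF.filter (fun L => M.k ≤ (L ∩ G).card),
    if Disjoint (L ∩ G) S then (1 / 2 : ℝ) ^ ((L ∩ G) \ F).card else 0

/-- The part of the small potential of the sets through `x`. -/
noncomputable def Px (F S G : Finset V) (x : V) : ℝ :=
  ∑ L ∈ M.LF.filter (fun L => M.k ≤ (L ∩ G).card ∧ x ∈ L ∩ G),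
    if Disjoint (L ∩ G) S then (1 / 2 : ℝ) ^ ((L ∩ G) \ F).card else 0

/-- The small potential of a block. -/
noncomputable def PD (st : St V) (D : Finset (Finset V)) : ℝ :=
  ∑ K ∈ D, M.P st.F st.S (st.G K)

/-- The part through `x` of the small potential of a block. -/
noncomputable def PDx (st : St V) (D : Finset (Finset V)) (x : V) : ℝ :=
  ∑ K ∈ D, M.Px st.F st.S (st.G K) x

/-- `ρ = 2 A³ / 2^k` -/
noncomputable def rho : ℝ := 2 * (M.A : ℝ) ^ 3 / 2 ^ M.k

/-- The basic invariant; `t` is a lower bound for the number of points not occupied by `F` of an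
unregistered line without stones of `S`. -/
structure Inv (st : St V) (t : ℕ) : Prop where
  FbF : st.Fb ⊆ st.F
  SbS : st.Sb ⊆ st.S
  disj : Disjoint st.F st.S
  blk : ∀ D ∈ st.D, D ⊆ M.LF ∧ M.Conn D ∧ D.card ≤ M.q
  dis : ∀ D ∈ st.D, ∀ D' ∈ st.D, D ≠ D' → Disjoint (M.zone D) (M.zone D')
  unr : Unrel st.sk
  G1 : ∀ K ∈ st.sk, M.Z K \ (st.F ∪ st.S) ⊆ st.G K
  G2 : ∀ K ∈ st.sk, st.G K ⊆ M.Z K
  F1 : st.F \ st.Fb ⊆ st.sk.biUnion st.G
  Sb1 : ∀ K ∈ st.sk, Disjoint K st.Sb
  cl : ∃ (E : Finset V → Finset V) (H : Finset V → Finset V → Finset V), ∀ b ∈ st.sk,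
    (E b).card ≤ M.k ∧ (∀ a ∈ st.sk, a ≠ b → H a b ⊆ b ∩ M.Z a ∧ (H a b).card ≤ M.k) ∧
      b ⊆ st.Fb ∪ E b ∪ (st.sk.erase b).biUnion (fun a => H a b)
  unreg : ∀ L ∈ M.LF, Disjoint L st.S → ¬ M.reg st L →
    t ≤ (L \ st.F).card ∧ ∀ K ∈ st.sk, (L ∩ K).card ≤ 1
  self : ∀ K ∈ st.sk, M.reg st K

/-- The invariant of the small games.  `X` is empty or contains the last move of the first player, when the
second player has to answer it in its block. -/
def Sm (st : St V) (X : Finset V) : Prop :=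
  ∀ D ∈ st.D, M.PD st D ≤ D.card * M.rho ∧
    (Disjoint X (M.zone D) → ∀ x, x ∉ st.F → x ∉ st.S →
      M.PD st D + M.PDx st D x ≤ D.card * M.rho)

/-- Adding a line to the skeleton. -/
noncomputable def add (st : St V) (L : Finset V) : St V where
  F := st.F
  S := st.S
  Fb := st.Fb
  Sb := st.Sb
  D := insert (insert L ((st.D.filter (fun D => ¬ Disjoint (M.Z L) (M.zone D))).biUnion id))
    (st.D.filter (fun D => Disjoint (M.Z L) (M.zone D)))
  G := Function.update st.G L (M.Z L \ (st.F ∪ st.S))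

/-- The full invariant when it is the turn of the first player. -/
def InvF (st : St V) : Prop :=
  M.Inv st (M.k + 1) ∧ M.Sm st ∅ ∧ M.bg.MF st.Fb st.Sb (M.B st)

/-- The full invariant during the turn of the second player, after a small move `x` of the first
player. -/
def InvS (st : St V) (x : V) (t : ℕ) : Prop :=
  M.Inv st t ∧ M.Sm st {x} ∧ x ∈ st.F ∧ x ∈ M.B st ∧ M.bg.MF st.Fb st.Sb (M.B st)

/-- The full invariant during the turn of the second player, after a big move of the first player. -/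
def InvB (st : St V) (t : ℕ) : Prop :=
  M.Inv st t ∧ M.Sm st ∅ ∧ M.bg.MS st.Fb st.Sb (M.B st)

/-- The position can be reached at the turn of the first player, with the invariant. -/
def Pos (F S : Finset V) : Prop := ∃ st : St V, st.F = F ∧ st.S = S ∧ M.InvF st

/-- The aim of the second player. -/
def Goal (F S : Finset V) : Prop := (∃ l ∈ M.LS, l ⊆ S) ∧ ∀ L ∈ M.LF, ¬ L ⊆ F

/-- All hypotheses. -/
structure Good : Prop where
  hF : M.HypF
  hS : M.HypS
  num : Num (Fintype.card V) M.n M.m M.k M.q M.A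

end Sys

end State

/-! ## Games on `{1, ..., N}` -/

/-- The stones with index of the given parity in the list of moves, as a subset of `Fin N` (the point `i`
of `Fin N` is the number `i + 1`). -/
noncomputable def stones (N : ℕ) (l : List ℕ) (par : ℕ → Prop) : Finset (Fin N) := by
  classical exact univ.filter fun v => ∃ i : ℕ, par i ∧ l[i]? = some ((v : ℕ) + 1)

/-- The arithmetic progression in `Fin N` with `m` terms. -/
def ap (N m a d : ℕ) : Finset (Fin N) :=
  univ.filter fun v => ∃ j ∈ Finset.range m, (v : ℕ) + 1 = a + j * d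

/-- All arithmetic progressions with `m` terms in `{1, ..., N}`. -/
def aps (N m : ℕ) : Finset (Finset (Fin N)) :=
  ((Finset.Icc 1 N ×ˢ Finset.Icc 1 N).filter (fun p => p.1 + (m - 1) * p.2 ≤ N)).image
    (fun p => ap N m p.1 p.2)

/-- The second player can own an `n`-term progression while the first player owns no `m`-term progression
(the format of the frozen statement `S08505`). -/
def Wins (N n m : ℕ) : Prop :=
  ∃ σ : List ℕ → ℕ, ∀ l : List ℕ, l.Nodup → (∀ x ∈ l, 1 ≤ x ∧ x ≤ N) →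
    (∀ i : ℕ, i < l.length → Odd i → l[i]? = some (σ (l.take i))) →
    ((Odd l.length ∧ l.length < N → 1 ≤ σ l ∧ σ l ≤ N ∧ σ l ∉ l) ∧
     (l.length = N →
       (∃ a d : ℕ, 1 ≤ d ∧ ∀ k : ℕ, k < n → ∃ i : ℕ, Odd i ∧ l[i]? = some (a + k * d)) ∧
       ¬ ∃ a d : ℕ, 1 ≤ d ∧ ∀ k : ℕ, k < m → ∃ i : ℕ, Even i ∧ l[i]? = some (a + k * d)))

/-- The system of lines of the van der Waerden game. -/
def apSys (N n m k q : ℕ) : Sys (Fin N) where
  LF := aps N m
  LS := aps N n
  n := n
  m := m
  k := k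
  q := q
  A := 25 * m ^ 6

end VdWG
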