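import Pool.Agent.Lib.VdW.SpecA

/-!
# Elementary properties of `s`
-/

set_option autoImplicit false

namespace VdWG

open Finset

theorem tSMin : SMinStmt := by
  intro V _ _ M
  have h1 : ∀ C C₁ : Finset (Finset V), C₁ ⊆ C → M.s C ≤ M.sf C C₁ := by
    intro C C₁ h
    exact Finset.inf'_le _ (Finset.mem_powerset.2 h)
  refine ⟨h1, ?_, ?_, ?_⟩
  · intro C
    obtain ⟨C₁, hC₁, h⟩ := Finset.exists_mem_eq_inf' (s := C.powerset)
      ⟨∅, Finset.empty_mem_powerset C⟩ (M.sf C)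
    exact ⟨C₁, Finset.mem_powerset.1 hC₁, h⟩
  · have h2 := h1 ∅ ∅ (Finset.Subset.refl _)
    have h3 : M.sf (∅ : Finset (Finset V)) ∅ = 0 := by
      simp [Sys.sf, Sys.Pt]
    omega
  · intro L
    have h2 := h1 {L} {L} (Finset.Subset.refl _)
    have h3 : M.sf ({L} : Finset (Finset V)) {L} = 0 := by
      simp [Sys.sf, Sys.Pt]
    omega

end VdWG
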