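import Pool.Agent.Lib.VdW.Defs

/-!
# Specification A: counting configurations at the start of the play

Every statement is `def XStmt : Prop`; its complete proof is in the docstring.
-/

set_option autoImplicit false

namespace VdWG

open Finset

/-- **SMin.** Elementary properties of `s`.

*Proof.*  `Finset.inf'_le`, `Finset.exists_mem_eq_inf'`.  `s ∅`: the only subset is `∅`, `Pt ∅ = ∅`.  `s {L}`:
take `C₁ = {L}`: `Pt {L} = ∅` as `{L}.erase L = ∅`, and `{L} \ {L} = ∅`. -/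
def SMinStmt : Prop :=
  ∀ (V : Type) [Fintype V] [DecidableEq V] (M : Sys V),
    (∀ C C₁ : Finset (Finset V), C₁ ⊆ C → M.s C ≤ M.sf C C₁) ∧
    (∀ C : Finset (Finset V), ∃ C₁ ⊆ C, M.s C = M.sf C C₁) ∧ M.s ∅ = 0 ∧ ∀ L, M.s {L} = 0

/-- **SAdd.** `s` when a line is added.

*Proof.*  Let `C₁ ⊆ D` with `s D = sf D C₁` (*SMin*).  Second claim: use `C₁ ⊆ insert L D`:
`insert L D \ C₁ = insert L (D \ C₁)` has one element more (`L ∉ D`).  First claim: use `insert L C₁`: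
`insert L D \ insert L C₁ = D \ C₁` (or `⊆`), and `Pt (insert L C₁) ⊆ Pt C₁ ∪ (Z L ∩ zone D)`: a point `p ∈ b ∩ Z a` with
`a ≠ b` in `insert L C₁`; if `a, b ∈ C₁` it is in `Pt C₁`; if `a = L`, `b ∈ C₁`: `p ∈ Z L` and `p ∈ b ⊆ Z b ⊆ zone D`; if `b = L`,
`a ∈ C₁`: `p ∈ L ⊆ Z L`, `p ∈ Z a ⊆ zone D`.
*Uses*: SMin. -/
def SAddStmt : Prop :=
  ∀ (V : Type) [Fintype V] [DecidableEq V] (M : Sys V) (D : Finset (Finset V)) (L : Finset V),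
    L ∉ D → M.s (insert L D) ≤ M.s D + (M.Z L ∩ M.zone D).card ∧
      M.s (insert L D) ≤ M.s D + 4 * M.k * M.q

/-- **UnAdd.** The number of points when a line is added.

*Proof.*  `un (insert L D) = L ∪ un D`, `card_union_add_card_inter`: `|L ∪ un D| + |L ∩ un D| = |L| + |un D|`.
`L ∩ un D ⊆ ⋃_{K ∈ D} (L ∩ K)`, each of `≤ 1` points as `L ≠ K` (`L ∉ D`): `card_biUnion_le`, so `≤ |D|`.  And
`L ∩ un D ⊆ Z L ∩ zone D` (`L ⊆ Z L`, `K ⊆ Z K`). -/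
def UnAddStmt : Prop :=
  ∀ (V : Type) [Fintype V] [DecidableEq V] (M : Sys V) (D : Finset (Finset V)) (L : Finset V),
    L ∉ D → Unrel (insert L D) →
    (un D).card + L.card ≤ (un (insert L D)).card + D.card ∧
      (un D).card + L.card ≤ (un (insert L D)).card + (M.Z L ∩ M.zone D).card

/-- **ThPow.** Powers of `θ`.

*Proof.*  `2 - 2/n = 2 (1 - 1/n)`, and `(1 - 1/n)^j ≥ (1 - 1/n)^(2n) ≥ 1/16` for `j ≤ 2n`.  The last inequality: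
`(1 - 1/n)^n ≥ 1/4` for `n ≥ 2`: the sequence is increasing.  A direct proof for `n ≥ 5`: with `t = 1/n ≤ 1/5`,
`log (1 - t) ≥ - t/(1 - t)` (`Real.one_sub_inv_le_log_of_pos`), so `(1-t)^n ≥ exp (-1/(1 - t)) ≥ exp (-5/4)` and
`(1-t)^(2n) ≥ exp (-5/2) ≥ 1/16` (`exp (5/2) ≤ 2.7182818286^(5/2) < 12.2`; e.g. `exp (5/2) ≤ exp 1 ^ 3 · … `, use
`Real.exp_one_lt_d9` and `exp (5/2)^2 = exp 1 ^ 5 < 256`). -/
def ThPowStmt : Prop :=
  ∀ (n j : ℕ), 5 ≤ n → j ≤ 2 * n →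
    1 ≤ (2 - 2 / (n : ℝ)) ∧ (2 - 2 / (n : ℝ)) ≤ 2 ∧ 1 / (2 - 2 / (n : ℝ)) ^ j ≤ 16 / 2 ^ j

open Classical in
/-- The lines which can be added to `D`, adjacent to `E`. -/
noncomputable def Sys.ext {V : Type} [Fintype V] [DecidableEq V] (M : Sys V)
    (D E : Finset (Finset V)) : Finset (Finset V) :=
  M.LF.filter fun L => L ∉ D ∧ ¬ Disjoint (M.Z L) (M.zone E) ∧ Unrel (insert L D)

/-- **Typ.** The numbers of lines of the two types.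

*Proof.*  First: `{L : ¬ Disjoint (Z L) (zone E)} ⊆ ⋃_{z ∈ zone E} {L : z ∈ Z L}`, `|zone E| ≤ Σ_{K ∈ E} |Z K| ≤ 2q · A`,
each set has `≤ A N` elements (`HypF.deg`).  Second: two different points `z, z'` of `Z L ∩ zone D`
(`Finset.one_lt_card`): `{L} ⊆ ⋃_{(z, z') ∈ offDiag (zone D)} {L : z, z' ∈ Z L}`, each of `≤ A` elements (`HypF.pair`),
`|offDiag| ≤ |zone D|^2 ≤ (2 q A)^2`. -/
def TypStmt : Prop :=
  ∀ (V : Type) [Fintype V] [DecidableEq V] (M : Sys V), M.HypF → ∀ D E : Finset (Finset V),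
    D ⊆ M.LF → E ⊆ M.LF → D.card ≤ 2 * M.q → E.card ≤ 2 * M.q →
    (M.LF.filter (fun L => ¬ Disjoint (M.Z L) (M.zone E))).card ≤
      2 * M.q * M.A * (M.A * Fintype.card V) ∧
    (M.LF.filter (fun L => 2 ≤ (M.Z L ∩ M.zone D).card)).card ≤ (2 * M.q * M.A) ^ 2 * M.A

/-- **Ext.** The sum of the weights of the extensions.

*Proof.*  Let `L ∈ ext D E`, `c = |Z L ∩ zone D|`.  `wt0 (insert L D) = 2^(k (|D|+1) + s (insert L D)) / θ^|un (insert L D)|`.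
If `c ≤ 1`: `s (insert L D) ≤ s D + 1` (*SAdd*), `|un (insert L D)| ≥ |un D| + (m - 1)` (*UnAdd*), so (`θ ≥ 1`)
`wt0 (insert L D) ≤ wt0 D · 2^(k+1)/θ^(m-1) ≤ wt0 D · 2^(k+1) · 16/2^(m-1) = wt0 D · 64 · 2^k/2^m` (*ThPow*, `m - 1 ≤ 2n`).
If `c ≥ 2`: `s (insert L D) ≤ s D + 4kq`, `|un (insert L D)| + |D| ≥ |un D| + m`, `|D| ≤ |E| ≤ 2q`:
`wt0 (insert L D) ≤ wt0 D · 2^(k + 4kq)/θ^(m - 2q) ≤ wt0 D · 2^(k+4kq) · 16 · 2^(2q)/2^m` (natural subtraction: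
`2^(m - 2q) · 2^(2q) ≥ 2^m`).  The numbers of lines: *Typ*.  Sum:
`wt0 D · (2 q A² N · 64 · 2^k/2^m + 4 q² A³ · 16 · 2^(k+4kq+2q)/2^m) = dl · wt0 D`.
*Uses*: SAdd, UnAdd, ThPow, Typ. -/
def ExtStmt : Prop :=
  ∀ (V : Type) [Fintype V] [DecidableEq V] (M : Sys V), M.HypF →
    Num (Fintype.card V) M.n M.m M.k M.q M.A → ∀ D E : Finset (Finset V),
    D ⊆ E → E ⊆ M.LF → E.card ≤ 2 * M.q →
    ∑ L ∈ M.ext D E, M.wt0 (insert L D) ≤
      dl (Fintype.card V) M.m M.k M.q M.A * M.wt0 D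

/-- **ConnU.** Unions of connected sets.

*Proof.*  First claim: clear (`X ⊆ {L}`, nonempty, `X ≠ {L}` is impossible).  Second: let `X ⊆ C ∪ C'` be nonempty
and `≠ C ∪ C'`.  If `X ∩ C` is neither empty nor `C`: apply `Conn C` to `X ∩ C`.  Same for `C'`.  Otherwise (by
symmetry) `X ∩ C = C` and `X ∩ C' = ∅` (both full gives `X = C ∪ C'`, both empty gives `X = ∅`) and the pair
`K ∈ C`, `K' ∈ C'` of the hypothesis does it (if `K = K'` this is a contradiction: `K ∈ X` and `K' ∉ X`).  In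
the other case `X ∩ C = ∅`, `X ∩ C' = C'`: use the pair reversed (`Disjoint` is symmetric). -/
def ConnUStmt : Prop :=
  ∀ (V : Type) [Fintype V] [DecidableEq V] (M : Sys V),
    (∀ L, M.Conn {L}) ∧
    ∀ C C' : Finset (Finset V), M.Conn C → M.Conn C' →
      ((∃ K, K ∈ C ∧ K ∈ C') ∨ ∃ K ∈ C, ∃ K' ∈ C', ¬ Disjoint (M.Z K) (M.Z K')) →
      M.Conn (C ∪ C')

/-- **Leaf.** Removing a line different from the root.

*Proof.*  Let `X` be of maximal cardinality among the connected subsets of `C` with `r ∈ X`, `X ≠ C` (`{r}` is one: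
`|C| ≥ 2`; `Finset.exists_max_image` over `C.powerset` filtered classically).  By `Conn C` there are `K ∈ X`,
`L ∈ C \ X` with `Z K` meeting `Z L`.  `insert L X = X ∪ {L}` is connected (*ConnU*) and contains `r`; by maximality
`insert L X = C`.  So `X = C.erase L`, `L ≠ r`, and `Z L` meets `Z K ⊆ zone X`.
*Uses*: ConnU. -/
def LeafStmt : Prop :=
  ∀ (V : Type) [Fintype V] [DecidableEq V] (M : Sys V) (C : Finset (Finset V)) (r : Finset V),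
    M.Conn C → r ∈ C → 2 ≤ C.card →
    ∃ L ∈ C, L ≠ r ∧ M.Conn (C.erase L) ∧ ¬ Disjoint (M.Z L) (M.zone (C.erase L))

open Classical in
/-- Configurations of the second kind with root `r` and `j` lines. -/
noncomputable def Sys.WW {V : Type} [Fintype V] [DecidableEq V] (M : Sys V) (r : Finset V) (j : ℕ) :
    Finset (Finset (Finset V)) :=
  M.LF.powerset.filter fun C => r ∉ C ∧ M.Conn (insert r C) ∧ Unrel C ∧ C.card = j

open Classical in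
/-- Configurations of the first kind which contain `r` and have `j + 1` lines. -/
noncomputable def Sys.VV {V : Type} [Fintype V] [DecidableEq V] (M : Sys V) (r : Finset V) (j : ℕ) :
    Finset (Finset (Finset V)) :=
  M.LF.powerset.filter fun C => r ∈ C ∧ M.Conn C ∧ Unrel C ∧ C.card = j + 1

/-- **Cnt.** The sums over the configurations with a given root.

*Proof.*  Induction on `j`.  `WW r 0 = {∅}` (or `⊆`), `wt0 ∅ = 1` (`s ∅ = 0`); `VV r 0 ⊆ {{r}}`.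
Step for `WW`, `j + 1 ≤ 2q`: for `C ∈ WW r (j+1)` apply *Leaf* to `insert r C`: `L ∈ C`, `L ≠ r`,
`(insert r C).erase L = insert r (C.erase L)` connected and met by `Z L`.  So `C = insert L D` with
`D = C.erase L ∈ WW r j` and `L ∈ ext D (insert r D)`.  The map `(D, L) ↦ insert L D` from the sigma type over `WW r j` is
onto `WW r (j+1)` (or a superset), `wt0 ≥ 0`: `Σ_{C ∈ WW r (j+1)} wt0 C ≤ Σ_{D ∈ WW r j} Σ_{L ∈ ext D (insert r D)} wt0 (insert L D)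
≤ dl Σ_D wt0 D` by *Ext*, `|insert r D| ≤ j + 1 ≤ 2q`.  (`Finset.sum_le_sum_of_ne_zero`, `Finset.sum_sigma`,
`Finset.sum_image_le…` or: `Σ_{C} f C ≤ Σ_{C} Σ_{(D, L) : insert L D = C} f C` and exchange.)
Step for `VV`: same with `E = D`, `|D| = j + 1 ≤ 2q`: `L ∈ ext D D`.
*Uses*: SMin, Ext, Leaf. -/
def CntStmt : Prop :=
  ∀ (V : Type) [Fintype V] [DecidableEq V] (M : Sys V), M.HypF →
    Num (Fintype.card V) M.n M.m M.k M.q M.A → ∀ r ∈ M.LF, ∀ j : ℕ, j ≤ 2 * M.q →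
    ∑ C ∈ M.WW r j, M.wt0 C ≤ dl (Fintype.card V) M.m M.k M.q M.A ^ j ∧
    ∑ C ∈ M.VV r j, M.wt0 C ≤ M.wt0 {r} * dl (Fintype.card V) M.m M.k M.q M.A ^ j

/-- **Sum.** The sums at the start.

*Proof.*  `0 ≤ dl ≤ 1/2` (`Num.h5`).  `wt0 {r} = 2^k/θ^m ≤ 16 · 2^k/2^m` (`s {r} = 0`, `|un {r}| = |r| = m`, *ThPow*).
First sum: the pairs `(L, C)` of `X2` with `|C| = j` are `C ∈ WW L j`, `q ≤ j < 2q`: the sum is
`≤ Σ_{L ∈ LF} Σ_{j = q}^{2q-1} dl^j ≤ |LF| · dl^q · 2 ≤ 2 N² dl^q` (`Σ_{j ≥ q} dl^j ≤ 2 dl^q` as `dl ≤ 1/2`).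
Second: `X1 ⊆ ⋃_{r ∈ LF} ⋃_{j < q} VV r j` (`C` is nonempty, `r ∈ C`): `≤ |LF| · (16 · 2^k/2^m) · Σ_j dl^j ≤ 32 N² 2^k/2^m`.
Third: `C ∈ X1` with `z ∈ zone C`: there is `r ∈ C` with `z ∈ Z r`: `C ∈ VV r j`, so the sum is
`≤ #{r : z ∈ Z r} · (16 · 2^k/2^m) · 2 ≤ 32 A N 2^k/2^m ≤ dl` (`HypF.deg`; `dl ≥ 128 q A² N 2^k/2^m`).
*Uses*: SMin, ThPow, Cnt. -/
def SumStmt : Prop :=
  ∀ (V : Type) [Fintype V] [DecidableEq V] (M : Sys V), M.HypF →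
    Num (Fintype.card V) M.n M.m M.k M.q M.A →
    ∑ p ∈ M.X2, M.wt0 p.2 ≤
      2 * (Fintype.card V : ℝ) ^ 2 * dl (Fintype.card V) M.m M.k M.q M.A ^ M.q ∧
    ∑ C ∈ M.X1, M.wt0 C ≤ 32 * (Fintype.card V : ℝ) ^ 2 * 2 ^ M.k / 2 ^ M.m ∧
    ∀ z, ∑ C ∈ M.X1.filter (fun C => z ∈ M.zone C), M.wt0 C ≤
      dl (Fintype.card V) M.m M.k M.q M.A

/-- **Init.** The potentials at the start.

*Proof.*  With `Fb = Sb = ∅` the weight is `w ∅ ∅ (un C) (cf C) = cf C/θ^|un C| = wt0 C`.  So `Ph ∅ ∅` and `Ph1 ∅ ∅` are the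
first two sums of *Sum*: `512 n Ph ≤ 1024 n N² dl^q ≤ 1` (`Num.h6`), and
`512 n η Ph1 ≤ 512 n · (200 n q A · A² 2^n/N²) · 32 N² 2^k/2^m = 3276800 n² q A³ 2^(n+k)/2^m ≤ 1` (`Num.h4`; `N ≥ 1`).
`J ∅ ∅ ∅`: `Λ' ∅ ∅ ∅ = LS`, `J = Σ_{l ∈ LS} Σ_{C ∈ X1} wt0 C |l ∩ zone C| = Σ_l Σ_{z ∈ l} Σ_{C : z ∈ zone C} wt0 C ≤ |LS| n dl`
(`|l ∩ zone C| = Σ_{z ∈ l} [z ∈ zone C]`, exchange the sums), and `51200 n² dl ≤ 1` (`Num.h5`).
*Uses*: Sum. -/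
def InitStmt : Prop :=
  ∀ (V : Type) [Fintype V] [DecidableEq V] (M : Sys V), M.Good →
    512 * (M.n : ℝ) * M.bg.Ph ∅ ∅ ≤ 1 ∧ 512 * (M.n : ℝ) * (M.bg.et * M.bg.Ph1 ∅ ∅) ≤ 1 ∧
      51200 * (M.n : ℝ) * M.bg.J ∅ ∅ ∅ ≤ (M.LS.card : ℝ)

/-- **BgHyp.** The hypotheses of the big game hold.

*Proof.*  `c₁, c₂`: powers of `2`.  `UZ`: `K ⊆ Z K`.  `Zc`: `|zone C| ≤ Σ_{K ∈ C} |Z K| ≤ |C| A ≤ q A`.  The others are
fields of `HypS` and `Num`. -/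
def BgHypStmt : Prop :=
  ∀ (V : Type) [Fintype V] [DecidableEq V] (M : Sys V), M.Good → M.bg.Hyp

end VdWG
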