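import Pool.Agent.Lib.VdW.Defs

/-!
# Specification B: the potential of the big game

Every statement is `def XStmt : Prop`; its complete proof is in the docstring.
-/

set_option autoImplicit false

namespace VdWG

open Finset

/-- **BMu.** Numbers.

*Proof.*  (1) With `t = 1/n ≤ 1/5`: `μ/θ = (1 + t)/(1 - t) ≥ 1`, so it is enough to show `((1+t)/(1-t))^n ≤ 9`
(`a ≤ n`).  `log (1 + t) ≤ t` and `log (1 - t) ≥ -t - t²/2 - t³/(1-t)` (`Real.abs_log_sub_add_sum_range_le` with two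
terms), so `n log ((1+t)/(1-t)) ≤ 2 + t/2 + t²/(1-t) ≤ 2.15 < log 9`: `exp 2.15 ≤ 9` (e.g. `exp 2.15 = exp 1 ^ 2 * exp 0.15`,
`exp 1 < 2.7182818286`, `exp 0.15 ≤ 1/(1 - 0.15)` gives `8.69`).
(2) `μ^n = 2^n (1 + 1/n)^n ≤ 2^n exp 1 ≤ 3 · 2^n`.  (3) `0 ≤ θ ≤ 2`. -/
def BMuStmt : Prop :=
  ∀ n : ℕ, 5 ≤ n →
    (∀ a : ℕ, a ≤ n → (2 + 2 / (n : ℝ)) ^ a ≤ 9 * (2 - 2 / (n : ℝ)) ^ a) ∧
    (2 + 2 / (n : ℝ)) ^ n ≤ 3 * 2 ^ n ∧ (2 - 2 / (n : ℝ)) ^ n ≤ 2 ^ n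

/-- **BBas.** Signs and monotonicity.

*Proof.*  All terms are nonnegative: `c ≥ 0`, `θ ≥ 1`, `μ > 0`.  `T ≤ |Λ| μ^n`: `|l ∩ Sb| ≤ |l| = n`, `μ ≥ 1`.  `w₁` increases
with `Fb`: `|U \ insert x Fb| ≤ |U \ Fb|` and `θ ≥ 1`.  `w` decreases with `Sb`. -/
def BBasStmt : Prop :=
  ∀ (V ι₁ ι₂ : Type) [Fintype V] [DecidableEq V] (G : BG V ι₁ ι₂), G.Hyp →
    0 ≤ G.et ∧ ∀ Fb Sb B : Finset V,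
      (∀ i ∈ G.I₁, 0 ≤ G.w₁ Fb Sb i) ∧ (∀ i ∈ G.I₂, 0 ≤ G.w₂ Fb Sb i) ∧ 0 ≤ G.Ph Fb Sb ∧
      0 ≤ G.Ph1 Fb Sb ∧ 0 ≤ G.J Fb Sb B ∧ 0 ≤ G.T Fb Sb B ∧
      G.T Fb Sb B ≤ (G.Λ.card : ℝ) * G.mu ^ G.n ∧
      (∀ x, ∀ i ∈ G.I₁, G.w₁ Fb Sb i ≤ G.w₁ (insert x Fb) Sb i) ∧
      (∀ y, ∀ i ∈ G.I₁, G.w₁ Fb (insert y Sb) i ≤ G.w₁ Fb Sb i) ∧
      (∀ y, G.Ph Fb (insert y Sb) ≤ G.Ph Fb Sb) ∧
      (∀ z, 0 ≤ G.D2 Fb Sb z ∧ 0 ≤ G.D1 Fb Sb z ∧ 0 ≤ G.Tz Fb Sb B z ∧ 0 ≤ G.JC Fb Sb B z ∧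
        0 ≤ G.JL Fb Sb B z)

/-- **BBd.** Consequences of the bound for the potential.

*Proof.*  `r ≤ N` gives `bd r ≤ -β log |Λ| + β/4 + β/4`.  All of `Φ, η Φ₁, 50 J/T` are `≥ 0` (*BBas*).  So
`-β log T ≤ -β log |Λ| + β/2`, i.e. `T ≥ |Λ| exp (-1/2)`, and `exp (1/2) ≤ 5/3` (`exp 1 ≤ 2.7182818286 ≤ 25/9`; `|Λ| > 0` as
`0 < T`).  And `Φ + η Φ₁ + 50 J/T ≤ β/2 + β (log T - log |Λ|) ≤ β/2 + β n log μ`, with `β n = 1/8`,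
`log μ = log 2 + log (1 + 1/n) ≤ 0.6931471808 + 1/n`; total `≤ 1/(16 n) + (0.6931471808 + 1/n)/8 ≤ 0.0125 + 0.0867 + 0.025 < 1/8`.
(`Real.log_two_lt_d9`, `Real.add_one_le_exp`.)
*Uses*: BBas. -/
def BBdStmt : Prop :=
  ∀ (V ι₁ ι₂ : Type) [Fintype V] [DecidableEq V] (G : BG V ι₁ ι₂), G.Hyp →
    ∀ (Fb Sb B : Finset V) (r : ℕ), r ≤ Fintype.card V → 0 < G.T Fb Sb B →
      G.Th Fb Sb B ≤ G.bd r →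
      3 * (G.Λ.card : ℝ) ≤ 5 * G.T Fb Sb B ∧
      G.Ph Fb Sb + G.et * G.Ph1 Fb Sb + 50 * (G.J Fb Sb B / G.T Fb Sb B) ≤ 1 / 8

/-- **BStT.** `T` after `S` takes `y` and `F` takes `x`.

*Proof.*  `Λ' (insert x Fb) (insert y Sb) B = {l ∈ Λ' Fb Sb B : x ∉ l}` (`y ∉ B`, so `l ∩ B ⊆ insert y Sb` iff `l ∩ B ⊆ Sb`).
`|l ∩ insert y Sb| = |l ∩ Sb| + [y ∈ l]` (`y ∉ Sb`).  So the new sum is `Σ_{l ∌ x} μ^|l ∩ Sb| (1 + (μ-1) [y ∈ l])`; expand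
`[x ∉ l] = 1 - [x ∈ l]`. -/
def BStTStmt : Prop :=
  ∀ (V ι₁ ι₂ : Type) [Fintype V] [DecidableEq V] (G : BG V ι₁ ι₂),
    ∀ (Fb Sb B : Finset V) (x y : V), x ∉ Fb → x ∉ Sb → x ∉ B → y ∉ Fb → y ∉ Sb → y ∉ B → x ≠ y →
      G.T (insert x Fb) (insert y Sb) B = G.T Fb Sb B +
        (G.mu - 1) * (G.Tz Fb Sb B y - G.Tyz Fb Sb B y x) - G.Tz Fb Sb B x

/-- **BStW.** `Φ` and `Φ₁` after `S` takes `y` and `F` takes `x`.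

*Proof.*  For a configuration with points `U`: `w' = w · [y ∉ U] · (1 + λ [x ∈ U])`, `1 + λ = θ` (`x ∉ Fb`: `|U \ insert x Fb| =
|U \ Fb| - [x ∈ U]`).  As `w ≥ 0`: `w' ≤ w - w [y ∈ U] + λ w [x ∈ U]`.  Sum. -/
def BStWStmt : Prop :=
  ∀ (V ι₁ ι₂ : Type) [Fintype V] [DecidableEq V] (G : BG V ι₁ ι₂), G.Hyp →
    ∀ (Fb Sb : Finset V) (x y : V), x ∉ Fb →
      G.Ph (insert x Fb) (insert y Sb) ≤ G.Ph Fb Sb - G.D2 Fb Sb y + G.la * G.D2 Fb Sb x ∧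
      G.Ph1 (insert x Fb) (insert y Sb) ≤ G.Ph1 Fb Sb - G.D1 Fb Sb y + G.la * G.D1 Fb Sb x

/-- **BCr.** The cross terms.

*Proof.*  For `i` with `y ∈ U₁ i`: `Σ_{l ∈ Λ', x ∈ l} θ^|l ∩ Sb| |((l \ Sb) ∩ Z₁ i).erase x| ≤ θ^n Σ_{z ∈ Z₁ i, z ≠ x} #{l ∈ Λ : x, z ∈ l}
≤ θ^n · a · A` (`Hyp.pair`, `Hyp.Zc`).  Multiply by `w₁ i` and sum over `i` with `y ∈ U₁ i`. -/
def BCrStmt : Prop :=
  ∀ (V ι₁ ι₂ : Type) [Fintype V] [DecidableEq V] (G : BG V ι₁ ι₂), G.Hyp →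
    ∀ (Fb Sb B : Finset V) (x y : V),
      ∑ l ∈ (G.Λ' Fb Sb B).filter (fun l => x ∈ l), G.th ^ (l ∩ Sb).card *
        ∑ i ∈ G.I₁.filter (fun i => y ∈ G.U₁ i), G.w₁ Fb Sb i *
          ((((l \ Sb) ∩ G.Z₁ i).erase x).card : ℝ) ≤
      G.a * G.A * G.th ^ G.n * G.D1 Fb Sb y

/-- **BStJ.** `J` after `S` takes `y` and `F` takes `x`.

*Proof.*  Write `J` as a double sum over `(l, i)`, `l ∈ Λ'`, `i ∈ I₁`, of `w c`, `w = θ^|l ∩ Sb| w₁ i ≥ 0`,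
`c = |(l \ Sb) ∩ Z₁ i|`.  Let `P = [y ∈ l]`, `Q = [x ∈ l]`, `R = [y ∈ U₁ i]`, `X = [x ∈ U₁ i]`, `c_y = [y ∈ l ∩ Z₁ i]`,
`c_x = [x ∈ l ∩ Z₁ i]`, `θ = 1 + λ`, `0 ≤ λ ≤ 1`.  `Λ'` new `= {l ∈ Λ' : x ∉ l}`; the new term is
`(1-Q)(1-R) (1+λ)^(P+X) w (c - c_y)` (`y` is no contact point any more: `(l \ insert y Sb) ∩ Z₁ i =
((l \ Sb) ∩ Z₁ i).erase y`).  Claim for every pair:
`new ≤ w [c - R c + λ P (c - c_y) + λ X c - Q (c - c_x)] + w Q R (c - c_x) + w P X (c - c_y)`.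
Cases: `Q = 1`: new `= 0`, the right side is `≥ w [c_x - R c + R (c - c_x)] ≥ 0`.  `Q = 0, R = 1`: new `= 0`, right `≥ 0`.
`Q = R = 0, P = 0`: `c_y = 0`, equality.  `Q = R = 0, P = 1, X = 0`: `(1+λ)(c - c_y) ≤ c + λ (c - c_y)`.
`Q = R = 0, P = X = 1`: `(1+λ)² (c - c_y) = (c - c_y)(1 + 2λ + λ²) ≤ c + λ (c - c_y) + λ c + (c - c_y)` as `λ² ≤ 1`.
Sum: the first bracket gives `J - JC y + λ JL y + λ JC x - JL x` (`c - c_x = |((l \ Sb) ∩ Z₁ i).erase x|`: `x ∉ Sb`), the last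
two the cross terms of *BCr* (for `(x, y)` and `(y, x)`).
*Uses*: BBas, BCr. -/
def BStJStmt : Prop :=
  ∀ (V ι₁ ι₂ : Type) [Fintype V] [DecidableEq V] (G : BG V ι₁ ι₂), G.Hyp →
    ∀ (Fb Sb B : Finset V) (x y : V), x ∉ Fb → x ∉ Sb → x ∉ B → y ∉ Fb → y ∉ Sb → y ∉ B → x ≠ y →
      G.J (insert x Fb) (insert y Sb) B ≤ G.J Fb Sb B - G.JC Fb Sb B y + G.la * G.JL Fb Sb B y +
        G.la * G.JC Fb Sb B x - G.JL Fb Sb B x +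
        G.a * G.A * G.th ^ G.n * (G.D1 Fb Sb x + G.D1 Fb Sb y)

/-- **BSiz.** `T(y)` and `T(y, x)` are small.

*Proof.*  `T(y) ≤ #{l : y ∈ l} μ^n ≤ A N · 3 · 2^n` (*BMu*), `T ≥ (3/5)|Λ| ≥ (3/5) N²/A`, so `T(y)/T ≤ 5 A² 2^n/N ≤ 5/(150 n)`
(`Hyp.big`).  `T(y, x) ≤ A · 3 · 2^n`, so `T(y,x)/T ≤ 5 A² 2^n/N² ≤ 1/(30 n N)`.
*Uses*: BMu. -/
def BSizStmt : Prop :=
  ∀ (V ι₁ ι₂ : Type) [Fintype V] [DecidableEq V] (G : BG V ι₁ ι₂), G.Hyp →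
    ∀ (Fb Sb B : Finset V) (x y : V), x ≠ y → 0 < G.T Fb Sb B →
      3 * (G.Λ.card : ℝ) ≤ 5 * G.T Fb Sb B →
      G.Tz Fb Sb B y / G.T Fb Sb B ≤ 1 / (30 * (G.n : ℝ)) ∧
      0 ≤ G.Tyz Fb Sb B y x ∧ G.Tyz Fb Sb B y x ≤ G.Tz Fb Sb B y ∧
      G.Tyz Fb Sb B y x / G.T Fb Sb B ≤ 1 / (30 * (G.n : ℝ) * (Fintype.card V : ℝ)) ∧
      50 * 2 * (G.a * G.A * G.th ^ G.n) / G.T Fb Sb B ≤ G.et / G.n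

/-- **BReal.** The real inequality.

*Proof.*  `u = (n⁺)(p - e) - q` with `n⁺ = μ - 1 = 1 + 2/n ≤ 7/5`, `0 ≤ e ≤ p ≤ 1/(30 n)`, `0 ≤ q ≤ 1/(30 n)`: `|u| ≤ 1/(20 n) ≤ 1/8`.
`-log (1 + u) ≤ -u + 2u²` (`Real.abs_log_sub_add_sum_range_le` or `Real.one_sub_inv_le_log_of_pos`:
`log (1+u) ≥ 1 - 1/(1+u) = u/(1+u) ≥ u - 2u²`) and `1/(1+u) - 1 = -u/(1+u) ≤ -u + 2u²`.  As `2u² ≤ |u|/(4n)` and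
`|u| ≤ n⁺ (p - e) + q`: `-u + 2u² ≤ -n⁺ (1 - 1/(4n)) (p - e) + (1 + 1/(4n)) q ≤ -ν p + ν q + (7/5) e`
(`n⁺ (1 - 1/(4n)) ≥ ν = 1 + 1/n` for `n ≥ 1`, and `n⁺ ≤ 7/5`). -/
def BRealStmt : Prop :=
  ∀ (n : ℕ) (p q e : ℝ), 5 ≤ n → 0 ≤ e → e ≤ p → p ≤ 1 / (30 * (n : ℝ)) → 0 ≤ q →
    q ≤ 1 / (30 * (n : ℝ)) →
    let u := (1 + 2 / (n : ℝ)) * (p - e) - q
    |u| ≤ 1 / (8 * (n : ℝ)) ∧
    -Real.log (1 + u) ≤ -(1 + 1 / (n : ℝ)) * p + (1 + 1 / (n : ℝ)) * q + 7 / 5 * e ∧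
    1 / (1 + u) - 1 ≤ -(1 + 1 / (n : ℝ)) * p + (1 + 1 / (n : ℝ)) * q + 7 / 5 * e

/-- **BCore.** The main inequality.

*Proof.*  Write `T'' = T (1 + u)`, `p = T(y)/T`, `e = T(y, x)/T`, `q = T(x)/T` (*BStT*, `μ - 1 = 1 + 2/n`); *BSiz* (twice) gives the
hypotheses of *BReal*.  `0 < T''` as `|u| < 1`.  Let `h = J/T ≤ 1/400`, `E₀ = -ν p + ν q + (7/5) e`.
* `-β log T'' ≤ -β log T + β E₀`.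
* `J''/T'' = (J/T)(1/(1+u)) + ((J'' - J)/T)(1/(1+u))`; the first term is `≤ h + h E₀`.  By *BStJ* `J'' - J ≤ -a₁ + b₁ + E` with
  `a₁ = JC y + JL x ≥ 0`, `b₁ = λ (JL y + JC x) ≥ 0`, `E = a A θ^n (D₁ x + D₁ y) ≥ 0`.  With `|u| ≤ 1/(8n)`:
  `1/(1+u) ≥ 1 - 1/(8n) ≥ κ = 1 - 1/n`, `λ/(1+u) ≤ (1 - 2/n)(1 + 1/(7n)) ≤ κ`, `1/(1+u) ≤ 2`.  So
  `50 ((J'' - J)/T)/(1+u) ≤ (50 κ/T)(-JC y - JL x + JL y + JC x) + 100 E/T`, and `100 E/T ≤ (η/n)(D₁ x + D₁ y)` (*BSiz*).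
* *BStW*: `Φ'' ≤ Φ - D y + λ D x ≤ Φ - κ D y + κ D x` and
  `η Φ₁'' + (η/n)(D₁ x + D₁ y) ≤ η Φ₁ - η (1 - 1/n) D₁ y + η (λ + 1/n) D₁ x = η Φ₁ - κ η D₁ y + κ η D₁ x`.
Sum: `Θ'' ≤ Θ - GG y + GG x + (β + 50 h)(7/5) e`, and `(β + 50 h)(7/5) e ≤ (1/40 + 1/8)(7/5)/(30 n N) ≤ β/(4N) = 1/(32 n N)`.
*Uses*: BBas, BStT, BStW, BStJ, BSiz, BReal. -/
def BCoreStmt : Prop :=
  ∀ (V ι₁ ι₂ : Type) [Fintype V] [DecidableEq V] (G : BG V ι₁ ι₂), G.Hyp →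
    ∀ (Fb Sb B : Finset V) (x y : V), x ∉ Fb → x ∉ Sb → x ∉ B → y ∉ Fb → y ∉ Sb → y ∉ B → x ≠ y →
      0 < G.T Fb Sb B → 3 * (G.Λ.card : ℝ) ≤ 5 * G.T Fb Sb B →
      400 * G.J Fb Sb B ≤ G.T Fb Sb B →
      0 < G.T (insert x Fb) (insert y Sb) B ∧
      G.Th (insert x Fb) (insert y Sb) B ≤ G.Th Fb Sb B - G.GG Fb Sb B y + G.GG Fb Sb B x +
        G.be / (4 * (Fintype.card V : ℝ))

/-- **BDrop.** A configuration of weight at least one is put into the small board.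

*Proof.*  `Λ'` new `⊆ Λ'` old (`B ⊆ B'`).  A dropped line `l` has a point `p ∈ l ∩ B'`, `p ∉ Sb`, and `l ∩ B ⊆ Sb`, so
`p ∈ Z₁ i`: its inner sum in `J` is `≥ w₁ i · 1 ≥ 1` (the other terms are `≥ 0`), so its term in `J` is `≥ θ^|l ∩ Sb| ≥
μ^|l ∩ Sb|/9` (*BMu*, `|l ∩ Sb| ≤ n`).  Let `τ` be the sum of `μ^|l ∩ Sb|` over the dropped lines: `T' = T - τ`,
`J' ≤ J - τ/9`.  First claim.  Second: let `t = τ/T`, `h = J/T ≤ 1/18`; `t/9 ≤ h` (as `J' ≥ 0`), so `t ≤ 1/2` and `T' > 0`.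
`J'/T' - J/T ≤ (h - t/9)/(1 - t) - h = t (h - 1/9)/(1 - t) ≤ -(1/18) t/(1 - t)`, and
`-log T' + log T = -log (1 - t) ≤ t/(1 - t)` (`Real.one_sub_inv_le_log_of_pos`).  So
`Θ' - Θ ≤ (β - 50/18) t/(1 - t) ≤ 0` (`β ≤ 1/40`).  `Ph`, `Ph1` do not depend on `B`.
*Uses*: BMu, BBas. -/
def BDropStmt : Prop :=
  ∀ (V ι₁ ι₂ : Type) [Fintype V] [DecidableEq V] (G : BG V ι₁ ι₂), G.Hyp →
    ∀ (Fb Sb B B' : Finset V) (i : ι₁), i ∈ G.I₁ → 1 ≤ G.w₁ Fb Sb i → B ⊆ B' → B' ⊆ B ∪ G.Z₁ i →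
      G.T Fb Sb B - 9 * G.J Fb Sb B ≤ G.T Fb Sb B' - 9 * G.J Fb Sb B' ∧
      (0 < G.T Fb Sb B → 18 * G.J Fb Sb B ≤ G.T Fb Sb B →
        0 < G.T Fb Sb B' ∧ G.Th Fb Sb B' ≤ G.Th Fb Sb B)

/-- **BCons.** Consequences of the invariants.

*Proof.*  `MS`: *BBd* with `r = |Sb| ≤ N`: `Φ ≤ 1/8` and `50 J/T ≤ 1/8` (all terms `≥ 0`), i.e. `400 J ≤ T`.
`MF`: `T > 9 J ≥ 0`.
*Uses*: BBas, BBd. -/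
def BConsStmt : Prop :=
  ∀ (V ι₁ ι₂ : Type) [Fintype V] [DecidableEq V] (G : BG V ι₁ ι₂), G.Hyp →
    ∀ (Fb Sb B : Finset V),
      (G.MS Fb Sb B → 0 < G.T Fb Sb B ∧ G.Ph Fb Sb < 1 ∧ 400 * G.J Fb Sb B ≤ G.T Fb Sb B ∧
        3 * (G.Λ.card : ℝ) ≤ 5 * G.T Fb Sb B) ∧
      (G.MF Fb Sb B → 0 < G.T Fb Sb B ∧ G.Ph Fb Sb < 1 ∧
        ∀ x, x ∉ Fb → x ∉ Sb → x ∉ B → G.MS (insert x Fb) Sb B ∧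
          400 * G.J (insert x Fb) Sb B ≤ G.T (insert x Fb) Sb B)

/-- **BMove.** The big move of the second player.

*Proof.*  First claim (no point left): `T - 9J > 0` as `400 J ≤ T`, `T > 0` (*BCons*); the last condition is void.
Second: let `y` maximize `GG Fb Sb B` over the finite set of the points outside `Fb ∪ Sb ∪ B` (`Finset.exists_max_image`).
`Λ' Fb (insert y Sb) B = Λ' Fb Sb B`; `T(Fb, Sb + y) ≥ T` and `J(Fb, Sb + y) ≤ θ J ≤ 2 J` (`|l ∩ insert y Sb| ≤ |l ∩ Sb| + 1`, the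
weights decrease, `l \ insert y Sb ⊆ l \ Sb`), so `T - 9J > 0`.  `Φ` decreases.  For `x` outside: *BCore* and
`GG x ≤ GG y`: `Θ'' ≤ Θ + β/(4N) ≤ bd |Sb| + β/(4N) = bd (|Sb| + 1)`.
*Uses*: BBas, BCons, BCore. -/
def BMoveStmt : Prop :=
  ∀ (V ι₁ ι₂ : Type) [Fintype V] [DecidableEq V] (G : BG V ι₁ ι₂), G.Hyp →
    ∀ (Fb Sb B : Finset V), G.MS Fb Sb B →
      ((∀ z, z ∈ Fb ∨ z ∈ Sb ∨ z ∈ B) → G.MF Fb Sb B) ∧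
      ((∃ z, z ∉ Fb ∧ z ∉ Sb ∧ z ∉ B) →
        ∃ y, y ∉ Fb ∧ y ∉ Sb ∧ y ∉ B ∧ G.MF Fb (insert y Sb) B)

/-- **BPres.** The invariants are preserved when a configuration of weight at least one is put into the small
board.

*Proof.*  `MS`: *BCons* (`18 J ≤ 400 J ≤ T`), *BDrop*.  `MF`: the first condition by the first claim of *BDrop*; the second
does not depend on `B`; the third: for `x ∉ B'`, `x ∉ B`; at `insert x Fb` the weight `w₁ i` is still `≥ 1` (*BBas*), *BCons*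
gives `400 J ≤ T` there, and *BDrop* at `insert x Fb`.
*Uses*: BBas, BCons, BDrop. -/
def BPresStmt : Prop :=
  ∀ (V ι₁ ι₂ : Type) [Fintype V] [DecidableEq V] (G : BG V ι₁ ι₂), G.Hyp →
    ∀ (Fb Sb B B' : Finset V) (i : ι₁), i ∈ G.I₁ → 1 ≤ G.w₁ Fb Sb i → B ⊆ B' → B' ⊆ B ∪ G.Z₁ i →
      (G.MS Fb Sb B → G.MS Fb Sb B') ∧ (G.MF Fb Sb B → G.MF Fb Sb B')

/-- **BStart.** The invariant at the start.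

*Proof.*  `Λ' ∅ ∅ ∅ = Λ`, `T = |Λ| ≥ N²/A > 0`.  `9 J < T` as `51200 n J ≤ |Λ|`; `Φ ≤ 1/512 < 1`.  Let `x : V`.
`T(x) ≔ T {x} ∅ ∅ = |Λ| - #{l : x ∈ l} ≥ |Λ| - A N ≥ |Λ| (1 - A²/N)` (`A N ≤ (A²/N) · (N²/A) ≤ (A²/N) |Λ|`) and
`A²/N ≤ 1/(150 · 5 · 32) = 1/24000` (`Hyp.big`).  So `-log T(x) ≤ -log |Λ| + 2/24000`.  The weights at `Fb = {x}` are
`≤ θ ≤ 2` times those at `∅` (`|U \ {x}| ≥ |U| - 1`), so `Φ(x) ≤ 2Φ`, `Φ₁(x) ≤ 2 Φ₁`, `J(x) ≤ 2J`, and `50 J(x)/T(x) ≤ 200 J/|Λ|`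
(`T(x) ≥ |Λ|/2`).  Sum: `Θ(x) ≤ -β log |Λ| + 2/(512 n) + 2/(512 n) + 200/(51200 n) + β/12000 ≤ -β log |Λ| + β/4` as
`3/(256 n) + 1/(96000 n) ≤ 1/(32 n)`.
*Uses*: BBas. -/
def BStartStmt : Prop :=
  ∀ (V ι₁ ι₂ : Type) [Fintype V] [DecidableEq V] (G : BG V ι₁ ι₂), G.Hyp →
    512 * (G.n : ℝ) * G.Ph ∅ ∅ ≤ 1 → 512 * (G.n : ℝ) * (G.et * G.Ph1 ∅ ∅) ≤ 1 →
    51200 * (G.n : ℝ) * G.J ∅ ∅ ∅ ≤ (G.Λ.card : ℝ) → G.MF ∅ ∅ ∅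

end VdWG
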