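import Pool.Agent.Lib.VdW.Defs

/-!
# Specification C: the skeleton, the small games, the steps of the play

Every statement is `def XStmt : Prop`; its complete proof is in the docstring.  The statements of
specifications A and B which are used are repeated as hypotheses where needed (`CHypP`).
-/

set_option autoImplicit false

namespace VdWG

open Finset

/-- The new block when `L` is added. -/
def Sys.nb {V : Type} [Fintype V] [DecidableEq V] (M : Sys V) (st : St V) (L : Finset V) :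
    Finset (Finset V) :=
  insert L ((st.D.filter (fun D => ¬ Disjoint (M.Z L) (M.zone D))).biUnion id)

/-- **CSk.** The skeleton after adding a line.

*Proof.*  `(M.add st L).D = insert (nb st L) (the blocks disjoint from Z L)`; the union of all blocks is `insert L sk`.
`B (add st L) = zone (insert L sk) = Z L ∪ B st`; `Z L ⊆ zone (nb st L)`.  The last claims: `L ∈ nb`; `nb ⊆ insert L sk`; the
fields are unchanged (`rfl`); `Function.update` (for `K ∈ sk`, `K ≠ L` as `L ∉ sk`).  `reg (add st L) L'` iff `reg st L'` or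
`k ≤ |L' ∩ (Z L \ (F ∪ S))|`. -/
def CSkStmt : Prop :=
  ∀ (V : Type) [Fintype V] [DecidableEq V] (M : Sys V) (st : St V) (L : Finset V), L ∉ st.sk →
    (M.add st L).sk = insert L st.sk ∧ M.B (M.add st L) = M.Z L ∪ M.B st ∧
    M.B st ⊆ M.B (M.add st L) ∧ M.B (M.add st L) ⊆ M.B st ∪ M.zone (M.nb st L) ∧
    M.nb st L ⊆ insert L st.sk ∧ M.nb st L ∈ (M.add st L).D ∧
    (M.add st L).G L = M.Z L \ (st.F ∪ st.S) ∧ (∀ K ∈ st.sk, (M.add st L).G K = st.G K) ∧
    (∀ L', M.reg (M.add st L) L' ↔ M.reg st L' ∨ M.k ≤ (L' ∩ (M.Z L \ (st.F ∪ st.S))).card)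

/-- **CPot.** The small potential of one line of the skeleton.

*Proof.*  (1) For a term with `x ∈ L ∩ G`, `x ∉ F`: `|(L ∩ G) \ insert x F| + 1 = |(L ∩ G) \ F|`, so the weight is doubled; the
other terms do not change.  (2) A term with `y ∈ L ∩ G` becomes `0`, the others do not change.  (3) If `L ∩ G` is disjoint from
`S'` it is disjoint from `S ⊆ S'`; the terms are `≥ 0`.  (4) `(L ∩ G) \ insert x F = (L ∩ G) \ F`.  (5) No term.  (6) Fewer terms, all
`≥ 0`. -/
def CPotStmt : Prop :=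
  ∀ (V : Type) [Fintype V] [DecidableEq V] (M : Sys V) (F S G : Finset V),
    (∀ x, x ∉ F → M.P (insert x F) S G = M.P F S G + M.Px F S G x) ∧
    (∀ y, M.P F (insert y S) G = M.P F S G - M.Px F S G y) ∧
    (∀ S', S ⊆ S' → M.P F S' G ≤ M.P F S G ∧ ∀ x, M.Px F S' G x ≤ M.Px F S G x) ∧
    (∀ x, x ∉ G → M.P (insert x F) S G = M.P F S G ∧
      ∀ x', M.Px (insert x F) S G x' = M.Px F S G x') ∧
    (∀ x, x ∉ G → M.Px F S G x = 0) ∧
    ∀ x, 0 ≤ M.Px F S G x ∧ M.Px F S G x ≤ M.P F S G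

/-- **CMono.** The invariants are monotone in the set of the stones of the second player.

*Proof.*  `st' = {st with S := S'}`.  `SbS`: `Sb ⊆ S ⊆ S'`.  `disj`: hypothesis.  `G1`: smaller left side.  `unreg`: `L ∩ S' = ∅` implies
`L ∩ S = ∅`; `reg` does not depend on `S`.  The others are unchanged.  `Sm`: (3) of *CPot*, summed over the block.
*Uses*: CPot. -/
def CMonoStmt : Prop :=
  ∀ (V : Type) [Fintype V] [DecidableEq V] (M : Sys V) (st : St V) (S' : Finset V), st.S ⊆ S' →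
    Disjoint st.F S' → (∀ t, M.Inv st t → M.Inv {st with S := S'} t) ∧
      ∀ X, M.Sm st X → M.Sm {st with S := S'} X

/-- **CCov.** The points of a union of blocks.

*Proof.*  Let `C = 𝒟'.biUnion id` and let `C₁ ⊆ C` with `s C = sf C C₁` (`Finset.exists_mem_eq_inf'`).  Let `E`, `H` be as in
`Inv.cl`.  For `b ∈ C ⊆ sk`: `b \ Fb ⊆ E b ∪ ⋃_{a ∈ sk, a ≠ b} H a b`, and `H a b = ∅` if `a ∉ C`: `H a b ⊆ b ∩ Z a ⊆ Z b ∩ Z a`,
and `a` is in a block different from that of `b` (the block of `b` is a subset of `C`), with disjoint zone (`Inv.dis`).  So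
`un C \ Fb ⊆ (⋃_{b ∈ C} E b) ∪ Pt C₁ ∪ ⋃_{(a, b) ∈ C × C, a ≠ b, a ∉ C₁ or b ∉ C₁} H a b` (if `a, b ∈ C₁` then `H a b ⊆ b ∩ Z a ⊆ Pt C₁`).
The cardinality is `≤ k |C| + |Pt C₁| + k · 2 |C| |C \ C₁|`, and `|C| ≤ 2q`, so `≤ k |C| + |Pt C₁| + 4 k q |C \ C₁| = k |C| + s C`.
Last claim: a point of `un C` is in some `K ∈ C ⊆ sk`, `Inv.Sb1`. -/
def CCovStmt : Prop :=
  ∀ (V : Type) [Fintype V] [DecidableEq V] (M : Sys V) (st : St V) (t : ℕ), M.Inv st t →
    ∀ D' ⊆ st.D, (D'.biUnion id).card ≤ 2 * M.q →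
      (un (D'.biUnion id) \ st.Fb).card ≤ M.k * (D'.biUnion id).card + M.s (D'.biUnion id) ∧
      Disjoint (un (D'.biUnion id)) st.Sb

/-- **CWt.** The weight of a union of blocks is at least one.

*Proof.*  By *CCov* the weight is `2^(k |C| + s C)/θ^u` with `u = |un C \ Fb| ≤ k |C| + s C` and `1 ≤ θ ≤ 2` (`n ≥ 5`).
*Uses*: CCov. -/
def CWtStmt : Prop :=
  ∀ (V : Type) [Fintype V] [DecidableEq V] (M : Sys V) (st : St V) (t : ℕ), 5 ≤ M.n →
    M.Inv st t → ∀ D' ⊆ st.D, (D'.biUnion id).card ≤ 2 * M.q →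
      1 ≤ M.bg.w st.Fb st.Sb (un (D'.biUnion id)) (M.cf (D'.biUnion id))

/-- **CSub.** A finite set with weights `≤ q` and total weight `≥ q` has a subset with weight in `[q, 2q)`.

*Proof.*  Take a subset of minimal cardinality among those with weight `≥ q` (`Finset.exists_min_image` over the
powerset).  It is nonempty (`q ≥ 1`); remove one element: the weight is `< q`, so before it was `< q + q`. -/
def CSubStmt : Prop :=
  ∀ (α : Type) [DecidableEq α] (X : Finset α) (f : α → ℕ) (q : ℕ), 1 ≤ q → (∀ x ∈ X, f x ≤ q) →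
    q ≤ ∑ x ∈ X, f x → ∃ Y ⊆ X, q ≤ ∑ x ∈ Y, f x ∧ ∑ x ∈ Y, f x < 2 * q

/-- **CConn.** The union of `{L}` and blocks adjacent to `L` is connected.

*Proof.*  Induction on `D'`.  `{L}` is connected.  Let `D ∈ D'` be a further block; `D` is connected and `Z L` meets `zone D`,
so it meets some `Z K`, `K ∈ D`: the union of `insert L (…)` and `D` is connected.  (Directly from the definition of
`Conn`: the union `C ∪ C'` of two connected sets with an adjacent pair is connected: for `X ⊆ C ∪ C'` nonempty and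
`≠ C ∪ C'`; if `X ∩ C` is neither `∅` nor `C` use `Conn C`, same for `C'`; otherwise `X ∩ C = C, X ∩ C' = ∅` or the
converse, and the adjacent pair does it.) -/
def CConnStmt : Prop :=
  ∀ (V : Type) [Fintype V] [DecidableEq V] (M : Sys V) (L : Finset V)
    (D' : Finset (Finset (Finset V))),
    (∀ D ∈ D', M.Conn D ∧ ¬ Disjoint (M.Z L) (M.zone D)) → M.Conn (insert L (D'.biUnion id))

/-- **CSize.** The new block has at most `q` lines.

*Proof.*  The blocks are pairwise disjoint sets (a common line `K` would have `Z K` in both zones; `Z K ≠ ∅` as `K` has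
`m ≥ 1` points).  Let `X` be the set of the blocks adjacent to `L`.  Suppose `|nb| > q`; then `Σ_{D ∈ X} |D| ≥ q`
(`|nb| ≤ 1 + Σ |D|`).  *CSub* gives `Y ⊆ X` with `C = Y.biUnion id`, `|C| = Σ_{D ∈ Y} |D| ∈ [q, 2q)` (`card_biUnion`).
`L ∉ C`: `L ∉ sk` (`Inv.self`).  `insert L C` is connected (*CConn*), `C ⊆ LF` is unrelated (`Inv.unr`): `(L, C) ∈ X2`.  Its
weight is `≥ 1` (*CWt*) and all other weights are `≥ 0`, so `Ph ≥ 1`: contradiction.
*Uses*: CWt, CSub, CConn. -/
def CSizeStmt : Prop :=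
  ∀ (V : Type) [Fintype V] [DecidableEq V] (M : Sys V) (st : St V) (t : ℕ), M.Good →
    M.Inv st t → M.bg.Ph st.Fb st.Sb < 1 → ∀ L ∈ M.LF, ¬ M.reg st L →
      (M.nb st L).card ≤ M.q

/-- **CAddI.** Adding a line preserves the basic invariant.

*Proof.*  `L ∉ sk` (`Inv.self`).  Use *CSk*.  `FbF, SbS, disj`: unchanged.  `blk`: for the new block: `⊆ LF`, connected
(*CConn*), `≤ q` lines by hypothesis; the others are old.  `dis`: an old block `D'` disjoint from `Z L` against the new block: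
`zone nb = Z L ∪ ⋃ zone D` over the adjacent blocks `D ≠ D'`, disjoint from `zone D'`.  `unr`: `|L ∩ K| ≤ 1` for `K ∈ sk` by
`Inv.unreg`.  `G1, G2`: for `L` by definition, for the others old.  `F1`: old.  `Sb1`: `L` is disjoint from `S ⊇ Sb`.  `cl`: put
`E' L = L \ F` (`k` points), `H' a L = L ∩ G a` for `a ∈ sk` (`≤ k` points as `L` is not registered; `⊆ L ∩ Z a` by `G2`),
`H' L b = ∅` for `b ∈ sk`, the rest as before.  `L ⊆ Fb ∪ (L \ F) ∪ ⋃_{a ∈ sk} (L ∩ G a)` by `F1`.  `unreg`: let `L'` be not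
registered for the new state, `L' ∩ S = ∅`; so it is not registered for the old one: `k ≤ |L' \ F|`, `|L' ∩ K| ≤ 1` for
`K ∈ sk`.  If `|L' ∩ L| ≥ 2` then `L' ⊆ Z L`, so `L' \ F ⊆ L' ∩ (Z L \ (F ∪ S))`, which has `≥ k` points: `L'` is registered, a
contradiction.  `self`: `L ∩ (Z L \ (F ∪ S)) = L \ F` (`L ∩ S = ∅`, `L ⊆ Z L`) has `k` points.
*Uses*: CSk, CConn. -/
def CAddIStmt : Prop :=
  ∀ (V : Type) [Fintype V] [DecidableEq V] (M : Sys V) (st : St V), M.Good →
    M.Inv st M.k → ∀ L ∈ M.LF, Disjoint L st.S → ¬ M.reg st L → (L \ st.F).card = M.k →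
      (M.nb st L).card ≤ M.q → M.Inv (M.add st L) M.k

/-- **CReg.** The number of the lines which a new line registers, and the new small potential.

*Proof.*  A line `L'` with `|L' ∩ G₀| ≥ k ≥ 2`, `G₀ ⊆ Z L`, contains two different points of `Z L`, and `L' ⊆ Z L'`: the
number is `≤ Σ_{(z, z') ∈ offDiag (Z L)} #{L' : z, z' ∈ Z L'} ≤ A² · A` (`HypF.zone`, `HypF.pair`).  If `G₀` is disjoint from `F`
every term of `P` is `≤ (1/2)^k` (`|(L' ∩ G₀) \ F| = |L' ∩ G₀| ≥ k`): `P ≤ A³/2^k = rho/2`. -/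
def CRegStmt : Prop :=
  ∀ (V : Type) [Fintype V] [DecidableEq V] (M : Sys V), M.Good →
    ∀ L ∈ M.LF, ∀ F S G₀ : Finset V, G₀ ⊆ M.Z L → Disjoint G₀ F → M.P F S G₀ ≤ M.rho / 2

/-- **CAddS.** Adding a line preserves the invariant of the small games.

*Proof.*  Use *CSk* (`L ∉ sk` by `Inv.self`).  For an old block which stays: nothing changes (`G` is unchanged on `sk`).
For the new block `nb`: it is the disjoint union of `{L}` and the adjacent blocks `D` (disjoint: a common line would have its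
nonempty zone in two disjoint zones): `PD nb = P_L + Σ_D PD D`, `|nb| = 1 + Σ |D|`.  `P_L ≤ rho/2` and `P_L + Px_L x ≤ 2 P_L ≤ rho` (*CReg*, *CPot*
(6): `G L = Z L \ (F ∪ S)` is disjoint from `F`).  If `X` is disjoint from `zone nb` it is disjoint from `zone D` for the adjacent
blocks.  So both claims follow by addition.
*Uses*: CSk, CPot, CReg. -/
def CAddSStmt : Prop :=
  ∀ (V : Type) [Fintype V] [DecidableEq V] (M : Sys V) (st : St V) (X : Finset V), M.Good →
    M.Inv st M.k → M.Sm st X → ∀ L ∈ M.LF, ¬ M.reg st L → M.Sm (M.add st L) X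

/-- **CAddB.** The new block is a configuration of the first kind of weight at least one.

*Proof.*  `st' = add st L`; `nb ∈ st'.D` (*CSk*), so `Inv.blk`, `Inv.unr` for `st'` (subset of the skeleton) give `nb ∈ X1`.
The weight: *CWt* for `st'` and `D' = {nb}` (`biUnion id {nb} = nb`, `|nb| ≤ q ≤ 2q`; `Fb`, `Sb` are unchanged).
*Uses*: CSk, CWt. -/
def CAddBStmt : Prop :=
  ∀ (V : Type) [Fintype V] [DecidableEq V] (M : Sys V) (st : St V), M.Good → ∀ L, L ∉ st.sk →
    M.Inv (M.add st L) M.k → M.nb st L ∈ M.X1 ∧ 1 ≤ M.bg.w₁ st.Fb st.Sb (M.nb st L)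

/-- The statements of specifications A and B used here: `hyp`, the consequences of the invariants, their
preservation, the big move and the start. -/
structure CHypP : Prop where
  hyp : ∀ (V : Type) [Fintype V] [DecidableEq V] (M : Sys V), M.Good → M.bg.Hyp
  cons : ∀ (V : Type) [Fintype V] [DecidableEq V] (M : Sys V), M.Good → ∀ Fb Sb B : Finset V,
    (M.bg.MS Fb Sb B → 0 < M.bg.T Fb Sb B ∧ M.bg.Ph Fb Sb < 1) ∧
    (M.bg.MF Fb Sb B → 0 < M.bg.T Fb Sb B ∧ M.bg.Ph Fb Sb < 1 ∧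
      ∀ x, x ∉ Fb → x ∉ Sb → x ∉ B → M.bg.MS (insert x Fb) Sb B)
  pres : ∀ (V : Type) [Fintype V] [DecidableEq V] (M : Sys V), M.Good →
    ∀ (Fb Sb B B' : Finset V) (C : Finset (Finset V)), C ∈ M.X1 → 1 ≤ M.bg.w₁ Fb Sb C → B ⊆ B' →
      B' ⊆ B ∪ M.zone C →
      (M.bg.MS Fb Sb B → M.bg.MS Fb Sb B') ∧ (M.bg.MF Fb Sb B → M.bg.MF Fb Sb B')
  move : ∀ (V : Type) [Fintype V] [DecidableEq V] (M : Sys V), M.Good →
    ∀ (Fb Sb B : Finset V), M.bg.MS Fb Sb B →
      ((∀ z, z ∈ Fb ∨ z ∈ Sb ∨ z ∈ B) → M.bg.MF Fb Sb B) ∧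
      ((∃ z, z ∉ Fb ∧ z ∉ Sb ∧ z ∉ B) →
        ∃ y, y ∉ Fb ∧ y ∉ Sb ∧ y ∉ B ∧ M.bg.MF Fb (insert y Sb) B)
  start : ∀ (V : Type) [Fintype V] [DecidableEq V] (M : Sys V), M.Good → M.bg.MF ∅ ∅ ∅

/-- **CUpd1.** One step of the update.

*Proof.*  `L ∉ sk` by `Inv.self`.  `Ph < 1` by `CHypP.cons`; *CSize* gives `|nb| ≤ q`; *CAddI*, *CAddS*; *CAddB* and
`CHypP.pres` with `B' = B (add st L)` (*CSk*).  `x ∈ F` and `x ∈ B st ⊆ B (add st L)`.
*Uses*: CHypP, CSk, CSize, CAddI, CAddS, CAddB. -/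
def CUpd1Stmt : Prop :=
  ∀ (V : Type) [Fintype V] [DecidableEq V] (M : Sys V), M.Good → ∀ st : St V, ∀ L ∈ M.LF,
    Disjoint L st.S → ¬ M.reg st L → (L \ st.F).card = M.k →
    (∀ x, M.InvS st x M.k → M.InvS (M.add st L) x M.k) ∧
    (M.InvB st M.k → M.InvB (M.add st L) M.k)

/-- **CUpd.** The update.

*Proof.*  Strong induction on `|LF \ sk|` (for all states with the same `F, S, Fb, Sb`).  If every `L ∈ LF` with `L ∩ S = ∅`,
not registered, has `|L \ F| ≥ k + 1`, take `st' = st`.  Otherwise there is one with `|L \ F| = k` (`Inv.unreg`); it is not in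
`sk` (`Inv.self`); use *CUpd1* and the induction hypothesis for `add st L`, whose skeleton is `insert L sk` (*CSk*).
*Uses*: CSk, CUpd1. -/
def CUpdStmt : Prop :=
  ∀ (V : Type) [Fintype V] [DecidableEq V] (M : Sys V), M.Good → ∀ st : St V,
    (∀ x, M.InvS st x M.k → ∃ st' : St V, st'.F = st.F ∧ st'.S = st.S ∧
      M.InvS st' x (M.k + 1)) ∧
    (M.InvB st M.k → ∃ st' : St V, st'.F = st.F ∧ st'.S = st.S ∧ M.InvB st' (M.k + 1))

/-- **CFS.** A small move of the first player.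

*Proof.*  `st' = {st with F := insert x st.F}`.  All fields of `Inv` with `t = k` instead of `k + 1`: `F1`: `x ∈ Z K` for some
`K ∈ sk` (`x ∈ B`), and `x ∉ F ∪ S`, so `x ∈ G K` by `G1`.  `unreg`: `|L \ insert x F| ≥ |L \ F| - 1 ≥ k`; `reg` does not depend on
`F`.  `G1` with a smaller left side.  `Sm st' {x}`: for a block `D`: (1) of *CPot* gives `PD st' D = PD st D + PDx st D x ≤ |D| rho`.
If `{x}` is disjoint from `zone D` then `x ∉ G K` for `K ∈ D` (`G2`), so by (4) nothing changes: `PD st' D = PD st D`,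
`PDx st' D x' = PDx st D x'`.
*Uses*: CPot. -/
def CFSStmt : Prop :=
  ∀ (V : Type) [Fintype V] [DecidableEq V] (M : Sys V), M.Good → ∀ (st : St V) (x : V),
    M.InvF st → x ∉ st.F → x ∉ st.S → x ∈ M.B st →
    M.InvS {st with F := insert x st.F} x M.k

/-- **CFB.** A big move of the first player.

*Proof.*  `st' = {st with F := insert x st.F, Fb := insert x st.Fb}`.  `Inv` with `t = k`: `F1`: `insert x F \ insert x Fb ⊆ F \ Fb`.
`cl`: `Fb` grows.  `Sm st' ∅`: `x ∉ B`, so `x ∉ Z K ⊇ G K` for all `K ∈ sk`: nothing changes ((4) of *CPot*).  `MS`: `CHypP.cons`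
(`x ∉ Fb` as `x ∉ F`; `x ∉ Sb` as `x ∉ S`).
*Uses*: CHypP, CPot. -/
def CFBStmt : Prop :=
  ∀ (V : Type) [Fintype V] [DecidableEq V] (M : Sys V), M.Good → ∀ (st : St V) (x : V),
    M.InvF st → x ∉ st.F → x ∉ st.S → x ∉ M.B st →
    M.InvB {st with F := insert x st.F, Fb := insert x st.Fb} M.k

/-- **CExtra.** A further stone of the second player does no harm.

*Proof.*  *CMono* with `S' = insert z S`.  `MF` does not depend on `S`.
*Uses*: CMono. -/
def CExtraStmt : Prop :=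
  ∀ (V : Type) [Fintype V] [DecidableEq V] (M : Sys V) (st : St V) (z : V),
    M.InvF st → z ∉ st.F → M.InvF {st with S := insert z st.S}

/-- **CRS.** The answer to a small move.

*Proof.*  Let `D₀` be a block with `x ∈ zone D₀` (`x ∈ B`); it is the only one (`Inv.dis`), so the other blocks satisfy the full
condition (`Disjoint {x} (zone D)`).  Case 1: no point of `zone D₀` is free (outside `F ∪ S`).  Then for a free `x'`,
`x' ∉ G K` for `K ∈ D₀` (`G2`), so `PDx D₀ x' = 0` ((5) of *CPot*) and `Sm st ∅` holds: take `st' = st`.  Case 2: let `y` be a free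
point of `zone D₀` with `PDx D₀ y` maximal.  `st' = {st with S := insert y S}`.  By (2), (3) of *CPot*
`PD st' D₀ = PD st D₀ - PDx st D₀ y`, and for a free `x'`: `PDx st' D₀ x' ≤ PDx st D₀ x' ≤ PDx st D₀ y` (if `x' ∉ zone D₀` it is
`0 ≤ PDx st D₀ y` by (5), (6)).  The sum is `≤ PD st D₀ ≤ |D₀| rho`.  For the other blocks `P` and `Px` decrease.  `Inv`: *CMono*.
*Uses*: CPot, CMono. -/
def CRSStmt : Prop :=
  ∀ (V : Type) [Fintype V] [DecidableEq V] (M : Sys V), M.Good → ∀ (st : St V) (x : V),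
    M.InvS st x (M.k + 1) → ∃ st' : St V, st'.F = st.F ∧
      (st'.S = st.S ∨ ∃ y, y ∉ st.F ∧ y ∉ st.S ∧ st'.S = insert y st.S) ∧ M.InvF st'

/-- **CRB.** The answer to a big move.

*Proof.*  If all points are in `Fb ∪ Sb ∪ B`: `MF` holds (`CHypP.move`), `st' = st`.  Otherwise `CHypP.move` gives `y` outside
`Fb ∪ Sb ∪ B` with `MF Fb (insert y Sb) B`.  `y ∉ F`: `F \ Fb ⊆ ⋃ G K ⊆ B`.  `st' = {st with S := insert y S, Sb := insert y Sb}`; if
`y ∈ S` this has `st'.S = insert y S = S` (`Finset.insert_eq_self`).  `Inv`, `Sm`: *CMono* for `S' = insert y S`, and then only the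
fields `SbS` and `Sb1` mention `Sb` (`y ∉ B ⊇ Z K ⊇ K`).
*Uses*: CHypP, CMono. -/
def CRBStmt : Prop :=
  ∀ (V : Type) [Fintype V] [DecidableEq V] (M : Sys V), M.Good → ∀ (st : St V),
    M.InvB st (M.k + 1) → ∃ st' : St V, st'.F = st.F ∧
      (st'.S = st.S ∨ ∃ y, y ∉ st.F ∧ y ∉ st.S ∧ st'.S = insert y st.S) ∧ M.InvF st'

/-- **CStep.** One round.

*Proof.*  Let `st` be the state of `Pos F S`.  If `x ∈ B st`: *CFS*, *CUpd*, *CRS*; otherwise *CFB*, *CUpd*, *CRB*.  This gives `st'`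
with `st'.F = insert x F`, `InvF st'`, and `st'.S = S` or `st'.S = insert y S` with `y` free.  In the second case `z = y`.  In the
first case let `z` be any point outside `insert x F ∪ S` and use *CExtra*.
*Uses*: CFS, CFB, CUpd, CRS, CRB, CExtra. -/
def CStepStmt : Prop :=
  ∀ (V : Type) [Fintype V] [DecidableEq V] (M : Sys V), M.Good → ∀ (F S : Finset V) (x : V),
    M.Pos F S → x ∉ F → x ∉ S → insert x F ∪ S ≠ univ →
    ∃ z, z ∉ insert x F ∧ z ∉ S ∧ M.Pos (insert x F) (insert z S)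

/-- **CEnd1.** The end of the play, for a state.

*Proof.*  *A line of `S`*: `T > 0`, so `Λ'` is not empty: `l ∈ LS`, `l ∩ Fb = ∅`, `l ∩ B ⊆ Sb`.  A point `p ∈ l ∩ F` is not in `Fb`, so
it is in some `G K ⊆ Z K ⊆ B`, so in `Sb ⊆ S`: contradiction to `F ∩ S = ∅`.  So `l ⊆ univ \ F = S`.
*No line of `F`*: let `L ∈ LF`, `L ⊆ F`.  `L ∩ S = ∅`.  If `L` is not registered, `t ≤ |L \ F| = 0`: contradiction.  If it is,
`k ≤ |L ∩ G K|`, `K ∈ D ∈ st.D`: the term of `L` in `P F S (G K)` is `(1/2)^0 = 1`, so `PD st D ≥ 1`; but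
`PD st D ≤ |D| rho ≤ q · 2A³/2^k < 1` (`Num.h2`). -/
def CEnd1Stmt : Prop :=
  ∀ (V : Type) [Fintype V] [DecidableEq V] (M : Sys V), M.Good → ∀ (st : St V) (X : Finset V) (t : ℕ),
    1 ≤ t → M.Inv st t → M.Sm st X → 0 < M.bg.T st.Fb st.Sb (M.B st) → st.F ∪ st.S = univ →
    M.Goal st.F st.S

/-- **CEnd.** The end of the play.

*Proof.*  First claim: *CEnd1* with `t = k + 1` (`T > 0` by `CHypP.cons`).  Second: *CEnd1* for the state of *CFS* or *CFB*, `t = k ≥ 1`.
*Uses*: CHypP, CFS, CFB, CEnd1. -/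
def CEndStmt : Prop :=
  ∀ (V : Type) [Fintype V] [DecidableEq V] (M : Sys V), M.Good → ∀ (F S : Finset V),
    M.Pos F S → (F ∪ S = univ → M.Goal F S) ∧
      ∀ x, x ∉ F → x ∉ S → insert x F ∪ S = univ → M.Goal (insert x F) S

/-- **CStart.** The start.

*Proof.*  The state with empty fields (`G = fun _ => ∅`); `sk = ∅`, `B = ∅`.  `Inv`: everything is void except `unreg`: for `L ∈ LF`,
`|L \ ∅| = m ≥ k + 1`: by `Num.h4`, `2^m ≥ 3276800 · 2^(n+k) > 2^(k+1)`.  `Sm`: no blocks.  `MF`: `CHypP.start`.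
*Uses*: CHypP. -/
def CStartStmt : Prop :=
  ∀ (V : Type) [Fintype V] [DecidableEq V] (M : Sys V), M.Good → M.Pos ∅ ∅

end VdWG
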