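import Pool.Agent.Lib.VdW.SpecA
import Pool.Agent.Lib.VdW.SpecB
import Pool.Agent.Lib.VdW.SpecC

/-!
# Specification D: the strategy, arithmetic progressions, parameters

Every statement is `def XStmt : Prop`; its complete proof is in the docstring.
-/

set_option autoImplicit false

namespace VdWG

open Finset

/-- **DHyp.** The statements of A and B give the hypotheses of C.

*Proof.*  `hyp`: *BgHyp*.  `cons`: *BCons*.  `pres`: *BPres* for `M.bg` (`I₁ = X1`, `Z₁ = zone`).  `move`: *BMove*.  `start`: *BStart* with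
*Init* (`M.bg.n = M.n`, `M.bg.Λ = M.LS` by `rfl`).
*Uses*: BgHyp, Init, BCons, BPres, BMove, BStart. -/
def DHypStmt : Prop := BgHypStmt → InitStmt → BConsStmt → BPresStmt → BMoveStmt → BStartStmt → CHypP

/-- **DStrat.** A strategy from an invariant.

*Proof.*  Write `E l = stones N l Even`, `O l = stones N l Odd`.  Define
`σ l = z + 1` with `z` chosen such that `z ∉ E l`, `z ∉ O l`, `P (E l) (insert z (O l))` if there is such a `z`, and `σ l = 0` otherwise.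
Let `l` be as in the statement.  Claim: for even `i ≤ |l|`, `P (E (l.take i)) (O (l.take i))`.  Induction in steps of two.  Let
`i + 2 ≤ |l|`, `x = l[i] - 1 : Fin N`.  `E (l.take (i+1)) = insert x (E (l.take i))`, `O (l.take (i+1)) = O (l.take i)`, `x` is in neither
(`Nodup`), and the union is not everything, because `l[i+1] - 1` is not in it (`Nodup`).  So the choice is possible, `l[i+1] =
σ (l.take (i+1)) = z + 1` and `O (l.take (i+2)) = insert z (O (l.take (i+1)))`, `E` unchanged.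
If `|l|` is odd and `< N`: with `i = |l| - 1` the same argument (a free point exists as `l` has less than `N` different
entries: `|E l ∪ O l| ≤ |l| < N`) shows that the choice for `σ l` is possible, so `σ l = z + 1` is legal (`σ l ∉ l`: every entry of `l` is
`v + 1` with `v ∈ E l ∪ O l`).  If `|l| = N`: `E l ∪ O l = univ` (`l` is a list of all numbers `1, ..., N`: nodup of length `N`).
`N` even: the claim for `i = N` and the third hypothesis.  `N` odd: the claim for `i = N - 1` and the fourth one. -/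
def DStratStmt : Prop :=
  ∀ (N : ℕ) (P Q : Finset (Fin N) → Finset (Fin N) → Prop),
    P ∅ ∅ →
    (∀ F S x, P F S → x ∉ F → x ∉ S → insert x F ∪ S ≠ univ →
      ∃ z, z ∉ insert x F ∧ z ∉ S ∧ P (insert x F) (insert z S)) →
    (∀ F S, P F S → F ∪ S = univ → Q F S) →
    (∀ F S x, P F S → x ∉ F → x ∉ S → insert x F ∪ S = univ → Q (insert x F) S) →
    ∃ σ : List ℕ → ℕ, ∀ l : List ℕ, l.Nodup → (∀ x ∈ l, 1 ≤ x ∧ x ≤ N) →
      (∀ i : ℕ, i < l.length → Odd i → l[i]? = some (σ (l.take i))) →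
      ((Odd l.length ∧ l.length < N → 1 ≤ σ l ∧ σ l ≤ N ∧ σ l ∉ l) ∧
       (l.length = N → Q (stones N l Even) (stones N l Odd)))

/-- **DAp.** Elementary properties of the progressions.

*Proof.*  The map `j ↦ a + j d - 1` is injective from `range m` to `Fin N` with image `ap N m a d`: the cardinality is `m` (also for
`m = 0`).  Injectivity for `m ≥ 2`: the least element plus one of `ap N m a d` is `a`, the largest plus one is `a + (m-1) d`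
(as numbers).  So `ap N m a d = ap N m a' d'` implies `a = a'`, `(m-1) d = (m-1) d'`. -/
def DApStmt : Prop :=
  ∀ (N m : ℕ), (∀ a d, 1 ≤ a → 1 ≤ d → a + (m - 1) * d ≤ N → (ap N m a d).card = m) ∧
    (2 ≤ m → ∀ a d a' d', 1 ≤ a → 1 ≤ d → a + (m - 1) * d ≤ N → 1 ≤ a' → 1 ≤ d' →
      a' + (m - 1) * d' ≤ N → ap N m a d = ap N m a' d' → a = a' ∧ d = d')

/-- **DZ.** The points of the zone of a progression.

*Proof.*  If `z ∈ L = ap N m a d`: `z + 1 - a = j d`, `0 ≤ j ≤ m - 1`: `r = 1`, `p = j` (`m ≥ 2`, so `1 < m`).  Otherwise `z ∈ L' = ap N m a' d'` with two different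
common points `a + i d = a' + i' d'`, `a + j d = a' + j' d'` (values `+1`), `i' > j'` without loss.  Then `i > j` and
`r := i' - j'` satisfies `1 ≤ r ≤ m - 1` and `r d' = (i - j) d`.  `z + 1 = a' + t d'`, so `z + 1 - a = i d + (t - i') d'`, and
`r (z + 1 - a) = r i d + (t - i')(i - j) d = p d` with `p = r i + (t - i')(i - j)`, `|p| ≤ (m-1)² + (m-1)² ≤ 2 m²`. -/
def DZStmt : Prop :=
  ∀ (N n m k q : ℕ), 2 ≤ m → ∀ a d : ℕ, 1 ≤ a → 1 ≤ d → a + (m - 1) * d ≤ N →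
    ∀ z ∈ (apSys N n m k q).Z (ap N m a d), ∃ (r : ℕ) (p : ℤ), 1 ≤ r ∧ r < m ∧
      |p| ≤ 2 * (m : ℤ) ^ 2 ∧ (r : ℤ) * ((z : ℕ) + 1 - (a : ℤ)) = p * d

/-- **DF.** The hypotheses on the lines of the first player.

*Proof.*  The number of pairs `(r, p)` in *DZ* is `≤ m (4 m² + 1) ≤ 5 m³`; `A = 25 m⁶`.  `card`: *DAp*.  `tot`: `aps` is the image of a
subset of `Icc 1 N ×ˢ Icc 1 N`.  `zone`: for given `(a, d)` the pair `(r, p)` determines `z`: `|Z L| ≤ 5 m³ ≤ A`.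
`deg`: `#{L : z ∈ Z L} ≤ #{(a, d) : ∃ (r, p), r (z + 1 - a) = p d} ≤ Σ_{(r, p)} #{(a, d) …} ≤ 5 m³ N`: for given `(r, p)` the number
`d` determines `a` (`r ≥ 1`).  `pair`: for given `(r, p), (r', p')` and `z ≠ z'` there is at most one `(a, d)` (as integers, `d ≥ 1`) with
`r (Z - a) = p d`, `r' (Z' - a) = p' d` (`Z = z + 1`, `Z' = z' + 1`): multiply the first by `r'`, the second by `r` and subtract:
`r r' (Z - Z') = (r' p - r p') d`, so `r' p - r p' ≠ 0` and `d` is determined, then `a` by `r a = r Z - p d`.  So the number is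
`≤ (5 m³)² = A`.
*Uses*: DAp, DZ. -/
def DFStmt : Prop :=
  ∀ (N n m k q : ℕ), 2 ≤ m → (apSys N n m k q).HypF

/-- **DS.** The hypotheses on the lines of the second player.

*Proof.*  `card`: *DAp*.  `deg`: a progression through `y` is determined by the position `i < n` of `y` and by `d ≤ N`: `≤ n N ≤ A N`.
`pair`: it is determined by the positions `i ≠ j` of `y`, `z` (`(i - j) d = y - z` gives `d`, then `a`): `≤ n² ≤ A` (`25 m⁶ ≥ n²`).
`tot`: for `1 ≤ d ≤ N/(2n)` (floor) and `1 ≤ a ≤ N/2` (floor) the progression is in `[1, N]` (`a + (n-1) d ≤ N/2 + N/2`); they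
are different for different `(a, d)` (*DAp*).  The number is `≥ ⌊N/(2n)⌋ ⌊N/2⌋ ≥ (N/(4n)) (N/4) = N²/(16 n)` for `N ≥ 2n`
(`⌊t⌋ ≥ t/2` for `t ≥ 1`), and `A = 25 m⁶ ≥ 16 n`.
*Uses*: DAp. -/
def DSStmt : Prop :=
  ∀ (N n m k q : ℕ), 2 ≤ n → n ≤ m → 2 * n ≤ N → (apSys N n m k q).HypS

/-- The function `f(n) = 150 n A² 2ⁿ`, `A = 25 m⁶`, `m = n + 2000 ⌊log₂ n⌋`. -/
def fN (n : ℕ) : ℕ := 150 * n * (25 * (n + 2000 * Nat.log 2 n) ^ 6) ^ 2 * 2 ^ n

/-- **DPa.** The choice of `n`.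

*Proof.*  `fN` is increasing and unbounded (`fN n ≥ n`).  Let `n` be the largest number with `fN n ≤ N` (`Nat.findGreatest`); `n ≥ 2^41`
as `fN (2^41) ≤ N`.  `N < fN (n+1)`.  With `L = log₂ n`: `n < 2^(L+1)`, `log₂ (n+1) ≤ L + 1`, `2000 (L + 1) ≤ n + 1` (as `n ≥ 2^L`,
`L ≥ 41`), so `m(n+1) ≤ 2 (n+1) ≤ 4n ≤ 2^(L+3)`, `A(n+1) = 25 m⁶ ≤ 2^5 · 2^(6L+18) = 2^(6L+23)`,
`fN (n+1) ≤ 2^8 · 2^(L+2) · 2^(12L+46) · 2^(n+1) = 2^(n + 57 + 13 L)` (`150 ≤ 2^8`, `n + 1 ≤ 2^(L+1)`). -/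
def DPaStmt : Prop :=
  ∀ N : ℕ, fN (2 ^ 41) ≤ N → ∃ n : ℕ, 2 ^ 41 ≤ n ∧ fN n ≤ N ∧
    N ≤ 2 ^ (n + 57 + 13 * Nat.log 2 n)

/-- **DPb.** The numerical hypotheses.

*Proof.*  `L = log₂ n ≥ 41`, `2^L ≤ n < 2^(L+1)`, `m = n + 2000 L ≤ 2n` (`2000 L ≤ 2^L` for `L ≥ 41`), `A = 25 m⁶ ≤ 2^5 (2^(L+2))^6 = 2^(17+6L)`,
`k = 54 + 19 L`, `q = n/(16 k)`.  `q ≥ 1` and `q ≥ n/(32 k)`, i.e. `32 k q ≥ n`: as `n ≥ 32 k`.  `q ≤ n < 2^(L+1)`.
`h2`: `2 q A³ ≤ 2^(1 + (L+1) + 51 + 18 L) = 2^(53 + 19 L) < 2^k`.  `h3`: `fN n ≤ N`.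
`h4`: `3276800 ≤ 2^22`: `≤ 2^(22 + 2(L+1) + (L+1) + 51 + 18 L + n + 54 + 19 L) = 2^(n + 130 + 40 L) ≤ 2^m` as `130 + 40 L ≤ 2000 L`.
`dl ≤ 2^(-96 k)`: first part: `16 · 8 q A² N 2^k/2^m ≤ 2^(7 + (L+1) + 34 + 12 L + n + 57 + 13 L + 54 + 19 L - m) = 2^(153 + 45 L - 2000 L)
≤ 2^(-96 k - 1)` as `96 k + 1 + 153 + 45 L = 5338 + 1869 L ≤ 2000 L` for `L ≥ 41`.  Second part: `4 k q ≤ n/4`, `2 q ≤ n/8`, so
`16 · 4 q² A³ 2^(k+4kq+2q)/2^m ≤ 2^(6 + 2(L+1) + 51 + 18 L + 54 + 19 L + 3n/8 - m) = 2^(113 + 39 L + 3n/8 - m) ≤ 2^(-96 k - 1)` as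
`m - 3n/8 ≥ n/2 ≥ 5299 + 1863 L`.
`h5`: `51200 n² dl ≤ 2^(16 + 2(L+1) - 96 k) ≤ 1`.  `h6`: `dl^q ≤ 2^(-96 k q) ≤ 2^(-3n)`, and
`1024 n N² ≤ 2^(10 + (L+1) + 2 (n + 57 + 13 L)) = 2^(2n + 125 + 27 L) ≤ 2^(3n)`. -/
def DPbStmt : Prop :=
  ∀ N n : ℕ, 2 ^ 41 ≤ n → fN n ≤ N → N ≤ 2 ^ (n + 57 + 13 * Nat.log 2 n) →
    ∃ k q : ℕ, Num N n (n + 2000 * Nat.log 2 n) k q (25 * (n + 2000 * Nat.log 2 n) ^ 6)

/-- **DWin.** From the abstract aim to the progressions.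

*Proof.*  Let `M = apSys N n m k q`, `M.Good`.  *DStrat* with `P = M.Pos`, `Q = M.Goal` (*CStart*, *CStep*, *CEnd*).  For a list `l` with
`|l| = N`: `Goal (E l) (O l)`.  A line `ap N n a d ∈ aps N n` with `ap N n a d ⊆ O l` gives `a, d` with `1 ≤ d` and for `j < n` an odd index
`i` with `l[i]? = some (a + j d)` (the point `v = a + j d - 1` of `Fin N` is in `ap N n a d`; `1 ≤ a`, `a + (n-1) d ≤ N`).  Conversely let `a, d`,
`1 ≤ d`, be such that every `a + j d`, `j < m`, is an entry with even index.  Then `1 ≤ a` and `a + (m-1) d ≤ N` (entries are in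
`[1, N]`, `m ≥ 1`), so `1 ≤ d ≤ N` as `m ≥ 2`, and `ap N m a d ∈ aps N m` is a subset of `E l`: contradiction to `Goal`.
*Uses*: DStrat, CStart, CStep, CEnd. -/
def DWinStmt : Prop :=
  ∀ (N n m k q : ℕ), (apSys N n m k q).Good → Wins N n m

/-- **DFin.** The theorem.

*Proof.*  `C = 2000`, `N₀ = fN (2^41)`.  *DPa*, *DPb*; `Good` for `apSys N n m k q` by *DF*, *DS* (`2n ≤ fN n ≤ N`; `Fintype.card (Fin N) = N`),
*DWin*.  `n ≤ log₂ N` as `2^n ≤ fN n ≤ N`; `log₂ N ≤ n + 57 + 13 L ≤ n + 2000 L` (`Nat.log_mono_right`, `Nat.log_pow`).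
*Uses*: DF, DS, DPa, DPb, DWin. -/
def DFinStmt : Prop :=
  ∃ C N₀ : ℕ, ∀ N ≥ N₀, ∃ n : ℕ, n ≤ Nat.log 2 N ∧ Nat.log 2 N ≤ n + C * Nat.log 2 n ∧
    Wins N n (n + C * Nat.log 2 n)

end VdWG
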